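import Pool.Agent.Lib.MP_a9ad87_al.Nec

namespace Pool.Agent.Lib.MP_a9ad87_al

open MvPolynomial Module Classical

lemma perm3 {σ : Type*} {x y z a b c : σ}
    (h : (Finsupp.single x 1 + Finsupp.single y 1 + Finsupp.single z 1 : σ →₀ ℕ) =
      Finsupp.single a 1 + Finsupp.single b 1 + Finsupp.single c 1) :
    (x = a ∧ y = b ∧ z = c) ∨ (x = a ∧ y = c ∧ z = b) ∨ (x = b ∧ y = a ∧ z = c) ∨
      (x = b ∧ y = c ∧ z = a) ∨ (x = c ∧ y = a ∧ z = b) ∨ (x = c ∧ y = b ∧ z = a) := by
  have hx := DFunLike.congr_fun h x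
  have hy := DFunLike.congr_fun h y
  have hz := DFunLike.congr_fun h z
  have ha := DFunLike.congr_fun h a
  have hb := DFunLike.congr_fun h b
  have hc := DFunLike.congr_fun h c
  simp only [Finsupp.add_apply, Finsupp.single_apply] at hx hy hz ha hb hc
  grind

lemma finrank_map_congr {k W W1 W2 : Type*} [Field k] [AddCommGroup W] [Module k W]
    [AddCommGroup W1] [Module k W1] [AddCommGroup W2] [Module k W2] (P : Submodule k W)
    [FiniteDimensional k P] (f : W →ₗ[k] W1) (g : W →ₗ[k] W2) (h : ∀ p ∈ P, f p = 0 ↔ g p = 0) :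
    finrank k (P.map f) = finrank k (P.map g) := by
  have h1 := (f.domRestrict P).finrank_range_add_finrank_ker
  have h2 := (g.domRestrict P).finrank_range_add_finrank_ker
  have h3 : LinearMap.ker (f.domRestrict P) = LinearMap.ker (g.domRestrict P) := by
    ext p; simpa using h p.1 p.2
  rw [LinearMap.range_domRestrict] at h1 h2
  rw [h3] at h1
  omega

variable (k : Type*) [Field k] {n : ℕ} {τ : Type*} (lab : Fin n → Fin n → Fin n → τ → Prop)

/-- the linear form dual to the cubic with label `j` -/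
noncomputable def ell (j : τ) : MvPolynomial (Fin n) k →ₗ[k] k :=
  (basisMonomials (Fin n) k).constr k fun m =>
    if ∃ x y z, m = Finsupp.single x 1 + Finsupp.single y 1 + Finsupp.single z 1 ∧ lab x y z j
    then 1 else 0

lemma ell_monomial (j : τ) (m : Fin n →₀ ℕ) (c : k) : ell k lab j (monomial m c) =
    c * if ∃ x y z, m = Finsupp.single x 1 + Finsupp.single y 1 + Finsupp.single z 1 ∧ lab x y z j
    then 1 else 0 := by
  have : (monomial m c : MvPolynomial (Fin n) k) = c • basisMonomials (Fin n) k m := by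
    simp [smul_monomial]
  rw [this, map_smul, ell, Basis.constr_basis, smul_eq_mul]

lemma ell_ne (j : τ) {p : MvPolynomial (Fin n) k} {i : ℕ} (hp : p.IsHomogeneous i) (hi : i ≠ 3) :
    ell k lab j p = 0 := by
  rw [p.as_sum, map_sum]
  refine Finset.sum_eq_zero fun m hm => ?_
  rw [ell_monomial, if_neg, mul_zero]
  rintro ⟨x, y, z, rfl, -⟩
  have := hp (mem_support_iff.1 hm)
  simp [map_add, Finsupp.weight_single] at this
  omega

lemma ell_XXX (h12 : ∀ x y z j, lab x y z j → lab y x z j) (h23 : ∀ x y z j, lab x y z j → lab x z y j)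
    (j : τ) (x y z : Fin n) :
    ell k lab j (X x * X y * X z) = if lab x y z j then 1 else 0 := by
  have : (X x * X y * X z : MvPolynomial (Fin n) k) =
      monomial (Finsupp.single x 1 + Finsupp.single y 1 + Finsupp.single z 1) 1 := by
    simp [X, monomial_mul]
  rw [this, ell_monomial, one_mul]
  congr 1
  apply propext
  constructor
  · rintro ⟨a, b, c, h, hl⟩
    rcases perm3 h with ⟨rfl, rfl, rfl⟩ | ⟨rfl, rfl, rfl⟩ | ⟨rfl, rfl, rfl⟩ | ⟨rfl, rfl, rfl⟩ |
      ⟨rfl, rfl, rfl⟩ | ⟨rfl, rfl, rfl⟩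
    · exact hl
    · exact h23 _ _ _ _ hl
    · exact h12 _ _ _ _ hl
    · exact h23 _ _ _ _ (h12 _ _ _ _ hl)
    · exact h12 _ _ _ _ (h23 _ _ _ _ hl)
    · exact h12 _ _ _ _ (h23 _ _ _ _ (h12 _ _ _ _ hl))
  · intro h; exact ⟨x, y, z, rfl, h⟩

/-- the annihilator ideal of the cubics -/
def ann : Ideal (MvPolynomial (Fin n) k) where
  carrier := {p | ∀ j q, ell k lab j (p * q) = 0}
  add_mem' := by
    intro a b ha hb j q
    rw [add_mul, map_add, ha j q, hb j q, add_zero]
  zero_mem' := by intro j q; simp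
  smul_mem' := by
    intro c p hp j q
    have := hp j (c * q)
    rwa [smul_eq_mul, mul_comm c p, mul_assoc]

lemma mem_ann {p : MvPolynomial (Fin n) k} : p ∈ ann k lab ↔ ∀ j q, ell k lab j (p * q) = 0 :=
  Iff.rfl

lemma mem_ann' {p : MvPolynomial (Fin n) k} :
    p ∈ ann k lab ↔ (∀ j, ell k lab j p = 0) ∧ ∀ x, p * X x ∈ ann k lab := by
  constructor
  · intro h
    exact ⟨fun j => by simpa using h j 1, fun x => Ideal.mul_mem_right _ _ h⟩
  · rintro ⟨h1, h2⟩ j q
    induction q using MvPolynomial.induction_on with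
    | C a => rw [mul_comm, C_mul', map_smul, h1, smul_zero]
    | add p q hp hq => rw [mul_add, map_add, hp, hq, add_zero]
    | mul_X q x _ =>
      have := h2 x j q
      rwa [mul_assoc, mul_comm (X x)] at this

lemma ann_high {p : MvPolynomial (Fin n) k} {i : ℕ} (hp : p.IsHomogeneous i) (hi : 3 < i) :
    p ∈ ann k lab := by
  intro j q
  induction q using MvPolynomial.induction_on' with
  | monomial m c => exact ell_ne k lab j (hp.mul (isHomogeneous_monomial c rfl)) (by omega)
  | add p q hp hq => rw [mul_add, map_add, hp, hq, add_zero]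

lemma ell_comp (j : τ) (p q : MvPolynomial (Fin n) k) {i d : ℕ} (hq : q.IsHomogeneous d)
    (h : i + d = 3) : ell k lab j (homogeneousComponent i p * q) = ell k lab j (p * q) := by
  conv_rhs => rw [← sum_homogeneousComponent p, Finset.sum_mul, map_sum]
  symm
  apply Finset.sum_eq_single i
  · intro b _ hb
    exact ell_ne k lab j ((homogeneousComponent_isHomogeneous b p).mul hq) (by omega)
  · intro hi
    rw [homogeneousComponent_eq_zero i p (by simpa using hi)]; simp

lemma ann_hom (p : MvPolynomial (Fin n) k) (hp : p ∈ ann k lab) (i : ℕ) :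
    homogeneousComponent i p ∈ ann k lab := by
  intro j q
  induction q using MvPolynomial.induction_on' with
  | monomial m c =>
    by_cases h : i + m.degree = 3
    · rw [ell_comp k lab j p _ (isHomogeneous_monomial c rfl) h]; exact hp j _
    · exact ell_ne k lab j
        ((homogeneousComponent_isHomogeneous i p).mul (isHomogeneous_monomial c rfl)) h
  | add p q hp hq => rw [mul_add, map_add, hp, hq, add_zero]

lemma ann_three {p : MvPolynomial (Fin n) k} (hp : p.IsHomogeneous 3) :
    p ∈ ann k lab ↔ ∀ j, ell k lab j p = 0 := by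
  rw [mem_ann']
  exact ⟨fun h => h.1, fun h => ⟨h, fun x =>
    ann_high k lab (hp.mul (isHomogeneous_X k x)) (by norm_num)⟩⟩

lemma ann_two {p : MvPolynomial (Fin n) k} (hp : p.IsHomogeneous 2) :
    p ∈ ann k lab ↔ ∀ x j, ell k lab j (p * X x) = 0 := by
  rw [mem_ann']
  simp only [fun x => ann_three k lab (hp.mul (isHomogeneous_X k x))]
  exact ⟨fun h => h.2, fun h => ⟨fun j => ell_ne k lab j hp (by norm_num), h⟩⟩

lemma ann_one {p : MvPolynomial (Fin n) k} (hp : p.IsHomogeneous 1) :
    p ∈ ann k lab ↔ ∀ x y j, ell k lab j (p * X x * X y) = 0 := by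
  rw [mem_ann']
  simp only [fun x => ann_two k lab (hp.mul (isHomogeneous_X k x))]
  exact ⟨fun h => h.2, fun h => ⟨fun j => ell_ne k lab j hp (by norm_num), h⟩⟩

lemma ann_socle (a : MvPolynomial (Fin n) k ⧸ ann k lab) :
    (∀ j, a * Ideal.Quotient.mk (ann k lab) (X j) = 0) ↔ a ∈ piece k (ann k lab) 3 := by
  obtain ⟨p, rfl⟩ := Ideal.Quotient.mk_surjective a
  simp only [← map_mul, Ideal.Quotient.eq_zero_iff_mem]
  constructor
  · intro h
    refine (mem_piece _).2 ⟨homogeneousComponent 3 p, homogeneousComponent_isHomogeneous 3 p, ?_⟩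
    rw [Ideal.Quotient.eq, mem_ann']
    refine ⟨fun j => ?_, fun x => ?_⟩
    · have := ell_comp k lab j p 1 (isHomogeneous_one (Fin n) k) (i := 3) rfl
      rw [map_sub]; simpa [sub_eq_zero] using this
    · rw [sub_mul]
      exact Ideal.sub_mem _ (ann_high k lab
        ((homogeneousComponent_isHomogeneous 3 p).mul (isHomogeneous_X k x)) (by norm_num)) (h x)
  · intro h x
    obtain ⟨q, hq, h⟩ := (mem_piece _).1 h
    have h1 : p - q ∈ ann k lab := Ideal.Quotient.eq.1 h.symm
    have : p * X x = (p - q) * X x + q * X x := by ring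
    rw [this]
    exact Ideal.add_mem _ (Ideal.mul_mem_right _ _ h1)
      (ann_high k lab (hq.mul (isHomogeneous_X k x)) (by norm_num))

/-- combinatorial data for a family of cubics with zero-one coefficients -/
structure Dat (σ τ ι : Type) where
  lab : σ → σ → σ → τ → Prop
  S : ι → σ → σ → Prop
  T : σ → τ → ι → Prop
  prim : ι → Prop
  h12 : ∀ x y z j, lab x y z j → lab y x z j
  h23 : ∀ x y z j, lab x y z j → lab x z y j
  ne : ∀ β, ∃ x y, S β x y
  disj : ∀ β β' x y, S β x y → S β' x y → β = β'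
  cov : ∀ x y z j, lab x y z j ↔ ∃ β, T z j β ∧ S β x y
  gen1 : ∀ β, prim β → ∃ z j, ∀ β', T z j β' ↔ β' = β
  gen2 : ∀ β, ∃ z j, T z j β ∧ ∀ β', T z j β' → β' = β ∨ prim β'
  h4 : ∀ j, ∃ x y z, lab x y z j ∧ ∀ j', lab x y z j' → j' = j
  h5 : ∀ z, ∃ x y j, lab x y z j ∧ ∀ z', lab x y z' j → z' = z

/-- transport along a bijection of the variables -/
def Dat.trans {σ σ' τ ι : Type} (D : Dat σ τ ι) (e : σ' ≃ σ) : Dat σ' τ ι where
  lab x y z j := D.lab (e x) (e y) (e z) j
  S β x y := D.S β (e x) (e y)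
  T z j β := D.T (e z) j β
  prim := D.prim
  h12 _ _ _ _ := D.h12 _ _ _ _
  h23 _ _ _ _ := D.h23 _ _ _ _
  ne β := by
    obtain ⟨x, y, h⟩ := D.ne β
    exact ⟨e.symm x, e.symm y, by simpa using h⟩
  disj _ _ _ _ := D.disj _ _ _ _
  cov _ _ _ _ := D.cov _ _ _ _
  gen1 β hβ := by
    obtain ⟨z, j, h⟩ := D.gen1 β hβ
    exact ⟨e.symm z, j, by simpa using h⟩
  gen2 β := by
    obtain ⟨z, j, h⟩ := D.gen2 β
    exact ⟨e.symm z, j, by simpa using h⟩
  h4 j := by
    obtain ⟨x, y, z, h⟩ := D.h4 j
    exact ⟨e.symm x, e.symm y, e.symm z, by simpa using h⟩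
  h5 z := by
    obtain ⟨x, y, j, h, h'⟩ := D.h5 (e z)
    refine ⟨e.symm x, e.symm y, j, by simpa using h, fun z' hz' => e.injective (h' _ ?_)⟩
    simpa using hz'

lemma li_of_wit {α γ : Type*} (v : α → γ → Prop)
    (h : ∀ a, ∃ c, v a c ∧ ∀ a', v a' c → a' = a) :
    LinearIndependent k fun a c => if v a c then (1 : k) else 0 := by
  rw [linearIndependent_iff']
  intro s g hg a ha
  obtain ⟨c, h1, h2⟩ := h a
  have := congrFun hg c
  rw [Finset.sum_apply, Finset.sum_eq_single a] at this
  · simpa [h1] using this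
  · intro b _ hb
    have : ¬ v b c := fun h => hb (h2 b h)
    simp [this]
  · intro h; exact absurd ha h

lemma Dat.rank {σ τ ι : Type} [Fintype σ] [Fintype τ] [Fintype ι] (D : Dat σ τ ι) :
    finrank k (Submodule.span k (Set.range fun p : σ × σ => fun c : σ × τ =>
      if D.lab p.1 p.2 c.1 c.2 then (1 : k) else 0)) = Fintype.card ι := by
  let A : Matrix (σ × σ) (σ × τ) k := Matrix.of fun p c =>
    if D.lab p.1 p.2 c.1 c.2 then (1 : k) else 0
  have h1 := A.rank_eq_finrank_span_row
  have h2 := A.rank_eq_finrank_span_cols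
  let s : ι → σ × σ → k := fun β p => if D.S β p.1 p.2 then 1 else 0
  have hs : LinearIndependent k s := li_of_wit k (fun β (p : σ × σ) => D.S β p.1 p.2) fun β => by
    obtain ⟨x, y, h⟩ := D.ne β
    exact ⟨(x, y), h, fun β' h' => D.disj _ _ _ _ h' h⟩
  have hcol : ∀ c : σ × τ, A.col c = ∑ β with D.T c.1 c.2 β, s β := by
    intro c
    funext p
    simp only [A, Matrix.col_apply, Matrix.of_apply, Finset.sum_apply, s]
    by_cases h : D.lab p.1 p.2 c.1 c.2
    · obtain ⟨β, a1, a2⟩ := (D.cov _ _ _ _).1 h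
      rw [if_pos h, Finset.sum_eq_single β, if_pos a2]
      · intro b _ hb
        exact if_neg fun h => hb (D.disj _ _ _ _ h a2)
      · intro h; simp [a1] at h
    · rw [if_neg h]
      symm
      refine Finset.sum_eq_zero fun β hβ => if_neg fun h' => h ((D.cov _ _ _ _).2 ⟨β, ?_, h'⟩)
      simpa using hβ
  have h3 : Submodule.span k (Set.range A.col) = Submodule.span k (Set.range s) := by
    apply le_antisymm
    · rw [Submodule.span_le]
      rintro _ ⟨c, rfl⟩
      rw [hcol]
      exact Submodule.sum_mem _ fun β _ => Submodule.subset_span ⟨β, rfl⟩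
    · rw [Submodule.span_le]
      have hp : ∀ β, D.prim β → s β ∈ Submodule.span k (Set.range A.col) := by
        intro β hβ
        obtain ⟨z, j, h⟩ := D.gen1 β hβ
        refine Submodule.subset_span ⟨(z, j), ?_⟩
        rw [hcol]
        refine Finset.sum_eq_single β (fun b hb hb' => ?_) fun hb => ?_
        · exact absurd ((h b).1 (by simpa using hb)) hb'
        · exact absurd (by simpa using (h β).2 rfl) hb
      rintro _ ⟨β, rfl⟩
      obtain ⟨z, j, h, h'⟩ := D.gen2 β
      have e := hcol (z, j)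
      rw [← Finset.add_sum_erase _ _ (a := β) (by simpa using h)] at e
      rw [SetLike.mem_coe, ← sub_eq_iff_eq_add.2 e]
      refine Submodule.sub_mem _ (Submodule.subset_span ⟨(z, j), rfl⟩)
        (Submodule.sum_mem _ fun b hb => ?_)
      simp only [Finset.mem_erase, Finset.mem_filter, Finset.mem_univ, true_and] at hb
      exact hp b ((h' b hb.2).resolve_left hb.1)
  rw [h3, finrank_span_eq_card hs] at h2
  exact h1.symm.trans h2

theorem Dat.level {τ ι : Type} [Fintype τ] [Fintype ι] [Nonempty τ] (D : Dat (Fin n) τ ι) :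
    IsLevel k [1, n, Fintype.card ι, Fintype.card τ] := by
  have hX := ell_XXX k D.lab D.h12 D.h23
  refine ⟨n, ann k D.lab, ann_hom k D.lab, ?_, ann_socle k D.lab⟩
  have hfin : ∀ i, FiniteDimensional k (homogeneousSubmodule (Fin n) k i) := fun i =>
    Module.Finite.iff_fg.2 (homogeneousSubmodule_fg (Fin n) k i)
  have hmk : ∀ p, (Ideal.Quotient.mkₐ k (ann k D.lab)).toLinearMap p = 0 ↔ p ∈ ann k D.lab :=
    fun p => Ideal.Quotient.eq_zero_iff_mem
  intro i
  match i with
  | 0 =>
    have h1 : piece k (ann k D.lab) 0 = Submodule.span k {1} := by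
      rw [piece, homogeneousSubmodule_zero, Submodule.one_eq_span, Submodule.map_span]
      simp
    rw [h1, finrank_span_singleton]
    · rfl
    · intro h
      have h2 : (1 : MvPolynomial (Fin n) k) ∈ ann k D.lab :=
        Ideal.Quotient.eq_zero_iff_mem.1 (by simpa using h)
      obtain ⟨j⟩ := ‹Nonempty τ›
      obtain ⟨x, y, z, h3, -⟩ := D.h4 j
      have := h2 j (X x * X y * X z)
      rw [one_mul, hX, if_pos h3] at this
      exact one_ne_zero this
  | 1 =>
    let E : MvPolynomial (Fin n) k →ₗ[k] (Fin n × Fin n × τ → k) := LinearMap.pi fun c =>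
      ell k D.lab c.2.2 ∘ₗ LinearMap.mulRight k (X c.1 * X c.2.1)
    rw [piece, finrank_map_congr _ _ E, homogeneousSubmodule_one_eq_span_X, Submodule.map_span,
      ← Set.range_comp]
    · have : (E ∘ X : Fin n → _) = fun z c => if D.lab c.1 c.2.1 z c.2.2 then (1 : k) else 0 := by
        funext z c
        simp only [E, Function.comp, LinearMap.pi_apply, LinearMap.comp_apply,
          LinearMap.mulRight_apply]
        rw [mul_comm, hX]
      rw [this, finrank_span_eq_card (li_of_wit k _ fun z => by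
        obtain ⟨x, y, j, h⟩ := D.h5 z
        exact ⟨(x, y, j), h⟩)]
      simp
    · intro p hp
      rw [hmk, ann_one k D.lab hp]
      simp [E, funext_iff, mul_assoc]
  | 2 =>
    let E : MvPolynomial (Fin n) k →ₗ[k] (Fin n × τ → k) := LinearMap.pi fun c =>
      ell k D.lab c.2 ∘ₗ LinearMap.mulRight k (X c.1)
    have h2 : homogeneousSubmodule (Fin n) k 2 =
        Submodule.span k (Set.range fun p : Fin n × Fin n => X p.1 * X p.2) := by
      rw [← homogeneousSubmodule_one_pow, pow_two, homogeneousSubmodule_one_eq_span_X,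
        Submodule.span_mul_span]
      congr 1
      ext q
      simp [Set.mem_mul]
    rw [piece, finrank_map_congr _ _ E, h2, Submodule.map_span, ← Set.range_comp]
    · have : (E ∘ fun p : Fin n × Fin n => X p.1 * X p.2) = fun p c =>
          if D.lab p.1 p.2 c.1 c.2 then (1 : k) else 0 := by
        funext p c
        simp only [E, Function.comp, LinearMap.pi_apply, LinearMap.comp_apply,
          LinearMap.mulRight_apply]
        rw [hX]
      rw [this, D.rank k]
      rfl
    · intro p hp
      rw [hmk, ann_two k D.lab hp]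
      simp [E, funext_iff]
  | 3 =>
    let E : MvPolynomial (Fin n) k →ₗ[k] (τ → k) := LinearMap.pi fun j => ell k D.lab j
    rw [piece, finrank_map_congr _ _ E]
    · have : (homogeneousSubmodule (Fin n) k 3).map E = ⊤ := by
        rw [eq_top_iff, ← (Pi.basisFun k τ).span_eq, Submodule.span_le]
        rintro _ ⟨j, rfl⟩
        obtain ⟨x, y, z, h, h'⟩ := D.h4 j
        refine ⟨X x * X y * X z,
          ((isHomogeneous_X k x).mul (isHomogeneous_X k y)).mul (isHomogeneous_X k z), ?_⟩
        funext j'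
        simp only [E, LinearMap.pi_apply, hX, Pi.basisFun_apply, Pi.single_apply]
        by_cases hj : j' = j
        · simp [hj, h]
        · rw [if_neg hj, if_neg fun h => hj (h' _ h)]
      rw [this]; simp
    · intro p hp
      rw [hmk, ann_three k D.lab hp]
      simp [E, funext_iff]
  | i + 4 =>
    have : piece k (ann k D.lab) (i + 4) = ⊥ := by
      rw [eq_bot_iff]
      intro a ha
      obtain ⟨p, hp, rfl⟩ := (mem_piece _).1 ha
      exact Ideal.Quotient.eq_zero_iff_mem.2 (ann_high k D.lab hp (by omega))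
    rw [this]; simp

/-- `(1, r, a, t)` has a zero-one model -/
def Real3 (r a t : ℕ) : Prop :=
  ∃ (σ τ ι : Type) (_ : Fintype σ) (_ : Fintype τ) (_ : Fintype ι),
    Fintype.card σ = r ∧ Fintype.card ι = a ∧ Fintype.card τ = t ∧ Nonempty (Dat σ τ ι)

theorem Real3.level {r a t : ℕ} (h : Real3 r a t) (ht : 0 < t) : IsLevel k [1, r, a, t] := by
  obtain ⟨σ, τ, ι, _, _, _, rfl, rfl, rfl, ⟨D⟩⟩ := h
  have : Nonempty τ := Fintype.card_pos_iff.1 ht
  exact (D.trans (Fintype.equivFin σ).symm).level k

end Pool.Agent.Lib.MP_a9ad87_al
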