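import Pool.Agent.Lib.MP_a9ad87_al.ChFF

namespace Pool.Agent.Lib.MP_a9ad87_al.Ch

open Module Algebra

lemma val_int {K F : Type*} [Field K] [Field F] [Algebra K F] (O : Subalgebra K F)
    (h : ∀ φ : F, φ ∈ O ∨ φ⁻¹ ∈ O) {φ : F} (hφ : IsIntegral O φ) : φ ∈ O := by
  let A : ValuationSubring F := ⟨O.toSubring, h⟩
  have hv : A.valuation.Integers O :=
    ⟨Subtype.val_injective, fun x => (A.valuation_le_one_iff x.1).2 x.2,
      fun r hr => ⟨⟨r, (A.valuation_le_one_iff r).1 hr⟩, rfl⟩⟩
  exact (A.valuation_le_one_iff φ).1 (hv.mem_of_integral hφ)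

section
variable {O F L ι : Type*} [CommRing O] [Field F] [Field L] [Algebra O F] [Algebra F L]
  [Algebra O L] [IsScalarTower O F L] [FiniteDimensional F L] [Algebra.IsSeparable F L]
  [Fintype ι] [DecidableEq ι]

lemma repr_int (z : Basis ι F L) (hz : ∀ a, IsIntegral O (z a))
    (hd : IsIntegral O (discr F z)⁻¹) {w : L} (hw : ∀ a, IsIntegral O (trace F L (w * z a))) (i : ι) :
    IsIntegral O (z.repr w i) := by
  have h0 : (traceMatrix F z).det ≠ 0 := discr_not_zero_of_basis F z
  have c := Matrix.mulVec_cramer (traceMatrix F z) fun i => trace F L (w * z i)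
  rw [← traceMatrix_of_basis_mulVec, ← Matrix.mulVec_smul] at c
  have c2 := congrFun (Matrix.mulVec_injective_iff_isUnit.2
    ((Matrix.isUnit_iff_isUnit_det _).2 (Ne.isUnit h0)) c) i
  rw [traceMatrix_of_basis_mulVec, Matrix.cramer_apply, Pi.smul_apply, smul_eq_mul,
    Basis.equivFun_apply] at c2
  have e : z.repr w i = (discr F z)⁻¹ * ((traceMatrix F z).updateCol i
      fun i => trace F L (w * z i)).det := by
    rw [c2, discr_def, inv_mul_cancel_left₀ h0]
  rw [e]
  refine hd.mul (IsIntegral.det fun a b => ?_)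
  rw [Matrix.updateCol_apply]
  split_ifs
  · exact hw a
  · exact isIntegral_trace ((hz a).mul (hz b))

lemma der_int {K : Type*} [CommRing K] [Algebra K L] (z : Basis ι F L)
    (hz : ∀ a, IsIntegral O (z a)) (hd : IsIntegral O (discr F z)⁻¹) (δ : Derivation K L L)
    (hδ : ∀ φ : F, IsIntegral O φ → IsIntegral O (δ (algebraMap F L φ))) {y : L}
    (hy : IsIntegral O y) : IsIntegral O (δ y) := by
  have h1 : ∀ a, IsIntegral O (z.traceDual a) := fun a => by
    rw [← z.sum_repr (z.traceDual a)]
    refine IsIntegral.sum _ fun b _ => ?_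
    rw [Algebra.smul_def]
    refine (repr_int z hz hd (fun c => ?_) b).algebraMap.mul (hz b)
    rw [Basis.trace_traceDual_mul]
    split_ifs
    exacts [isIntegral_one, isIntegral_zero]
  have h2 : ∀ w a, z.repr w a = trace F L (w * z.traceDual a) := fun w a => by
    conv_lhs => rw [← z.traceDual_traceDual, Basis.traceDual_repr_apply, traceForm_apply]
  have h3 : ∑ a, z a * z.traceDual a = 1 := by
    apply z.traceDual.repr.injective
    ext c
    rw [Basis.traceDual_repr_apply, Basis.traceDual_repr_apply, traceForm_apply, traceForm_apply,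
      one_mul, Finset.sum_mul, map_sum, trace_eq_matrix_trace z, Matrix.trace]
    refine Finset.sum_congr rfl fun a _ => ?_
    rw [Matrix.diag_apply, leftMulMatrix_eq_repr_mul, h2]
    congr 1; ring
  have h4 : ∀ b, ∑ a, algebraMap F L (z.repr (y * z a) b) * z.traceDual a = y * z.traceDual b :=
    fun b => by
      conv_rhs => rw [← z.traceDual.sum_repr (y * z.traceDual b)]
      refine Finset.sum_congr rfl fun a _ => ?_
      rw [Basis.traceDual_repr_apply, traceForm_apply, h2, Algebra.smul_def, mul_right_comm]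
  have h5 : ∀ a, δ y * z a + y * δ (z a) = ∑ b, (δ (algebraMap F L (z.repr (y * z a) b)) * z b +
      algebraMap F L (z.repr (y * z a) b) * δ (z b)) := fun a => by
    have := congrArg δ (z.sum_repr (y * z a))
    simp only [map_sum, Algebra.smul_def, Derivation.leibniz, Algebra.algebraMap_self,
      RingHom.id_apply] at this
    rw [add_comm, mul_comm (δ y), ← this]
    exact Finset.sum_congr rfl fun b _ => by ring
  have h6 : δ y = ∑ a, ∑ b, δ (algebraMap F L (z.repr (y * z a) b)) * z b * z.traceDual a := by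
    have e1 : ∑ a, (δ y * z a + y * δ (z a)) * z.traceDual a =
        δ y + ∑ b, y * z.traceDual b * δ (z b) := by
      simp only [add_mul, Finset.sum_add_distrib, mul_assoc, ← Finset.mul_sum, h3, mul_one]
      congr 2
      exact Finset.sum_congr rfl fun b _ => mul_comm _ _
    simp only [h5, Finset.sum_mul, add_mul, Finset.sum_add_distrib] at e1
    rw [Finset.sum_comm (f := fun a b => algebraMap F L (z.repr (y * z a) b) * δ (z b) *
      z.traceDual a)] at e1
    simp only [← h4, Finset.sum_mul, mul_right_comm _ (δ _)] at e1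
    exact (add_right_cancel e1).symm
  rw [h6]
  refine IsIntegral.sum _ fun a _ => IsIntegral.sum _ fun b _ => ((hδ _ ?_).mul (hz b)).mul (h1 a)
  exact repr_int z hz hd (fun c => isIntegral_trace ((hy.mul (hz a)).mul (hz c))) b

end

lemma exists_der {K L : Type*} [Field K] [Field L] [Algebra (FF K) L] [Algebra K L]
    [IsScalarTower K (FF K) L] [Algebra.IsSeparable (FF K) L] (i : Fin 3) :
    ∃ δ : Derivation K L L, ∀ j : Fin 4, δ (algebraMap (FF K) L (xx K j)) =
      if j = i.succ then 1 else 0 := by
  let : Algebra (MvPolynomial (Fin 3) K) L :=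
    ((algebraMap (FF K) L).comp (algebraMap (MvPolynomial (Fin 3) K) (FF K))).toAlgebra
  have : IsScalarTower (MvPolynomial (Fin 3) K) (FF K) L := IsScalarTower.of_algebraMap_eq' rfl
  have : IsScalarTower K (MvPolynomial (Fin 3) K) L := IsScalarTower.of_algebraMap_eq fun c => by
    rw [IsScalarTower.algebraMap_apply K (FF K) L,
      IsScalarTower.algebraMap_apply K (MvPolynomial (Fin 3) K) (FF K)]; rfl
  have h1 := FormallyEtale.of_isLocalization (Rₘ := FF K) (nonZeroDivisors (MvPolynomial (Fin 3) K))
  have h2 := FormallyEtale.of_isSeparable (FF K) L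
  have h3 := FormallyEtale.comp (MvPolynomial (Fin 3) K) (FF K) L
  let d : Derivation K (MvPolynomial (Fin 3) K) L :=
    (Algebra.linearMap (MvPolynomial (Fin 3) K) L).compDer (MvPolynomial.pderiv i)
  let f := (d.liftKaehlerDifferential.liftBaseChange L) ∘ₗ
    (KaehlerDifferential.tensorKaehlerEquivOfFormallyEtale K (MvPolynomial (Fin 3) K) L).symm.toLinearMap
  refine ⟨f.compDer (KaehlerDifferential.D K L), fun j => ?_⟩
  have e : f.compDer (KaehlerDifferential.D K L) (algebraMap (MvPolynomial (Fin 3) K) L (x3 K j)) =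
      d (x3 K j) := by
    simp [f, KaehlerDifferential.tensorKaehlerEquivOfFormallyEtale_symm_D_algebraMap]
  refine e.trans ?_
  refine Fin.cases ?_ (fun j => ?_) j
  · simp [x3, (Fin.succ_ne_zero i).symm]
  · by_cases h : j = i
    · simp [x3, d, h]
    · simp [x3, d, h, MvPolynomial.pderiv_X_of_ne h]

end Pool.Agent.Lib.MP_a9ad87_al.Ch
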