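import Pool.Agent.Lib.MP_a9ad87_al.ChNorm

namespace Pool.Agent.Lib.MP_a9ad87_al.Ch

open Module Submodule

variable {K F B : Type*} [Field K] [Field F] [Algebra K F] [CommRing B] [Algebra F B]
    [Algebra K B] [IsScalarTower K F B]

lemma lin_alg (L : B →ₗ[F] F) (u : F) (r : B) : L (algebraMap F B u * r) = u * L r := by
  rw [← Algebra.smul_def, map_smul, smul_eq_mul]

lemma lin_k (L : B →ₗ[F] F) (c : K) (r : B) : L (c • r) = c • L r := L.map_smul_of_tower c r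

lemma ksm (c : K) (r : B) : c • r = algebraMap F B (algebraMap K F c) * r := by
  rw [← IsScalarTower.algebraMap_apply, Algebra.smul_def]

instance fin_pair {M : Type*} [AddCommGroup M] [Module K M] (a b : M) :
    FiniteDimensional K (span K {a, b}) := FiniteDimensional.span_of_finite K (Set.toFinite _)

lemma finrank_span_pair_le {M : Type*} [AddCommGroup M] [Module K M] (a b : M) :
    finrank K (span K {a, b}) ≤ 2 := by
  rw [span_insert]
  refine (Submodule.finrank_add_le_finrank_add_finrank _ _).trans ?_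
  have h : ∀ c : M, finrank K (K ∙ c) ≤ 1 := fun c => by
    by_cases hc : c = 0
    · rw [hc, span_zero_singleton, finrank_bot]; omega
    · rw [finrank_span_singleton hc]
  have := h a; have := h b; omega

lemma finrank_sing_le {M : Type*} [AddCommGroup M] [Module K M] (c : M) :
    finrank K (K ∙ c) ≤ 1 := by
  by_cases hc : c = 0
  · rw [hc, span_zero_singleton, finrank_bot]; omega
  · rw [finrank_span_singleton hc]

lemma ind2_of_le {M : Type*} [AddCommGroup M] [Module K M] {W : Submodule K M} {a b : M}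
    (h : W ≤ span K {a, b}) (h2 : 2 ≤ finrank K W) : Ind2 K a b := by
  have h3 := Submodule.finrank_mono h
  have key : ∀ u v : M, span K {u, v} = span K {a, b} → v ∉ K ∙ u := fun u v e hv => by
    have : span K {a, b} ≤ K ∙ u := by
      rw [← e, span_insert]; exact sup_le le_rfl ((span_singleton_le_iff_mem _ _).2 hv)
    have := Submodule.finrank_mono this
    have := finrank_sing_le (K := K) u
    omega
  refine ind2_of (fun h0 => key b a (by rw [Set.pair_comm]) ?_) (key a b rfl)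
  rw [h0]; exact zero_mem _

lemma pow_le_sup {Λ : Type*} [CommRing Λ] [Algebra K Λ] {V W H : Submodule K Λ} (h : V ≤ W ⊔ H)
    (hW : W ≤ V) (i : ℕ) : V ^ (i + 1) ≤ W ^ (i + 1) ⊔ H * V ^ i := by
  induction i with
  | zero => simpa using h
  | succ i ih =>
    calc V ^ (i + 1 + 1) = V * V ^ (i + 1) := pow_succ' _ _
      _ ≤ (W ⊔ H) * V ^ (i + 1) := mul_le_mul' h le_rfl
      _ = W * V ^ (i + 1) ⊔ H * V ^ (i + 1) := Submodule.sup_mul _ _ _
      _ ≤ _ := by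
        refine sup_le ((mul_le_mul' le_rfl ih).trans ?_) le_sup_right
        rw [Submodule.mul_sup, ← pow_succ', mul_left_comm]
        refine sup_le_sup_left (mul_le_mul' le_rfl ?_) _
        rw [pow_succ']; exact mul_le_mul' hW le_rfl

lemma macV {Λ : Type*} [CommRing Λ] [Algebra K Λ] {V H : Submodule K Λ} [FiniteDimensional K V]
    (hH : H ≤ V) {n k : ℕ} (hn : finrank K V = n + finrank K H)
    (h2 : finrank K (V ^ 2 : Submodule K Λ) + k ≤ (n + 1).choose 2 +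
      finrank K (H * V ^ 1 : Submodule K Λ)) :
    finrank K (V ^ 3 : Submodule K Λ) + k * n ≤ (n + 2).choose 3 + k.choose 2 +
      finrank K (H * V ^ 2 : Submodule K Λ) := by
  have : FiniteDimensional K H := Submodule.finiteDimensional_of_le hH
  obtain ⟨Z, hZ⟩ := (H.comap V.subtype).exists_isCompl
  have h3 := Submodule.finrank_add_eq_of_isCompl hZ
  rw [← Submodule.finrank_map_subtype_eq V (H.comap V.subtype), Submodule.map_comap_subtype,
    inf_eq_right.2 hH] at h3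
  have : Module.Free K Z := Module.Free.of_divisionRing K Z
  let bz := Module.finBasisOfFinrankEq K Z (n := n) (by omega)
  let z : Fin n → Λ := fun i => ((bz i : V) : Λ)
  have hz : span K (Set.range z) = Z.map V.subtype := by
    have := congrArg (Submodule.map (V.subtype ∘ₗ Z.subtype)) bz.span_eq
    rwa [Submodule.map_span, ← Set.range_comp, Submodule.map_comp, Submodule.map_subtype_top] at this
  have hW : span K (Set.range z) ≤ V := by rw [hz]; exact Submodule.map_subtype_le _ _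
  have hV : V ≤ span K (Set.range z) ⊔ H := by
    rw [hz]
    conv_lhs => rw [← Submodule.map_subtype_top V, ← hZ.sup_eq_top, Submodule.map_sup,
      Submodule.map_comap_subtype, inf_eq_right.2 hH, sup_comm]
  have key : ∀ i, finrank K (V ^ (i + 1) : Submodule K Λ) =
      finrank K ((span K (Set.range z) ^ (i + 1)).map (H * V ^ i).mkQ) +
        finrank K (H * V ^ i : Submodule K Λ) := fun i => by
    have e1 : (V ^ (i + 1)).map (H * V ^ i).mkQ =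
        (span K (Set.range z) ^ (i + 1)).map (H * V ^ i).mkQ := by
      apply le_antisymm _ (Submodule.map_mono (pow_le_pow_left' hW _))
      refine (Submodule.map_mono (pow_le_sup hV hW i)).trans ?_
      rw [Submodule.map_sup, Submodule.mkQ_map_self, sup_bot_eq]
    have e2 : V ^ (i + 1) ⊓ LinearMap.ker (H * V ^ i).mkQ = H * V ^ i := by
      rw [Submodule.ker_mkQ, inf_eq_right, pow_succ']; exact mul_le_mul' hH le_rfl
    rw [finrank_map_add _ (H * V ^ i).mkQ, e1, e2]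
  have := mac z (H * V ^ 1) (H * V ^ 2) (k := k) (fun a r hr => by
    have := mul_mem_mul (hW (subset_span ⟨a, rfl⟩)) hr
    rwa [mul_left_comm, ← pow_succ'] at this) (by have := key 1; simp only [Nat.reduceAdd] at this; omega)
  have e3 := key 2
  simp only [Nat.reduceAdd] at e3
  omega

namespace AS
variable {D : AS K F B}

lemma alg_mul {i j : ℕ} {u : F} {r : B} (hu : u ∈ D.U ^ i) (hr : r ∈ D.V ^ j) :
    algebraMap F B u * r ∈ D.V ^ (i + j) := mul_pow_mem (D.le_pow hu) hr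

variable (D) in
def U' : Submodule K B := (UU K D.x).map (IsScalarTower.toAlgHom K F B).toLinearMap

lemma mem_U' {u : F} (hu : u ∈ D.U) : algebraMap F B u ∈ D.U' := ⟨u, hu, rfl⟩

lemma U'_le : D.U' ≤ D.V := by rintro _ ⟨u, hu, rfl⟩; exact D.le u hu

instance : FiniteDimensional K D.U' := Submodule.finiteDimensional_of_le U'_le

lemma dim_line {r : B} (hr : r ≠ 0) (X : Submodule K F) :
    finrank K (X.map ((LinearMap.toSpanSingleton F B r).restrictScalars K)) = finrank K X :=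
  (LinearEquiv.finrank_eq (Submodule.equivMapOfInjective _ (fun _ _ e =>
    smul_left_injective F hr e) X)).symm

end AS

namespace MG
variable {D : MG K F B} {κ : F → F → F} {a b c d : F}

lemma NM.G_eq (N : NM D κ) (h : D.Od a b c d) (hab : a ≠ b) (r : B) :
    D.G κ a b r = D.ev b r - D.ev a r := by
  have e := h.G_ne (κ := κ) r
  rw [N.eq a b hab] at e
  exact mul_left_cancel₀ (sub_ne_zero.2 hab.symm) e

lemma NM.L2_eq (N : NM D κ) (h : D.Od a b c d) (hac : a ≠ c) (hbc : b ≠ c) {r : B}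
    (hr : r ∈ D.J2 a b) : D.L2 κ a b c r = D.ev c r := by
  obtain ⟨q, rfl⟩ := mem_J2.1 hr
  rw [h.L2_t, N.eq a c hac, N.eq b c hbc, map_mul, map_mul, h.rc.ev_t, h.rc.ev_t]

lemma NM.L3_eq (N : NM D κ) (h : D.Od a b c d) (had : a ≠ d) (hbd : b ≠ d) (hcd : c ≠ d) {r : B}
    (hr : r ∈ D.J3 a b c) : D.L3 κ a b c d r = D.ev d r := by
  obtain ⟨q, rfl⟩ := mem_J3.1 hr
  rw [h.L3_t, N.eq a d had, N.eq b d hbd, N.eq c d hcd, map_mul, map_mul, map_mul, h.rd.ev_t,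
    h.rd.ev_t, h.rd.ev_t]

lemma NM.L3_L2 (N : NM D κ) (h : D.Od a b c d) (hcd : c ≠ d) {r : B}
    (hr : r ∈ D.J3 a b c) : D.L3 κ a b c d r = D.L2 κ a b d r := by
  obtain ⟨q, rfl⟩ := mem_J3.1 hr
  rw [h.L3_t, N.eq c d hcd, mul_assoc (D.t a * D.t b), h.s23.L2_t, map_mul, h.rd.ev_t]; ring

lemma M1_one : D.M1 κ a b 1 = D.W κ a b := by rw [M1, pow_one]; rfl

lemma NM.dimW (N : NM D κ) (h : D.Od a b c d) :
    finrank K (D.W κ a b) + finrank K (D.V ⊓ D.J2 a b : Submodule K B) = 3 := by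
  have := h.dim1 N.ne 1
  rw [pow_one, D.h1, M1_one, show s 1 = 4 from rfl] at this
  omega

lemma NM.no_df (N : NM D κ) (h : D.Od a b c d) {X : Submodule K F} {k : ℕ}
    (hX : X ≤ D.M3 κ a b c d k) : ¬ df D.x X k 1 := by
  rintro ⟨-, C', hC'⟩
  obtain ⟨C, hC⟩ := D.hb
  obtain ⟨j, hj, e1⟩ := h.ss3 (k + C + 4 * C' + 1)
  obtain ⟨j, rfl⟩ : ∃ i, j = k + i := ⟨j - k, by omega⟩
  rw [h.dim3 N.ne] at e1
  have e2 := hC' j
  have e3 := Submodule.finrank_mono ((mul_le_mul' hX (le_refl (D.U ^ j))).trans M3_cl)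
  have e4 := (hC (k + j)).2
  rw [add_comm j k] at e2
  unfold AS.U at e3
  omega

lemma NM.t1 (N : NM D κ) (h : D.Od a b c d) (ha : 3 ≤ finrank K (D.W κ a d))
    (hb : 3 ≤ finrank K (D.W κ b d)) : False := by
  have h1 := D.inj.df3 (N.le h.s23.s12) ha
  have h2 := D.inj.df3 (N.le h.s23.s01.s12) hb
  have h3 := D.inj.df2 (N.le h.s12.s01.s23.s12) (N.two h.s12.s01.s23.s12)
  exact N.no_df h h.WWW_le (h3.mul D.inj (h1.mul D.inj h2))

variable (D) in
def Edge (a b : F) : Prop := D.V ⊓ D.J2 a b ≠ ⊥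

lemma Edge.symm (h : D.Edge a b) : D.Edge b a := by rwa [Edge, J2_comm]

lemma NM.edge_dim (N : NM D κ) (h : D.Od a b c d) (e : D.Edge a b) :
    finrank K (D.W κ a b) = 2 ∧ finrank K (D.V ⊓ D.J2 a b : Submodule K B) = 1 := by
  have h1 := N.dimW h
  have h2 := N.two h
  have h3 : finrank K (D.V ⊓ D.J2 a b : Submodule K B) ≠ 0 := fun h0 =>
    e (Submodule.finrank_eq_zero.1 h0)
  omega

lemma NM.nedge_dim (N : NM D κ) (h : D.Od a b c d) (e : ¬ D.Edge a b) :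
    finrank K (D.W κ a b) = 3 := by
  have h1 := N.dimW h
  rw [not_not.1 e, finrank_bot] at h1
  omega

lemma NM.m1_edge (N : NM D κ) (h : D.Od a b c d) (e : D.Edge a b) :
    finrank K (D.V ^ 2 ⊓ D.J2 a b : Submodule K B) = 8 ∧
      25 ≤ finrank K (D.V ^ 3 ⊓ D.J2 a b : Submodule K B) ∧
      finrank K (D.M1 κ a b 2) = 7 ∧ finrank K (D.M1 κ a b 3) = 16 := by
  have h1 := D.inj.dim_lin (N.le h) 1
  have h2 := D.inj.dim_lin (N.le h) 2
  rw [(N.edge_dim h e).1, ← h.M1_eq] at h1 h2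
  have h3 := h.dim1 N.ne 2
  have h4 := h.dim1 N.ne 3
  have := D.h2; have := D.h3
  have e2 : s 2 = 10 := rfl
  have e3 : s 3 = 20 := rfl
  simp only [Nat.reduceAdd, Nat.reduceSub, e2, e3, Nat.choose] at h1 h2 h3 h4
  omega

variable (D κ) in
structure Ed (a b : F) (y1 y2 h : B) : Prop where
  v1 : y1 ∈ D.V
  v2 : y2 ∈ D.V
  vh : h ∈ D.V
  e1 : D.ev a y1 = 0
  e2 : D.ev a y2 = 0
  hJ : h ∈ D.J2 a b
  h0 : h ≠ 0
  ind : Ind2 K (D.G κ a b y1) (D.G κ a b y2)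

variable {y1 y2 h : B}

lemma Ed.edge (E : Ed D κ a b y1 y2 h) : D.Edge a b :=
  (Submodule.ne_bot_iff _).2 ⟨h, ⟨E.vh, E.hJ⟩, E.h0⟩

lemma W_of {y : B} (hy : y ∈ D.V) : D.G κ a b y ∈ D.W κ a b := ⟨y, hy, rfl⟩

lemma NM.ed1 (N : NM D κ) (o : D.Od a b c d) (hv : h ∈ D.V) (hJ : h ∈ D.J2 a b) (h0 : h ≠ 0)
    (v1 : y1 ∈ D.V) (e1 : D.ev a y1 = 0) (g1 : D.G κ a b y1 ≠ 0) : ∃ y2, Ed D κ a b y1 y2 h := by
  obtain ⟨w, hw, hi⟩ := exists_ind2 (N.two o) g1
  obtain ⟨y2, v2, e2, rfl⟩ := o.ra.W_mem hw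
  exact ⟨y2, v1, v2, hv, e1, e2, hJ, h0, hi⟩

lemma NM.ed0 (N : NM D κ) (o : D.Od a b c d) (hv : h ∈ D.V) (hJ : h ∈ D.J2 a b) (h0 : h ≠ 0) :
    ∃ y1 y2, Ed D κ a b y1 y2 h := by
  have hne : D.W κ a b ≠ ⊥ := fun e => by have := N.two o; rw [e, finrank_bot] at this; omega
  obtain ⟨w, hw, hw0⟩ := (Submodule.ne_bot_iff _).1 hne
  obtain ⟨y1, v1, e1, rfl⟩ := o.ra.W_mem hw
  exact ⟨y1, N.ed1 o hv hJ h0 v1 e1 hw0⟩

lemma Ed.W_eq (E : Ed D κ a b y1 y2 h) (N : NM D κ) (o : D.Od a b c d) :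
    D.W κ a b = span K {D.G κ a b y1, D.G κ a b y2} :=
  eq_span2 (N.edge_dim o E.edge).1.le (W_of E.v1) (W_of E.v2) E.ind

lemma Ed.J_eq (E : Ed D κ a b y1 y2 h) (N : NM D κ) (o : D.Od a b c d) :
    D.V ⊓ D.J2 a b = K ∙ h := by
  symm
  apply Submodule.eq_of_le_of_finrank_le ((span_singleton_le_iff_mem _ _).2 (mem_inf.2 ⟨E.vh, E.hJ⟩))
  rw [(N.edge_dim o E.edge).2, finrank_span_singleton E.h0]

lemma Ed.span (E : Ed D κ a b y1 y2 h) (N : NM D κ) (o : D.Od a b c d) {v : B} (hv : v ∈ D.V) :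
    ∃ c1 c2 c3 : K, v = algebraMap F B (D.ev a v) + c1 • y1 + c2 • y2 + c3 • h := by
  have h1 : D.G κ a b v ∈ D.W κ a b := W_of hv
  rw [E.W_eq N o, mem_span_pair] at h1
  obtain ⟨c1, c2, e⟩ := h1
  have h2 : v - algebraMap F B (D.ev a v) - c1 • y1 - c2 • y2 ∈ D.V ⊓ D.J2 a b := by
    refine ⟨sub_mem (sub_mem (sub_mem hv (D.le _ (o.ra.mem v hv))) (smul_mem _ _ E.v1))
      (smul_mem _ _ E.v2), o.G_ker N.ne ?_ ?_⟩
    · simp [ksm (F := F), E.e1, E.e2]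
    · simp [G_alg, ← e]
  rw [E.J_eq N o, mem_span_singleton] at h2
  obtain ⟨c3, e3⟩ := h2
  exact ⟨c1, c2, c3, by rw [e3]; ring⟩

lemma Ed.G_le (E : Ed D κ a b y1 y2 h) (N : NM D κ) (o : D.Od a b c d) (p q : F) :
    D.W κ p q ≤ Submodule.span K {D.G κ p q y1, D.G κ p q y2} ⊔ K ∙ D.G κ p q h := by
  rintro _ ⟨v, hv, rfl⟩
  obtain ⟨c1, c2, c3, e⟩ := E.span N o hv
  rw [e]
  simp only [LinearMap.restrictScalars_apply, map_add, G_alg, lin_k, zero_add]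
  exact add_mem (mem_sup_left (mem_span_pair.2 ⟨c1, c2, rfl⟩))
    (mem_sup_right (smul_mem _ _ (mem_span_singleton_self _)))

variable (D κ) in
noncomputable def rho (a b : F) (y1 y2 : B) : B :=
  algebraMap F B (D.G κ a b y1) * y2 - algebraMap F B (D.G κ a b y2) * y1

variable (D) in
def Q (b : F) (y z : B) : B := y * (z - algebraMap F B (D.ev b z))

variable (D κ) in
noncomputable def Qs (a b : F) (y1 y2 : B) : Submodule K B :=
  Submodule.span K {D.Q b y1 y1, D.Q b y1 y2, D.Q b y2 y1, D.Q b y2 y2, D.rho κ a b y1 y2}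

instance : FiniteDimensional K (D.Qs κ a b y1 y2) :=
  FiniteDimensional.span_of_finite K (Set.toFinite _)

lemma Od.Q_mem (o : D.Od a b c d) {y z : B} (hy : y ∈ D.V) (hz : z ∈ D.V) (e : D.ev a y = 0) :
    D.Q b y z ∈ D.V ^ 2 ⊓ D.J2 a b :=
  ⟨mul_mem_two hy (sub_mem hz (D.le _ (o.rb.mem z hz))), o.ra.mul_J2 o.rb e (by simp)⟩

lemma Od.L2_Q (o : D.Od a b c d) {y : B} (z : B) (e : D.ev a y = 0) :
    D.L2 κ a b c (D.Q b y z) = D.G κ a c y * D.G κ b c z := by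
  rw [Q, o.L2_mul e (by simp)]; simp [G_alg]

lemma Ed.rho_mem (E : Ed D κ a b y1 y2 h) (N : NM D κ) (o : D.Od a b c d) :
    D.rho κ a b y1 y2 ∈ D.V ^ 2 ⊓ D.J2 a b := by
  refine ⟨sub_mem (mul_mem_two (D.le _ (N.le o (W_of E.v1))) E.v2)
    (mul_mem_two (D.le _ (N.le o (W_of E.v2))) E.v1), o.G_ker N.ne ?_ ?_⟩
  · simp [rho, E.e1, E.e2]
  · simp only [rho, lin_alg, map_sub]; ring

lemma Ed.Qs_le (E : Ed D κ a b y1 y2 h) (N : NM D κ) (o : D.Od a b c d) :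
    D.Qs κ a b y1 y2 ≤ D.V ^ 2 ⊓ D.J2 a b := by
  rw [Qs, span_le]
  rintro r (rfl | rfl | rfl | rfl | rfl)
  exacts [o.Q_mem E.v1 E.v1 E.e1, o.Q_mem E.v1 E.v2 E.e1, o.Q_mem E.v2 E.v1 E.e2,
    o.Q_mem E.v2 E.v2 E.e2, E.rho_mem N o]

lemma Ed.step (E : Ed D κ a b y1 y2 h) (N : NM D κ) (o : D.Od a b c d) {j : ℕ}
    {X X' : Submodule K B}
    (H : ∀ r ∈ D.V ^ (j + 1), ∃ u ∈ D.U ^ (j + 1), ∃ f1 ∈ D.U ^ j, ∃ f2 ∈ D.U ^ j,
      r - (algebraMap F B u + algebraMap F B f1 * y1 + algebraMap F B f2 * y2) ∈ X)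
    (h1 : D.V * X ≤ X') (h2 : (K ∙ h) * D.V ^ (j + 1) ≤ X') (h3 : D.Qs κ a b y1 y2 * D.V ^ j ≤ X') :
    ∀ r ∈ D.V ^ (j + 1 + 1), ∃ u ∈ D.U ^ (j + 1 + 1), ∃ f1 ∈ D.U ^ (j + 1), ∃ f2 ∈ D.U ^ (j + 1),
      r - (algebraMap F B u + algebraMap F B f1 * y1 + algebraMap F B f2 * y2) ∈ X' := by
  intro r hr
  rw [pow_succ'] at hr
  refine Submodule.mul_induction_on hr (fun v hv r hr => ?_) ?_
  · obtain ⟨w, hw, f1, hf1, f2, hf2, hn⟩ := H r hr
    obtain ⟨c1, c2, c3, e⟩ := E.span N o hv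
    have hu := o.ra.mem v hv
    have hs : f1 * D.ev b y1 + f2 * D.ev b y2 ∈ D.U ^ (j + 1) := by
      rw [mul_comm f1, mul_comm f2]
      exact add_mem (mul_pow_succ (o.rb.mem _ E.v1) hf1) (mul_pow_succ (o.rb.mem _ E.v2) hf2)
    refine ⟨D.ev a v * w, mul_pow_succ hu hw,
      D.ev a v * f1 + c1 • (w + (f1 * D.ev b y1 + f2 * D.ev b y2)),
      add_mem (mul_pow_succ hu hf1) (smul_mem _ _ (add_mem hw hs)),
      D.ev a v * f2 + c2 • (w + (f1 * D.ev b y1 + f2 * D.ev b y2)),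
      add_mem (mul_pow_succ hu hf2) (smul_mem _ _ (add_mem hw hs)), ?_⟩
    have hQ : ∀ q ∈ D.Qs κ a b y1 y2, ∀ f ∈ D.U ^ j, ∀ k : K, k • (q * algebraMap F B f) ∈ X' :=
      fun q hq f hf k => smul_mem _ _ (h3 (mul_mem_mul hq (D.le_pow hf)))
    have a1 := h2 (mul_mem_mul (smul_mem _ c3 (mem_span_singleton_self h)) hr)
    have a2 := h1 (mul_mem_mul (sub_mem hv (smul_mem _ c3 E.vh)) hn)
    have a3 := hQ (D.Q b y1 y1) (subset_span (by simp)) f1 hf1 c1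
    have a4 := hQ (D.Q b y1 y2) (subset_span (by simp)) f2 hf2 c1
    have a5 := hQ (D.Q b y2 y1) (subset_span (by simp)) f1 hf1 c2
    have a6 := hQ (D.Q b y2 y2) (subset_span (by simp)) f2 hf2 c2
    convert add_mem (add_mem (add_mem (add_mem (add_mem a1 a2) a3) a4) a5) a6 using 1
    simp only [Q, ksm (F := F) (B := B), Algebra.smul_def, map_add, map_mul] at e ⊢
    linear_combination (algebraMap F B w + algebraMap F B f1 * y1 + algebraMap F B f2 * y2) * e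
  · rintro r r' ⟨u, hu, f1, hf1, f2, hf2, hn⟩ ⟨u', hu', f1', hf1', f2', hf2', hn'⟩
    refine ⟨u + u', add_mem hu hu', f1 + f1', add_mem hf1 hf1', f2 + f2', add_mem hf2 hf2', ?_⟩
    convert add_mem hn hn' using 1
    simp only [map_add]; ring

lemma Ed.gen (E : Ed D κ a b y1 y2 h) (N : NM D κ) (o : D.Od a b c d) (j : ℕ) :
    D.V ^ (j + 2) ⊓ D.J2 a b ≤ (K ∙ h) * D.V ^ (j + 1) ⊔ D.Qs κ a b y1 y2 * D.V ^ j := by
  have key : ∀ j, ∀ r ∈ D.V ^ (j + 1 + 1), ∃ u ∈ D.U ^ (j + 1 + 1), ∃ f1 ∈ D.U ^ (j + 1),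
      ∃ f2 ∈ D.U ^ (j + 1),
      r - (algebraMap F B u + algebraMap F B f1 * y1 + algebraMap F B f2 * y2) ∈
        (K ∙ h) * D.V ^ (j + 1) ⊔ D.Qs κ a b y1 y2 * D.V ^ j := by
    intro j
    induction j with
    | zero =>
      refine E.step N o (X := K ∙ h) (fun r hr => ?_) ?_ le_sup_left le_sup_right
      · rw [zero_add, pow_one] at hr
        obtain ⟨c1, c2, c3, e⟩ := E.span N o hr
        refine ⟨D.ev a r, by simpa using o.ra.mem r hr, algebraMap K F c1,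
          mem_pow_zero.2 ⟨_, rfl⟩, algebraMap K F c2, mem_pow_zero.2 ⟨_, rfl⟩,
          mem_span_singleton.2 ⟨c3, ?_⟩⟩
        rw [← ksm, ← ksm]; linear_combination -e
      · rw [mul_comm, zero_add, pow_one]; exact le_sup_left
    | succ j ih =>
      refine E.step N o ih ?_ le_sup_left le_sup_right
      rw [Submodule.mul_sup, mul_left_comm, mul_left_comm D.V, ← pow_succ', ← pow_succ']
  rintro r ⟨hr, hJ⟩
  obtain ⟨u, -, f1, hf1, f2, hf2, hn⟩ := key j r hr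
  have hle : (K ∙ h) * D.V ^ (j + 1) ⊔ D.Qs κ a b y1 y2 * D.V ^ j ≤ D.J2 a b := by
    refine sup_le (Submodule.mul_le.2 fun p hp q _ => ?_) (Submodule.mul_le.2 fun p hp q _ => ?_)
    · rw [mul_comm]; exact J2_mul _ ((span_singleton_le_iff_mem _ _).2 E.hJ hp)
    · rw [mul_comm]; exact J2_mul _ (E.Qs_le N o hp).2
  have h1 : algebraMap F B u + algebraMap F B f1 * y1 + algebraMap F B f2 * y2 ∈ D.J2 a b := by
    simpa using sub_mem hJ (hle hn)
  have h2 : u = 0 := by simpa [E.e1, E.e2] using o.ra.ev_J2 h1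
  have h3 := o.G_J2 (κ := κ) h1
  simp only [map_add, G_alg, lin_alg, zero_add] at h3
  obtain ⟨m, hm, e1, e2⟩ := D.inj.div (N.le o (W_of E.v1)) (N.le o (W_of E.v2)) E.ind
    (neg_mem hf2) (by linear_combination h3) hf1
  have h4 := mem_sup_right (S := (K ∙ h) * D.V ^ (j + 1))
    (mul_mem_mul (show D.rho κ a b y1 y2 ∈ D.Qs κ a b y1 y2 from subset_span (by simp))
      (D.le_pow hm))
  convert sub_mem hn h4 using 1
  rw [h2, e1, neg_eq_iff_eq_neg.1 e2, rho]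
  simp only [map_mul, map_neg, map_zero]; ring

variable (D) in
def TB : Prop := ∀ a b c d, D.Od a b c d → D.V ⊓ D.J3 a b c = ⊥

lemma TB.L2_ne (tb : D.TB) (N : NM D κ) (o : D.Od a b c d) (hv : h ∈ D.V) (hJ : h ∈ D.J2 a b)
    (h0 : h ≠ 0) : D.L2 κ a b c h ≠ 0 := fun e =>
  h0 ((Submodule.eq_bot_iff _).1 (tb _ _ _ _ o) h ⟨hv, o.L2_ker N.ne hJ e⟩)

lemma TB.ann (tb : D.TB) (N : NM D κ) (o : D.Od a b c d) (hv : h ∈ D.V) (hJ : h ∈ D.J2 a b)
    (h0 : h ≠ 0) {r : B} (hr : h * r = 0) : r ∈ D.J2 c d := by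
  have h1 := tb.L2_ne N o hv hJ h0
  have h2 := tb.L2_ne N o.s23 hv hJ h0
  obtain ⟨q, rfl⟩ := mem_J2.1 hJ
  rw [o.L2_t] at h1
  rw [o.s23.L2_t] at h2
  obtain ⟨q', e⟩ := o.ann2 (r := q * r) (by rw [← hr]; ring)
  have e1 := congrArg (D.ev c) e
  simp only [map_mul, o.rc.ev_self, zero_mul, mul_eq_zero] at e1
  obtain ⟨r1, rfl⟩ := o.rc.ker r (e1.resolve_left (right_ne_zero_of_mul h1))
  obtain ⟨q'', e2⟩ := o.s12.s01.ann1 (r := q * r1 - D.t d * q') (by linear_combination e)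
  have e3 := congrArg (D.ev d) e2
  simp only [map_mul, map_sub, o.rd.ev_self, zero_mul, mul_zero, sub_zero, mul_eq_zero] at e3
  obtain ⟨r2, rfl⟩ := o.rd.ker r1 (e3.resolve_left (right_ne_zero_of_mul h2))
  exact mem_J2.2 ⟨r2, by ring⟩

lemma TB.dim_h (tb : D.TB) (N : NM D κ) (o : D.Od a b c d) (hv : h ∈ D.V) (hJ : h ∈ D.J2 a b)
    (h0 : h ≠ 0) (i : ℕ) : finrank K ((K ∙ h) * D.V ^ i : Submodule K B) =
      s i + finrank K (D.M1 κ c d i) := by
  have e1 : ((K ∙ h) * D.V ^ i : Submodule K B) = (D.V ^ i).map (LinearMap.mulLeft K h) := by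
    ext r; simp [Submodule.mem_span_singleton_mul]
  have e2 : D.V ^ i ⊓ LinearMap.ker (LinearMap.mulLeft K h) = D.V ^ i ⊓ D.J2 c d := by
    ext r
    exact ⟨fun hr => ⟨hr.1, tb.ann N o hv hJ h0 hr.2⟩, fun hr => ⟨hr.1, o.J2_zero hJ hr.2⟩⟩
  have e3 := finrank_map_add (D.V ^ i) (LinearMap.mulLeft K h)
  have e4 := o.s12.s01.s23.s12.dim1 N.ne i
  rw [e2, ← e1] at e3
  omega

lemma TB.b1 (tb : D.TB) (N : NM D κ) (o : D.Od a b c d) (e : D.Edge a b) : D.Edge c d := by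
  by_contra hc
  obtain ⟨h, ⟨hv, hJ⟩, h0⟩ := (Submodule.ne_bot_iff _).1 e
  have o' := o.s12.s01.s23.s12
  have h1 := tb.dim_h N o hv hJ h0 1
  have h2 := tb.dim_h N o hv hJ h0 2
  have h3 := D.inj.dim_lin (N.le o') 1
  rw [N.nedge_dim o' hc, ← o'.M1_eq] at h3
  rw [M1_one, N.nedge_dim o' hc] at h1
  have := macV (V := D.V) (H := K ∙ h) ((span_singleton_le_iff_mem _ _).2 hv) (n := 6) (k := 3)
    (by rw [finrank_span_singleton h0, D.h1]) (by rw [h1, D.h2]; decide)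
  have e2 : s 2 = 10 := rfl
  have := D.h3
  simp only [Nat.reduceAdd, Nat.reduceSub, e2, Nat.choose] at *
  omega

lemma TB.gl (tb : D.TB) (N : NM D κ) (o : D.Od a b c d) {h h' : B} (hv : h ∈ D.V)
    (hJ : h ∈ D.J2 a b) (hv' : h' ∈ D.V) (hJ' : h' ∈ D.J2 c d) (hi : Ind2 K h h') :
    2 ≤ finrank K ((K ∙ h) * D.V ^ 1 ⊓ (K ∙ h') * D.V ^ 1 : Submodule K B) := by
  have o' := o.s12.s01.s23.s12
  have e : D.Edge a b := (Submodule.ne_bot_iff _).2 ⟨h, ⟨hv, hJ⟩, hi.ne⟩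
  have e' : D.Edge c d := (Submodule.ne_bot_iff _).2 ⟨h', ⟨hv', hJ'⟩, hi.symm.ne⟩
  have h1 := tb.dim_h N o hv hJ hi.ne 1
  have h2 := tb.dim_h N o hv hJ hi.ne 2
  have h1' := tb.dim_h N o' hv' hJ' hi.symm.ne 1
  have h2' := tb.dim_h N o' hv' hJ' hi.symm.ne 2
  rw [M1_one, (N.edge_dim o' e').1] at h1
  rw [M1_one, (N.edge_dim o e).1] at h1'
  rw [(N.m1_edge o' e').2.2.1] at h2
  rw [(N.m1_edge o e).2.2.1] at h2'
  have hH : span K {h, h'} ≤ D.V := by rw [span_le]; rintro r (rfl | rfl) <;> assumption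
  have s1 := Submodule.finrank_sup_add_finrank_inf_eq ((K ∙ h) * D.V ^ 1) ((K ∙ h') * D.V ^ 1)
  have s2 := Submodule.finrank_sup_add_finrank_inf_eq ((K ∙ h) * D.V ^ 2) ((K ∙ h') * D.V ^ 2)
  rw [← Submodule.sup_mul, ← span_insert] at s1 s2
  have m1 := macV (V := D.V) hH (n := 5) (k := 1) (by rw [hi.dim, D.h1])
  have m2 := macV (V := D.V) hH (n := 5) (k := 2) (by rw [hi.dim, D.h1])
  have e1 : s 1 = 4 := rfl
  have e2 : s 2 = 10 := rfl
  have := D.h2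
  have := D.h3
  by_contra hc
  by_cases h0 : ((K ∙ h) * D.V ^ 1 ⊓ (K ∙ h') * D.V ^ 1 : Submodule K B) = ⊥
  · rw [h0, finrank_bot] at s1
    simp only [Nat.reduceAdd, Nat.choose] at m2
    omega
  · obtain ⟨r, hr, hr0⟩ := (Submodule.ne_bot_iff _).1 h0
    have e3 := AS.dim_line hr0 D.U
    rw [D.inj.dimU] at e3
    have e4 : D.U.map ((LinearMap.toSpanSingleton F B r).restrictScalars K) ≤
        (K ∙ h) * D.V ^ 2 ⊓ (K ∙ h') * D.V ^ 2 := by
      rintro _ ⟨u, hu, rfl⟩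
      have : ∀ X : Submodule K B, r ∈ X * D.V ^ 1 → u • r ∈ X * D.V ^ 2 := fun X hX => by
        have := mul_mem_mul hX (D.le u hu)
        rwa [mul_assoc, ← pow_succ, mul_comm r, ← Algebra.smul_def] at this
      exact ⟨this _ hr.1, this _ hr.2⟩
    have := Submodule.finrank_mono e4
    simp only [Nat.reduceAdd, Nat.choose] at m1
    omega

lemma Od.J2_J3 (o : D.Od a b c d) (hac : a ≠ c) (hbc : b ≠ c) {r : B} (hr : r ∈ D.J2 a b)
    (e : D.ev c r = 0) : r ∈ D.J3 a b c := by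
  obtain ⟨q, rfl⟩ := mem_J2.1 hr
  simp only [map_mul, o.rc.ev_t, mul_eq_zero, sub_eq_zero, hac.symm, hbc.symm, false_or] at e
  obtain ⟨q', rfl⟩ := o.rc.ker q e
  exact mem_J3.2 ⟨q', by ring⟩

lemma Od.J2_disj (o : D.Od a b c d) (hac : a ≠ c) (hbc : b ≠ c) (had : a ≠ d) (hbd : b ≠ d) {r : B}
    (hr : r ∈ D.J2 a b) (hr' : r ∈ D.J2 c d) : r = 0 := by
  obtain ⟨q, rfl⟩ := mem_J3.1 (o.J2_J3 hac hbc hr (o.rc.ev_J2 hr'))
  obtain ⟨q', e⟩ := mem_J2.1 hr'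
  obtain ⟨q'', e2⟩ := o.s12.s01.ann1 (r := D.t a * D.t b * q - D.t d * q') (by linear_combination e)
  have e3 := congrArg (D.ev d) e2
  simp only [map_mul, map_sub, o.rd.ev_self, zero_mul, mul_zero, sub_zero, mul_eq_zero, o.rd.ev_t,
    sub_eq_zero, had.symm, hbd.symm, false_or] at e3
  obtain ⟨r2, rfl⟩ := o.rd.ker q e3
  linear_combination r2 * o.z

lemma TB.gl0 (tb : D.TB) (N : NM D κ) (o : D.Od a b c d) (hac : a ≠ c) (hbc : b ≠ c) (had : a ≠ d)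
    (hbd : b ≠ d) (e : D.Edge a b) : False := by
  obtain ⟨h, ⟨hv, hJ⟩, h0⟩ := (Submodule.ne_bot_iff _).1 e
  obtain ⟨h', ⟨hv', hJ'⟩, h0'⟩ := (Submodule.ne_bot_iff _).1 (tb.b1 N o e)
  have := tb.gl N o hv hJ hv' hJ' (ind2_of h0 fun hh => h0' (o.J2_disj hac hbc had hbd
    ((span_singleton_le_iff_mem _ _).2 hJ hh) hJ'))
  have e4 : ((K ∙ h) * D.V ^ 1 ⊓ (K ∙ h') * D.V ^ 1 : Submodule K B) = ⊥ := by
    rw [eq_bot_iff]
    rintro r ⟨h1, h2⟩
    obtain ⟨l, -, rfl⟩ := mem_span_singleton_mul.1 h1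
    obtain ⟨l', -, e⟩ := mem_span_singleton_mul.1 h2
    exact o.J2_disj hac hbc had hbd (by rw [mul_comm]; exact J2_mul _ hJ)
      (by rw [← e, mul_comm]; exact J2_mul _ hJ')
  rw [e4, finrank_bot] at this
  omega

end MG

end Pool.Agent.Lib.MP_a9ad87_al.Ch
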