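import Pool.Agent.Lib.MP_a9ad87_al.ChMono

namespace Pool.Agent.Lib.MP_a9ad87_al.Ch

open MvPolynomial Module Submodule

/-- rational functions in three variables -/
abbrev FF (K : Type*) [Field K] := FractionRing (MvPolynomial (Fin 3) K)

/-- dehomogenised coordinates -/
noncomputable def x3 (K : Type*) [Field K] : Fin 4 → MvPolynomial (Fin 3) K := Fin.cons 1 X

/-- the coordinates `1, X 0, X 1, X 2` -/
noncomputable def xx (K : Type*) [Field K] : Fin 4 → FF K :=
  fun i => algebraMap (MvPolynomial (Fin 3) K) (FF K) (x3 K i)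

variable {K : Type*} [Field K]

lemma aeval_xx (f : MvPolynomial (Fin 4) K) :
    aeval (xx K) f = algebraMap (MvPolynomial (Fin 3) K) (FF K) (aeval (x3 K) f) := by
  have : (aeval (xx K) : MvPolynomial (Fin 4) K →ₐ[K] FF K) =
      (IsScalarTower.toAlgHom K (MvPolynomial (Fin 3) K) (FF K)).comp (aeval (x3 K)) := by
    ext i; simp [xx]
  rw [this]; rfl

lemma aeval_x3_mon (m : Fin 4 →₀ ℕ) (c : K) :
    aeval (x3 K) (monomial m c) = monomial m.tail c := by
  rw [aeval_monomial, monomial_eq, Finsupp.prod_fintype _ _ (by simp),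
    Finsupp.prod_fintype _ _ (by simp), Fin.prod_univ_succ]
  simp [x3, Finsupp.tail_apply]

lemma deg_tail (m : Fin 4 →₀ ℕ) : m.degree = m 0 + m.tail.degree := by
  simp [Finsupp.degree_eq_sum, Fin.sum_univ_succ, Finsupp.tail_apply]

lemma inj_x3 {i : ℕ} {f : MvPolynomial (Fin 4) K} (hf : f ∈ Hm 4 K i) (h : aeval (x3 K) f = 0) :
    f = 0 := by
  classical
  have hd : ∀ m ∈ f.support, m.degree = i := fun m hm => by
    by_contra h; exact mem_support_iff.1 hm (IsHomogeneous.coeff_eq_zero hf h)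
  by_contra h0
  obtain ⟨m, hm⟩ := support_nonempty.2 h0
  have h1 := congrArg (coeff m.tail) h
  rw [f.as_sum, map_sum, coeff_sum, Finset.sum_eq_single m] at h1
  · rw [aeval_x3_mon, coeff_monomial, if_pos rfl, coeff_zero] at h1
    exact mem_support_iff.1 hm h1
  · intro m' hm' hne
    rw [aeval_x3_mon, coeff_monomial, if_neg]
    intro e
    apply hne
    have e1 := deg_tail m
    have e2 := deg_tail m'
    rw [hd m hm] at e1
    rw [hd m' hm', e] at e2
    rw [← Finsupp.cons_tail m, ← Finsupp.cons_tail m', e, show m' 0 = m 0 by omega]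
  · intro h; exact absurd hm h

lemma inj_xx : Inj K (xx K) := fun i f hf h => inj_x3 hf (by
  rw [aeval_xx] at h
  exact (IsFractionRing.injective (MvPolynomial (Fin 3) K) (FF K)) (by rw [h, map_zero]))

lemma one_mem_xx : (1 : FF K) ∈ UU K (xx K) := subset_span ⟨0, by simp [xx, x3]⟩

lemma Upow_mono {i j : ℕ} (h : i ≤ j) : UU K (xx K) ^ i ≤ UU K (xx K) ^ j := by
  induction h with
  | refl => exact le_rfl
  | step _ ih => exact fun a ha => by simpa using mul_pow_succ one_mem_xx (ih ha)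

lemma poly_mem (p : MvPolynomial (Fin 3) K) :
    ∃ k, algebraMap (MvPolynomial (Fin 3) K) (FF K) p ∈ UU K (xx K) ^ k := by
  induction p using MvPolynomial.induction_on with
  | C c => exact ⟨0, mem_pow_zero.2 ⟨c, rfl⟩⟩
  | add p q hp hq =>
    obtain ⟨a, ha⟩ := hp
    obtain ⟨b, hb⟩ := hq
    exact ⟨a + b, by
      rw [map_add]; exact add_mem (Upow_mono (by omega) ha) (Upow_mono (by omega) hb)⟩
  | mul_X p i hp =>
    obtain ⟨a, ha⟩ := hp
    exact ⟨a + 1, by
      rw [map_mul, mul_comm]; exact mul_pow_succ (subset_span ⟨i.succ, by simp [xx, x3]⟩) ha⟩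

lemma frc_xx : Frc K (xx K) := fun φ => by
  obtain ⟨p, q, hq, rfl⟩ := IsFractionRing.div_surjective (A := MvPolynomial (Fin 3) K) φ
  obtain ⟨a, ha⟩ := poly_mem p
  obtain ⟨b, hb⟩ := poly_mem q
  have hq0 : algebraMap (MvPolynomial (Fin 3) K) (FF K) q ≠ 0 :=
    IsFractionRing.to_map_ne_zero_of_mem_nonZeroDivisors hq
  obtain ⟨D, hD, e⟩ := mem_Upow.1 (Upow_mono (show b ≤ a + b by omega) hb)
  refine ⟨a + b, D, hD, by rintro rfl; exact hq0 (by simpa using e.symm), ?_⟩
  rw [e, div_mul_cancel₀ _ hq0]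
  exact Upow_mono (by omega) ha

end Pool.Agent.Lib.MP_a9ad87_al.Ch
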