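import Pool.Agent.Lib.MP_a9ad87_al.ChTA1

namespace Pool.Agent.Lib.MP_a9ad87_al.Ch

open Module Submodule

variable {K F B : Type*} [Field K] [Field F] [Algebra K F] [CommRing B] [Algebra F B]
    [Algebra K B] [IsScalarTower K F B]

lemma sing_mul {Λ : Type*} [CommRing Λ] [Algebra K Λ] (a b : Λ) :
    (K ∙ a) * (K ∙ b) = K ∙ (a * b) := by
  rw [Submodule.span_mul_span, Set.singleton_mul_singleton]

namespace MG
variable {D : MG K F B} {κ : F → F → F} {a b c d P η : F} {y1 y2 h : B}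

lemma Ed.Qs_pp (E : Ed D κ P P y1 y2 h) : D.Qs κ P P y1 y2 ≤
    Submodule.span K (Set.range ![y1 * y1, y1 * y2, y2 * y2, D.rho κ P P y1 y2]) := by
  rw [Qs, span_le]
  simp only [Q, E.e1, E.e2, map_zero, sub_zero]
  rintro r (rfl | rfl | rfl | rfl | rfl)
  exacts [subset_span ⟨0, rfl⟩, subset_span ⟨1, rfl⟩, subset_span ⟨1, mul_comm _ _⟩,
    subset_span ⟨2, rfl⟩, subset_span ⟨3, rfl⟩]

lemma mem_NZ {Z : Submodule K F} {r : B} (h1 : r ∈ D.J3 a b c) (h2 : D.L3 κ a b c d r ∈ Z) :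
    r ∈ D.NZ κ a b c d Z := ⟨h1, h2⟩

lemma X3 {l m : F} (hi : Ind2 K η l) (hm : m ∉ (K ∙ η) ⊔ K ∙ l) :
    3 ≤ finrank K ((K ∙ η) ⊔ ((K ∙ l) ⊔ K ∙ m) : Submodule K F) := by
  have := finrank_lt_sup (X := (K ∙ η) ⊔ K ∙ l) (Y := (K ∙ η) ⊔ ((K ∙ l) ⊔ K ∙ m))
    (sup_le_sup_left le_sup_left _) (mem_sup_right (mem_sup_right (mem_span_singleton_self m))) hm
  rw [← span_insert, hi.dim] at this
  exact this

lemma TA.a2 (T : TA D κ P P c d h η) (N : NM D κ) (hc : P ≠ c) : False := by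
  obtain ⟨y1, y2, E⟩ := N.ed0 T.o T.v (J3_le T.J) T.h0
  obtain ⟨l, hl, hi, el⟩ := T.exl N fun h3 => T.two N h3 h3
  obtain ⟨A, h3, e3, d3, c3⟩ := T.s12.s01.exA N
  have : FiniteDimensional K A := Submodule.finiteDimensional_of_le h3
  have o := T.o
  have hη := T.memU N
  have hρ := E.rho_mem N o
  have hc' := M2_of (κ := κ) (c := d) hρ
  have ea : D.ev P h = 0 := o.ra.ev_J2 (J3_le T.J)
  have ec : D.ev c h = 0 := o.rc.ev_J2 (J3_le T.s12.s01.J)
  have iv : Ind2 K (D.ev c y1) (D.ev c y2) := by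
    refine ind2_of_le ((E.G_le N o P c).trans ?_) (N.two o.s12)
    simp [N.G_eq o.s12 hc, E.e1, E.e2, ea, ec]
  have v1 := o.rc.mem _ E.v1
  have v2 := o.rc.mem _ E.v2
  have w1 := N.le o (W_of E.v1)
  have w2 := N.le o (W_of E.v2)
  have q11 := o.yy E.v1 E.v1 E.e1 E.e1
  have q12 := o.yy E.v1 E.v2 E.e1 E.e2
  have q22 := o.yy E.v2 E.v2 E.e2 E.e2
  have s1 := o.rc.sub_Y E.v1
  have s2 := o.rc.sub_Y E.v2
  have key : ∀ X : Submodule K F, X ≤ D.U ^ 2 → (K ∙ (l * l)) ≤ X →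
      D.L2 κ P P d (D.rho κ P P y1 y2) ∈ (K ∙ η) * D.U ⊔ X →
      3 ≤ finrank K A * finrank K X := fun X hX h1 h2 => by
    have : FiniteDimensional K X := Submodule.finiteDimensional_of_le hX
    have z2 := T.WM N E h3 hX (sing_le hl) (sing_le hl) el.le el.le e3 (by rwa [sing_mul]) h2
    refine (T.dimZ N (T.count N E le_sup_left z2 E.Qs_pp
      ![![D.ev c y2, -D.ev c y1, 0, 0], ![0, D.ev c y2, -D.ev c y1, 0],
        ![D.G κ P P y2, -D.G κ P P y1, 0, D.ev c y1], ![0, D.G κ P P y2, -D.G κ P P y1, D.ev c y2]]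
      (fun k i => by fin_cases k <;> fin_cases i <;> simp [v1, v2, w1, w2])
      (li4 fun α β γ δ e => ?_) fun k => ?_)).trans (finrank_mul_le _ _)
    · have a0 := congrFun e 0
      have a2 := congrFun e 2
      have a3 := congrFun e 3
      simp at a0 a2 a3
      obtain ⟨rfl, rfl⟩ := iv _ _ a3
      simp only [zero_smul, add_zero, neg_zero, neg_eq_zero, smul_eq_zero, iv.ne, iv.symm.ne,
        or_false] at a0 a2
      exact ⟨a0, a2, rfl, rfl⟩
    · rw [Fin.sum_univ_four]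
      fin_cases k
      · convert sub_mem (o.NZ_Y z2 q12 s1) (o.NZ_Y z2 q11 s2) using 1
        simp; ring
      · convert sub_mem (o.NZ_Y z2 q22 s1) (o.NZ_Y z2 q12 s2) using 1
        simp; ring
      · convert neg_mem (o.NZ_Y z2 hρ s1) using 1
        simp [rho]; ring
      · convert neg_mem (o.NZ_Y z2 hρ s2) using 1
        simp [rho]; ring
  set c' := D.L2 κ P P d (D.rho κ P P y1 y2)
  have hcU := N.m2 o.s23 2 hc'
  have k1 := key ((K ∙ (l * l)) ⊔ K ∙ c') (sup_le (sing_le (mul_mem_two hl hl)) (sing_le hcU))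
    le_sup_left (mem_sup_right (mem_sup_right (mem_span_singleton_self _)))
  rw [← span_insert] at k1
  have k2 := finrank_span_pair_le (K := K) (l * l) c'
  have c4 := c3.resolve_left fun h => by nlinarith
  have k3 : c' ∉ (K ∙ η) * D.U ⊔ K ∙ (l * l) := fun h => by
    have := key _ (sing_le (mul_mem_two hl hl)) le_rfl h
    have := finrank_sing_le (K := K) (l * l)
    nlinarith
  have dc := D.inj.df3 (T.s12.s01.X_le N) c4
  have xx := T.XX N
  have xle := T.X_le N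
  have x2 := T.X_two N
  rw [el] at xx xle x2
  by_cases hcc : c' ∈ ((K ∙ η) ⊔ K ∙ l) * D.U
  · rw [← span_insert] at hcc
    obtain ⟨u, hu, m, hm, e⟩ := mem_pairU hcc
    have hm' : m ∉ (K ∙ η) ⊔ K ∙ l := fun h => k3 (by
      rw [e]
      refine add_mem (mem_sup_left (mul_mem_mul (mem_span_singleton_self _) hu)) ?_
      rw [← sing_mul]
      exact eta_mul1 hη (sing_le hl) (sing_le hl)
        (mul_mem_mul (mem_sup_right (mem_span_singleton_self _)) h))
    have hx : (K ∙ η) ⊔ ((K ∙ l) ⊔ K ∙ m) ≤ D.U :=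
      sup_le (sing_le hη) (sup_le (sing_le hl) (sing_le hm))
    refine N.no_df o ?_ ((D.inj.df2 xle x2).mul D.inj (dc.mul D.inj (D.inj.df3 hx (X3 hi hm'))))
    rw [mul_left_comm]
    refine (mul_le_mul' le_rfl ?_).trans (T.XM N)
    rw [← sup_assoc, Submodule.mul_sup]
    refine sup_le xx ?_
    rw [Submodule.sup_mul, sing_mul l]
    refine sup_le (le_sup_of_le_left (mul_le_mul' le_rfl (sing_le hm))) (sing_le ?_)
    rw [show l * m = c' - η * u by rw [e]; ring]
    exact sub_mem (mem_sup_right hc') (mem_sup_left (mul_mem_mul (mem_span_singleton_self _) hu))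
  · have e1 := D.inj.dfq xle (by rw [← span_insert, hi.dim]) hcU hcc
    refine N.no_df o (k := 3 + 2) ?_ ((dc.mul D.inj (e1.mul D.inj e1)).weak (by omega))
    refine (mul_le_mul' le_rfl ((sup_sq hcU xle).trans (mul_le_mul'
      (sup_le xx (le_sup_of_le_right (sing_le hc'))) le_rfl))).trans ?_
    rw [← mul_assoc]
    exact (mul_le_mul' (T.XM N) le_rfl).trans M3_cl

lemma TA.a3a (T : TA D κ P P P d h η) (N : NM D κ) (E : Ed D κ P P y1 y2 h) :
    D.L2 κ P P P (D.rho κ P P y1 y2) ∈ D.W κ P P * D.U := by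
  by_contra hc
  obtain ⟨l, hl, hi, el⟩ := T.exl N fun h3 => T.two N h3 h3
  have o := T.o
  have hc' := M2_of (κ := κ) (c := P) (E.rho_mem N o)
  have hcU := N.m2 o 2 hc'
  have e1 := D.inj.dfq (N.le o) (N.edge_dim o E.edge).1 hcU hc
  obtain ⟨C1, h1⟩ := (D.inj.df2 (N.le o) (N.two o)).le (M := D.M1 κ P P) (fun i j => o.M1_cl)
    M1_one.ge
  obtain ⟨C2, h2⟩ := (e1.mul D.inj e1).le (M := D.M2 κ P P P) (fun i j => M2_cl)
    ((sup_sq hcU (N.le o)).trans ((mul_le_mul' (sup_le o.WW_le (sing_le hc')) le_rfl).trans M2_cl))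
  have hl' : l ∈ (K ∙ η) ⊔ D.W κ P d := el ▸ mem_sup_right (mem_span_singleton_self l)
  have e3 := D.inj.dfc (T.memU N) (T.ne N) (mul_pow_succ hl (mul_mem_two hl hl)) fun hm => by
    have := D.inj.prime (sing_le (T.memU N)) (i := 0) (j := 1) (by simpa using hl)
      (mul_mem_two hl hl) hm
    simp only [pow_zero, mul_one, pow_one, hi.notMem, false_or] at this
    exact hi.notMem ((D.inj.prime1 (sing_le (T.memU N)) hl hl this).elim id id)
  obtain ⟨C3, h3⟩ := e3.le (M := D.M3 κ P P P d) (fun i j => M3_cl)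
    (sup_le T.etaU (sing_le (T.XM N (mul_mem_mul hl' (T.XX N (mul_mem_mul hl' hl'))))))
  obtain ⟨C, hC⟩ := D.hb
  have f1 := h1 (C + C1 + C2 + C3 + 4) (by omega)
  have f2 := h2 (C + C1 + C2 + C3 + 4) (by omega)
  have f3 := h3 (C + C1 + C2 + C3 + 4) (by omega)
  have f4 := (hC (C + C1 + C2 + C3 + 4)).2
  have f5 := o.tot N.ne (C + C1 + C2 + C3 + 4)
  omega

lemma TA.a3f (T : TA D κ P P P d h η) (N : NM D κ) (E : Ed D κ P P y1 y2 h) {f g l m : F}
    (hf : f ∈ D.U) (hg : g ∈ D.U)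
    (e : D.L2 κ P P P (D.rho κ P P y1 y2) = D.G κ P P y1 * g + D.G κ P P y2 * f)
    (hl : l ∈ D.U) (hi : Ind2 K η l) (el : (K ∙ η) ⊔ D.W κ P d = (K ∙ η) ⊔ K ∙ l) (hm : m ∈ D.U)
    (ec : D.L2 κ P P d (D.rho κ P P y1 y2) - l * m ∈ (K ∙ η) * D.U) {k1 k2 : K}
    (hk : k1 ≠ 0 ∨ k2 ≠ 0) {χ1 χ2 : B}
    (e1 : χ1 = algebraMap F B (D.G κ P P y1) * D.rho κ P P y1 y2 - algebraMap F B g * (y1 * y1) -
      algebraMap F B f * (y1 * y2))
    (e2 : χ2 = algebraMap F B (D.G κ P P y2) * D.rho κ P P y1 y2 - algebraMap F B g * (y1 * y2) -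
      algebraMap F B f * (y2 * y2))
    (j1 : χ1 ∈ D.V ^ 3 ⊓ D.J3 P P P) (j2 : χ2 ∈ D.V ^ 3 ⊓ D.J3 P P P)
    (ek : k2 • D.L3 κ P P P d χ1 - k1 • D.L3 κ P P P d χ2 - l * (m * m) ∈ (K ∙ η) * D.U ^ 2) :
    False := by
  have o := T.o
  have hη := T.memU N
  have hρ := E.rho_mem N o
  have hc' := M2_of (κ := κ) (c := d) hρ
  have xx := T.XX N
  have xm := T.XM N
  have xle := T.X_le N
  have x2 := T.X_two N
  rw [el] at xx xm xle x2
  have hl' : l ∈ (K ∙ η) ⊔ K ∙ l := mem_sup_right (mem_span_singleton_self l)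
  by_cases hm' : m ∈ (K ∙ η) ⊔ K ∙ l
  · have b1 : l * m ∈ (K ∙ η) * D.U ⊔ K ∙ (l * l) := by
      rw [← sing_mul]; exact eta_mul1 hη (sing_le hl) (sing_le hl) (mul_mem_mul hl' hm')
    have b2 : l * (m * m) ∈ (K ∙ η) * D.U ^ 2 ⊔ (K ∙ l) * (K ∙ (l * l)) := by
      refine eta_mul2 hη (sing_le hl) (sing_le (mul_mem_two hl hl)) (mul_mem_mul hl' ?_)
      rw [← sing_mul]; exact eta_mul1 hη (sing_le hl) (sing_le hl) (mul_mem_mul hm' hm')
    have z2 := T.WM N E (sing_le hl) (sing_le (mul_mem_two hl hl)) (sing_le hl) (sing_le hl) el.le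
      el.le el.le (sing_mul l l).le (by simpa using add_mem (mem_sup_left ec) b1)
    have b3 := add_mem (mem_sup_left ek) b2
    rw [sub_add_cancel] at b3
    rw [sing_mul] at b3 z2
    obtain ⟨X, hX1, hX2⟩ : ∃ X : F, D.L3 κ P P P d χ1 ∈
        (K ∙ η) * D.U ^ 2 ⊔ ((K ∙ (l * (l * l))) ⊔ K ∙ X) ∧ D.L3 κ P P P d χ2 ∈
        (K ∙ η) * D.U ^ 2 ⊔ ((K ∙ (l * (l * l))) ⊔ K ∙ X) := by
      rcases hk with hk | hk
      · refine ⟨_, mem_sup_right (mem_sup_right (mem_span_singleton_self _)), ?_⟩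
        rw [← smul_mem_iff _ hk, ← sup_assoc]
        simpa using sub_mem (mem_sup_right (smul_mem _ k2 (mem_span_singleton_self
          (D.L3 κ P P P d χ1)))) (mem_sup_left b3)
      · refine ⟨_, ?_, mem_sup_right (mem_sup_right (mem_span_singleton_self _))⟩
        rw [← smul_mem_iff _ hk, ← sup_assoc]
        simpa using add_mem (mem_sup_left b3) (mem_sup_right (smul_mem _ k1
          (mem_span_singleton_self (D.L3 κ P P P d χ2))))
    have z3 := z2.trans (sup_le_sup_left (le_sup_left (b := K ∙ X)) _)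
    have w1 := N.le o (W_of E.v1)
    have w2 := N.le o (W_of E.v2)
    have := T.dimZ N (T.count N E le_sup_left z3 E.Qs_pp
      ![![D.G κ P P y2, -D.G κ P P y1, 0, 0], ![0, D.G κ P P y2, -D.G κ P P y1, 0],
        ![-g, -f, 0, D.G κ P P y1], ![0, -g, -f, D.G κ P P y2]]
      (fun k i => by fin_cases k <;> fin_cases i <;> simp [hf, hg, w1, w2])
      (li4 fun α β γ δ e => by
        have a0 := congrFun e 0
        have a2 := congrFun e 2
        have a3 := congrFun e 3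
        simp at a0 a2 a3
        obtain ⟨rfl, rfl⟩ := E.ind _ _ a3
        simp only [zero_smul, add_zero, neg_zero, neg_eq_zero, smul_eq_zero, E.ind.ne,
          E.ind.symm.ne, or_false] at a0 a2
        exact ⟨a0, a2, rfl, rfl⟩)
      fun k => by
        rw [Fin.sum_univ_four]
        fin_cases k
        · convert neg_mem (o.NZ_Y z3 hρ (mem_Y E.v1 E.e1)) using 1
          simp [rho]; ring
        · convert neg_mem (o.NZ_Y z3 hρ (mem_Y E.v2 E.e2)) using 1
          simp [rho]; ring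
        · convert mem_NZ j1.2 hX1 using 1
          simp [e1]; ring
        · convert mem_NZ j2.2 hX2 using 1
          simp [e2]; ring)
    rw [← span_insert] at this
    have := finrank_span_pair_le (K := K) (l * (l * l)) X
    omega
  · have hx : (K ∙ η) ⊔ ((K ∙ l) ⊔ K ∙ m) ≤ D.U :=
      sup_le (sing_le hη) (sup_le (sing_le hl) (sing_le hm))
    have d3 := D.inj.df3 hx (X3 hi hm')
    refine N.no_df o ?_ ((D.inj.df2 xle x2).mul D.inj (d3.mul D.inj d3))
    have hlm := sup_le (sing_le hl) (sing_le hm)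
    refine (mul_le_mul' le_rfl (eta_mul1 hη hlm hlm)).trans
      ((eta_mul2 hη (sing_le hl) (by rw [pow_two]; exact mul_le_mul' hlm hlm)).trans
        (sup_le T.etaU ?_))
    have b1 : l * (l * m) ∈ D.M3 κ P P P d 3 := xm (mul_mem_mul hl' (by
      simpa using sub_mem (mem_sup_right (S := (K ∙ η) * D.U) hc') (mem_sup_left ec)))
    simp only [Submodule.mul_sup, Submodule.sup_mul, sing_mul, sup_le_iff,
      span_singleton_le_iff_mem]
    refine ⟨⟨xm (mul_mem_mul hl' (xx (mul_mem_mul hl' hl'))), by rwa [mul_comm m]⟩, b1, ?_⟩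
    simpa using sub_mem (sub_mem (smul_mem _ k2 (M3_of (κ := κ) (d := d) j1))
      (smul_mem _ k1 (M3_of j2))) (T.etaU ek)

lemma Ed.chi (E : Ed D κ P P y1 y2 h) (N : NM D κ) (o : D.Od P P P d) {f g : F} (hf : f ∈ D.U)
    (hg : g ∈ D.U) (e : D.L2 κ P P P (D.rho κ P P y1 y2) = D.G κ P P y1 * g + D.G κ P P y2 * f)
    {y : B} (hy : y ∈ D.V) (ey : D.ev P y = 0) :
    algebraMap F B (D.G κ P P y) * D.rho κ P P y1 y2 - algebraMap F B g * (y1 * y) -
      algebraMap F B f * (y * y2) ∈ D.V ^ 3 ⊓ D.J3 P P P := by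
  have k : ∀ u ∈ D.U, ∀ r ∈ D.V ^ 2 ⊓ D.J2 P P, algebraMap F B u * r ∈ D.V ^ 3 ⊓ D.J2 P P :=
    fun u hu r hr => ⟨mul_pow_succ (D.le u hu) hr.1, J2_mul _ hr.2⟩
  refine N.J3_of o (sub_mem (sub_mem (k _ (N.le o (W_of hy)) _ (E.rho_mem N o))
    (k _ hg _ (o.yy E.v1 hy E.e1 ey))) (k _ hf _ (o.yy hy E.v2 ey E.e2))) ?_
  rw [map_sub, map_sub, lin_alg, lin_alg, lin_alg, e, o.L2_mul E.e1 ey, o.L2_mul ey E.e2]; ring

lemma TA.a3 (T : TA D κ P P P d h η) (N : NM D κ) : False := by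
  obtain ⟨l, hl, hi, el⟩ := T.exl N fun h3 => T.two N h3 h3
  have o := T.o
  have hη := T.memU N
  by_cases hd : P = d
  · subst hd
    have hW : η ∈ D.W κ P P := by
      have : D.W κ P P = (K ∙ η) ⊔ D.W κ P P := Submodule.eq_of_le_of_finrank_le le_sup_right
        (by rw [el, ← span_insert, hi.dim]; exact N.two o)
      rw [this]; exact mem_sup_left (mem_span_singleton_self _)
    obtain ⟨y1, v1, e1, g1⟩ := o.ra.W_mem hW
    obtain ⟨y2, E⟩ := N.ed1 o T.v (J3_le T.J) T.h0 v1 e1 (by rw [g1]; exact T.ne N)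
    have hc := T.a3a N E
    rw [E.W_eq N o] at hc
    obtain ⟨g, hg, f, hf, e⟩ := mem_pairU hc
    have j1 := E.chi N o hf hg e E.v1 E.e1
    have j2 := E.chi N o hf hg e E.v2 E.e2
    have hb := N.le o (W_of E.v2)
    have hi' := E.ind
    rw [g1] at hi'
    refine T.a3f N E hf hg e hb hi' (by rw [E.W_eq N o, g1, span_insert, ← sup_assoc, sup_idem]) hf
      (by rw [e, g1, add_sub_cancel_right]; exact mul_mem_mul (mem_span_singleton_self _) hg)
      (k1 := 0) (k2 := 1) (Or.inr one_ne_zero) rfl rfl j1 j2 ?_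
    have x1 := N.m3 o 3 (M3_of j1)
    have x2 := N.m3 o 3 (M3_of j2)
    set χ1 := algebraMap F B (D.G κ P P y1) * D.rho κ P P y1 y2 - algebraMap F B g * (y1 * y1) -
      algebraMap F B f * (y1 * y2) with h1
    set χ2 := algebraMap F B (D.G κ P P y2) * D.rho κ P P y1 y2 - algebraMap F B g * (y1 * y2) -
      algebraMap F B f * (y2 * y2) with h2
    have e2 : algebraMap F B (D.G κ P P y2) * χ1 - algebraMap F B (D.G κ P P y1) * χ2 =
        algebraMap F B g * (y1 * D.rho κ P P y1 y2) +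
          algebraMap F B f * (y2 * D.rho κ P P y1 y2) := by
      simp only [h1, h2, rho]; ring
    have e3 := congrArg (D.L3 κ P P P P) e2
    rw [map_sub, map_add, lin_alg, lin_alg, lin_alg, lin_alg, o.L3_mul E.e1 (E.rho_mem N o).2,
      o.L3_mul E.e2 (E.rho_mem N o).2, e, g1] at e3
    obtain ⟨m, hm, -, e4⟩ := D.inj.div (k := 2) hη hb hi'
      (f := D.L3 κ P P P P χ2 + η * (g * g) + D.G κ P P y2 * (f * g) + D.G κ P P y2 * (f * g))
      (sub_mem x1 (mul_pow_succ hb (mul_mem_two hf hf))) (by linear_combination -e3)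
      (add_mem (add_mem (add_mem x2 (mul_pow_succ hη (mul_mem_two hg hg)))
        (mul_pow_succ hb (mul_mem_two hf hg))) (mul_pow_succ hb (mul_mem_two hf hg)))
    rw [one_smul, zero_smul, sub_zero, e4]
    exact mul_mem_mul (mem_span_singleton_self _) hm
  · obtain ⟨y1, y2, E⟩ := N.ed0 o T.v (J3_le T.J) T.h0
    have hc := T.a3a N E
    rw [E.W_eq N o] at hc
    obtain ⟨g, hg, f, hf, e⟩ := mem_pairU hc
    have j1 := E.chi N o hf hg e E.v1 E.e1
    have j2 := E.chi N o hf hg e E.v2 E.e2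
    have ha := N.le o (W_of E.v1)
    have hb := N.le o (W_of E.v2)
    have gd := N.G_eq o.s23.s12 hd
    have k : ∀ y ∈ D.V, ∃ p k : K, p • η + k • l = D.G κ P d y := fun y hy => by
      rw [← mem_span_pair, span_insert, ← el]; exact mem_sup_right (W_of hy)
    obtain ⟨p1, k1, f1⟩ := k y1 E.v1
    obtain ⟨p2, k2, f2⟩ := k y2 E.v2
    have hk : k1 ≠ 0 ∨ k2 ≠ 0 := by
      by_contra hk
      push Not at hk
      have : D.W κ P d ≤ K ∙ η := (E.G_le N o P d).trans (sup_le (pair_le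
        (by rw [← f1, hk.1, zero_smul, add_zero]; exact smul_mem _ _ (mem_span_singleton_self _))
        (by rw [← f2, hk.2, zero_smul, add_zero]; exact smul_mem _ _ (mem_span_singleton_self _)))
        (sing_le (T.G_eta N)))
      have := (Submodule.finrank_mono this).trans (finrank_sing_le _)
      have := N.two o.s23.s12
      omega
    rw [gd, E.e1, sub_zero] at f1
    rw [gd, E.e2, sub_zero] at f2
    have hm := sub_mem (smul_mem _ k2 ha) (smul_mem _ k1 hb)
    have hp := sub_mem (smul_mem _ p2 ha) (smul_mem _ p1 hb)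
    refine T.a3f N E hf hg e hl hi el hm ?_ hk rfl rfl j1 j2 ?_
    · rw [N.L2_eq o.s23 hd hd (E.rho_mem N o).2]
      convert mul_mem_mul (mem_span_singleton_self η) hp using 1
      simp only [rho, map_sub, map_mul, AlgHom.commutes, ← f1, ← f2, Algebra.smul_def,
        Algebra.algebraMap_self, RingHom.id_apply]
      ring
    · rw [N.L3_eq o hd hd hd j1.2, N.L3_eq o hd hd hd j2.2]
      convert mul_mem_mul (mem_span_singleton_self η) (sub_mem (mul_mem_two hm hp)
        (smul_mem _ (k2 * p1 - k1 * p2) (add_mem (mul_mem_two hg (o.rd.mem _ E.v1))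
          (mul_mem_two hf (o.rd.mem _ E.v2))))) using 1
      simp only [rho, map_sub, map_mul, AlgHom.commutes, ← f1, ← f2, Algebra.smul_def,
        Algebra.algebraMap_self, RingHom.id_apply]
      ring

theorem Od.false [Infinite K] (o : D.Od a b c d) : False := by
  obtain ⟨κ, N⟩ := exists_NM D
  refine TB.false (fun a b c d o => ?_) N o
  by_contra h
  obtain ⟨h, ⟨hv, hJ⟩, h0⟩ := (Submodule.ne_bot_iff _).1 h
  have T : TA D κ a b c d h _ := ⟨o, hv, hJ, h0, rfl⟩
  by_cases hab : a = b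
  · subst hab
    by_cases hac : a = c
    · subst hac; exact T.a3 N
    · exact T.a2 N hac
  by_cases hac : a = c
  · subst hac; exact T.s12.a2 N hab
  by_cases hbc : b = c
  · subst hbc; exact T.s01.s12.a2 N (Ne.symm hab)
  · exact T.a1 N hab hac hbc

end MG

end Pool.Agent.Lib.MP_a9ad87_al.Ch
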