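import Pool.Agent.Lib.MP_a9ad87_al.ChLin
import Pool.Agent.Lib.MP_a9ad87_al.ChTA2

namespace Pool.Agent.Lib.MP_a9ad87_al.Ch

open Module Submodule

lemma exists_soc {B : Type*} [CommRing B] [IsArtinianRing B] [IsNoetherianRing B] {I : Ideal B}
    (hI : I ≠ ⊤) : ∃ β : B, β ≠ 0 ∧ ∀ m ∈ I, β * m = 0 := by
  have key : ∀ k, ∀ r : B, r ≠ 0 → (∀ m ∈ I ^ k, r * m = 0) → ∃ β : B, β ≠ 0 ∧ ∀ m ∈ I, β * m = 0 := by
    intro k
    induction k with
    | zero => exact fun r h0 h => absurd (by simpa using h 1 (by simp)) h0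
    | succ k ih =>
      intro r h0 h
      by_cases h1 : ∀ m ∈ I, r * m = 0
      · exact ⟨r, h0, h1⟩
      push Not at h1
      obtain ⟨m, hm, h1⟩ := h1
      exact ih _ h1 fun m' hm' => by
        rw [mul_assoc]; exact h _ (by rw [pow_succ']; exact Ideal.mul_mem_mul hm hm')
  obtain ⟨n, hn⟩ := IsArtinian.monotone_stabilizes (R := B) (M := B)
    ⟨fun n => OrderDual.toDual (I ^ n), fun _ _ h => Ideal.pow_le_pow_right h⟩
  have e : I ^ n = I ^ (n + 1) := hn (n + 1) (by omega)
  obtain ⟨r, h1, h2⟩ := exists_sub_one_mem_and_smul_eq_zero_of_fg_of_le_smul I (I ^ n)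
    (IsNoetherian.noetherian _) (by rw [smul_eq_mul, ← pow_succ', ← e])
  refine key n r (fun h => hI ?_) h2
  rw [h, zero_sub, neg_mem_iff] at h1
  exact (Ideal.eq_top_iff_one I).2 h1

variable {K F B : Type*} [Field K] [Field F] [Algebra K F] [CommRing B] [Algebra F B]
    [Algebra K B] [IsScalarTower K F B]

namespace AS

def EV (D : AS K F B) : Prop :=
  ∀ I : Ideal B, I.IsMaximal → ∃ e : B →ₐ[F] F, (∀ r, e r = 0 ↔ r ∈ I) ∧ ∀ v ∈ D.V, e v ∈ D.U

theorem ev {K B : Type*} [Field K] [IsAlgClosed K] [CharZero K] [CommRing B] [Algebra (FF K) B]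
    [Algebra K B] [IsScalarTower K (FF K) B] (D : AS K (FF K) B) (hx : D.x = xx K) : D.EV := by
  intro I hI
  have := D.finB
  have := IsArtinianRing.of_finite (FF K) B
  have := IsNoetherianRing.of_finite (FF K) B
  let : Field (B ⧸ I) := Ideal.Quotient.field I
  let π := Ideal.Quotient.mkₐ K I
  have hpow : ∀ j, (D.V.map π.toLinearMap) ^ j = (D.V ^ j).map π.toLinearMap := fun j =>
    (Submodule.map_pow _ π j).symm
  have hgen : Algebra.adjoin (FF K) (D.V.map π.toLinearMap : Set (B ⧸ I)) = ⊤ := by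
    have := congrArg (Subalgebra.map (Ideal.Quotient.mkₐ (FF K) I)) D.gen
    rw [AlgHom.map_adjoin, Algebra.map_top, (AlgHom.range_eq_top _).2
      (Ideal.Quotient.mkₐ_surjective _ I)] at this
    exact this
  let E : LS K (FF K) (B ⧸ I) :=
    { x := D.x
      R := D.V.map π.toLinearMap
      inj := D.inj
      frc := D.frc
      one := hx ▸ one_mem_xx
      fin := inferInstance
      finL := inferInstance
      le := fun u hu => ⟨_, D.le u hu, rfl⟩
      gen := hgen
      nn := by
        obtain ⟨m, hm⟩ := D.nn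
        refine ⟨m, ?_⟩
        rw [hpow, hpow]
        refine (Submodule.map_mono hm).trans ?_
        rw [Submodule.map_mul, ← Submodule.map_comp]
        rfl
      ss := by
        obtain ⟨β, h0, hβ⟩ := exists_soc hI.ne_top
        obtain ⟨C, hC⟩ := D.hb
        have e1 := (LinearMap.mulLeft (FF K) β).finrank_range_add_finrank_ker
        have e2 : LinearMap.ker (LinearMap.mulLeft (FF K) β) = I.restrictScalars (FF K) := by
          have : I = LinearMap.ker (LinearMap.mulLeft B β) := hI.eq_of_le (fun h => h0 (by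
            have : (1 : B) ∈ LinearMap.ker (LinearMap.mulLeft B β) := by rw [h]; trivial
            simpa using this)) hβ
          ext r; rw [this]; rfl
        have e3 := (Ideal.Quotient.mkₐ (FF K) I).toLinearMap.finrank_range_add_finrank_ker
        have e4 : LinearMap.ker (Ideal.Quotient.mkₐ (FF K) I).toLinearMap =
            I.restrictScalars (FF K) := by
          ext r; exact Ideal.Quotient.eq_zero_iff_mem
        rw [e4, LinearMap.range_eq_top.2 (Ideal.Quotient.mkₐ_surjective (FF K) I), finrank_top] at e3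
        rw [e2, ← span_eq_range] at e1
        refine ⟨5 + C, fun j0 => ?_⟩
        obtain ⟨j, hj, e⟩ := D.ss (Ideal.span {β}) I (by
          rw [eq_bot_iff, Ideal.mul_le]
          intro a ha b hb
          obtain ⟨c, rfl⟩ := Ideal.mem_span_singleton'.1 ha
          rw [mul_assoc, hβ b hb, mul_zero]; rfl) (finrank (FF K) (B ⧸ I)) (by omega) j0
        refine ⟨j, hj, ?_⟩
        have e5 := finrank_map_add (D.V ^ j) π.toLinearMap
        have e6 : LinearMap.ker π.toLinearMap = I.restrictScalars K := by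
          ext r; exact Ideal.Quotient.eq_zero_iff_mem
        rw [e6] at e5
        rw [hpow]
        have e7 := Nat.mul_le_mul_left (finrank (FF K) (B ⧸ I)) (hC j).1
        have e8 : finrank (FF K) (B ⧸ I) * (5 * j + C) ≤ 4 * (5 * j + C) :=
          Nat.mul_le_mul_right _ (by have := D.dimB; omega)
        nlinarith [Nat.zero_le (C * j)] }
  have hs : Function.Surjective (Algebra.ofId (FF K) (B ⧸ I)) := by
    rw [← AlgHom.range_eq_top, eq_top_iff, ← hgen, Algebra.adjoin_le_iff]
    intro y hy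
    obtain ⟨u, -, e⟩ := E.lin hx hy
    exact ⟨u, e⟩
  let φ := AlgEquiv.ofBijective (Algebra.ofId (FF K) (B ⧸ I)) ⟨RingHom.injective _, hs⟩
  refine ⟨φ.symm.toAlgHom.comp (Ideal.Quotient.mkₐ (FF K) I), fun r => ?_, fun v hv => ?_⟩
  · simp [Ideal.Quotient.eq_zero_iff_mem]
  · obtain ⟨u, hu, e⟩ := E.lin hx (y := π v) ⟨v, hv, rfl⟩
    have : φ u = Ideal.Quotient.mkₐ (FF K) I v := e
    rw [AlgHom.comp_apply, ← this]
    simpa using hu

variable (D : AS K F B)

lemma big (C : ℕ) : ∃ j0, ∀ j, j0 ≤ j → C * (j + 1) < s j := ⟨6 * C, fun j hj => by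
  have := six_s j
  nlinarith [Nat.zero_le (j * j * j), Nat.zero_le (j * j), Nat.mul_le_mul_right (j + 1) hj,
    Nat.zero_le (j * j * (j + 1))]⟩

include D in
lemma ker_ev (e : B →ₐ[F] F) : finrank F ((RingHom.ker e).restrictScalars F) = 3 := by
  have := D.finB
  have h1 := e.toLinearMap.finrank_range_add_finrank_ker
  rw [LinearMap.range_eq_top.2 (fun u => ⟨algebraMap F B u, by simp⟩), finrank_top, finrank_self,
    D.dimB] at h1
  have : LinearMap.ker e.toLinearMap = (RingHom.ker e).restrictScalars F := by ext; rfl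
  rw [← this]; omega

lemma ann_le (e : B →ₐ[F] F) (he : ∀ v ∈ D.V, e v ∈ D.U) {A : Submodule F B}
    (hA : ∀ a ∈ A, ∀ m, e m = 0 → a * m = 0) : finrank F A ≤ 1 := by
  have := D.finB
  by_contra hc
  obtain ⟨C, hC⟩ := D.hb
  obtain ⟨j0, h0⟩ := big (5 + C)
  obtain ⟨j, hj, h⟩ := D.ss (RingHom.ker e).annihilator (RingHom.ker e)
    (Submodule.annihilator_mul _) 2 (le_trans (by omega) (Submodule.finrank_mono
      (show A ≤ _ from fun a ha => Submodule.mem_annihilator.2 (hA a ha)))) j0
  have h1 := D.dim_ev e he j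
  have : LinearMap.ker (e.toLinearMap.restrictScalars K) = (RingHom.ker e).restrictScalars K := by
    ext; rfl
  rw [this] at h1
  have := (hC j).1
  have := h0 j hj
  nlinarith [Nat.zero_le (C * j)]

lemma ker_le (e : B →ₐ[F] F) {I : Ideal B} (h : ∀ v ∈ D.V, v - algebraMap F B (e v) ∈ I) {r : B}
    (hr : e r = 0) : r ∈ I := by
  have key : ∀ r ∈ Algebra.adjoin F (D.V : Set B), r - algebraMap F B (e r) ∈ I := fun r hr => by
    induction hr using Algebra.adjoin_induction with
    | mem z hz => exact h z hz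
    | algebraMap φ => simp
    | add a b _ _ h1 h2 => convert add_mem h1 h2 using 1; simp only [map_add]; ring
    | mul a b _ _ h1 h2 =>
      convert add_mem (I.mul_mem_right b h1) (I.mul_mem_left (algebraMap F B (e a)) h2) using 1
      simp only [map_mul]; ring
  simpa [hr] using key r (by rw [D.gen]; trivial)

theorem curv [Infinite K] (hev : D.EV) (h : ∀ I : Ideal B, I.IsMaximal →
    finrank F (I.restrictScalars F) ≤ finrank F ((I * I).restrictScalars F) + 1) : False := by
  classical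
  have := D.finB
  have := D.nontriv
  have := IsArtinianRing.of_finite F B
  have := IsNoetherianRing.of_finite F B
  choose e e1 e2 using fun I : MaximalSpectrum B => hev I.1 I.2
  obtain ⟨T, hT⟩ := Submodule.exists_forall_notMem_of_forall_ne_top
    (ι := {I : MaximalSpectrum B // I.1 * I.1 ≠ I.1} ⊕ {p : MaximalSpectrum B × _ // p.1 ≠ p.2})
    (Sum.elim (fun I => ((I.1.1 * I.1.1).restrictScalars K).comap
        (((LinearMap.id - Algebra.linearMap F B ∘ₗ (e I.1).toLinearMap).restrictScalars K) ∘ₗ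
          D.V.subtype))
      fun p => LinearMap.ker ((((e p.1.1).toLinearMap - (e p.1.2).toLinearMap).restrictScalars K) ∘ₗ
          D.V.subtype)) (by
      rintro (⟨I, hI⟩ | ⟨⟨I, J⟩, hI⟩) ht
      · refine hI (le_antisymm Ideal.mul_le_left fun r hr => D.ker_le (e I) (fun v hv => ?_)
          ((e1 I r).2 hr))
        exact (Submodule.eq_top_iff'.1 ht) ⟨v, hv⟩
      · refine hI (MaximalSpectrum.ext (I.2.eq_of_le J.2.ne_top fun r hr =>
          D.ker_le (e I) (fun v hv => (e1 J _).1 ?_) ((e1 I r).2 hr)))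
        have : e I v - e J v = 0 := (Submodule.eq_top_iff'.1 ht) ⟨v, hv⟩
        simp [sub_eq_zero.1 this])
  have hinj : ∀ I J, e I T = e J T → I = J := fun I J h => by
    by_contra hc
    exact hT (Sum.inr ⟨(I, J), hc⟩) (sub_eq_zero.2 h)
  obtain ⟨I0⟩ : Nonempty (MaximalSpectrum B) := inferInstance
  let M : MG K F B := ⟨D, T, T.2, fun a => if h : ∃ I, e I T = a then e h.choose else e I0⟩
  have hev' : ∀ I, M.ev (e I T) = e I := fun I => by
    have h : ∃ J, e J T = e I T := ⟨I, rfl⟩
    simp only [M, dif_pos h, hinj _ _ h.choose_spec]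
  have ht : ∀ I, M.t (e I T) ∈ I.1 := fun I => (e1 I _).1 (by simp [MG.t, M])
  have hk : ∀ I, Ideal.span {M.t (e I T)} = I.1 := fun I => by
    refine le_antisymm ((Ideal.span_singleton_le_iff_mem _).2 (ht I)) ?_
    have h1 : I.1 ≤ Ideal.span {M.t (e I T)} ⊔ I.1 • I.1 := by
      rw [smul_eq_mul]
      by_cases hc : I.1 * I.1 = I.1
      · rw [hc]; exact le_sup_right
      have h2 : (I.1 * I.1).restrictScalars F ⊔ (F ∙ M.t (e I T)) ≤ I.1.restrictScalars F :=
        sup_le (fun r hr => Ideal.mul_le_left hr) (sing_le (ht I))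
      have h3 := finrank_lt_sup le_sup_left (mem_sup_right (mem_span_singleton_self _))
        (show M.t (e I T) ∉ (I.1 * I.1).restrictScalars F from hT (Sum.inl ⟨I, hc⟩))
      intro r hr
      obtain ⟨a, ha, b, hb, rfl⟩ := mem_sup.1
        ((Submodule.eq_of_le_of_finrank_le h2 ((h _ I.2).trans h3)).ge hr)
      obtain ⟨c, rfl⟩ := mem_span_singleton.1 hb
      rw [Algebra.smul_def]
      exact add_mem (mem_sup_right ha)
        (mem_sup_left (Ideal.mul_mem_left _ _ (Ideal.mem_span_singleton_self _)))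
    obtain ⟨r, r1, r2⟩ := exists_sub_one_mem_and_smul_le_of_fg_of_le_sup
      (IsNoetherian.noetherian _) le_rfl h1
    have h4 : Ideal.span {M.t (e I T)} ⊔ Ideal.span {r} = ⊤ := by
      by_contra hc
      obtain ⟨J, hJ, h5⟩ := Ideal.exists_le_maximal _ hc
      have h6 := (e1 ⟨J, hJ⟩ _).2 (h5 (mem_sup_left (Ideal.mem_span_singleton_self _)))
      simp only [MG.t, M, map_sub, AlgHom.commutes, Algebra.algebraMap_self, RingHom.id_apply,
        sub_eq_zero] at h6
      obtain rfl := hinj _ _ h6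
      have := sub_mem (h5 (mem_sup_right (Ideal.mem_span_singleton_self _))) r1
      exact hJ.ne_top ((Ideal.eq_top_iff_one _).2 (by simpa using this))
    intro m hm
    obtain ⟨a, ha, b, hb, e⟩ := mem_sup.1 ((Ideal.eq_top_iff_one _).1 h4)
    obtain ⟨c, rfl⟩ := Ideal.mem_span_singleton'.1 hb
    rw [← mul_one m, ← e, mul_add, mul_comm c, ← mul_assoc, mul_comm m r]
    exact add_mem (Ideal.mul_mem_left _ _ ha)
      (Ideal.mul_mem_right _ _ (r2 (smul_mem_pointwise_smul m r _ hm)))
  have hR : ∀ I, M.Rt (e I T) := fun I => by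
    refine ⟨by rw [hev'], fun r hr => ?_, ?_, by rw [hev']; exact e2 I⟩
    · rw [hev', e1, ← hk] at hr
      exact Ideal.mem_span_singleton.1 hr
    · have h1 := (LinearMap.mulLeft F (M.t (e I T))).finrank_range_add_finrank_ker
      have h2 : RingHom.ker (e I) = I.1 := by ext r; exact e1 I r
      rw [← span_eq_range, hk, ← h2, D.ker_ev, D.dimB] at h1
      omega
  have step : ∀ g : B, ∃ I, finrank F (LinearMap.range (LinearMap.mulLeft F (g * M.t (e I T)))) ≤
      finrank F (LinearMap.range (LinearMap.mulLeft F g)) - 1 := fun g => by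
    by_cases h0 : g = 0
    · exact ⟨I0, by rw [h0, zero_mul, LinearMap.mulLeft_zero_eq_zero, LinearMap.range_zero]; simp⟩
    obtain ⟨J, hJ, h5⟩ := Ideal.exists_le_maximal (LinearMap.ker (LinearMap.mulLeft B g)) fun h =>
      h0 (by simpa using (Ideal.eq_top_iff_one _).1 h)
    refine ⟨⟨J, hJ⟩, Nat.le_sub_one_of_lt (finrank_lt_sup (c := g) ?_ ⟨1, by simp⟩ ?_)⟩
    · rintro _ ⟨q, rfl⟩; exact ⟨_, (mul_assoc _ _ q).symm⟩
    · rintro ⟨q, hq⟩
      have h6 : 1 - M.t (e ⟨J, hJ⟩ T) * q ∈ J := h5 (by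
        simp only [LinearMap.mem_ker, LinearMap.mulLeft_apply] at hq ⊢
        linear_combination -hq)
      have := add_mem h6 (J.mul_mem_right q (ht ⟨J, hJ⟩))
      exact hJ.ne_top ((Ideal.eq_top_iff_one _).2 (by simpa using this))
  obtain ⟨I1, h1⟩ := step 1
  obtain ⟨I2, h2⟩ := step (1 * M.t (e I1 T))
  obtain ⟨I3, h3⟩ := step (1 * M.t (e I1 T) * M.t (e I2 T))
  obtain ⟨I4, h4⟩ := step (1 * M.t (e I1 T) * M.t (e I2 T) * M.t (e I3 T))
  have h5 := Submodule.finrank_le (LinearMap.range (LinearMap.mulLeft F (1 : B)))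
  rw [D.dimB] at h5
  have h6 := Submodule.finrank_eq_zero.1 (Nat.le_zero.1 (h4.trans (by omega)))
  refine MG.Od.false (D := M) ⟨hR I1, hR I2, hR I3, hR I4, ?_⟩
  simpa [mul_assoc] using LinearMap.congr_fun (LinearMap.range_eq_bot.1 h6) 1

/-- the remaining local algebra -/
structure Loc (e : B →ₐ[F] F) (z : B) : Prop where
  mem : ∀ v ∈ D.V, e v ∈ D.U
  z0 : z ≠ 0
  ez : e z = 0
  ann : ∀ m, e m = 0 → z * m = 0
  sq : ∀ m m', e m = 0 → e m' = 0 → m * m' ∈ F ∙ z
  nd : ∀ m, (∀ m', e m' = 0 → m * m' = 0) → m ∈ F ∙ z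

theorem loc [Infinite K] (hev : D.EV) : ∃ e z, D.Loc e z := by
  have := D.finB
  have := IsNoetherianRing.of_finite F B
  obtain ⟨I, hI, h⟩ : ∃ I : Ideal B, I.IsMaximal ∧
      finrank F ((I * I).restrictScalars F) + 1 < finrank F (I.restrictScalars F) := by
    by_contra hc
    push Not at hc
    exact D.curv hev hc
  obtain ⟨e, e1, e2⟩ := hev I hI
  have h2 : RingHom.ker e = I := by ext r; exact e1 r
  have h3 := D.ker_ev e
  rw [h2] at h3
  have h4 : (I * I).restrictScalars F ≠ ⊥ := fun h0 => by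
    have := D.ann_le e e2 (A := I.restrictScalars F) fun a ha m hm =>
      (Submodule.eq_bot_iff _).1 h0 _ (Ideal.mul_mem_mul ha ((e1 m).1 hm))
    omega
  obtain ⟨z, hz, z0⟩ := (Submodule.ne_bot_iff _).1 h4
  have h5 : (F ∙ z) = (I * I).restrictScalars F := Submodule.eq_of_le_of_finrank_le (sing_le hz)
    (by rw [finrank_span_singleton z0]; omega)
  have h6 : ∀ m, e m = 0 → z * m = 0 := by
    by_contra hc
    push Not at hc
    obtain ⟨m, hm, hc⟩ := hc
    have h7 : (F ∙ (z * m)) = (I * I).restrictScalars F := Submodule.eq_of_le_of_finrank_le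
      (sing_le (Ideal.mul_mem_right _ _ hz)) (by rw [finrank_span_singleton hc]; omega)
    obtain ⟨r, r1, r2⟩ := exists_sub_one_mem_and_smul_eq_zero_of_fg_of_le_smul I (I * I)
      (IsNoetherian.noetherian _) fun a ha => by
        obtain ⟨c, rfl⟩ := mem_span_singleton.1 (h7.ge ha)
        rw [Algebra.smul_def c, mul_comm z]
        exact Ideal.mul_mem_left _ _ (Ideal.mul_mem_mul ((e1 m).1 hm) hz)
    have h8 := finrank_map_add (I.restrictScalars F) (LinearMap.mulLeft F r)
    have h9 := D.ann_le e e2 (A := (I.restrictScalars F).map (LinearMap.mulLeft F r)) (by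
      rintro _ ⟨a, ha, rfl⟩ m hm
      rw [LinearMap.mulLeft_apply, mul_assoc]
      exact r2 _ (Ideal.mul_mem_mul ha ((e1 m).1 hm)))
    have h10 := Submodule.finrank_mono (show I.restrictScalars F ⊓
      LinearMap.ker (LinearMap.mulLeft F r) ≤ (I * I).restrictScalars F from fun a ha => by
        have h : r * a = 0 := ha.2
        rw [show a = -((r - 1) * a) by linear_combination h]
        exact neg_mem (Ideal.mul_mem_mul r1 ha.1))
    omega
  refine ⟨e, z, e2, z0, (e1 z).2 (Ideal.mul_le_left hz), h6, fun m m' h1 h2 =>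
    h5.ge (Ideal.mul_mem_mul ((e1 _).1 h1) ((e1 _).1 h2)), fun m hm => ?_⟩
  by_contra hc
  have h7 := D.ann_le e e2 (A := span F {z, m}) fun a ha m' hm' => by
    obtain ⟨c, d, rfl⟩ := mem_span_pair.1 ha
    rw [add_mul, smul_mul_assoc, smul_mul_assoc, h6 m' hm', hm m' hm']; simp
  rw [(ind2_of z0 hc).dim] at h7
  omega

end AS

end Pool.Agent.Lib.MP_a9ad87_al.Ch
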