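import Mathlib

namespace Pool.Agent.Lib.MP_a9ad87_al.Ch

open MvPolynomial Module

/-- homogeneous polynomials of degree `i` in `n` variables -/
noncomputable abbrev Hm (n : ℕ) (K : Type*) [Field K] (i : ℕ) :
    Submodule K (MvPolynomial (Fin n) K) := homogeneousSubmodule (Fin n) K i

variable {K : Type*} [Field K] {n : ℕ}

instance finHm (i : ℕ) : FiniteDimensional K (Hm n K i) :=
  Module.Finite.iff_fg.2 (homogeneousSubmodule_fg (Fin n) K i)

/-- monomials of degree `i` -/
noncomputable def mons (n i : ℕ) : Finset (Fin n →₀ ℕ) := Finset.univ.finsuppAntidiag i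

lemma mem_mons {i : ℕ} {m : Fin n →₀ ℕ} : m ∈ mons n i ↔ m.degree = i := by
  rw [mons, Finset.mem_finsuppAntidiag, Finsupp.degree_eq_sum]
  simp

lemma card_mons (n i : ℕ) : (mons n i).card = (n + i - 1).choose i := by
  rw [mons, Finset.card_finsuppAntidiag_nat_eq_choose]; simp

/-- a fixed monomial order -/
noncomputable def mo (n : ℕ) : MonomialOrder (Fin n) := MonomialOrder.lex

/-- leading monomials of a subspace -/
def LM (X : Submodule K (MvPolynomial (Fin n) K)) : Set (Fin n →₀ ℕ) :=
  {m | ∃ f ∈ X, f ≠ 0 ∧ (mo n).degree f = m}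

lemma LM_mono {X Y : Submodule K (MvPolynomial (Fin n) K)} (h : X ≤ Y) : LM X ⊆ LM Y := by
  rintro m ⟨f, hf, h1, h2⟩; exact ⟨f, h hf, h1, h2⟩

lemma LM_sub {X : Submodule K (MvPolynomial (Fin n) K)} {i : ℕ} (hX : X ≤ Hm n K i) :
    LM X ⊆ mons n i := by
  rintro m ⟨f, hf, h1, rfl⟩
  have h2 := (mo n).coeff_degree_ne_zero_iff.2 h1
  rw [Finset.mem_coe, mem_mons]
  by_contra h
  exact h2 (IsHomogeneous.coeff_eq_zero (hX hf) h)

lemma LM_fin {X : Submodule K (MvPolynomial (Fin n) K)} {i : ℕ} (hX : X ≤ Hm n K i) :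
    (LM X).Finite := (mons n i).finite_toSet.subset (LM_sub hX)

lemma li_of_deg {ι : Type*} (f : ι → MvPolynomial (Fin n) K) (h0 : ∀ a, f a ≠ 0)
    (hinj : Function.Injective fun a => (mo n).degree (f a)) : LinearIndependent K f := by
  classical
  rw [linearIndependent_iff']
  intro s c hs a ha
  by_contra hc
  have hne : (s.filter fun b => c b ≠ 0).Nonempty := ⟨a, by simp [ha, hc]⟩
  obtain ⟨b, hb, hmax⟩ := Finset.exists_max_image _ (fun b => (mo n).toSyn ((mo n).degree (f b))) hne
  rw [Finset.mem_filter] at hb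
  have h1 := congrArg (coeff ((mo n).degree (f b))) hs
  rw [coeff_sum, Finset.sum_eq_single b] at h1
  · rw [coeff_smul, coeff_zero, smul_eq_mul, mul_eq_zero] at h1
    rcases h1 with h1 | h1
    · exact hb.2 h1
    · exact (mo n).coeff_degree_ne_zero_iff.2 (h0 b) h1
  · intro b' hb' hne'
    by_cases hc' : c b' = 0
    · simp [hc']
    · have h2 := hmax b' (by simp [hb', hc'])
      have h3 : (mo n).toSyn ((mo n).degree (f b')) ≠ (mo n).toSyn ((mo n).degree (f b)) :=
        fun h => hne' (hinj ((mo n).toSyn.injective h))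
      rw [coeff_smul, (mo n).coeff_eq_zero_of_lt (lt_of_le_of_ne h2 h3), smul_zero]
  · intro h; exact absurd hb.1 h

theorem finrank_LM {X : Submodule K (MvPolynomial (Fin n) K)} {i : ℕ} (hX : X ≤ Hm n K i) :
    finrank K X = (LM X).ncard := by
  classical
  have : FiniteDimensional K X := Submodule.finiteDimensional_of_le hX
  have : Fintype (LM X) := (LM_fin hX).fintype
  rw [Set.ncard_eq_toFinset_card', Set.toFinset_card]
  apply le_antisymm
  · let g : X →ₗ[K] (LM X → K) := LinearMap.pi fun m => (lcoeff K m.1) ∘ₗ X.subtype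
    have hg : Function.Injective g := by
      rw [← LinearMap.ker_eq_bot, eq_bot_iff]
      intro f hf
      by_contra h
      have h1 : (f : MvPolynomial (Fin n) K) ≠ 0 := fun h' => h (Subtype.ext h')
      have h2 := congrFun (LinearMap.mem_ker.1 hf) ⟨_, f.1, f.2, h1, rfl⟩
      exact (mo n).coeff_degree_ne_zero_iff.2 h1 (by simpa [g] using h2)
    simpa using LinearMap.finrank_le_finrank_of_injective hg
  · have h : ∀ m : LM X, ∃ f : X, (f : MvPolynomial (Fin n) K) ≠ 0 ∧ (mo n).degree f.1 = m.1 :=
      fun m => by obtain ⟨f, hf, h1, h2⟩ := m.2; exact ⟨⟨f, hf⟩, h1, h2⟩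
    choose f h1 h2 using h
    have h3 : LinearIndependent K fun m => (f m).1 :=
      li_of_deg _ h1 fun a b hab => Subtype.ext (by simpa [h2] using hab)
    have h4 : LinearIndependent K f := LinearIndependent.of_comp X.subtype h3
    exact h4.fintype_card_le_finrank

lemma LM_Hm (i : ℕ) : LM (Hm n K i) = mons n i := by
  classical
  apply Set.Subset.antisymm (LM_sub le_rfl)
  intro m hm
  refine ⟨monomial m 1, isHomogeneous_monomial 1 (mem_mons.1 hm), by simp, ?_⟩
  rw [MonomialOrder.degree_monomial, if_neg one_ne_zero]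

theorem finrank_Hm (i : ℕ) : finrank K (Hm n K i) = (n + i - 1).choose i := by
  rw [finrank_LM le_rfl, LM_Hm, Set.ncard_coe_finset, card_mons]

lemma LM_mul_mon {f : MvPolynomial (Fin n) K} (hf : f ≠ 0) (m : Fin n →₀ ℕ) :
    monomial m (1 : K) * f ≠ 0 ∧ (mo n).degree (monomial m (1 : K) * f) = m + (mo n).degree f := by
  classical
  have h1 : (monomial m (1 : K) : MvPolynomial (Fin n) K) ≠ 0 := by simp
  refine ⟨mul_ne_zero h1 hf, ?_⟩
  rw [MonomialOrder.degree_mul h1 hf, MonomialOrder.degree_monomial, if_neg one_ne_zero]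

lemma shift_card (M : Finset (Fin n →₀ ℕ)) :
    M.card * n ≤ (M.biUnion fun m => Finset.univ.image fun a : Fin n =>
      Finsupp.single a 1 + m).card + M.card.choose 2 := by
  classical
  induction M using Finset.induction_on with
  | empty => simp
  | insert m M hm ih =>
    rw [Finset.biUnion_insert, Finset.card_insert_of_notMem hm]
    set A := Finset.univ.image fun a : Fin n => Finsupp.single a 1 + m with hA
    set Bs := M.biUnion fun m => Finset.univ.image fun a : Fin n => Finsupp.single a 1 + m with hB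
    have h1 : A.card = n := by
      rw [hA, Finset.card_image_of_injective]
      · simp
      · intro a b hab
        have := add_right_cancel hab
        exact Finsupp.single_left_injective one_ne_zero this
    have h2 : (A ∩ Bs).card ≤ M.card := by
      have : A ∩ Bs ⊆ M.image fun m' => m ⊔ m' := by
        intro z hz
        rw [Finset.mem_inter, hA, hB] at hz
        obtain ⟨hz1, hz2⟩ := hz
        simp only [Finset.mem_image, Finset.mem_univ, true_and, Finset.mem_biUnion] at hz1 hz2 ⊢
        obtain ⟨a, ha⟩ := hz1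
        obtain ⟨m', hm', b, hb⟩ := hz2
        refine ⟨m', hm', ?_⟩
        have hab : a ≠ b := by
          rintro rfl
          have : m = m' := add_left_cancel (ha.trans hb.symm)
          exact hm (this ▸ hm')
        ext c
        have e1 := DFunLike.congr_fun ha c
        have e2 := DFunLike.congr_fun hb c
        simp only [Finsupp.add_apply, Finsupp.single_apply, Finsupp.sup_apply] at e1 e2 ⊢
        split_ifs at e1 e2 with h h'
        · exact absurd (h.trans h'.symm) hab
        all_goals omega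
      exact (Finset.card_le_card this).trans Finset.card_image_le
    have h3 := Finset.card_union_add_card_inter A Bs
    have h4 : (M.card + 1).choose 2 = M.card + M.card.choose 2 := by
      rw [Nat.choose_succ_succ]; simp
    rw [h4, add_mul]
    omega

/-- growth of a space of forms -/
theorem mac_grow {X Y : Submodule K (MvPolynomial (Fin n) K)} {i k : ℕ} (hX : X ≤ Hm n K i)
    (hY : Y ≤ Hm n K (i + 1)) (h : ∀ a, ∀ f ∈ X, MvPolynomial.X a * f ∈ Y) (hk : k ≤ finrank K X) :
    k * n ≤ finrank K Y + k.choose 2 := by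
  classical
  rw [finrank_LM hX, Set.ncard_eq_toFinset_card _ (LM_fin hX)] at hk
  obtain ⟨M, hM, rfl⟩ := Finset.exists_subset_card_eq hk
  refine (shift_card M).trans (Nat.add_le_add_right ?_ _)
  rw [finrank_LM hY, Set.ncard_eq_toFinset_card _ (LM_fin hY)]
  apply Finset.card_le_card
  intro z hz
  simp only [Finset.mem_biUnion, Finset.mem_image, Finset.mem_univ, true_and] at hz
  obtain ⟨m, hm, a, rfl⟩ := hz
  obtain ⟨f, hf, h1, rfl⟩ := (Set.Finite.mem_toFinset _).1 (hM hm)
  rw [Set.Finite.mem_toFinset]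
  exact ⟨_, h a f hf, LM_mul_mon h1 _⟩

lemma map_Hm {Λ : Type*} [CommRing Λ] [Algebra K Λ] (z : Fin n → Λ) (i : ℕ) :
    (Hm n K i).map (aeval z : MvPolynomial (Fin n) K →ₐ[K] Λ).toLinearMap =
      (Submodule.span K (Set.range z)) ^ i := by
  rw [Hm, ← homogeneousSubmodule_one_pow, Submodule.map_pow, homogeneousSubmodule_one_eq_span_X,
    Submodule.map_span, ← Set.range_comp]
  congr 3
  funext a; simp

lemma finrank_map_add {W W1 : Type*} [AddCommGroup W] [Module K W] [AddCommGroup W1] [Module K W1]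
    (P : Submodule K W) [FiniteDimensional K P] (f : W →ₗ[K] W1) :
    finrank K P = finrank K (P.map f) + finrank K (P ⊓ LinearMap.ker f : Submodule K W) := by
  have h1 := (f.domRestrict P).finrank_range_add_finrank_ker
  rw [LinearMap.range_domRestrict, LinearMap.ker_domRestrict] at h1
  rw [← h1, ← Submodule.finrank_map_subtype_eq P (Submodule.comap P.subtype (LinearMap.ker f)),
    Submodule.map_comap_subtype]

/-- Macaulay type bound from degree two to degree three. -/
theorem mac {Λ : Type*} [CommRing Λ] [Algebra K Λ] (z : Fin n → Λ) (N2 N3 : Submodule K Λ)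
    (hN : ∀ a, ∀ r ∈ N2, z a * r ∈ N3) {k : ℕ}
    (h2 : finrank K (((Submodule.span K (Set.range z)) ^ 2).map N2.mkQ) + k ≤ (n + 1).choose 2) :
    finrank K (((Submodule.span K (Set.range z)) ^ 3).map N3.mkQ) + k * n ≤
      (n + 2).choose 3 + k.choose 2 := by
  let φ := (aeval z : MvPolynomial (Fin n) K →ₐ[K] Λ).toLinearMap
  have e2 := finrank_map_add (Hm n K 2) (N2.mkQ ∘ₗ φ)
  have e3 := finrank_map_add (Hm n K 3) (N3.mkQ ∘ₗ φ)
  rw [Submodule.map_comp, map_Hm, finrank_Hm] at e2 e3
  have h := mac_grow (X := Hm n K 2 ⊓ LinearMap.ker (N2.mkQ ∘ₗ φ))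
    (Y := Hm n K 3 ⊓ LinearMap.ker (N3.mkQ ∘ₗ φ)) (i := 2) (k := k) inf_le_left inf_le_left
    (fun a f hf => ⟨by simpa [add_comm] using (isHomogeneous_X K a).mul hf.1, by
      have := hf.2
      simp only [SetLike.mem_coe, LinearMap.mem_ker, LinearMap.comp_apply, Submodule.mkQ_apply,
        Submodule.Quotient.mk_eq_zero, φ, AlgHom.toLinearMap_apply, map_mul, aeval_X] at this ⊢
      exact hN a _ this⟩)
    (by have : n + 2 - 1 = n + 1 := rfl
        rw [this] at e2; omega)
  have : n + 3 - 1 = n + 2 := rfl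
  rw [this] at e3
  omega

end Pool.Agent.Lib.MP_a9ad87_al.Ch
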