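import Pool.Agent.Lib.MP_a9ad87_al.ChVal

namespace Pool.Agent.Lib.MP_a9ad87_al.Ch

open MvPolynomial Module Submodule

/-- the residue field setting -/
structure LS (K F L : Type*) [Field K] [Field F] [Algebra K F] [Field L] [Algebra F L]
    [Algebra K L] [IsScalarTower K F L] where
  x : Fin 4 → F
  R : Submodule K L
  inj : Inj K x
  frc : Frc K x
  one : 1 ∈ UU K x
  fin : FiniteDimensional K R
  finL : FiniteDimensional F L
  le : ∀ u ∈ UU K x, algebraMap F L u ∈ R
  gen : Algebra.adjoin F (R : Set L) = ⊤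
  nn : ∃ m, R ^ (m + 1) ≤ (UU K x).map (IsScalarTower.toAlgHom K F L).toLinearMap * R ^ m
  ss : ∃ C, ∀ j0, ∃ j, j0 ≤ j ∧ finrank F L * s j ≤ finrank K (R ^ j : Submodule K L) + C * (j + 1)

variable {K F L : Type*} [Field K] [Field F] [Algebra K F] [Field L] [Algebra F L]
    [Algebra K L] [IsScalarTower K F L]

namespace LS
variable (D : LS K F L)

instance : FiniteDimensional K D.R := D.fin

lemma le_pow {i : ℕ} {u : F} (hu : u ∈ UU K D.x ^ i) : algebraMap F L u ∈ D.R ^ i := by
  induction hu using Submodule.pow_induction_on_left' with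
  | algebraMap c => rw [← IsScalarTower.algebraMap_apply, pow_zero]; exact algebraMap_mem c
  | add f g i _ _ h1 h2 => rw [map_add]; exact add_mem h1 h2
  | mem_mul m hm i f _ ih => rw [map_mul]; exact mul_pow_succ (D.le m hm) ih

lemma mono {i j : ℕ} (h : i ≤ j) : D.R ^ i ≤ D.R ^ j := by
  induction h with
  | refl => exact le_rfl
  | step _ ih => exact fun a ha => by simpa using mul_pow_succ (D.le 1 D.one) (ih ha)

lemma int_pow {O : Subalgebra K F} {l : F} (hl : ∀ u ∈ UU K D.x, u / l ∈ O) {i : ℕ} {z : L}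
    (hz : z ∈ D.R ^ i) : IsIntegral O (z / algebraMap F L l ^ i) := by
  have h1 : ∀ y ∈ D.R, IsIntegral O (y / algebraMap F L l) := fun y hy => by
    obtain ⟨m, hm⟩ := D.nn
    obtain ⟨S, hS⟩ := (Submodule.fg_iff_finiteDimensional (D.R ^ m)).2 inferInstance
    refine isIntegral_of_smul_mem_submodule (span O (D.R ^ m : Submodule K L)) ?_
      ⟨S, by rw [← hS, span_span_of_tower]⟩ _ fun n hn => ?_
    · rw [Submodule.ne_bot_iff]
      exact ⟨1, subset_span (D.mono (Nat.zero_le m) (mem_pow_zero.2 ⟨1, by simp⟩)), one_ne_zero⟩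
    · induction hn using Submodule.span_induction with
      | mem n hn =>
        rw [smul_eq_mul, div_mul_eq_mul_div]
        refine Submodule.mul_induction_on (hm (mul_pow_succ hy hn)) ?_ fun a b h1 h2 => ?_
        · rintro _ ⟨u, hu, rfl⟩ n hn
          have := smul_mem (span O ((D.R ^ m : Submodule K L) : Set L)) ⟨_, hl u hu⟩
            (subset_span (s := ((D.R ^ m : Submodule K L) : Set L)) hn)
          convert this using 1
          simp [Algebra.smul_def, Subalgebra.algebraMap_eq, div_mul_eq_mul_div]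
        · rw [add_div]; exact add_mem h1 h2
      | zero => simp
      | add a b _ _ h1 h2 => rw [smul_add]; exact add_mem h1 h2
      | smul c a _ h1 => rw [smul_comm]; exact smul_mem _ _ h1
  induction hz using Submodule.pow_induction_on_left' with
  | algebraMap c =>
    rw [pow_zero, div_one, IsScalarTower.algebraMap_apply K O L]; exact isIntegral_algebraMap
  | add f g i _ _ h1 h2 => rw [add_div]; exact h1.add h2
  | mem_mul m hm i f _ ih =>
    rw [Nat.succ_eq_add_one, pow_succ', mul_div_mul_comm]; exact (h1 m hm).mul ih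

lemma trace_mem {i : ℕ} {z : L} (hz : z ∈ D.R ^ i) : Algebra.trace F L z ∈ UU K D.x ^ i := by
  have := D.finL
  by_cases h0 : Algebra.trace F L z = 0
  · rw [h0]; exact zero_mem _
  refine (D.inj.loc h0 (Or.inl rfl) fun p hp => ?_).2
  obtain ⟨l, -, h1, h2, h3⟩ := D.inj.ell hp
  refine h3 i _ (val_int _ (D.inj.val D.frc hp) ?_)
  have := Algebra.isIntegral_trace (L := F)
    (D.int_pow (fun u hu => by simpa using h2 1 u (by simpa using hu)) hz)
  rwa [div_eq_inv_mul, ← map_pow, ← map_inv₀, ← Algebra.smul_def, map_smul, smul_eq_mul,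
    ← div_eq_inv_mul] at this

lemma scale (z : L) : ∃ c, ∃ κ ∈ UU K D.x ^ c, κ ≠ 0 ∧ algebraMap F L κ * z ∈ D.R ^ c := by
  have hz : z ∈ Algebra.adjoin F (D.R : Set L) := by rw [D.gen]; trivial
  induction hz using Algebra.adjoin_induction with
  | mem z hz => exact ⟨1, 1, by simpa using D.one, one_ne_zero, by simpa using hz⟩
  | algebraMap φ =>
    obtain ⟨k, G, h1, h2, h3⟩ := D.frc φ
    exact ⟨k, _, aeval_mem h1, D.inj.ne h1 h2, by rw [← map_mul, mul_comm]; exact D.le_pow h3⟩
  | add a b _ _ h1 h2 =>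
    obtain ⟨c, κ, a1, a2, a3⟩ := h1
    obtain ⟨c', κ', b1, b2, b3⟩ := h2
    refine ⟨c + c', κ * κ', mul_pow_mem a1 b1, mul_ne_zero a2 b2, ?_⟩
    convert add_mem (mul_pow_mem a3 (D.le_pow b1)) (mul_pow_mem (D.le_pow a1) b3) using 1
    rw [map_mul]; ring
  | mul a b _ _ h1 h2 =>
    obtain ⟨c, κ, a1, a2, a3⟩ := h1
    obtain ⟨c', κ', b1, b2, b3⟩ := h2
    refine ⟨c + c', κ * κ', mul_pow_mem a1 b1, mul_ne_zero a2 b2, ?_⟩
    convert mul_pow_mem a3 b3 using 1
    rw [map_mul]; ring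

lemma den (f : L →ₗ[F] F) : ∃ κ : F, κ ≠ 0 ∧ ∃ g, ∀ i, ∀ z ∈ D.R ^ i, κ * f z ∈ UU K D.x ^ (i + g) := by
  obtain ⟨m, hm⟩ := D.nn
  obtain ⟨κ, h0, g, -, h1⟩ := D.frc.den D.inj ((D.R ^ m).map (f.restrictScalars K))
  have key : ∀ i, ∀ z ∈ D.R ^ (m + i), κ * f z ∈ UU K D.x ^ (g + i) := by
    intro i
    induction i with
    | zero => exact fun z hz => h1 _ ⟨z, hz, rfl⟩
    | succ i ih =>
      intro z hz
      have : D.R ^ (m + (i + 1)) ≤
          (UU K D.x).map (IsScalarTower.toAlgHom K F L).toLinearMap * D.R ^ (m + i) := by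
        rw [show m + (i + 1) = m + 1 + i by ring, pow_add, pow_add D.R m i, ← mul_assoc]
        exact mul_le_mul' hm le_rfl
      refine Submodule.mul_induction_on (this hz) ?_ fun a b h1 h2 => ?_
      · rintro _ ⟨u, hu, rfl⟩ n hn
        rw [AlgHom.toLinearMap_apply, IsScalarTower.toAlgHom_apply, ← Algebra.smul_def, map_smul,
          smul_eq_mul, mul_left_comm]
        exact mul_pow_succ hu (ih n hn)
      · rw [map_add, mul_add]; exact add_mem h1 h2
  exact ⟨κ, h0, g, fun i z hz => by rw [add_comm]; exact key i z (D.mono (by omega) hz)⟩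

lemma sum_ge {r i0 C : ℕ} {c : Fin r → ℕ}
    (h : ∀ j0, ∃ i, j0 ≤ i ∧ r * s (i + i0) ≤ ∑ a, s (i + c a) + C * (i + i0 + 1)) :
    r * i0 ≤ ∑ a, c a := by
  choose C1 h1 using s_shift
  obtain ⟨i, hi, e⟩ := h (2 * (∑ a, C1 (c a) + 2 * C * (i0 + 1)) + 1)
  have e1 : 2 * ∑ a, s (i + c a) ≤ r * (2 * s i) + (∑ a, c a) * i ^ 2 + (∑ a, C1 (c a)) * (i + 1) := by
    rw [Finset.mul_sum, Finset.sum_mul, Finset.sum_mul]
    refine (Finset.sum_le_sum fun a _ => (h1 (c a) i).2).trans ?_
    simp [Finset.sum_add_distrib]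
  have e2 := Nat.mul_le_mul_left r (h1 i0 i).1
  by_contra hc
  have e3 : (∑ a, c a + 1) * i ^ 2 ≤ r * i0 * i ^ 2 := Nat.mul_le_mul_right _ (by omega)
  have e4 : C * (i + i0 + 1) ≤ C * (i0 + 1) * (i + 1) := by
    rw [mul_assoc]; exact Nat.mul_le_mul_left _ (by nlinarith)
  set S := ∑ a, C1 (c a) + 2 * C * (i0 + 1)
  have e5 : i ^ 2 ≤ S * (i + 1) := by simp only [S]; nlinarith
  nlinarith

lemma disc [Algebra.IsSeparable F L] : ∃ δ : F, δ ≠ 0 ∧ ∃ e, ∀ p : MvPolynomial (Fin 4) K, Prime p →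
    ∃ (n : Fin (finrank F L) → ℕ) (z : Fin (finrank F L) → L), (∀ a, z a ∈ D.R ^ n a) ∧
      ∃ G ∈ Hm 4 K (2 * ∑ a, n a + e), ¬ p ∣ G ∧ Algebra.discr F z = δ * aeval D.x G := by
  classical
  have := D.finL
  set r := finrank F L
  let b : Basis (Fin r) F L := Module.finBasis F L
  let f : ℕ → L →ₗ[K] F := fun a => if h : a < r then (b.coord ⟨a, h⟩).restrictScalars K else 0
  have hf : ∀ (a : Fin r) z, f a z = b.repr z a := fun a z => by simp [f]
  choose c0 κ0 _ h2 h3 using fun a => D.scale (b a)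
  set i0 := ∑ a, c0 a
  let M : Fin r → ℕ → Submodule K F := fun a i =>
    (D.R ^ (i + i0) ⊓ ⨅ a' < (a : ℕ), LinearMap.ker (f a')).map (f a)
  have hM := fun a : Fin r => D.inj.fam (M a) (by
      rw [Submodule.ne_bot_iff]
      refine ⟨_, ⟨algebraMap F L (κ0 a) * b a, ⟨D.mono ?_ (h3 a), ?_⟩, rfl⟩, ?_⟩
      · rw [zero_add]; exact Finset.single_le_sum (fun _ _ => Nat.zero_le _) (Finset.mem_univ a)
      · simp only [SetLike.mem_coe, mem_iInf, LinearMap.mem_ker]
        intro a' ha'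
        rw [hf ⟨a', ha'.trans a.2⟩, ← Algebra.smul_def, map_smul, b.repr_self, Finsupp.smul_apply,
          Finsupp.single_eq_of_ne (fun e => ha'.ne (congrArg Fin.val e)), smul_zero]
      · rw [hf, ← Algebra.smul_def]; simpa using h2 a) (by
      obtain ⟨κ, h0, g, h1⟩ := D.den (b.coord a)
      refine ⟨κ, h0, i0 + g, ?_⟩
      rintro i _ ⟨z, hz, rfl⟩
      rw [hf, ← add_assoc]; exact h1 _ z hz.1)
  choose κ hκ c h4 h5 using hM
  have h6 : r * i0 ≤ ∑ a, c a := by
    obtain ⟨C, hC⟩ := D.ss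
    refine sum_ge (C := C) fun j0 => ?_
    obtain ⟨j, hj, e⟩ := hC (j0 + i0)
    obtain ⟨i, rfl⟩ : ∃ i, j = i + i0 := ⟨j - i0, by omega⟩
    refine ⟨i, by omega, e.trans (Nat.add_le_add_right ?_ _)⟩
    have e2 : (D.R ^ (i + i0) ⊓ ⨅ a' < r, LinearMap.ker (f a') : Submodule K L) = ⊥ := by
      rw [eq_bot_iff]
      rintro z ⟨-, hz⟩
      simp only [SetLike.mem_coe, mem_iInf, LinearMap.mem_ker] at hz
      exact b.repr.map_eq_zero_iff.1 (Finsupp.ext fun a => (hf a z).symm.trans (hz a a.2))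
    rw [flag_dim _ f r, e2, finrank_bot, add_zero, Finset.sum_range]
    refine Finset.sum_le_sum fun a _ => ?_
    rw [← D.inj.dim, ← finrank_sing_mul (hκ a) (M a i)]
    refine Submodule.finrank_mono fun v hv => ?_
    obtain ⟨v, hv', rfl⟩ := mem_span_singleton_mul.1 hv
    exact h4 a i v hv'
  have hP : ∏ a, κ a ≠ 0 := Finset.prod_ne_zero_iff.2 fun a _ => hκ a
  refine ⟨Algebra.discr F b / (∏ a, κ a) ^ 2,
    div_ne_zero (Algebra.discr_not_zero_of_basis F b) (pow_ne_zero 2 hP),
    2 * (∑ a, c a - r * i0), fun p hp => ?_⟩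
  choose i G g1 v g2 g3 g4 using fun a => h5 a p hp
  choose z z1 z2 using g2
  refine ⟨fun a => i a + i0, z, fun a => (z1 a).1, (∏ a, G a) ^ 2, ?_, fun h => ?_, ?_⟩
  · have := (IsHomogeneous.prod Finset.univ G (fun a => i a + c a) fun a _ => g1 a).pow 2
    rw [Finset.sum_add_distrib] at this
    rw [Finset.sum_add_distrib, Finset.sum_const, Finset.card_univ, Fintype.card_fin, smul_eq_mul,
      show 2 * (∑ a, i a + r * i0) + 2 * (∑ a, c a - r * i0) = (∑ a, i a + ∑ a, c a) * 2 by omega]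
    exact this
  · obtain ⟨a, -, ha⟩ := (Prime.dvd_finsetProd_iff hp G).1 (hp.dvd_of_dvd_pow h)
    exact g4 a ha
  · let P : Matrix (Fin r) (Fin r) F := fun a a' => b.repr (z a) a'
    have e1 : z = (P.map (algebraMap F L)).mulVec b := by
      funext a
      rw [← b.sum_repr (z a)]
      simp only [Algebra.smul_def]; rfl
    have e2 : P.det = ∏ a, v a := by
      rw [Matrix.det_of_isUpperTriangular]
      · exact Finset.prod_congr rfl fun a _ => (hf a _).symm.trans (z2 a)
      · intro a a' h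
        have := (z1 a).2
        simp only [SetLike.mem_coe, mem_iInf, LinearMap.mem_ker] at this
        exact (hf a' _).symm.trans (this a' h)
    rw [e1, Algebra.discr_of_matrix_mulVec, e2, map_pow, map_prod]
    simp only [← g3, Finset.prod_mul_distrib]
    field_simp

lemma basis [Algebra.IsSeparable F L] {p : MvPolynomial (Fin 4) K} (hp : Prime p) :
    ∃ z : Basis (Fin (finrank F L)) F L, (∀ a, IsIntegral (Op D.x hp) (z a)) ∧
      IsIntegral (Op D.x hp) (Algebra.discr F z)⁻¹ := by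
  have := D.finL
  obtain ⟨δ, h0, e, H⟩ := D.disc
  obtain ⟨rfl, h1⟩ := D.inj.loc h0 (e := e) (Or.inr rfl) fun p hp => by
    obtain ⟨n, z, h1, G, h2, h3, h4⟩ := H p hp
    refine ⟨_, G, h2, h3, ?_⟩
    rw [← h4, Algebra.discr_def]
    exact det_mem_pow fun a b => D.trace_mem (mul_pow_mem (h1 a) (h1 b))
  obtain ⟨c, rfl⟩ := mem_pow_zero.1 h1
  obtain ⟨n, z, h1, G, h2, h3, h4⟩ := H p hp
  obtain ⟨l, l1, l2, l3, -⟩ := D.inj.ell hp
  have hG := D.inj.ne h2 (by rintro rfl; exact h3 (dvd_zero _))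
  let z' : Fin (finrank F L) → L := fun a => z a / algebraMap F L l ^ n a
  have e1 : z' = ((Matrix.diagonal fun a => (l ^ n a)⁻¹).map (algebraMap F L)).mulVec z := by
    funext a
    rw [Matrix.diagonal_map (map_zero _), Matrix.mulVec_diagonal]
    simp [z', div_eq_inv_mul]
  have e2 : Algebra.discr F z' = algebraMap K F c * aeval D.x G / l ^ (2 * ∑ a, n a) := by
    rw [e1, Algebra.discr_of_matrix_mulVec, Matrix.det_diagonal, h4, Finset.prod_inv_distrib,
      Finset.prod_pow_eq_pow_sum, mul_comm 2, pow_mul]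
    field_simp
  have hli : LinearIndependent F z' := by
    by_contra h
    rw [Algebra.discr_zero_of_not_linearIndependent F h] at e2
    exact div_ne_zero (mul_ne_zero h0 hG) (pow_ne_zero _ l2) e2.symm
  have : Nonempty (Fin (finrank F L)) := ⟨⟨0, finrank_pos⟩⟩
  refine ⟨basisOfLinearIndependentOfCardEqFinrank hli (by simp), fun a => ?_, ?_⟩
  · rw [coe_basisOfLinearIndependentOfCardEqFinrank]
    exact D.int_pow (fun u hu => by simpa using l3 1 u (by simpa using hu)) (h1 a)
  · rw [coe_basisOfLinearIndependentOfCardEqFinrank, e2]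
    refine isIntegral_algebraMap (x := (⟨_, _, G, h2, h3, ?_⟩ : Op D.x hp))
    have e3 : (algebraMap K F c * aeval D.x G / l ^ (2 * ∑ a, n a))⁻¹ * aeval D.x G =
        c⁻¹ • l ^ (2 * ∑ a, n a) := by
      rw [Algebra.smul_def, map_inv₀]; field_simp
    exact e3 ▸ smul_mem _ c⁻¹ (pow_mem_pow _ l1 (2 * ∑ a, n a))

lemma const [IsAlgClosed K] {w : L}
    (h : ∀ (p : MvPolynomial (Fin 4) K) (hp : Prime p), IsIntegral (Op D.x hp) w) :
    ∃ c : K, w = algebraMap K L c := by
  have := D.finL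
  have hw : IsIntegral F w := .of_finite F w
  have h1 : minpoly F w ∈ Polynomial.lifts (algebraMap K F) := by
    rw [Polynomial.lifts_iff_coeff_lifts]
    intro n
    by_cases h0 : (minpoly F w).coeff n = 0
    · exact ⟨0, by simp [h0]⟩
    obtain ⟨c, hc⟩ := mem_pow_zero.1 (D.inj.loc h0 (e := 0) (i := 0) (Or.inl rfl) fun p hp => by
      obtain ⟨f, f1, f2⟩ := h p hp
      obtain ⟨a, ha⟩ := (Polynomial.lifts_iff_coeff_lifts _).1
        (integralClosure.mem_lifts_of_monic_of_dvd_map F f1 (minpoly.monic hw)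
          (minpoly.dvd F w (by rw [Polynomial.aeval_map_algebraMap]; exact f2))) n
      exact val_int _ (D.inj.val D.frc hp) (ha ▸ a.2)).2
    exact ⟨c, hc.symm⟩
  obtain ⟨q, q1, -, q2⟩ := Polynomial.lifts_and_degree_eq_and_monic h1 (minpoly.monic hw)
  have h2 : IsIntegral K w := ⟨q, q2, by
    rw [← Polynomial.aeval_def, ← Polynomial.aeval_map_algebraMap F, q1, minpoly.aeval]⟩
  obtain ⟨c, hc⟩ := minpoly.mem_range_of_degree_eq_one K w
    (IsAlgClosed.degree_eq_one_of_irreducible K (minpoly.irreducible h2))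
  exact ⟨c, hc.symm⟩

lemma der [IsAlgClosed K] [Algebra.IsSeparable F L] (δ : Derivation K L L) (ε : K)
    (h : ∀ i, ∃ c : K, δ (algebraMap F L (D.x i)) - ε • algebraMap F L (D.x i) = algebraMap K L c)
    {y : L} (hy : y ∈ D.R) : ∃ c : K, δ y - ε • y = algebraMap K L c := by
  have := D.finL
  have h1 : ∀ u ∈ UU K D.x, ∃ c : K,
      δ (algebraMap F L u) - ε • algebraMap F L u = algebraMap K L c := fun u hu => by
    induction hu using Submodule.span_induction with
    | mem u hu => obtain ⟨i, rfl⟩ := hu; exact h i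
    | zero => exact ⟨0, by simp⟩
    | add a b _ _ h1 h2 =>
      obtain ⟨c, h1⟩ := h1
      obtain ⟨c', h2⟩ := h2
      exact ⟨c + c', by rw [map_add, map_add, map_add, ← h1, ← h2, smul_add]; ring⟩
    | smul k a _ h1 =>
      obtain ⟨c, h1⟩ := h1
      refine ⟨k * c, ?_⟩
      rw [map_mul, ← h1, ← Algebra.smul_def, Algebra.smul_def k a, map_mul,
        ← IsScalarTower.algebraMap_apply, ← Algebra.smul_def, δ.map_smul, smul_sub, smul_comm k ε]
  refine D.const fun p hp => ?_
  obtain ⟨l, l1, l2, l3, -⟩ := D.inj.ell hp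
  have l4 : algebraMap F L l ≠ 0 := by simpa using l2
  have h2 : ∀ k : ℕ, ∀ a ∈ UU K D.x ^ k, ∃ a' ∈ UU K D.x ^ k, algebraMap F L l * (δ (algebraMap F L a) -
      (k * ε) • algebraMap F L a) = algebraMap F L a' := fun k a ha => by
    induction ha using Submodule.pow_induction_on_left' with
    | algebraMap c => exact ⟨0, zero_mem _, by simp [← IsScalarTower.algebraMap_apply]⟩
    | add f g i _ _ h1 h2 =>
      obtain ⟨c, c1, h1⟩ := h1
      obtain ⟨c', c2, h2⟩ := h2
      exact ⟨c + c', add_mem c1 c2, by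
        rw [map_add, map_add, map_add, ← h1, ← h2, smul_add]; ring⟩
    | mem_mul m hm i f hf ih =>
      obtain ⟨c, hc⟩ := h1 m hm
      obtain ⟨a', a1, a2⟩ := ih
      refine ⟨c • (l * f) + m * a',
        add_mem (smul_mem _ _ (mul_pow_succ l1 hf)) (mul_pow_succ hm a1), ?_⟩
      simp only [map_add, map_mul, Derivation.leibniz, Algebra.smul_def, Nat.cast_succ, map_one,
        ← IsScalarTower.algebraMap_apply, Algebra.algebraMap_self, RingHom.id_apply] at hc a2 ⊢
      linear_combination algebraMap F L l * algebraMap F L f * hc + algebraMap F L m * a2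
  obtain ⟨z, z1, z2⟩ := D.basis hp
  have h3 := D.int_pow (O := Op D.x hp) (i := 1)
    (fun u hu => by simpa using l3 1 u (by simpa using hu)) (by simpa using hy)
  rw [pow_one] at h3
  have h4 := der_int z z1 z2 (algebraMap F L l • δ) (fun φ hφ => by
    have hφ' := val_int _ (D.inj.val D.frc hp) hφ
    obtain ⟨k, G, g1, g2, g3⟩ := id hφ'
    obtain ⟨a, a1, a2⟩ := h2 k _ g3
    obtain ⟨a', a1', a2'⟩ := h2 k _ (aeval_mem g1)
    have g0 := D.inj.ne g1 (by rintro rfl; exact g2 (dvd_zero _))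
    have k1 : ∀ a ∈ UU K D.x ^ k, a / aeval D.x G ∈ Op D.x hp := fun a ha =>
      ⟨k, G, g1, g2, by rwa [div_mul_cancel₀ _ g0]⟩
    have e : (algebraMap F L l • δ) (algebraMap F L φ) =
        algebraMap F L (a / aeval D.x G - φ * (a' / aeval D.x G)) := by
      have g0' : algebraMap F L (aeval D.x G) ≠ 0 := (map_ne_zero _).2 g0
      rw [map_sub, map_mul, map_div₀, map_div₀, ← a2, ← a2', map_mul, Derivation.leibniz,
        Derivation.smul_apply]
      simp only [Algebra.smul_def, Algebra.algebraMap_self, RingHom.id_apply]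
      field_simp
      ring
    rw [e]
    exact (isIntegral_algebraMap (x := (⟨_, sub_mem (k1 a a1) (mul_mem hφ' (k1 a' a1'))⟩ :
      Op D.x hp))).algebraMap) h3
  obtain ⟨c, hc⟩ := h1 l l1
  have e : δ y - ε • y = algebraMap K L c * (y / algebraMap F L l) +
      (algebraMap F L l • δ) (y / algebraMap F L l) := by
    conv_lhs => rw [← div_mul_cancel₀ y l4, Derivation.leibniz]
    rw [← hc, Derivation.smul_apply]
    simp only [Algebra.smul_def, Algebra.algebraMap_self, RingHom.id_apply]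
    ring
  rw [e, IsScalarTower.algebraMap_apply K (Op D.x hp) L]
  exact (isIntegral_algebraMap.mul h3).add h4

end LS

theorem LS.lin {K L : Type*} [Field K] [IsAlgClosed K] [CharZero K] [Field L] [Algebra (FF K) L]
    [Algebra K L] [IsScalarTower K (FF K) L] (D : LS K (FF K) L) (hx : D.x = xx K) {y : L}
    (hy : y ∈ D.R) : ∃ u ∈ UU K D.x, algebraMap (FF K) L u = y := by
  have := D.finL
  have : CharZero (FF K) := algebraRat.charZero _
  choose δ hδ using exists_der (K := K) (L := L)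
  have h1 := fun i => D.der (δ i) 0 (fun j => by
    rw [hx, hδ]; split_ifs
    exacts [⟨1, by simp⟩, ⟨0, by simp⟩]) hy
  choose c hc using h1
  obtain ⟨c0, h0⟩ := D.der (∑ i, algebraMap (FF K) L (xx K i.succ) • δ i) 1 (fun j => by
    rw [hx]
    refine Fin.cases ⟨-1, ?_⟩ (fun j => ⟨0, ?_⟩) j
    · simp [xx, x3]
    · simp only [Fin.sum_univ_three, Derivation.add_apply, Derivation.smul_apply, hδ]
      fin_cases j <;> simp) hy
  rw [hx]
  refine ⟨∑ i, c i • xx K i.succ - c0 • 1, sub_mem (sum_mem fun i _ =>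
    smul_mem _ _ (subset_span ⟨_, rfl⟩)) (smul_mem _ _ one_mem_xx), ?_⟩
  simp only [zero_smul, sub_zero] at hc
  simp only [Fin.sum_univ_three, Derivation.add_apply, Derivation.smul_apply, hc, one_smul,
    smul_eq_mul] at h0
  simp only [map_sub, map_add, Fin.sum_univ_three, Algebra.smul_def, map_mul,
    ← IsScalarTower.algebraMap_apply, mul_one, ← h0]
  ring

end Pool.Agent.Lib.MP_a9ad87_al.Ch
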