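import Pool.Agent.Lib.MP_a9ad87_al.ChGor

namespace Pool.Agent.Lib.MP_a9ad87_al.Ch

open Module Submodule

variable {K F B : Type*} [Field K] [Field F] [Algebra K F] [CommRing B] [Algebra F B]
    [Algebra K B] [IsScalarTower K F B]

namespace AS
variable {D : AS K F B} {e : B →ₐ[F] F} {z : B}

variable (D e) in
def YY : Submodule K B := D.V ⊓ LinearMap.ker (e.toLinearMap.restrictScalars K)

instance : FiniteDimensional K (D.YY e) := Submodule.finiteDimensional_of_le inf_le_left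

lemma YY_ev {y : B} (h : y ∈ D.YY e) : e y = 0 := h.2

lemma Loc.sub_Y (L : D.Loc e z) {v : B} (hv : v ∈ D.V) : v - algebraMap F B (e v) ∈ D.YY e :=
  ⟨sub_mem hv (D.le _ (L.mem v hv)), by simp⟩

lemma Loc.dimY (L : D.Loc e z) : finrank K (D.YY e) = 3 := by
  have := D.dim_ev e L.mem 1
  rw [pow_one, D.h1, show s 1 = 4 from rfl] at this
  unfold YY; omega

lemma Loc.exy (L : D.Loc e z) : ∃ y : Fin 3 → B, span K (Set.range y) = D.YY e := by
  let b := Module.finBasisOfFinrankEq K (D.YY e) L.dimY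
  have := congrArg (Submodule.map (D.YY e).subtype) b.span_eq
  rw [Submodule.map_span, ← Set.range_comp, Submodule.map_subtype_top] at this
  exact ⟨_, this⟩

variable {y : Fin 3 → B}

lemma y_mem (hy : span K (Set.range y) = D.YY e) (i : Fin 3) : y i ∈ D.YY e :=
  hy ▸ subset_span ⟨i, rfl⟩

lemma ev_sum (hy : span K (Set.range y) = D.YY e) (f : Fin 3 → F) : e (∑ i, f i • y i) = 0 := by
  simp [YY_ev (y_mem hy _)]

lemma Loc.ev_z (L : D.Loc e z) {r : B} (hr : r ∈ F ∙ z) : e r = 0 := by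
  obtain ⟨c, rfl⟩ := mem_span_singleton.1 hr; simp [L.ez]

lemma Loc.decmul (L : D.Loc e z) {r r' : B} {f f' : Fin 3 → F}
    (h : r - algebraMap F B (e r) - ∑ i, f i • y i ∈ F ∙ z)
    (h' : r' - algebraMap F B (e r') - ∑ i, f' i • y i ∈ F ∙ z) :
    r * r' - algebraMap F B (e (r * r')) - ∑ i, (e r * f' i + e r' * f i) • y i ∈ F ∙ z := by
  convert add_mem (add_mem (smul_mem _ (e r) h') (smul_mem _ (e r') h))
    (L.sq (r - algebraMap F B (e r)) (r' - algebraMap F B (e r')) (by simp) (by simp)) using 1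
  simp only [Fin.sum_univ_three, Algebra.smul_def, map_add, map_mul]; ring

lemma Loc.dec0 (L : D.Loc e z) (hy : span K (Set.range y) = D.YY e) {r : B} (hr : r ∈ D.V) :
    ∃ f : Fin 3 → F, (∀ i, f i ∈ D.U ^ 0) ∧ r - algebraMap F B (e r) - ∑ i, f i • y i ∈ F ∙ z := by
  obtain ⟨c, hc⟩ := (mem_span_range_iff_exists_fun K).1 (hy ▸ L.sub_Y hr)
  exact ⟨fun i => algebraMap K F (c i), fun i => mem_pow_zero.2 ⟨_, rfl⟩, by simp [← hc]⟩

lemma Loc.dec (L : D.Loc e z) (hy : span K (Set.range y) = D.YY e) (j : ℕ) :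
    ∀ r ∈ D.V ^ (j + 1), ∃ f : Fin 3 → F, (∀ i, f i ∈ D.U ^ j) ∧
      r - algebraMap F B (e r) - ∑ i, f i • y i ∈ F ∙ z := by
  induction j with
  | zero => exact fun r hr => L.dec0 hy (by simpa using hr)
  | succ j ih =>
    intro r hr
    rw [pow_succ'] at hr
    refine Submodule.mul_induction_on hr (fun v hv r hr => ?_) ?_
    · obtain ⟨f, h1, h2⟩ := L.dec0 hy hv
      obtain ⟨f', h1', h2'⟩ := ih r hr
      exact ⟨_, fun i => add_mem (mul_pow_succ (L.mem v hv) (h1' i))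
        (mul_pow_mem (j := 0) (D.ev_pow e L.mem hr) (h1 i)), L.decmul h2 h2'⟩
    · rintro r r' ⟨f, h1, h2⟩ ⟨f', h1', h2'⟩
      refine ⟨f + f', fun i => add_mem (h1 i) (h1' i), ?_⟩
      convert add_mem h2 h2' using 1
      simp only [Fin.sum_univ_three, Pi.add_apply, add_smul, map_add]; ring

lemma Loc.dec' (L : D.Loc e z) (hy : span K (Set.range y) = D.YY e) (r : B) :
    ∃ f : Fin 3 → F, r - algebraMap F B (e r) - ∑ i, f i • y i ∈ F ∙ z := by
  have hr : r ∈ Algebra.adjoin F (D.V : Set B) := by rw [D.gen]; trivial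
  induction hr using Algebra.adjoin_induction with
  | mem r hr => obtain ⟨f, -, h⟩ := L.dec0 hy hr; exact ⟨f, h⟩
  | algebraMap φ => exact ⟨0, by simp⟩
  | add a b _ _ h1 h2 =>
    obtain ⟨f, h1⟩ := h1
    obtain ⟨f', h2⟩ := h2
    refine ⟨f + f', ?_⟩
    convert add_mem h1 h2 using 1
    simp only [Fin.sum_univ_three, Pi.add_apply, add_smul, map_add]; ring
  | mul a b _ _ h1 h2 =>
    obtain ⟨f, h1⟩ := h1
    obtain ⟨f', h2⟩ := h2
    exact ⟨_, L.decmul h1 h2⟩

lemma Loc.dimV (L : D.Loc e z) (hy : span K (Set.range y) = D.YY e) (j : ℕ) :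
    ∃ N : Submodule K (Fin 3 → F), FiniteDimensional K N ∧
      (∀ f, f ∈ N ↔ (∀ i, f i ∈ D.U ^ j) ∧ ∑ i, f i • y i ∈ F ∙ z) ∧
      finrank K (D.V ^ (j + 1) : Submodule K B) + finrank K N = s (j + 1) + 3 * s j +
        finrank K (D.V ^ (j + 1) ⊓ (F ∙ z).restrictScalars K : Submodule K B) := by
  let Z := (F ∙ z).restrictScalars K
  let φ : (Fin 3 → F) →ₗ[K] B ⧸ Z := Z.mkQ ∘ₗ (Fintype.linearCombination F y).restrictScalars K
  let E := LinearMap.range (LinearMap.compLeft (D.U ^ j).subtype (Fin 3))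
  have hE : ∀ f : Fin 3 → F, f ∈ E ↔ ∀ i, f i ∈ D.U ^ j := fun f =>
    ⟨by rintro ⟨g, rfl⟩ i; exact (g i).2, fun hf => ⟨fun i => ⟨f i, hf i⟩, rfl⟩⟩
  have hφ : ∀ f, φ f = Z.mkQ (∑ i, f i • y i) := fun f => rfl
  have e1 : finrank K E = 3 * s j := by
    rw [LinearMap.finrank_range_of_inj (fun f g h => funext fun i => Subtype.ext (congrFun h i)),
      Module.finrank_pi_fintype]
    simp [D.inj.dim]
  refine ⟨E ⊓ LinearMap.ker φ, inferInstance, fun f => by
    rw [mem_inf, hE, LinearMap.mem_ker, hφ, mkQ_apply, Quotient.mk_eq_zero]; rfl, ?_⟩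
  have e2 := finrank_map_add E φ
  have e3 := D.dim_ev e L.mem (j + 1)
  have e4 := finrank_map_add (D.V ^ (j + 1) ⊓ LinearMap.ker (e.toLinearMap.restrictScalars K)) Z.mkQ
  have e5 : (D.V ^ (j + 1) ⊓ LinearMap.ker (e.toLinearMap.restrictScalars K)).map Z.mkQ =
      E.map φ := by
    apply le_antisymm
    · rintro _ ⟨r, hr, rfl⟩
      obtain ⟨f, h1, h2⟩ := L.dec hy j r hr.1
      have h3 : e r = 0 := hr.2
      rw [h3, map_zero, sub_zero] at h2
      exact ⟨f, (hE f).2 h1, ((Submodule.Quotient.eq Z).2 h2).symm⟩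
    · rintro _ ⟨f, hf, rfl⟩
      refine ⟨_, ⟨sum_mem fun i _ => ?_, ev_sum hy f⟩, rfl⟩
      rw [Algebra.smul_def, mul_comm]
      exact mul_pow_succ (y_mem hy i).1 (D.le_pow ((hE f).1 hf i))
  have e6 : D.V ^ (j + 1) ⊓ LinearMap.ker (e.toLinearMap.restrictScalars K) ⊓
      LinearMap.ker Z.mkQ = D.V ^ (j + 1) ⊓ Z := by
    rw [Submodule.ker_mkQ, inf_assoc,
      (inf_eq_right (b := Z)).2 fun r hr => LinearMap.mem_ker.2 (L.ev_z hr)]
  rw [e5, e6] at e4
  change _ = _ + _ + finrank K (D.V ^ (j + 1) ⊓ Z : Submodule K B)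
  omega

lemma Loc.l_le (L : D.Loc e z) (j0 : ℕ) : ∃ j, j0 ≤ j ∧
    4 * finrank K (D.V ^ j ⊓ (F ∙ z).restrictScalars K : Submodule K B) ≤
      finrank K (D.V ^ j : Submodule K B) := by
  obtain ⟨j, hj, h⟩ := D.ss (RingHom.ker e) (Ideal.span {z}) (by
    rw [eq_bot_iff, Ideal.mul_le]
    intro a ha b hb
    obtain ⟨c, rfl⟩ := Ideal.mem_span_singleton'.1 hb
    rw [mul_left_comm, mul_comm a, L.ann a ha, mul_zero]; rfl) 3 (D.ker_ev e).ge j0
  refine ⟨j, hj, ?_⟩
  have := Submodule.finrank_mono (show D.V ^ j ⊓ (F ∙ z).restrictScalars K ≤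
    D.V ^ j ⊓ (Ideal.span {z}).restrictScalars K from inf_le_inf_left _ fun r hr => by
      obtain ⟨c, rfl⟩ := mem_span_singleton.1 hr
      exact Ideal.mem_span_singleton'.2 ⟨_, (Algebra.smul_def c z).symm⟩)
  omega

lemma Loc.nolin (L : D.Loc e z) (hy : span K (Set.range y) = D.YY e) {f : Fin 3 → F}
    (h1 : ∀ i, f i ∈ D.U) (h2 : ∑ i, f i • y i ∈ F ∙ z) : f = 0 := by
  by_contra h0
  obtain ⟨C, hC⟩ := D.hb
  obtain ⟨j, hj, e1⟩ := L.l_le (C + 5)
  obtain ⟨j, rfl⟩ : ∃ i, j = i + 1 + 1 := ⟨j - 2, by omega⟩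
  obtain ⟨N, _, n1, n2⟩ := L.dimV hy (j + 1)
  have e2 : (D.U ^ j).map ((LinearMap.toSpanSingleton F _ f).restrictScalars K) ≤ N := by
    rintro _ ⟨u, hu, rfl⟩
    refine (n1 _).2 ⟨fun i => by simpa [mul_comm] using mul_pow_succ (h1 i) hu, ?_⟩
    simpa [Finset.smul_sum, mul_smul] using smul_mem _ u h2
  have e3 := Submodule.finrank_mono e2
  rw [← LinearEquiv.finrank_eq (Submodule.equivMapOfInjective _ (fun _ _ e =>
    smul_left_injective F h0 e) _), D.inj.dim] at e3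
  have e4 := (hC (j + 1 + 1)).1
  have e5 := s_succ j
  have e6 := s_succ (j + 1)
  nlinarith

lemma Loc.l2 (L : D.Loc e z) :
    finrank K (D.V ^ 2 ⊓ (F ∙ z).restrictScalars K : Submodule K B) = 3 := by
  obtain ⟨y, hy⟩ := L.exy
  obtain ⟨N, _, n1, n2⟩ := L.dimV hy 1
  have : N = ⊥ := by
    rw [eq_bot_iff]
    exact fun f hf => L.nolin hy (by simpa using ((n1 f).1 hf).1) ((n1 f).1 hf).2
  rw [this, finrank_bot, show s (1 + 1) = 10 from rfl, show s 1 = 4 from rfl,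
    show (1 + 1 : ℕ) = 2 from rfl, D.h2] at n2
  omega

variable (D e z) in
def Bs : Submodule K F :=
  (D.YY e * D.YY e).comap ((LinearMap.toSpanSingleton F B z).restrictScalars K)

lemma Loc.finBs (L : D.Loc e z) : FiniteDimensional K (D.Bs e z) :=
  Module.Finite.of_injective (((LinearMap.toSpanSingleton F B z).restrictScalars K).restrict
    (p := D.Bs e z) (q := D.YY e * D.YY e) fun _ h => h) fun _ _ h =>
      Subtype.ext (smul_left_injective F L.z0 (congrArg Subtype.val h))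

lemma Bs_le (m : ℕ) : (D.Bs e z * D.U ^ m).map ((LinearMap.toSpanSingleton F B z).restrictScalars K)
    ≤ D.V ^ (2 + m) ⊓ (F ∙ z).restrictScalars K := by
  rw [Submodule.map_le_iff_le_comap, Submodule.mul_le]
  intro β hβ u hu
  refine ⟨?_, mem_span_singleton.2 ⟨_, rfl⟩⟩
  have h1 : β • z ∈ D.V ^ 2 := by
    rw [pow_two]; exact (mul_le_mul' inf_le_left inf_le_left : D.YY e * D.YY e ≤ _) hβ
  have := mul_pow_mem h1 (D.le_pow hu)
  rw [mul_comm, ← Algebra.smul_def, smul_smul, mul_comm] at this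
  exact this

lemma Loc.dimBs (L : D.Loc e z) : finrank K (D.Bs e z) ≤ 3 := by
  have := Submodule.finrank_mono (Bs_le (D := D) (e := e) (z := z) 0)
  rwa [dim_line L.z0, pow_zero, mul_one, L.l2] at this

lemma Loc.gam [Infinite K] (L : D.Loc e z) {κ : F} (h0 : κ ≠ 0) {g : ℕ}
    (hP : Prim D.x g ((K ∙ κ) * D.Bs e z)) : g ≤ 2 := by
  by_contra hc
  obtain ⟨C, hC⟩ := D.hb
  obtain ⟨C', hC'⟩ := hP.lb D.inj
  obtain ⟨j, hj, e1⟩ := L.l_le (C + 2 * C' + 2)
  obtain ⟨j, rfl⟩ : ∃ i, j = 2 + i := ⟨j - 2, by omega⟩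
  have e2 := Submodule.finrank_mono (Bs_le (D := D) (e := e) (z := z) j)
  have e3 := hC' j
  rw [dim_line L.z0] at e2
  rw [mul_assoc, finrank_sing_mul h0] at e3
  have e4 := (hC (2 + j)).2
  have e5 := s_succ (2 + j)
  have e6 := s_mono (show 2 + j + 1 ≤ j + g by omega)
  unfold AS.U at e2
  nlinarith [Nat.mul_le_mul_right (j + 1) (show 2 * C' ≤ j by omega)]

variable (D) in
/-- split form of the multiplication -/
structure Hyp (e : B →ₐ[F] F) (z : B) (u v : B →ₗ[F] F) : Prop where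
  L : D.Loc e z
  uz : u z = 0
  vz : v z = 0
  mul : ∀ m m', e m = 0 → e m' = 0 → m * m' = (u m * v m' + u m' * v m) • z

lemma Loc.hyp [IsAlgClosed K] [CharZero K] (L : D.Loc e z) : ∃ u v, D.Hyp e z u v := by
  have := D.finB
  have := L.finBs
  have : CharZero F := charZero_of_injective_algebraMap (algebraMap K F).injective
  obtain ⟨y, hy⟩ := L.exy
  have h1 : Ind2 F z 1 := ind2_of L.z0 fun h => one_ne_zero ((map_one e).symm.trans (L.ev_z h))
  have h2 := (span F {z, (1 : B)}).finrank_quotient_add_finrank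
  rw [h1.dim, D.dimB] at h2
  let q := Module.finBasisOfFinrankEq F (B ⧸ span F {z, (1 : B)}) (n := 2) (by omega)
  let c : Fin 2 → B →ₗ[F] F := fun i => q.coord i ∘ₗ (span F {z, (1 : B)}).mkQ
  have c0 : ∀ i, ∀ r ∈ span F {z, (1 : B)}, c i r = 0 := fun i r hr => by
    simp [c, (Submodule.Quotient.mk_eq_zero _).2 hr]
  have cz : ∀ i, ∀ r ∈ F ∙ z, c i r = 0 := fun i r hr => c0 i r (sing_le (mem_pair_l _ _) hr)
  have hm : ∀ i, ∃ m, e m = 0 ∧ (span F {z, (1 : B)}).mkQ m = q i := fun i => by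
    obtain ⟨m, hm⟩ := (span F {z, (1 : B)}).mkQ_surjective (q i)
    refine ⟨m - e m • 1, by simp, ?_⟩
    rw [map_sub, hm, mkQ_apply, (Submodule.Quotient.mk_eq_zero _).2
      (smul_mem _ _ (mem_pair_r _ _)), sub_zero]
  choose m m1 m2 using hm
  have cm : ∀ i j, c i (m j) = if j = i then 1 else 0 := fun i j => by
    simp only [c, LinearMap.comp_apply, m2, Basis.coord_apply, Basis.repr_self, Finsupp.single_apply]
  have h3 : ∀ r, e r = 0 → ∃ k : F, r = c 0 r • m 0 + c 1 r • m 1 + k • z := fun r hr => by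
    have : r - (c 0 r • m 0 + c 1 r • m 1) ∈ span F {z, (1 : B)} := by
      rw [← Submodule.Quotient.mk_eq_zero, ← mkQ_apply, map_sub, map_add, map_smul, map_smul, m2, m2,
        sub_eq_zero, ← q.sum_repr ((span F {z, (1 : B)}).mkQ r), Fin.sum_univ_two]
      rfl
    obtain ⟨k, k', e1⟩ := mem_span_pair.1 this
    have e2 := congrArg e e1
    simp only [map_add, map_smul, map_sub, L.ez, map_one, hr, m1, smul_eq_mul, mul_zero, mul_one,
      add_zero, zero_add, sub_zero] at e2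
    exact ⟨k, by rw [e2, zero_smul, add_zero] at e1; rw [e1]; ring⟩
  obtain ⟨A, hA⟩ := mem_span_singleton.1 (L.sq _ _ (m1 0) (m1 0))
  obtain ⟨Bc, hB⟩ := mem_span_singleton.1 (L.sq _ _ (m1 0) (m1 1))
  obtain ⟨C, hC⟩ := mem_span_singleton.1 (L.sq _ _ (m1 1) (m1 1))
  have h4 : ∀ r r', e r = 0 → e r' = 0 → r * r' = (A * c 0 r * c 0 r' +
      Bc * (c 0 r * c 1 r' + c 1 r * c 0 r') + C * c 1 r * c 1 r') • z := fun r r' hr hr' => by
    obtain ⟨k, e1⟩ := h3 r hr
    obtain ⟨k', e2⟩ := h3 r' hr'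
    have a0 := L.ann _ (m1 0)
    have a1 := L.ann _ (m1 1)
    have a2 := L.ann _ L.ez
    conv_lhs => rw [e1, e2]
    simp only [Algebra.smul_def, map_add, map_mul] at *
    linear_combination (algebraMap F B (c 0 r) * algebraMap F B k' +
      algebraMap F B (c 0 r') * algebraMap F B k) * a0 + (algebraMap F B (c 1 r) * algebraMap F B k' +
      algebraMap F B (c 1 r') * algebraMap F B k) * a1 + algebraMap F B k * algebraMap F B k' * a2 -
      algebraMap F B (c 0 r) * algebraMap F B (c 0 r') * hA -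
      (algebraMap F B (c 0 r) * algebraMap F B (c 1 r') +
        algebraMap F B (c 1 r) * algebraMap F B (c 0 r')) * hB -
      algebraMap F B (c 1 r) * algebraMap F B (c 1 r') * hC
  have h5 : ∀ a b : F, A * a + Bc * b = 0 → Bc * a + C * b = 0 → a = 0 ∧ b = 0 := fun a b k1 k2 => by
    have := L.nd (a • m 0 + b • m 1) fun r hr => by
      rw [h4 _ r (by simp [m1]) hr]
      simp only [map_add, map_smul, cm, smul_eq_mul]
      simp only [Fin.isValue, if_true, one_ne_zero, zero_ne_one, if_false]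
      exact smul_eq_zero_of_left (by linear_combination c 0 r * k1 + c 1 r * k2) _
    exact ⟨by simpa [cm] using cz 0 _ this, by simpa [cm] using cz 1 _ this⟩
  have hΔ : Bc ^ 2 - A * C ≠ 0 := fun h => by
    obtain ⟨rfl, k1⟩ := h5 C (-Bc) (by linear_combination -h) (by ring)
    obtain ⟨rfl, k2⟩ := h5 Bc (-A) (by ring) (by linear_combination h)
    exact one_ne_zero (h5 1 0 (by simpa using k2) (by simp)).1
  let w : B → B → F := fun r r' => c 0 r * c 1 r' - c 1 r * c 0 r'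
  let Λ : Submodule K F := span K {a | ∃ r ∈ D.YY e, ∃ r' ∈ D.YY e, a = w r r'}
  have : FiniteDimensional K Λ := Submodule.finiteDimensional_of_le (S₂ :=
    (D.YY e).map ((c 0).restrictScalars K) * (D.YY e).map ((c 1).restrictScalars K)) (by
      rw [span_le]
      rintro _ ⟨r, hr, r', hr', rfl⟩
      exact sub_mem (mul_mem_mul ⟨r, hr, rfl⟩ ⟨r', hr', rfl⟩)
        (by rw [mul_comm (c 1 r)]; exact mul_mem_mul ⟨r', hr', rfl⟩ ⟨r, hr, rfl⟩))
  have wm : ∀ i j, w (y i) (y j) ∈ Λ := fun i j => subset_span ⟨_, y_mem hy i, _, y_mem hy j, rfl⟩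
  have h6 : ![w (y 1) (y 2), w (y 2) (y 0), w (y 0) (y 1)] ≠ 0 := fun h => by
    obtain ⟨f, k1⟩ := L.dec' hy (m 0)
    obtain ⟨g, k2⟩ := L.dec' hy (m 1)
    have a0 := cz 0 _ k1
    have a1 := cz 1 _ k1
    have a2 := cz 0 _ k2
    have a3 := cz 1 _ k2
    have b0 := congrFun h 0
    have b1 := congrFun h 1
    have b2 := congrFun h 2
    simp [m1, cm, Fin.sum_univ_three, w] at a0 a1 a2 a3 b0 b1 b2
    apply (one_ne_zero : (1 : F) ≠ 0)
    linear_combination a0 + (f 0 * c 0 (y 0) + f 1 * c 0 (y 1) + f 2 * c 0 (y 2)) * a3 -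
      (g 0 * c 0 (y 0) + g 1 * c 0 (y 1) + g 2 * c 0 (y 2)) * a1 + (f 1 * g 2 - f 2 * g 1) * b0 +
      (f 2 * g 0 - f 0 * g 2) * b1 + (f 0 * g 1 - f 1 * g 0) * b2
  have h7 : ∀ a ∈ Λ * Λ, (Bc ^ 2 - A * C) * a ∈ D.Bs e z * D.Bs e z := by
    have k : ∀ r ∈ D.YY e, ∀ r' ∈ D.YY e, A * c 0 r * c 0 r' + Bc * (c 0 r * c 1 r' + c 1 r * c 0 r') +
        C * c 1 r * c 1 r' ∈ D.Bs e z := fun r hr r' hr' => by
      have := mul_mem_mul hr hr'
      rw [h4 r r' hr.2 hr'.2] at this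
      exact this
    intro a ha
    rw [span_mul_span] at ha
    induction ha using Submodule.span_induction with
    | mem a ha =>
      obtain ⟨_, ⟨r, hr, r', hr', rfl⟩, _, ⟨t, ht, t', ht', rfl⟩, rfl⟩ := ha
      convert sub_mem (mul_mem_mul (k r hr t' ht') (k r' hr' t ht))
        (mul_mem_mul (k r hr t ht) (k r' hr' t' ht')) using 1
      simp only [w]; ring
    | zero => simp
    | add a b _ _ h1 h2 => rw [mul_add]; exact add_mem h1 h2
    | smul k a _ h1 => rw [mul_smul_comm]; exact smul_mem _ _ h1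
  obtain ⟨i, hi⟩ := Function.ne_iff.1 h6
  have hi' : ![w (y 1) (y 2), w (y 2) (y 0), w (y 0) (y 1)] i ∈ Λ := by
    fin_cases i <;> exact wm _ _
  obtain ⟨κ, κ0, g, hg⟩ := D.frc.prim D.inj Λ ((Submodule.ne_bot_iff _).2 ⟨_, hi', hi⟩)
  obtain ⟨μ, μ0, γ, hγ⟩ := D.frc.prim D.inj (D.Bs e z) fun h => by
    have := h7 _ (mul_mem_mul hi' hi')
    rw [h, Submodule.bot_mul, mem_bot] at this
    exact mul_ne_zero hΔ (mul_ne_zero hi hi) this
  have h8 := L.gam μ0 hγ
  have h9 : 2 ≤ g := by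
    by_contra hc
    obtain ⟨l, hl, l0⟩ := (Submodule.ne_bot_iff _).1 ((D.inj.primP (1 - g)).ne D.inj)
    have := L.nolin hy (f := (l * κ) • ![w (y 1) (y 2), w (y 2) (y 0), w (y 0) (y 1)]) (fun i => by
      have := mul_pow_mem hl (hg.le (mul_mem_mul (mem_span_singleton_self κ)
        (show ![w (y 1) (y 2), w (y 2) (y 0), w (y 0) (y 1)] i ∈ Λ by fin_cases i <;> exact wm _ _)))
      rwa [show 1 - g + g = 1 by omega, pow_one, ← mul_assoc] at this) (by
      obtain ⟨k, k1⟩ := h3 _ (ev_sum hy ((l * κ) • ![w (y 1) (y 2), w (y 2) (y 0), w (y 0) (y 1)]))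
      have k2 : ∀ i : Fin 2, c i (∑ i, ((l * κ) • ![w (y 1) (y 2), w (y 2) (y 0), w (y 0) (y 1)]) i •
          y i) = 0 := fun i => by
        fin_cases i <;> simp [Fin.sum_univ_three, w] <;> ring
      rw [k1, k2, k2]
      simpa using smul_mem _ k (mem_span_singleton_self z))
    exact smul_ne_zero (mul_ne_zero l0 κ0) h6 this
  obtain ⟨k1, k2⟩ := (hg.mul hg).int D.inj (k := γ + γ) (φ := (Bc ^ 2 - A * C) * μ ^ 2 / κ ^ 2)
    (div_ne_zero (mul_ne_zero hΔ (pow_ne_zero _ μ0)) (pow_ne_zero _ κ0)) fun a ha => by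
      rw [mul_mul_mul_comm, sing_mul] at ha
      obtain ⟨a, ha', rfl⟩ := mem_span_singleton_mul.1 ha
      apply (hγ.mul hγ).le
      rw [mul_mul_mul_comm, sing_mul]
      exact mem_span_singleton_mul.2 ⟨_, h7 a ha', by field_simp⟩
  rw [show γ + γ - (g + g) = 0 by omega] at k2
  obtain ⟨t, ht⟩ := mem_pow_zero.1 k2
  obtain ⟨t, rfl⟩ := IsAlgClosed.exists_eq_mul_self t
  have hd : (algebraMap K F t * κ / μ) ^ 2 = Bc ^ 2 - A * C := by
    rw [map_mul] at ht
    field_simp at ht ⊢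
    linear_combination -ht
  generalize algebraMap K F t * κ / μ = d at hd
  have z0 := cz 0 z (mem_span_singleton_self z)
  have z1 := cz 1 z (mem_span_singleton_self z)
  by_cases hA0 : A = 0
  · refine ⟨c 1, Bc • c 0 + (C / 2) • c 1, L, z1, by simp [z0, z1], fun r r' hr hr' => ?_⟩
    rw [h4 r r' hr hr', hA0]
    congr 1
    simp only [LinearMap.add_apply, LinearMap.smul_apply, smul_eq_mul]; ring
  · refine ⟨A • c 0 + (Bc + d) • c 1, (2 * A)⁻¹ • (A • c 0 + (Bc - d) • c 1), L, by simp [z0, z1],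
      by simp [z0, z1], fun r r' hr hr' => ?_⟩
    rw [h4 r r' hr hr']
    congr 1
    simp only [LinearMap.add_apply, LinearMap.smul_apply, smul_eq_mul]
    field_simp
    linear_combination 2 * c 1 r * c 1 r' * hd

end AS

end Pool.Agent.Lib.MP_a9ad87_al.Ch
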