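import Pool.Agent.Lib.MP_a9ad87_al.ChLoc1

namespace Pool.Agent.Lib.MP_a9ad87_al.Ch

open Module Submodule

variable {K F B : Type*} [Field K] [Field F] [Algebra K F] [CommRing B] [Algebra F B]
    [Algebra K B] [IsScalarTower K F B]

section rk
variable [CharZero K] {x : Fin 4 → F} {Y : Type*} [AddCommGroup Y] [Module K Y]
  {u v : Y →ₗ[K] F} {Z : Submodule K F}

lemma rk_inj (h : Inj K x) (hY : finrank K Y = 3) (hu : ∀ y, u y ∈ UU K x) (hv : ∀ y, v y ∈ UU K x)
    [FiniteDimensional K Z] (hZ : finrank K Z ≤ 3) (hB : ∀ y y', u y * v y' + u y' * v y ∈ Z)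
    (h2 : 2 ≤ finrank K (LinearMap.range v))
    (hw : ∀ y y', Ind2 K y y' → u y * v y' ≠ u y' * v y) (hi : Function.Injective u) : False := by
  have : FiniteDimensional K Y := Module.finite_of_finrank_pos (by omega)
  have key : ∀ s, Ind2 K (u s) (v s) → (∃ y, u y ∉ span K {u s, v s}) ∧
      ∀ y, v y ∈ span K {u s, v s} := fun s hs => by
    have h1 : ∃ y, u y ∉ span K {u s, v s} := by
      by_contra hc
      push Not at hc
      have := Submodule.finrank_mono (show LinearMap.range u ≤ span K {u s, v s} by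
        rintro _ ⟨y, rfl⟩; exact hc y)
      rw [LinearMap.finrank_range_of_inj hi, hs.dim] at this
      omega
    let φ : Y →ₗ[K] F := LinearMap.mulLeft K (u s) ∘ₗ v + LinearMap.mulRight K (v s) ∘ₗ u
    have h3 : Function.Injective φ := by
      rw [← LinearMap.ker_eq_bot, eq_bot_iff]
      intro y hy
      have hy' : u s * v y + u y * v s = 0 := hy
      obtain ⟨c, c1, c2⟩ := h.div1 (hu s) (hv s) hs (hv y) (neg_mem (hu y))
        (by linear_combination hy')
      obtain rfl : y = -(c • s) := hi (by rw [map_neg, map_smul, ← c2, neg_neg])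
      rw [map_neg, map_smul, neg_eq_iff_add_eq_zero, ← add_smul, smul_eq_zero,
        add_self_eq_zero] at c1
      simp [c1.resolve_right hs.symm.ne]
    have h4 : LinearMap.range φ = Z := Submodule.eq_of_le_of_finrank_le
      (by rintro _ ⟨y, rfl⟩; exact hB s y) (by rw [LinearMap.finrank_range_of_inj h3]; omega)
    have h5 : ∀ y, u y ∉ span K {u s, v s} → v y ∈ span K {u s, v s} := fun y hy => by
      obtain ⟨w, hw⟩ := h4.ge (hB y y)
      have e : u y * v y = (2 : K)⁻¹ • (u s * v w + v s * u w) := by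
        have : u s * v w + u w * v s = u y * v y + u y * v y := hw
        rw [mul_comm (v s), this, ← two_smul K, smul_smul]; simp
      exact (h.prime1 (pair_le (hu s) (hv s)) (hu y) (hv y) (e ▸ smul_mem _ _ (add_mem
        (mul_mem_mul (mem_pair_l _ _) (hv w)) (mul_mem_mul (mem_pair_r _ _) (hu w))))).resolve_left hy
    refine ⟨h1, fun y => ?_⟩
    by_cases hy : u y ∈ span K {u s, v s}
    · obtain ⟨y1, h1⟩ := h1
      have := h5 (y + y1) fun hh => h1 (by simpa using sub_mem hh hy)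
      simpa using sub_mem this (h5 y1 h1)
    · exact h5 y hy
  obtain ⟨s, hs⟩ : ∃ s, v s ∉ K ∙ u s := by
    by_contra hc
    push Not at hc
    have : Nontrivial Y := Module.nontrivial_of_finrank_pos (R := K) (by omega)
    obtain ⟨y, h0⟩ := exists_ne (0 : Y)
    obtain ⟨y', -, hy⟩ := exists_ind2 (V := (⊤ : Submodule K Y)) (by rw [finrank_top]; omega) h0
    obtain ⟨c, e1⟩ := mem_span_singleton.1 (hc y)
    obtain ⟨c', e2⟩ := mem_span_singleton.1 (hc y')
    obtain ⟨c'', e3⟩ := mem_span_singleton.1 (hc (y + y'))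
    obtain ⟨a1, a2⟩ := hy (c - c'') (c' - c'') (hi (by
      rw [map_add, map_add, ← e1, ← e2] at e3
      rw [map_add, map_smul, map_smul, map_zero]
      linear_combination (norm := module) -e3))
    apply hw y y' hy
    rw [← e1, ← e2, sub_eq_zero.1 a1, sub_eq_zero.1 a2, mul_smul_comm, mul_smul_comm, mul_comm]
  have hs' : Ind2 K (u s) (v s) := ind2_of (fun h0 => hs (by
    rw [hi (h0.trans (map_zero u).symm), map_zero v]; exact zero_mem _)) hs
  obtain ⟨⟨y1, h1⟩, h3⟩ := key s hs'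
  obtain ⟨y2, h4⟩ := Submodule.exists_forall_notMem_of_forall_ne_top (ι := Bool)
    (fun b => if b then (span K {u s, v s}).comap u else LinearMap.ker v) (by
      rintro (_ | _) ht
      · exact hs'.symm.ne ((Submodule.eq_top_iff'.1 ht) s)
      · exact h1 ((Submodule.eq_top_iff'.1 ht) y1))
  have h5 : u y2 ∉ span K {u s, v s} := h4 true
  have h6 : v y2 ≠ 0 := h4 false
  have h7 : Ind2 K (u y2) (v y2) := (ind2_of h6 fun hh => h5 (sing_le (h3 y2) hh)).symm
  have e1 : LinearMap.range v = span K {u s, v s} := Submodule.eq_of_le_of_finrank_le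
    (by rintro _ ⟨y, rfl⟩; exact h3 y) (by rw [hs'.dim]; exact h2)
  have e2 : LinearMap.range v = span K {u y2, v y2} := Submodule.eq_of_le_of_finrank_le
    (by rintro _ ⟨y, rfl⟩; exact (key y2 h7).2 y) (by rw [h7.dim]; exact h2)
  exact h5 (e1 ▸ e2 ▸ mem_pair_l _ _)

lemma rk_all (h : Inj K x) (hY : finrank K Y = 3) (hu : ∀ y, u y ∈ UU K x) (hv : ∀ y, v y ∈ UU K x)
    [FiniteDimensional K Z] (hZ : finrank K Z ≤ 3) (hB : ∀ y y', u y * v y' + u y' * v y ∈ Z)
    (h1 : 2 ≤ finrank K (LinearMap.range u)) (h2 : 2 ≤ finrank K (LinearMap.range v))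
    (hw : ∀ y y', Ind2 K y y' → u y * v y' ≠ u y' * v y) :
    ∃ a ∈ UU K x, ∃ b ∈ UU K x, Ind2 K a b ∧ (∀ y, u y ∈ span K {a, b}) ∧ ∀ y, v y ∈ span K {a, b} := by
  have : FiniteDimensional K Y := Module.finite_of_finrank_pos (by omega)
  obtain ⟨p, hp, p0⟩ := (Submodule.ne_bot_iff (LinearMap.ker u)).1 fun e =>
    rk_inj h hY hu hv hZ hB h2 hw (LinearMap.ker_eq_bot.1 e)
  obtain ⟨q, hq, q0⟩ := (Submodule.ne_bot_iff (LinearMap.ker v)).1 fun e =>
    rk_inj h hY hv hu hZ (fun y y' => by convert hB y y' using 1; ring) h1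
      (fun y y' hi e => hw y y' hi (by linear_combination -e)) (LinearMap.ker_eq_bot.1 e)
  rw [LinearMap.mem_ker] at hp hq
  have hpq : Ind2 K q p := ind2_of q0 fun hh => by
    obtain ⟨c, rfl⟩ := mem_span_singleton.1 hh
    obtain ⟨y, -, hy⟩ := exists_ind2 (V := (⊤ : Submodule K Y)) (by rw [finrank_top]; omega) p0
    exact hw _ _ hy (by rw [hp, map_smul, hq]; simp)
  obtain ⟨t, -, ht⟩ := exists_sup_one (X := span K {q, p}) (Y := ⊤) le_top
    (by rw [finrank_top, hpq.dim]; omega)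
  have dec : ∀ y, ∃ a b c : K, y = a • q + b • p + c • t := fun y => by
    obtain ⟨_, h1, _, h2, rfl⟩ := mem_sup.1 (ht (mem_top (x := y)))
    obtain ⟨a, b, rfl⟩ := mem_span_pair.1 h1
    obtain ⟨c, rfl⟩ := mem_span_singleton.1 h2
    exact ⟨a, b, c, rfl⟩
  have ru : ∀ y, u y ∈ span K {u q, u t} := fun y => by
    obtain ⟨a, b, c, rfl⟩ := dec y
    exact mem_span_pair.2 ⟨a, c, by simp [hp]⟩
  have rv : ∀ y, v y ∈ span K {v p, v t} := fun y => by
    obtain ⟨a, b, c, rfl⟩ := dec y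
    exact mem_span_pair.2 ⟨b, c, by simp [hq]⟩
  have iu := ind2_of_le (W := LinearMap.range u) (by rintro _ ⟨y, rfl⟩; exact ru y) h1
  have iv := ind2_of_le (W := LinearMap.range v) (by rintro _ ⟨y, rfl⟩; exact rv y) h2
  refine ⟨_, hv p, _, hv t, iv, fun y => ?_, rv⟩
  have hd : ¬ LinearIndependent K ![u q * v p, u q * v t, u t * v p, u t * v t] := fun hl => by
    have e := finrank_span_eq_card hl
    have : span K (Set.range ![u q * v p, u q * v t, u t * v p, u t * v t]) ≤ Z := by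
      rw [span_le]
      rintro _ ⟨i, rfl⟩
      fin_cases i
      · simpa [hp] using hB q p
      · simpa [hq] using hB q t
      · simpa [hp] using hB t p
      · have := smul_mem _ (2 : K)⁻¹ (hB t t)
        rw [← two_smul K, smul_smul] at this
        simpa using this
    have := Submodule.finrank_mono this
    rw [e, Fintype.card_fin] at this
    omega
  by_contra hc
  refine hd (li4 fun a b c d e => ?_)
  obtain ⟨k, k1, k2⟩ := h.div1 (hu q) (hu t) iu (f := a • v p + b • v t) (g := -(c • v p + d • v t))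
    (add_mem (smul_mem _ _ (hv p)) (smul_mem _ _ (hv t)))
    (neg_mem (add_mem (smul_mem _ _ (hv p)) (smul_mem _ _ (hv t)))) (by
      simp only [Matrix.cons_val_zero, Matrix.cons_val_one, Matrix.cons_val, Algebra.smul_def] at e ⊢
      linear_combination e)
  by_cases hk : k = 0
  · rw [hk, zero_smul] at k1 k2
    obtain ⟨rfl, rfl⟩ := iv _ _ k1
    obtain ⟨rfl, rfl⟩ := iv _ _ (neg_eq_zero.1 k2)
    simp
  · exact absurd (pair_le ((smul_mem_iff _ hk).1 (k2 ▸ neg_mem (mem_span_pair.2 ⟨_, _, rfl⟩)))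
      ((smul_mem_iff _ hk).1 (k1 ▸ mem_span_pair.2 ⟨_, _, rfl⟩)) (ru y)) hc

end rk

namespace AS
variable {D : AS K F B} {e : B →ₐ[F] F} {z : B} {u v : B →ₗ[F] F}

lemma Hyp.symm (H : D.Hyp e z u v) : D.Hyp e z v u :=
  ⟨H.L, H.vz, H.uz, fun m m' h h' => by rw [H.mul m m' h h']; congr 1; ring⟩

lemma Hyp.scale (H : D.Hyp e z u v) {κ : F} (h0 : κ ≠ 0) : D.Hyp e (κ⁻¹ • z) (κ • u) v := by
  have e1 : (F ∙ (κ⁻¹ • z)) = F ∙ z := span_singleton_smul_eq (IsUnit.mk0 _ (inv_ne_zero h0)) z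
  refine ⟨⟨H.L.mem, smul_ne_zero (inv_ne_zero h0) H.L.z0, by simp [H.L.ez], fun m hm => by
    rw [smul_mul_assoc, H.L.ann m hm, smul_zero], e1 ▸ H.L.sq, e1 ▸ H.L.nd⟩, by simp [H.uz],
    by simp [H.vz], fun m m' h h' => ?_⟩
  rw [H.mul m m' h h', smul_smul]
  congr 1
  simp only [LinearMap.smul_apply, smul_eq_mul]
  field_simp

lemma Hyp.u_mul (H : D.Hyp e z u v) (r : B) {m : B} (hm : e m = 0) : u (r * m) = e r * u m := by
  rw [show r * m = (r - algebraMap F B (e r)) * m + algebraMap F B (e r) * m by ring, map_add,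
    lin_alg, H.mul _ m (by simp) hm, map_smul, H.uz]
  simp

lemma Hyp.notconst (H : D.Hyp e z u v) : ¬ (D.YY e).map (u.restrictScalars K) ≤ D.U ^ 0 := by
  intro h0
  have := D.finB
  let J : Ideal B :=
    { carrier := {m | e m = 0 ∧ u m = 0}
      add_mem' := fun h h' => ⟨by rw [map_add, h.1, h'.1, add_zero],
        by rw [map_add, h.2, h'.2, add_zero]⟩
      zero_mem' := ⟨map_zero _, map_zero _⟩
      smul_mem' := fun r m h => ⟨by rw [smul_eq_mul, map_mul, h.1, mul_zero],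
        by rw [smul_eq_mul, H.u_mul r h.1, h.2, mul_zero]⟩ }
  obtain ⟨C, hC⟩ := D.hb
  obtain ⟨y, hy⟩ := H.L.exy
  obtain ⟨j, hj, e1⟩ := D.ss J J (by
    rw [eq_bot_iff, Ideal.mul_le]
    intro a ha b hb
    rw [H.mul a b ha.1 hb.1, ha.2, hb.2]; simp) 2 (by
    have e1 := (e.toLinearMap.prod u).finrank_range_add_finrank_ker
    have e2 := Submodule.finrank_le (LinearMap.range (e.toLinearMap.prod u))
    have e3 : LinearMap.ker (e.toLinearMap.prod u) = J.restrictScalars F := by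
      rw [LinearMap.ker_prod]; rfl
    rw [e3, D.dimB] at e1
    rw [Module.finrank_prod, finrank_self] at e2
    omega) (C + 6)
  obtain ⟨j, rfl⟩ : ∃ i, j = i + 1 := ⟨j - 1, by omega⟩
  have e2 := D.dim_ev e H.L.mem (j + 1)
  have e3 := finrank_map_add (D.V ^ (j + 1) ⊓ LinearMap.ker (e.toLinearMap.restrictScalars K))
    (u.restrictScalars K)
  have e4 : D.V ^ (j + 1) ⊓ LinearMap.ker (e.toLinearMap.restrictScalars K) ⊓
      LinearMap.ker (u.restrictScalars K) = D.V ^ (j + 1) ⊓ J.restrictScalars K := by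
    rw [inf_assoc]; rfl
  have e5 : (D.V ^ (j + 1) ⊓ LinearMap.ker (e.toLinearMap.restrictScalars K)).map
      (u.restrictScalars K) ≤ D.U ^ j := by
    rintro _ ⟨r, hr, rfl⟩
    obtain ⟨f, h1, h2⟩ := H.L.dec hy j r hr.1
    have h3 : e r = 0 := hr.2
    obtain ⟨c, hc⟩ := mem_span_singleton.1 h2
    have h4 := congrArg u hc
    rw [h3, map_zero, sub_zero, map_smul, H.uz, smul_zero, map_sub, eq_comm, sub_eq_zero] at h4
    rw [LinearMap.restrictScalars_apply, h4, map_sum]
    refine sum_mem fun i _ => ?_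
    rw [map_smul]
    exact mul_pow_mem (j := 0) (h1 i) (h0 ⟨_, y_mem hy i, rfl⟩)
  have e6 := Submodule.finrank_mono e5
  rw [D.inj.dim] at e6
  rw [e4] at e3
  have e7 := (hC (j + 1)).1
  have e8 := s_succ j
  nlinarith

lemma Hyp.prim [Infinite K] (H : D.Hyp e z u v) :
    ∃ z' u' a, D.Hyp e z' u' v ∧ Prim D.x a ((D.YY e).map (u'.restrictScalars K)) := by
  obtain ⟨κ, h0, a, h⟩ := D.frc.prim D.inj ((D.YY e).map (u.restrictScalars K))
    fun h => H.notconst (h ▸ bot_le)
  refine ⟨_, _, a, H.scale h0, ?_⟩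
  convert h using 1
  ext w
  rw [mem_span_singleton_mul]
  exact ⟨fun ⟨r, hr, e⟩ => ⟨_, ⟨r, hr, rfl⟩, e⟩, fun ⟨_, ⟨r, hr, rfl⟩, e⟩ => ⟨r, hr, e⟩⟩

lemma Hyp.mem_Bs (H : D.Hyp e z u v) {y y' : B} (hy : y ∈ D.YY e) (hy' : y' ∈ D.YY e) :
    u y * v y' + u y' * v y ∈ D.Bs e z := by
  have := mul_mem_mul hy hy'
  rw [H.mul y y' hy.2 hy'.2] at this
  exact this

lemma Hyp.Bs_le (H : D.Hyp e z u v) {X : Submodule K F}
    (h : ∀ y ∈ D.YY e, ∀ y' ∈ D.YY e, u y * v y' ∈ X) :
    D.YY e * D.YY e ≤ X.map ((LinearMap.toSpanSingleton F B z).restrictScalars K) :=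
  Submodule.mul_le.2 fun y hy y' hy' =>
    ⟨_, add_mem (h y hy y' hy') (h y' hy' y hy), (H.mul y y' hy.2 hy'.2).symm⟩

lemma Hyp.lin [CharZero K] (H : D.Hyp e z u v) {a b : ℕ}
    (ha : Prim D.x a ((D.YY e).map (u.restrictScalars K)))
    (hb : Prim D.x b ((D.YY e).map (v.restrictScalars K))) : a = 1 ∧ b = 1 := by
  have h1 : a ≠ 0 := by rintro rfl; exact H.notconst ha.le
  have h2 : b ≠ 0 := by rintro rfl; exact H.symm.notconst hb.le
  have h3 := H.L.gam one_ne_zero (g := a + b) (by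
    rw [← Submodule.one_eq_span, one_mul]
    refine ⟨fun β hβ => ?_, fun p hp => ?_⟩
    · obtain ⟨β', h1, h2⟩ := H.Bs_le (X := D.U ^ (a + b)) (fun y hy y' hy' =>
        mul_pow_mem (ha.le ⟨y, hy, rfl⟩) (hb.le ⟨y', hy', rfl⟩)) hβ
      exact (show β' = β from smul_left_injective F H.L.z0 h2) ▸ h1
    · obtain ⟨G, g1, ⟨y, hy, g2⟩, g3⟩ := ha.ex p hp
      obtain ⟨G', g1', ⟨y', hy', g2'⟩, g3'⟩ := hb.ex p hp
      obtain ⟨G1, a1, a2⟩ := mem_Upow.1 (ha.le ⟨y', hy', rfl⟩)
      obtain ⟨G2, b1, b2⟩ := mem_Upow.1 (hb.le ⟨y, hy, rfl⟩)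
      simp only [LinearMap.restrictScalars_apply] at g2 g2' a2 b2
      by_cases hc : p ∣ G2
      · refine ⟨G * G' + G1 * G2, add_mem (g1.mul g1') (a1.mul b1), ?_, fun h => ?_⟩
        · rw [map_add, map_mul, map_mul, ← g2, ← g2', a2, b2]; exact H.mem_Bs hy hy'
        · exact (hp.dvd_or_dvd ((dvd_add_left (hc.mul_left G1)).1 h)).elim g3 g3'
      · refine ⟨G * G2, g1.mul b1, ?_, fun h => (hp.dvd_or_dvd h).elim g3 hc⟩
        have := smul_mem _ (2 : K)⁻¹ (H.mem_Bs hy hy)
        rw [← two_smul K, smul_smul] at this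
        simpa [← g2, b2] using this)
  omega

theorem Loc.false [IsAlgClosed K] [CharZero K] (L : D.Loc e z) : False := by
  obtain ⟨u, v, H⟩ := L.hyp
  obtain ⟨z, u, a, H, ha⟩ := H.prim
  obtain ⟨z, v, b, H, hb⟩ := H.symm.prim
  replace H := H.symm
  obtain ⟨rfl, rfl⟩ := H.lin ha hb
  have := H.L.finBs
  have hU : ∀ y ∈ D.YY e, u y ∈ D.U := fun y hy => by simpa using ha.le ⟨y, hy, rfl⟩
  have hV : ∀ y ∈ D.YY e, v y ∈ D.U := fun y hy => by simpa using hb.le ⟨y, hy, rfl⟩
  obtain ⟨y, hy⟩ := H.L.exy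
  have nl : ∀ f f' : F, f ∈ D.U → f' ∈ D.U → ∀ p ∈ D.YY e, ∀ q ∈ D.YY e, Ind2 K p q →
      f * u p + f' * u q = 0 → f * v p + f' * v q = 0 → f = 0 := by
    intro f f' hf hf' p hp q hq hi h1 h2
    obtain ⟨c, rfl⟩ := (mem_span_range_iff_exists_fun K).1 (hy ▸ hp)
    obtain ⟨c', rfl⟩ := (mem_span_range_iff_exists_fun K).1 (hy ▸ hq)
    have e1 : ∑ i, (c i • f + c' i • f') • y i = f • ∑ i, c i • y i + f' • ∑ i, c' i • y i := by
      simp only [Fin.sum_univ_three, Algebra.smul_def, IsScalarTower.algebraMap_apply K F B, map_add,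
        map_mul]
      ring
    have e2 := H.L.nolin hy (f := fun i => c i • f + c' i • f')
      (fun i => add_mem (smul_mem _ _ hf) (smul_mem _ _ hf')) (H.L.nd _ fun m hm => by
        rw [H.mul _ m (ev_sum hy _) hm, e1, map_add, map_add, map_smul, map_smul, map_smul, map_smul]
        simp only [smul_eq_mul, h1, h2]; simp)
    by_contra h0
    by_cases hc : f' ∈ K ∙ f
    · obtain ⟨k, rfl⟩ := mem_span_singleton.1 hc
      have e3 : ∀ i, c i + c' i * k = 0 := fun i => by
        have := congrFun e2 i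
        rwa [smul_smul, ← add_smul, Pi.zero_apply, smul_eq_zero, or_iff_left h0] at this
      refine one_ne_zero (hi 1 k ?_).1
      rw [one_smul, Finset.smul_sum, ← Finset.sum_add_distrib]
      exact Finset.sum_eq_zero fun i _ => by rw [smul_smul, ← add_smul, mul_comm, e3, zero_smul]
    · exact hi.ne (Finset.sum_eq_zero fun i _ => by
        rw [(ind2_of h0 hc _ _ (congrFun e2 i)).1, zero_smul])
  obtain ⟨a, ha', b, hb', hi, h1, h2⟩ := rk_all (Y := D.YY e) (Z := D.Bs e z)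
    (u := u.restrictScalars K ∘ₗ (D.YY e).subtype) (v := v.restrictScalars K ∘ₗ (D.YY e).subtype)
    D.inj H.L.dimY (fun y => hU _ y.2) (fun y => hV _ y.2) H.L.dimBs
    (fun y y' => H.mem_Bs y.2 y'.2)
    (by rw [LinearMap.range_comp, range_subtype]; exact ha.two D.inj)
    (by rw [LinearMap.range_comp, range_subtype]; exact hb.two D.inj) (fun p q hi h => by
      have hi' : Ind2 K q.1 p.1 := fun c d h => hi.symm c d (Subtype.ext h)
      have h' : u p * v q = u q * v p := h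
      have k1 := nl _ _ (hU _ p.2) (neg_mem (hU _ q.2)) _ q.2 _ p.2 hi' (by ring)
        (by linear_combination h')
      have k2 := nl _ _ (hV _ p.2) (neg_mem (hV _ q.2)) _ q.2 _ p.2 hi' (by linear_combination -h')
        (by ring)
      have k3 := H.L.nd p fun m hm => by rw [H.mul _ m p.2.2 hm, k1, k2]; simp
      obtain ⟨c, hc⟩ := (mem_span_range_iff_exists_fun K).1 (hy.ge p.2)
      obtain ⟨l, hl, l0⟩ := (Submodule.ne_bot_iff _).1 (D.inj.primU.ne D.inj)
      have k4 := H.L.nolin hy (f := fun i => c i • l) (fun i => smul_mem _ _ hl) (by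
        convert smul_mem _ l k3 using 1
        rw [← hc]
        simp only [Fin.sum_univ_three, Algebra.smul_def, IsScalarTower.algebraMap_apply K F B,
          map_mul]
        ring)
      refine hi'.symm.ne (hc.symm.trans (Finset.sum_eq_zero fun i _ => ?_))
      rw [(smul_eq_zero.1 (congrFun k4 i)).resolve_right l0, zero_smul])
  have hV1 : D.V ≤ D.U' ⊔ D.YY e := fun r hr => by
    simpa using add_mem (mem_sup_left (mem_U' (H.L.mem r hr))) (mem_sup_right (H.L.sub_Y hr))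
  have k1 := H.Bs_le (X := span K {a, b} * span K {a, b}) fun p hp q hq =>
    mul_mem_mul (h1 ⟨p, hp⟩) (h2 ⟨q, hq⟩)
  have k2 : D.YY e * (D.YY e * D.V) ≤ ((K ∙ a) * (span K {a, b} * D.U) ⊔ (K ∙ (b * b)) * D.U).map
      ((LinearMap.toSpanSingleton F B z).restrictScalars K) := by
    rw [← mul_assoc]
    refine (mul_le_mul' k1 le_rfl).trans (Submodule.mul_le.2 ?_)
    rintro _ ⟨β, hβ, rfl⟩ r hr
    refine ⟨β * e r, ?_, ?_⟩
    · rw [← mul_assoc, ← Submodule.sup_mul]
      exact mul_mem_mul (pair_sq (mem_pair_l _ _) (mem_pair_r _ _) hβ) (H.L.mem r hr)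
    · have := H.L.ann (r - algebraMap F B (e r)) (by simp)
      simp only [LinearMap.restrictScalars_apply, LinearMap.toSpanSingleton_apply, Algebra.smul_def,
        map_mul]
      linear_combination -algebraMap F B β * this
  have k3 := pow_le_sup hV1 U'_le 2
  have k4 := mul_le_mul' (le_refl (D.YY e)) (pow_le_sup hV1 U'_le 1)
  rw [Submodule.mul_sup, pow_one] at k4
  have k5 := Submodule.finrank_mono (k3.trans (sup_le_sup_left (k4.trans (sup_le_sup_left k2 _)) _))
  have k6 := k5.trans ((Submodule.finrank_add_le_finrank_add_finrank _ _).trans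
    (Nat.add_le_add_left (Submodule.finrank_add_le_finrank_add_finrank _ _) _))
  have k7 : ∀ i, finrank K (D.U' ^ i : Submodule K B) ≤ s i := fun i => by
    rw [U', ← Submodule.map_pow, ← D.inj.dim]; exact Submodule.finrank_map_le _ _
  have k8 := (finrank_mul_le (D.YY e) (D.U' ^ (1 + 1))).trans (Nat.mul_le_mul H.L.dimY.le (k7 _))
  have k9 := dim_two hi.ne (mul_ne_zero hi.symm.ne hi.symm.ne) (X := span K {a, b} * D.U)
    (mul_mem_mul (mem_pair_r _ _) hb') ha'
  have k10 := D.inj.dim_lin (pair_le ha' hb') 1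
  rw [hi.dim, pow_one] at k10
  rw [dim_line H.L.z0] at k6
  rw [D.inj.dimU] at k9
  have k11 := k7 (2 + 1)
  have := D.h3
  simp only [Nat.reduceAdd, Nat.reduceSub, Nat.choose, show s 2 = 10 from rfl,
    show s 3 = 20 from rfl] at k6 k8 k10 k11
  unfold AS.U at k6 k9
  omega

end AS

theorem noAS (K : Type*) [Field K] [IsAlgClosed K] [CharZero K] (B : Type*) [CommRing B]
    [Algebra (FF K) B] [Algebra K B] [IsScalarTower K (FF K) B] (D : AS K (FF K) B)
    (hx : D.x = xx K) : False := by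
  obtain ⟨e, z, L⟩ := D.loc (D.ev hx)
  exact L.false

end Pool.Agent.Lib.MP_a9ad87_al.Ch
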