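import Pool.Agent.Lib.MP_a9ad87_al.ChPrim

namespace Pool.Agent.Lib.MP_a9ad87_al.Ch

open Module Submodule

/-- the affine setting -/
structure AS (K F B : Type*) [Field K] [Field F] [Algebra K F] [CommRing B] [Algebra F B]
    [Algebra K B] [IsScalarTower K F B] where
  x : Fin 4 → F
  V : Submodule K B
  inj : Inj K x
  frc : Frc K x
  fin : FiniteDimensional K V
  le : ∀ u ∈ UU K x, algebraMap F B u ∈ V
  dimB : finrank F B = 4
  gen : Algebra.adjoin F (V : Set B) = ⊤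
  nn : ∃ m, V ^ (m + 1) ≤ (UU K x).map (IsScalarTower.toAlgHom K F B).toLinearMap * V ^ m
  h1 : finrank K V = 7
  h2 : finrank K (V ^ 2 : Submodule K B) = 25
  h3 : 61 ≤ finrank K (V ^ 3 : Submodule K B)
  hb : ∃ C, ∀ j, 4 * s j ≤ finrank K (V ^ j : Submodule K B) + 5 * j + C ∧
    finrank K (V ^ j : Submodule K B) + 5 * j ≤ 4 * s j + C
  ss : ∀ J J' : Ideal B, J * J' = ⊥ → ∀ ρ, ρ ≤ finrank F (J.restrictScalars F) → ∀ j0, ∃ j, j0 ≤ j ∧
    ρ * finrank K (V ^ j : Submodule K B) +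
      4 * finrank K (V ^ j ⊓ J'.restrictScalars K : Submodule K B) ≤
      4 * finrank K (V ^ j : Submodule K B)

lemma ker_mul_le {F B : Type*} [Field F] [CommRing B] [Algebra F B] [FiniteDimensional F B]
    (a b : B) : finrank F (LinearMap.ker (LinearMap.mulLeft F (a * b))) ≤
      finrank F (LinearMap.ker (LinearMap.mulLeft F a)) +
        finrank F (LinearMap.ker (LinearMap.mulLeft F b)) := by
  rw [finrank_map_add (LinearMap.ker (LinearMap.mulLeft F (a * b))) (LinearMap.mulLeft F b)]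
  refine Nat.add_le_add (Submodule.finrank_mono ?_) (Submodule.finrank_mono inf_le_right)
  rintro _ ⟨r, hr, rfl⟩
  simpa [mul_assoc] using hr

lemma span_eq_range {F B : Type*} [Field F] [CommRing B] [Algebra F B] (a : B) :
    (Ideal.span {a}).restrictScalars F = LinearMap.range (LinearMap.mulLeft F a) := by
  ext r
  simp only [restrictScalars_mem, Ideal.mem_span_singleton', LinearMap.mem_range,
    LinearMap.mulLeft_apply, mul_comm]

lemma ann_of_dim {F B : Type*} [Field F] [CommRing B] [Algebra F B] [FiniteDimensional F B]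
    {a b : B} (h : a * b = 0) (hd : finrank F (LinearMap.ker (LinearMap.mulLeft F a)) +
        finrank F (LinearMap.ker (LinearMap.mulLeft F b)) ≤ finrank F B) {r : B} (hr : a * r = 0) :
    ∃ q, r = b * q := by
  have h1 : LinearMap.range (LinearMap.mulLeft F b) = LinearMap.ker (LinearMap.mulLeft F a) := by
    apply Submodule.eq_of_le_of_finrank_le
    · rintro _ ⟨q, rfl⟩
      simp [← mul_assoc, h]
    · have := (LinearMap.mulLeft F b).finrank_range_add_finrank_ker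
      omega
  have : r ∈ LinearMap.range (LinearMap.mulLeft F b) := by rw [h1]; exact hr
  obtain ⟨q, hq⟩ := this
  exact ⟨q, hq.symm⟩

lemma exists_nu {F B : Type*} [Field F] [CommRing B] [Algebra F B] (π : B) (e : B →ₗ[F] F)
    (h : ∀ r, π * r = 0 → e r = 0) : ∃ ν : B →ₗ[F] F, ∀ r, ν (π * r) = e r := by
  let f := LinearMap.mulLeft F π
  obtain ⟨ν, hν⟩ := LinearMap.exists_extend
    ((LinearMap.ker f).liftQ e (fun r hr => h r hr) ∘ₗ f.quotKerEquivRange.symm.toLinearMap)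
  refine ⟨ν, fun r => ?_⟩
  have := LinearMap.congr_fun hν ⟨f r, r, rfl⟩
  simp only [LinearMap.comp_apply, Submodule.subtype_apply, LinearEquiv.coe_coe] at this
  rw [f.quotKerEquivRange_symm_apply_image r ⟨r, rfl⟩] at this
  exact this

variable {K F B : Type*} [Field K] [Field F] [Algebra K F] [CommRing B] [Algebra F B]
    [Algebra K B] [IsScalarTower K F B]

namespace AS
variable (D : AS K F B)

abbrev U : Submodule K F := UU K D.x

instance : FiniteDimensional K D.V := D.fin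

include D in
lemma finB : FiniteDimensional F B := Module.finite_of_finrank_pos (by rw [D.dimB]; norm_num)

include D in
lemma nontriv : Nontrivial B := by
  have := D.finB
  exact Module.nontrivial_of_finrank_pos (R := F) (by rw [D.dimB]; norm_num)

lemma le_pow {i : ℕ} {u : F} (hu : u ∈ D.U ^ i) : algebraMap F B u ∈ D.V ^ i := by
  induction hu using Submodule.pow_induction_on_left' with
  | algebraMap c => rw [← IsScalarTower.algebraMap_apply, pow_zero]; exact algebraMap_mem c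
  | add f g i _ _ h1 h2 => rw [map_add]; exact add_mem h1 h2
  | mem_mul m hm i f _ ih => rw [map_mul]; exact mul_pow_succ (D.le m hm) ih

lemma ev_pow (e : B →ₐ[F] F) (he : ∀ v ∈ D.V, e v ∈ D.U) {i : ℕ} {r : B} (hr : r ∈ D.V ^ i) :
    e r ∈ D.U ^ i := by
  induction hr using Submodule.pow_induction_on_left' with
  | algebraMap c =>
    rw [IsScalarTower.algebraMap_apply K F B, AlgHom.commutes, pow_zero]; exact algebraMap_mem c
  | add f g i _ _ h1 h2 => rw [map_add]; exact add_mem h1 h2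
  | mem_mul m hm i f _ ih => rw [map_mul]; exact mul_pow_succ (he m hm) ih

lemma dim_ev (e : B →ₐ[F] F) (he : ∀ v ∈ D.V, e v ∈ D.U) (i : ℕ) :
    finrank K (D.V ^ i : Submodule K B) = s i + finrank K
      (D.V ^ i ⊓ LinearMap.ker (e.toLinearMap.restrictScalars K) : Submodule K B) := by
  have : (D.V ^ i).map (e.toLinearMap.restrictScalars K) = D.U ^ i := by
    apply le_antisymm
    · rintro _ ⟨r, hr, rfl⟩; exact D.ev_pow e he hr
    · intro u hu; exact ⟨_, D.le_pow hu, by simp⟩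
  rw [finrank_map_add (D.V ^ i) (e.toLinearMap.restrictScalars K), ← D.inj.dim i, this]

end AS

/-- the monogenic setting -/
structure MG (K F B : Type*) [Field K] [Field F] [Algebra K F] [CommRing B] [Algebra F B]
    [Algebra K B] [IsScalarTower K F B] extends AS K F B where
  T : B
  hT : T ∈ V
  ev : F → B →ₐ[F] F

namespace MG
variable (D : MG K F B)

def t (a : F) : B := D.T - algebraMap F B a

structure Rt (a : F) : Prop where
  evT : D.ev a D.T = a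
  ker : ∀ r, D.ev a r = 0 → ∃ q, r = D.t a * q
  one : finrank F (LinearMap.ker (LinearMap.mulLeft F (D.t a))) ≤ 1
  mem : ∀ v ∈ D.V, D.ev a v ∈ D.U

structure Od (a b c d : F) : Prop where
  ra : D.Rt a
  rb : D.Rt b
  rc : D.Rt c
  rd : D.Rt d
  z : D.t a * D.t b * D.t c * D.t d = 0

variable {D} {a b c d : F}

lemma Od.s01 (h : D.Od a b c d) : D.Od b a c d := ⟨h.rb, h.ra, h.rc, h.rd, by rw [← h.z]; ring⟩
lemma Od.s12 (h : D.Od a b c d) : D.Od a c b d := ⟨h.ra, h.rc, h.rb, h.rd, by rw [← h.z]; ring⟩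
lemma Od.s23 (h : D.Od a b c d) : D.Od a b d c := ⟨h.ra, h.rb, h.rd, h.rc, by rw [← h.z]; ring⟩

lemma Rt.ev_t (h : D.Rt a) (b : F) : D.ev a (D.t b) = a - b := by simp [t, h.evT]

lemma Rt.ev_self (h : D.Rt a) : D.ev a (D.t a) = 0 := by simp [h.ev_t]

lemma Rt.memU (h : D.Rt a) : a ∈ D.U := by have := h.mem _ D.hT; rwa [h.evT] at this

lemma Rt.t_mem (h : D.Rt a) : D.t a ∈ D.V := sub_mem D.hT (D.le a h.memU)

lemma Rt.k2 (ha : D.Rt a) (hb : D.Rt b) :
    finrank F (LinearMap.ker (LinearMap.mulLeft F (D.t a * D.t b))) ≤ 2 := by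
  have := D.finB
  have h1 := ker_mul_le (F := F) (D.t a) (D.t b)
  have := ha.one; have := hb.one; omega

lemma Rt.k3 (ha : D.Rt a) (hb : D.Rt b) (hc : D.Rt c) :
    finrank F (LinearMap.ker (LinearMap.mulLeft F (D.t a * D.t b * D.t c))) ≤ 3 := by
  have := D.finB
  have h1 := ker_mul_le (F := F) (D.t a * D.t b) (D.t c)
  have := ha.k2 hb; have := hc.one; omega

lemma Od.ann1 (h : D.Od a b c d) {r : B} (hr : D.t a * r = 0) :
    ∃ q, r = D.t b * D.t c * D.t d * q := by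
  have := D.finB
  refine ann_of_dim (F := F) (by rw [← h.z]; ring) ?_ hr
  have := h.ra.one; have := h.rb.k3 h.rc h.rd; have := D.dimB; omega

lemma Od.ann2 (h : D.Od a b c d) {r : B} (hr : D.t a * D.t b * r = 0) :
    ∃ q, r = D.t c * D.t d * q := by
  have := D.finB
  refine ann_of_dim (F := F) (by rw [← h.z]; ring) ?_ hr
  have := h.ra.k2 h.rb; have := h.rc.k2 h.rd; have := D.dimB; omega

lemma Od.ann3 (h : D.Od a b c d) {r : B} (hr : D.t a * D.t b * D.t c * r = 0) :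
    ∃ q, r = D.t d * q := by
  have := D.finB
  refine ann_of_dim (F := F) h.z ?_ hr
  have := h.rd.one; have := h.ra.k3 h.rb h.rc; have := D.dimB; omega

variable (D) in
open Classical in
noncomputable def nu (π : B) (c : F) : B →ₗ[F] F :=
  if h : ∃ ν : B →ₗ[F] F, ∀ r, ν (π * r) = D.ev c r then h.choose else 0

lemma nu_spec {π : B} {c : F} (h : ∀ r, π * r = 0 → D.ev c r = 0) (r : B) :
    D.nu π c (π * r) = D.ev c r := by
  have h1 := exists_nu π (D.ev c).toLinearMap h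
  have h2 : ∃ ν : B →ₗ[F] F, ∀ r, ν (π * r) = D.ev c r := h1
  rw [nu, dif_pos h2]
  exact h2.choose_spec r

variable (D) (κ : F → F → F)

noncomputable def G (a b : F) : B →ₗ[F] F :=
  κ a b • (D.nu (D.t a) b ∘ₗ (LinearMap.id - Algebra.linearMap F B ∘ₗ (D.ev a).toLinearMap))

noncomputable def L2 (a b c : F) : B →ₗ[F] F := (κ a c * κ b c) • D.nu (D.t a * D.t b) c

noncomputable def L3 (a b c d : F) : B →ₗ[F] F :=
  (κ a d * κ b d * κ c d) • D.nu (D.t a * D.t b * D.t c) d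

def J2 (a b : F) : Submodule K B := (Ideal.span {D.t a * D.t b}).restrictScalars K

def J3 (a b c : F) : Submodule K B := (Ideal.span {D.t a * D.t b * D.t c}).restrictScalars K

variable {D} {κ}

lemma mem_J2 {r : B} : r ∈ D.J2 a b ↔ ∃ q, r = D.t a * D.t b * q := by
  simp only [J2, restrictScalars_mem, Ideal.mem_span_singleton]; rfl

lemma mem_J3 {r : B} : r ∈ D.J3 a b c ↔ ∃ q, r = D.t a * D.t b * D.t c * q := by
  simp only [J3, restrictScalars_mem, Ideal.mem_span_singleton]; rfl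

lemma J2_comm : D.J2 a b = D.J2 b a := by rw [J2, J2, mul_comm]

lemma J3_s01 : D.J3 a b c = D.J3 b a c := by rw [J3, J3, mul_comm (D.t a)]

lemma J3_s12 : D.J3 a b c = D.J3 a c b := by rw [J3, J3, mul_right_comm]

lemma J2_mul (q : B) {r : B} (hr : r ∈ D.J2 a b) : q * r ∈ D.J2 a b := Ideal.mul_mem_left _ q hr

lemma J3_mul (q : B) {r : B} (hr : r ∈ D.J3 a b c) : q * r ∈ D.J3 a b c :=
  Ideal.mul_mem_left _ q hr

lemma J3_le : D.J3 a b c ≤ D.J2 a b := fun r hr => by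
  obtain ⟨q, rfl⟩ := mem_J3.1 hr; exact mem_J2.2 ⟨D.t c * q, by ring⟩

lemma Rt.ev_J2 (h : D.Rt a) {r : B} (hr : r ∈ D.J2 a b) : D.ev a r = 0 := by
  obtain ⟨q, rfl⟩ := mem_J2.1 hr; simp [h.ev_self]

lemma Rt.mul_J2 (ha : D.Rt a) (hb : D.Rt b) {y z : B} (hy : D.ev a y = 0) (hz : D.ev b z = 0) :
    y * z ∈ D.J2 a b := by
  obtain ⟨q, rfl⟩ := ha.ker y hy
  obtain ⟨q', rfl⟩ := hb.ker z hz
  exact mem_J2.2 ⟨q * q', by ring⟩

lemma Rt.mul_J3 (hc : D.Rt c) {y r : B} (hy : D.ev c y = 0) (hr : r ∈ D.J2 a b) :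
    y * r ∈ D.J3 a b c := by
  obtain ⟨q, rfl⟩ := hc.ker y hy
  obtain ⟨q', rfl⟩ := mem_J2.1 hr
  exact mem_J3.2 ⟨q * q', by ring⟩

lemma Od.J3_zero (h : D.Od a b c d) {y r : B} (hy : D.ev d y = 0) (hr : r ∈ D.J3 a b c) :
    y * r = 0 := by
  obtain ⟨q, rfl⟩ := h.rd.ker y hy
  obtain ⟨q', rfl⟩ := mem_J3.1 hr
  linear_combination q * q' * h.z

lemma Od.J2_zero (h : D.Od a b c d) {r r' : B} (hr : r ∈ D.J2 a b) (hr' : r' ∈ D.J2 c d) :
    r * r' = 0 := by
  obtain ⟨q, rfl⟩ := mem_J2.1 hr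
  obtain ⟨q', rfl⟩ := mem_J2.1 hr'
  linear_combination q * q' * h.z

lemma G_alg (u : F) : D.G κ a b (algebraMap F B u) = 0 := by simp [G]

lemma Od.G_t (h : D.Od a b c d) (q : B) : D.G κ a b (D.t a * q) = κ a b * D.ev b q := by
  have : D.nu (D.t a) b (D.t a * q) = D.ev b q := nu_spec (fun r hr => by
    obtain ⟨q, rfl⟩ := h.ann1 hr; simp [h.rb.ev_self]) q
  simp [G, h.ra.ev_self, this]

lemma Od.L2_t (h : D.Od a b c d) (q : B) :
    D.L2 κ a b c (D.t a * D.t b * q) = κ a c * κ b c * D.ev c q := by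
  have : D.nu (D.t a * D.t b) c (D.t a * D.t b * q) = D.ev c q := nu_spec (fun r hr => by
    obtain ⟨q, rfl⟩ := h.ann2 hr; simp [h.rc.ev_self]) q
  simp [L2, this]

lemma Od.L3_t (h : D.Od a b c d) (q : B) :
    D.L3 κ a b c d (D.t a * D.t b * D.t c * q) = κ a d * κ b d * κ c d * D.ev d q := by
  have : D.nu (D.t a * D.t b * D.t c) d (D.t a * D.t b * D.t c * q) = D.ev d q :=
    nu_spec (fun r hr => by obtain ⟨q, rfl⟩ := h.ann3 hr; simp [h.rd.ev_self]) q
  simp [L3, this]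

lemma Rt.dec (h : D.Rt a) (r : B) : ∃ q, r = algebraMap F B (D.ev a r) + D.t a * q := by
  obtain ⟨q, hq⟩ := h.ker (r - algebraMap F B (D.ev a r)) (by simp)
  exact ⟨q, by rw [← hq]; ring⟩

lemma Od.G_mul (h : D.Od a b c d) (r r' : B) :
    D.G κ a b (r * r') = D.ev a r * D.G κ a b r' + D.G κ a b r * D.ev b r' := by
  obtain ⟨q, hq⟩ := h.ra.dec r
  have e : r * r' = D.ev a r • r' + D.t a * (q * r') := by
    rw [Algebra.smul_def]; linear_combination r' * hq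
  have e2 : D.G κ a b r = κ a b * D.ev b q := by
    conv_lhs => rw [hq, map_add, G_alg, h.G_t, zero_add]
  rw [e, map_add, map_smul, h.G_t, e2, map_mul, smul_eq_mul]; ring

lemma Od.G_ne (h : D.Od a b c d) (r : B) :
    (b - a) * D.G κ a b r = κ a b * (D.ev b r - D.ev a r) := by
  obtain ⟨q, hq⟩ := h.ra.dec r
  have e2 : D.G κ a b r = κ a b * D.ev b q := by
    conv_lhs => rw [hq, map_add, G_alg, h.G_t, zero_add]
  have e3 : D.ev b r = D.ev a r + (b - a) * D.ev b q := by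
    conv_lhs => rw [hq, map_add, map_mul, h.rb.ev_t, AlgHom.commutes]
    rfl
  rw [e2, e3]; ring

lemma Od.G_J2 (h : D.Od a b c d) {r : B} (hr : r ∈ D.J2 a b) : D.G κ a b r = 0 := by
  obtain ⟨q, rfl⟩ := mem_J2.1 hr
  rw [mul_assoc, h.G_t, map_mul, h.rb.ev_self]; ring

lemma Od.G_ker (h : D.Od a b c d) (hκ : ∀ a b, κ a b ≠ 0) {r : B} (h1 : D.ev a r = 0)
    (h2 : D.G κ a b r = 0) : r ∈ D.J2 a b := by
  obtain ⟨q, rfl⟩ := h.ra.ker r h1
  rw [h.G_t, mul_eq_zero, or_iff_right (hκ a b)] at h2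
  obtain ⟨q', rfl⟩ := h.rb.ker q h2
  exact mem_J2.2 ⟨q', by ring⟩

lemma Od.L2_mul (h : D.Od a b c d) {y z : B} (hy : D.ev a y = 0) (hz : D.ev b z = 0) :
    D.L2 κ a b c (y * z) = D.G κ a c y * D.G κ b c z := by
  obtain ⟨q, rfl⟩ := h.ra.ker y hy
  obtain ⟨q', rfl⟩ := h.rb.ker z hz
  rw [h.s12.G_t, h.s01.s12.G_t, show D.t a * q * (D.t b * q') = D.t a * D.t b * (q * q') by ring,
    h.L2_t, map_mul]; ring

lemma Od.L2_smul (h : D.Od a b c d) (q : B) {r : B} (hr : r ∈ D.J2 a b) :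
    D.L2 κ a b c (q * r) = D.ev c q * D.L2 κ a b c r := by
  obtain ⟨q', rfl⟩ := mem_J2.1 hr
  rw [show q * (D.t a * D.t b * q') = D.t a * D.t b * (q * q') by ring, h.L2_t, h.L2_t, map_mul]
  ring

lemma Od.L2_J3 (h : D.Od a b c d) {r : B} (hr : r ∈ D.J3 a b c) : D.L2 κ a b c r = 0 := by
  obtain ⟨q, rfl⟩ := mem_J3.1 hr
  rw [mul_assoc, h.L2_t, map_mul, h.rc.ev_self]; ring

lemma Od.L2_ker (h : D.Od a b c d) (hκ : ∀ a b, κ a b ≠ 0) {r : B} (h1 : r ∈ D.J2 a b)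
    (h2 : D.L2 κ a b c r = 0) : r ∈ D.J3 a b c := by
  obtain ⟨q, rfl⟩ := mem_J2.1 h1
  rw [h.L2_t, mul_eq_zero, or_iff_right (mul_ne_zero (hκ a c) (hκ b c))] at h2
  obtain ⟨q', rfl⟩ := h.rc.ker q h2
  exact mem_J3.2 ⟨q', by ring⟩

lemma Od.L3_mul (h : D.Od a b c d) {y r : B} (hy : D.ev c y = 0) (hr : r ∈ D.J2 a b) :
    D.L3 κ a b c d (y * r) = D.G κ c d y * D.L2 κ a b d r := by
  obtain ⟨q, rfl⟩ := h.rc.ker y hy
  obtain ⟨q', rfl⟩ := mem_J2.1 hr
  rw [h.s12.s01.s23.s12.G_t, h.s23.L2_t,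
    show D.t c * q * (D.t a * D.t b * q') = D.t a * D.t b * D.t c * (q * q') by ring,
    h.L3_t, map_mul]; ring

lemma Od.L3_smul (h : D.Od a b c d) (q : B) {r : B} (hr : r ∈ D.J3 a b c) :
    D.L3 κ a b c d (q * r) = D.ev d q * D.L3 κ a b c d r := by
  obtain ⟨q', rfl⟩ := mem_J3.1 hr
  rw [show q * (D.t a * D.t b * D.t c * q') = D.t a * D.t b * D.t c * (q * q') by ring, h.L3_t,
    h.L3_t, map_mul]
  ring

lemma Od.L3_ker (h : D.Od a b c d) (hκ : ∀ a b, κ a b ≠ 0) {r : B} (h1 : r ∈ D.J3 a b c)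
    (h2 : D.L3 κ a b c d r = 0) : r = 0 := by
  obtain ⟨q, rfl⟩ := mem_J3.1 h1
  rw [h.L3_t, mul_eq_zero,
    or_iff_right (mul_ne_zero (mul_ne_zero (hκ a d) (hκ b d)) (hκ c d))] at h2
  obtain ⟨q', rfl⟩ := h.rd.ker q h2
  linear_combination q' * h.z

variable (D) (κ)

noncomputable def W (a b : F) : Submodule K F := D.V.map ((D.G κ a b).restrictScalars K)

noncomputable def M1 (a b : F) (i : ℕ) : Submodule K F :=
  (D.V ^ i).map ((D.G κ a b).restrictScalars K)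

noncomputable def M2 (a b c : F) (i : ℕ) : Submodule K F :=
  (D.V ^ i ⊓ D.J2 a b).map ((D.L2 κ a b c).restrictScalars K)

noncomputable def M3 (a b c d : F) (i : ℕ) : Submodule K F :=
  (D.V ^ i ⊓ D.J3 a b c).map ((D.L3 κ a b c d).restrictScalars K)

instance (a b : F) : FiniteDimensional K (D.W κ a b) := by unfold W; infer_instance
instance (a b : F) (i : ℕ) : FiniteDimensional K (D.M1 κ a b i) := by unfold M1; infer_instance
instance (a b c : F) (i : ℕ) : FiniteDimensional K (D.M2 κ a b c i) := by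
  unfold M2; infer_instance
instance (a b c d : F) (i : ℕ) : FiniteDimensional K (D.M3 κ a b c d i) := by
  unfold M3; infer_instance

variable {D} {κ}

lemma Od.dim1 (h : D.Od a b c d) (hκ : ∀ a b, κ a b ≠ 0) (i : ℕ) :
    finrank K (D.V ^ i : Submodule K B) = s i + finrank K (D.M1 κ a b i) +
      finrank K (D.V ^ i ⊓ D.J2 a b : Submodule K B) := by
  have e1 : (D.V ^ i ⊓ LinearMap.ker ((D.ev a).toLinearMap.restrictScalars K)).map
      ((D.G κ a b).restrictScalars K) = D.M1 κ a b i := by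
    apply le_antisymm (Submodule.map_mono inf_le_left)
    rintro _ ⟨r, hr, rfl⟩
    refine ⟨r - algebraMap F B (D.ev a r),
      ⟨sub_mem hr (D.le_pow (D.ev_pow _ h.ra.mem hr)), by simp⟩, by simp [G_alg]⟩
  have e2 : D.V ^ i ⊓ LinearMap.ker ((D.ev a).toLinearMap.restrictScalars K) ⊓
      LinearMap.ker ((D.G κ a b).restrictScalars K) = D.V ^ i ⊓ D.J2 a b := by
    ext r
    exact ⟨fun hr => ⟨hr.1.1, h.G_ker hκ hr.1.2 hr.2⟩,
      fun hr => ⟨⟨hr.1, h.ra.ev_J2 hr.2⟩, h.G_J2 hr.2⟩⟩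
  rw [D.dim_ev (D.ev a) h.ra.mem i,
    finrank_map_add (D.V ^ i ⊓ _) ((D.G κ a b).restrictScalars K), add_assoc, e1, e2]

lemma Od.dim2 (h : D.Od a b c d) (hκ : ∀ a b, κ a b ≠ 0) (i : ℕ) :
    finrank K (D.V ^ i ⊓ D.J2 a b : Submodule K B) = finrank K (D.M2 κ a b c i) +
      finrank K (D.V ^ i ⊓ D.J3 a b c : Submodule K B) := by
  have e2 : D.V ^ i ⊓ D.J2 a b ⊓ LinearMap.ker ((D.L2 κ a b c).restrictScalars K) =
      D.V ^ i ⊓ D.J3 a b c := by
    ext r
    exact ⟨fun hr => ⟨hr.1.1, h.L2_ker hκ hr.1.2 hr.2⟩,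
      fun hr => ⟨⟨hr.1, J3_le hr.2⟩, h.L2_J3 hr.2⟩⟩
  rw [finrank_map_add (D.V ^ i ⊓ _) ((D.L2 κ a b c).restrictScalars K), e2]; rfl

lemma Od.dim3 (h : D.Od a b c d) (hκ : ∀ a b, κ a b ≠ 0) (i : ℕ) :
    finrank K (D.V ^ i ⊓ D.J3 a b c : Submodule K B) = finrank K (D.M3 κ a b c d i) := by
  rw [finrank_map_add (D.V ^ i ⊓ _) ((D.L3 κ a b c d).restrictScalars K)]
  have : D.V ^ i ⊓ D.J3 a b c ⊓ LinearMap.ker ((D.L3 κ a b c d).restrictScalars K) = ⊥ := by
    rw [eq_bot_iff]; exact fun r hr => h.L3_ker hκ hr.1.2 hr.2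
  rw [this, finrank_bot]; rfl

lemma Od.M1_eq (h : D.Od a b c d) (i : ℕ) : D.M1 κ a b (i + 1) = D.W κ a b * D.U ^ i := by
  apply le_antisymm
  · induction i with
    | zero => rw [zero_add, pow_zero, mul_one, M1, pow_one]; rfl
    | succ i ih =>
      rintro _ ⟨r, hr, rfl⟩
      rw [SetLike.mem_coe, pow_succ'] at hr
      refine Submodule.mul_induction_on hr (fun u hu r hr => ?_) (fun r r' h1 h2 => ?_)
      · rw [LinearMap.restrictScalars_apply, h.G_mul]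
        refine add_mem ?_ (mul_mem_mul ⟨u, hu, rfl⟩ (D.ev_pow _ h.rb.mem hr))
        have := mul_mem_mul (h.ra.mem u hu) (ih ⟨r, hr, rfl⟩)
        rwa [mul_left_comm, ← pow_succ'] at this
      · rw [map_add]; exact add_mem h1 h2
  · rw [Submodule.mul_le]
    rintro _ ⟨v, hv, rfl⟩ u hu
    refine ⟨v * algebraMap F B u, mul_pow_succ hv (D.le_pow hu), ?_⟩
    simp [h.G_mul, G_alg]

lemma M2_cl {i j : ℕ} : D.M2 κ a b c i * D.U ^ j ≤ D.M2 κ a b c (i + j) := by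
  rw [Submodule.mul_le]
  rintro _ ⟨r, hr, rfl⟩ u hu
  refine ⟨r * algebraMap F B u, ⟨mul_pow_mem hr.1 (D.le_pow hu), ?_⟩, ?_⟩
  · rw [mul_comm]; exact J2_mul _ hr.2
  · rw [mul_comm r, ← Algebra.smul_def]; simp [mul_comm]

lemma M3_cl {i j : ℕ} : D.M3 κ a b c d i * D.U ^ j ≤ D.M3 κ a b c d (i + j) := by
  rw [Submodule.mul_le]
  rintro _ ⟨r, hr, rfl⟩ u hu
  refine ⟨r * algebraMap F B u, ⟨mul_pow_mem hr.1 (D.le_pow hu), ?_⟩, ?_⟩
  · rw [mul_comm]; exact J3_mul _ hr.2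
  · rw [mul_comm r, ← Algebra.smul_def]; simp [mul_comm]

lemma Rt.W_mem (h : D.Rt a) {w : F} (hw : w ∈ D.W κ a b) :
    ∃ y ∈ D.V, D.ev a y = 0 ∧ D.G κ a b y = w := by
  obtain ⟨v, hv, rfl⟩ := hw
  exact ⟨v - algebraMap F B (D.ev a v), sub_mem hv (D.le _ (h.mem v hv)), by simp,
    by simp [G_alg]⟩

lemma Od.WW_le (h : D.Od a b c d) : D.W κ a c * D.W κ b c ≤ D.M2 κ a b c 2 := by
  rw [Submodule.mul_le]
  intro w hw w' hw'
  obtain ⟨y, h1, h2, rfl⟩ := h.ra.W_mem hw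
  obtain ⟨z, h3, h4, rfl⟩ := h.rb.W_mem hw'
  exact ⟨y * z, ⟨mul_mem_two h1 h3, h.ra.mul_J2 h.rb h2 h4⟩, h.L2_mul h2 h4⟩

lemma Od.WM_le (h : D.Od a b c d) (i : ℕ) :
    D.W κ c d * D.M2 κ a b d i ≤ D.M3 κ a b c d (i + 1) := by
  rw [Submodule.mul_le]
  rintro w hw _ ⟨r, hr, rfl⟩
  obtain ⟨y, h1, h2, rfl⟩ := h.rc.W_mem hw
  exact ⟨y * r, ⟨mul_pow_succ h1 hr.1, h.rc.mul_J3 h2 hr.2⟩, h.L3_mul h2 hr.2⟩

lemma Od.WWW_le (h : D.Od a b c d) :
    D.W κ c d * (D.W κ a d * D.W κ b d) ≤ D.M3 κ a b c d 3 :=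
  (mul_le_mul' le_rfl h.s23.WW_le).trans (h.WM_le 2)

lemma Od.ss2 (h : D.Od a b c d) (j0 : ℕ) : ∃ j, j0 ≤ j ∧
    2 * finrank K (D.V ^ j ⊓ D.J2 a b : Submodule K B) ≤ finrank K (D.V ^ j : Submodule K B) := by
  have := D.finB
  obtain ⟨j, h1, h2⟩ := D.ss (Ideal.span {D.t c * D.t d}) (Ideal.span {D.t a * D.t b}) (by
    rw [Ideal.span_singleton_mul_span_singleton, Ideal.span_singleton_eq_bot, ← h.z]; ring) 2 (by
    rw [span_eq_range]
    have := (LinearMap.mulLeft F (D.t c * D.t d)).finrank_range_add_finrank_ker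
    have := h.rc.k2 h.rd; have := D.dimB; omega) j0
  exact ⟨j, h1, by unfold J2; omega⟩

lemma Od.ss3 (h : D.Od a b c d) (j0 : ℕ) : ∃ j, j0 ≤ j ∧
    4 * finrank K (D.V ^ j ⊓ D.J3 a b c : Submodule K B) ≤ finrank K (D.V ^ j : Submodule K B) := by
  have := D.finB
  obtain ⟨j, h1, h2⟩ := D.ss (Ideal.span {D.t d}) (Ideal.span {D.t a * D.t b * D.t c}) (by
    rw [Ideal.span_singleton_mul_span_singleton, Ideal.span_singleton_eq_bot, ← h.z]; ring) 3 (by
    rw [span_eq_range]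
    have := (LinearMap.mulLeft F (D.t d)).finrank_range_add_finrank_ker
    have := h.rd.one; have := D.dimB; omega) j0
  exact ⟨j, h1, by unfold J3; omega⟩

end MG

end Pool.Agent.Lib.MP_a9ad87_al.Ch
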