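import Pool.Agent.Lib.MP_a9ad87_al.ChMono

namespace Pool.Agent.Lib.MP_a9ad87_al.Ch

open Module Submodule

lemma s_succ (j : ℕ) : 2 * s (j + 1) = 2 * s j + (j + 2) * (j + 3) := by
  have h1 := six_s (j + 1)
  have h2 := six_s j
  nlinarith

variable {K F B : Type*} [Field K] [Field F] [Algebra K F] [CommRing B] [Algebra F B]
    [Algebra K B] [IsScalarTower K F B]

/-- growth at least `s (j + a)` up to a linear error -/
def Has (m : ℕ → ℕ) (a : ℕ) : Prop := ∃ C i, ∀ j, i ≤ j → s (j + a) ≤ m j + C * (j + 1)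

lemma has_three {m1 m2 m3 : ℕ → ℕ} {a1 a2 a3 C : ℕ} (h1 : Has m1 a1) (h2 : Has m2 a2)
    (h3 : Has m3 a3) (h : ∀ j, m1 j + m2 j + m3 j ≤ 3 * s j + C) : a1 = 0 ∧ a2 = 0 ∧ a3 = 0 := by
  obtain ⟨C1, i1, h1⟩ := h1
  obtain ⟨C2, i2, h2⟩ := h2
  obtain ⟨C3, i3, h3⟩ := h3
  set j := i1 + i2 + i3 + 2 * (C1 + C2 + C3 + C) with hj
  have e1 := h1 j (by omega)
  have e2 := h2 j (by omega)
  have e3 := h3 j (by omega)
  have e := h j
  have e4 := s_succ j
  have e5 : 2 * (C1 + C2 + C3 + C) * (j + 1) < (j + 2) * (j + 3) := by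
    have : 2 * (C1 + C2 + C3 + C) ≤ j := by omega
    nlinarith
  have b1 := s_mono (show j ≤ j + a1 by omega)
  have b2 := s_mono (show j ≤ j + a2 by omega)
  have b3 := s_mono (show j ≤ j + a3 by omega)
  refine ⟨?_, ?_, ?_⟩ <;> by_contra h0
  · have := s_mono (show j + 1 ≤ j + a1 by omega); nlinarith
  · have := s_mono (show j + 1 ≤ j + a2 by omega); nlinarith
  · have := s_mono (show j + 1 ≤ j + a3 by omega); nlinarith

lemma has_of [Infinite K] {x : Fin 4 → F} (hx : Inj K x) {M : ℕ → Submodule K F}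
    [∀ i, FiniteDimensional K (M i)] (hM : ∀ i j, M i * UU K x ^ j ≤ M (i + j)) {X : Submodule K F}
    {i a : ℕ} (hX : X ≤ M i) {κ : F} (hκ : κ ≠ 0) (hP : Prim x (i + a) ((K ∙ κ) * X)) :
    Has (fun j => finrank K (M j)) a := by
  obtain ⟨C, hC⟩ := hP.lb hx
  refine ⟨C, i, fun j hj => ?_⟩
  obtain ⟨m, rfl⟩ := Nat.exists_eq_add_of_le hj
  have e1 := hC m
  rw [mul_assoc, finrank_sing_mul hκ] at e1
  have e2 := Submodule.finrank_mono ((mul_le_mul' hX le_rfl).trans (hM i m))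
  rw [show i + m + a = m + (i + a) by ring]
  have : C * (m + 1) ≤ C * (i + m + 1) := Nat.mul_le_mul_left _ (by omega)
  simp only
  omega

lemma has_of' [Infinite K] {x : Fin 4 → F} (hx : Inj K x) {M : ℕ → Submodule K F}
    [∀ i, FiniteDimensional K (M i)] (hM : ∀ i j, M i * UU K x ^ j ≤ M (i + j)) {X : Submodule K F}
    {i a : ℕ} (hX : X ≤ M i) (hP : Prim x (i + a) X) : Has (fun j => finrank K (M j)) a :=
  has_of hx hM hX one_ne_zero (by rwa [← Submodule.one_eq_span, one_mul])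

lemma in_of_has [Infinite K] {x : Fin 4 → F} (hx : Inj K x) (hf : Frc K x) {M : ℕ → Submodule K F}
    [∀ i, FiniteDimensional K (M i)] (hM : ∀ i j, M i * UU K x ^ j ≤ M (i + j)) {X : Submodule K F}
    {c : ℕ} (hX : X ≤ M c) (hP : Prim x c X)
    (h0 : ∀ a, Has (fun j => finrank K (M j)) a → a = 0) (i : ℕ) : M i ≤ UU K x ^ i := by
  have h1 : M (c + i) ≤ UU K x ^ (c + i) := by
    have hY : X * UU K x ^ i ≤ M (c + i) := (mul_le_mul' hX le_rfl).trans (hM c i)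
    have hY' := hP.mul (hx.primP i)
    obtain ⟨κ, hκ, g, hg⟩ := hf.prim hx (M (c + i)) (fun h => hY'.ne hx (eq_bot_iff.2 (h ▸ hY)))
    obtain ⟨a1, a2⟩ := hY'.int hx hκ (k := g) fun v hv =>
      hg.le (mul_mem_mul (mem_span_singleton_self κ) (hY hv))
    obtain ⟨a, rfl⟩ := Nat.exists_eq_add_of_le a1
    obtain rfl := h0 a (has_of hx hM le_rfl hκ hg)
    rw [add_zero, Nat.sub_self] at a2
    obtain ⟨k, rfl⟩ := mem_pow_zero.1 a2
    intro v hv
    have hk : k ≠ 0 := by rintro rfl; simp at hκ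
    have := smul_mem _ k⁻¹ (hg.le (mul_mem_mul (mem_span_singleton_self _) hv))
    rwa [← Algebra.smul_def, smul_smul, inv_mul_cancel₀ hk, one_smul] at this
  intro v hv
  refine (hx.primP c).int' hx fun u hu => ?_
  have := hM i c (mul_mem_mul hv hu)
  rw [add_comm] at this ⊢
  exact h1 this

namespace MG
variable {D : MG K F B} {κ : F → F → F} {a b c d : F}

lemma Od.tot (h : D.Od a b c d) (hκ : ∀ a b, κ a b ≠ 0) (i : ℕ) :
    finrank K (D.V ^ i : Submodule K B) = s i + finrank K (D.M1 κ a b i) +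
      finrank K (D.M2 κ a b c i) + finrank K (D.M3 κ a b c d i) := by
  rw [h.dim1 hκ, h.dim2 hκ, h.dim3 hκ]; ring

lemma Od.M1_cl (h : D.Od a b c d) {i j : ℕ} : D.M1 κ a b i * D.U ^ j ≤ D.M1 κ a b (i + j) := by
  rw [Submodule.mul_le]
  rintro _ ⟨r, hr, rfl⟩ u hu
  exact ⟨r * algebraMap F B u, mul_pow_mem hr (D.le_pow hu), by simp [h.G_mul, G_alg]⟩

lemma Od.gam_pos (h : D.Od a b c d) (hκ : ∀ a b, κ a b ≠ 0) : ¬ D.W κ a b ≤ D.U ^ 0 := by
  intro h0
  obtain ⟨C, hC⟩ := D.hb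
  obtain ⟨j, hj, e1⟩ := h.ss2 (C + 6)
  obtain ⟨j, rfl⟩ : ∃ i, j = i + 1 := ⟨j - 1, by omega⟩
  have e2 := h.dim1 hκ (j + 1)
  have e3 : finrank K (D.M1 κ a b (j + 1)) ≤ s j := by
    rw [h.M1_eq, ← D.inj.dim j]
    apply Submodule.finrank_mono
    simpa using mul_le_mul' h0 (le_refl (D.U ^ j))
  have e4 := (hC (j + 1)).1
  have e5 := s_succ j
  nlinarith

theorem norm1 [Infinite K] (hκ : ∀ a b, κ a b ≠ 0) {γ : F → F → ℕ}
    (hP : ∀ a b c d, D.Od a b c d → Prim D.x (γ a b) (D.W κ a b)) (h : D.Od a b c d) :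
    γ a b = 1 ∧ (∀ i, D.M2 κ a b c i ≤ D.U ^ i) ∧ ∀ i, D.M3 κ a b c d i ≤ D.U ^ i := by
  have pos : ∀ a b c d, D.Od a b c d → 1 ≤ γ a b := fun a b c d h => by
    by_contra h0
    exact h.gam_pos hκ (by have := (hP _ _ _ _ h).le; rwa [show γ a b = 0 by omega] at this)
  obtain ⟨C, hC⟩ := D.hb
  have key : ∀ a b c d, D.Od a b c d → ∀ a1 a2 a3,
      Has (fun j => finrank K (D.M1 κ a b j)) a1 → Has (fun j => finrank K (D.M2 κ a b c j)) a2 →
      Has (fun j => finrank K (D.M3 κ a b c d j)) a3 → a1 = 0 ∧ a2 = 0 ∧ a3 = 0 :=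
    fun a b c d h a1 a2 a3 h1 h2 h3 => has_three (C := C) h1 h2 h3 fun j => by
      have := h.tot hκ j; have := (hC j).2; omega
  have H1 : ∀ a b c d, D.Od a b c d → Has (fun j => finrank K (D.M1 κ a b j)) (γ a b - 1) :=
    fun a b c d h => has_of' (M := D.M1 κ a b) D.inj (fun i j => h.M1_cl) (i := 1) (X := D.W κ a b)
      (by rw [M1, pow_one]; rfl)
      (by rw [show 1 + (γ a b - 1) = γ a b by have := pos _ _ _ _ h; omega]; exact hP _ _ _ _ h)
  have P2 : ∀ a b c d, D.Od a b c d → Prim D.x (γ a c + γ b c) (D.W κ a c * D.W κ b c) :=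
    fun a b c d h => (hP _ _ _ _ h.s12).mul (hP _ _ _ _ h.s01.s12)
  have H2 : ∀ a b c d, D.Od a b c d →
      Has (fun j => finrank K (D.M2 κ a b c j)) (γ a c + γ b c - 2) :=
    fun a b c d h => has_of' (M := D.M2 κ a b c) D.inj (fun i j => M2_cl) h.WW_le (by
      have := pos _ _ _ _ h.s12; have := pos _ _ _ _ h.s01.s12
      rw [show 2 + (γ a c + γ b c - 2) = γ a c + γ b c by omega]; exact P2 _ _ _ _ h)
  have P3 : ∀ a b c d, D.Od a b c d →
      Prim D.x (γ c d + (γ a d + γ b d)) (D.W κ c d * (D.W κ a d * D.W κ b d)) :=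
    fun a b c d h => (hP _ _ _ _ h.s12.s01.s23.s12).mul (P2 _ _ _ _ h.s23)
  have H3 : ∀ a b c d, D.Od a b c d →
      Has (fun j => finrank K (D.M3 κ a b c d j)) (γ c d + (γ a d + γ b d) - 3) :=
    fun a b c d h => has_of' (M := D.M3 κ a b c d) D.inj (fun i j => M3_cl) h.WWW_le (by
      have := pos _ _ _ _ h.s23.s12; have := pos _ _ _ _ h.s23.s01.s12
      have := pos _ _ _ _ h.s12.s01.s23.s12
      rw [show 3 + (γ c d + (γ a d + γ b d) - 3) = γ c d + (γ a d + γ b d) by omega]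
      exact P3 _ _ _ _ h)
  have one : ∀ a b c d, D.Od a b c d → γ a b = 1 := fun a b c d h => by
    have := (key _ _ _ _ h _ _ _ (H1 _ _ _ _ h) (H2 _ _ _ _ h) (H3 _ _ _ _ h)).1
    have := pos _ _ _ _ h; omega
  refine ⟨one _ _ _ _ h, in_of_has (M := D.M2 κ a b c) D.inj D.frc (fun i j => M2_cl) h.WW_le ?_ fun a2 h2 =>
    (key _ _ _ _ h _ _ _ (H1 _ _ _ _ h) h2 (H3 _ _ _ _ h)).2.1,
    in_of_has (M := D.M3 κ a b c d) D.inj D.frc (fun i j => M3_cl) h.WWW_le ?_ fun a3 h3 =>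
    (key _ _ _ _ h _ _ _ (H1 _ _ _ _ h) (H2 _ _ _ _ h) h3).2.2⟩
  · have := P2 _ _ _ _ h
    rwa [one _ _ _ _ h.s12, one _ _ _ _ h.s01.s12] at this
  · have := P3 _ _ _ _ h
    rwa [one _ _ _ _ h.s23.s12, one _ _ _ _ h.s23.s01.s12, one _ _ _ _ h.s12.s01.s23.s12] at this

variable (D κ) in
/-- normalised divided differences -/
structure NM : Prop where
  ne : ∀ a b, κ a b ≠ 0
  eq : ∀ a b, a ≠ b → κ a b = b - a
  le : ∀ {a b c d}, D.Od a b c d → D.W κ a b ≤ D.U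
  two : ∀ {a b c d}, D.Od a b c d → 2 ≤ finrank K (D.W κ a b)
  m2 : ∀ {a b c d}, D.Od a b c d → ∀ i, D.M2 κ a b c i ≤ D.U ^ i
  m3 : ∀ {a b c d}, D.Od a b c d → ∀ i, D.M3 κ a b c d i ≤ D.U ^ i

lemma W_scale (κ κ' : F → F → F) (h : κ a b ≠ 0) :
    D.W κ' a b = (K ∙ (κ' a b / κ a b)) * D.W κ a b := by
  have e : ∀ r, D.G κ' a b r = κ' a b / κ a b * D.G κ a b r := fun r => by
    simp only [G, LinearMap.smul_apply, smul_eq_mul]; field_simp
  ext w
  rw [mem_span_singleton_mul]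
  constructor
  · rintro ⟨v, hv, rfl⟩; exact ⟨_, ⟨v, hv, rfl⟩, (e v).symm⟩
  · rintro ⟨_, ⟨v, hv, rfl⟩, rfl⟩; exact ⟨v, hv, e v⟩

theorem exists_NM [Infinite K] (D : MG K F B) : ∃ κ, NM D κ := by
  classical
  have h1 : ∀ a b : F, ∃ k : F, k ≠ 0 ∧ ∃ g, ∀ c d, D.Od a b c d →
      Prim D.x g ((K ∙ k) * D.W (fun _ _ => 1) a b) := by
    intro a b
    by_cases h : ∃ c d, D.Od a b c d
    · obtain ⟨c, d, h⟩ := h
      obtain ⟨k, hk, g, hg⟩ := D.frc.prim D.inj (D.W (fun _ _ => 1) a b) (by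
        rw [Submodule.ne_bot_iff]
        refine ⟨_, ⟨D.t a * 1, by rw [mul_one]; exact h.ra.t_mem, rfl⟩, ?_⟩
        rw [LinearMap.restrictScalars_apply, h.G_t]; simp)
      exact ⟨k, hk, g, fun _ _ _ => hg⟩
    · exact ⟨1, one_ne_zero, 0, fun c d h' => absurd ⟨c, d, h'⟩ h⟩
  choose κ hκ γ hP using h1
  have hP' : ∀ a b c d, D.Od a b c d → Prim D.x (γ a b) (D.W κ a b) := fun a b c d h => by
    rw [W_scale (fun _ _ => 1) κ one_ne_zero, div_one]; exact hP a b c d h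
  let κ' : F → F → F := fun a b => if a = b then κ a b else b - a
  have hκ' : ∀ a b, κ' a b ≠ 0 := fun a b => by
    by_cases h : a = b
    · simp only [κ', if_pos h]; exact hκ a b
    · simp only [κ', if_neg h]; exact sub_ne_zero.2 (Ne.symm h)
  have hQ : ∀ a b c d, D.Od a b c d → Prim D.x 1 (D.W κ' a b) := fun a b c d h => by
    have e1 := hP' _ _ _ _ h
    rw [(norm1 hκ hP' h).1] at e1
    rw [W_scale κ κ' (hκ a b)]
    by_cases hab : a = b
    · simp only [κ', if_pos hab]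
      rwa [div_self (hκ a b), ← Submodule.one_eq_span, one_mul]
    have e2 : κ' a b / κ a b ∈ D.U ^ 0 := e1.int' D.inj fun v hv => by
      have : κ' a b / κ a b * v ∈ D.W κ' a b := by
        rw [W_scale κ κ' (hκ a b)]; exact mul_mem_mul (mem_span_singleton_self _) hv
      obtain ⟨r, hr, e⟩ := this
      rw [← e, zero_add, pow_one, LinearMap.restrictScalars_apply]
      have e3 := h.G_ne (κ := κ') r
      have e4 : κ' a b = b - a := if_neg hab
      rw [e4] at e3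
      rw [mul_left_cancel₀ (sub_ne_zero.2 (Ne.symm hab)) e3]
      exact sub_mem (h.rb.mem r hr) (h.ra.mem r hr)
    obtain ⟨k, hk⟩ := mem_pow_zero.1 e2
    have hk0 : k ≠ 0 := by
      rintro rfl; exact div_ne_zero (hκ' a b) (hκ a b) (by simpa using hk)
    rwa [hk, Algebra.algebraMap_eq_smul_one, span_singleton_smul_eq (IsUnit.mk0 k hk0),
      ← Submodule.one_eq_span, one_mul]
  exact ⟨κ', hκ', fun a b h => if_neg h, fun h => by simpa using (hQ _ _ _ _ h).le,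
    fun h => (hQ _ _ _ _ h).two D.inj, fun h => (norm1 (γ := fun _ _ => 1) hκ' hQ h).2.1,
    fun h => (norm1 (γ := fun _ _ => 1) hκ' hQ h).2.2⟩

end MG

end Pool.Agent.Lib.MP_a9ad87_al.Ch
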