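import Pool.Agent.Lib.MP_a9ad87_al.ChU

namespace Pool.Agent.Lib.MP_a9ad87_al.Ch

open MvPolynomial Module Submodule

variable {K : Type*} [Field K] {F : Type*} [Field F] [Algebra K F] {x : Fin 4 → F}

/-- a space of forms of degree `g` without common factor -/
structure Prim (x : Fin 4 → F) (g : ℕ) (X : Submodule K F) : Prop where
  le : X ≤ UU K x ^ g
  ex : ∀ p : MvPolynomial (Fin 4) K, Prime p → ∃ G ∈ Hm 4 K g, aeval x G ∈ X ∧ ¬ p ∣ G

lemma Prim.mul {g g' : ℕ} {X Y : Submodule K F} (hX : Prim x g X) (hY : Prim x g' Y) :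
    Prim x (g + g') (X * Y) := by
  refine ⟨by rw [pow_add]; exact mul_le_mul' hX.le hY.le, fun p hp => ?_⟩
  obtain ⟨G, h1, h2, h3⟩ := hX.ex p hp
  obtain ⟨G', h1', h2', h3'⟩ := hY.ex p hp
  exact ⟨G * G', IsHomogeneous.mul h1 h1', by rw [map_mul]; exact mul_mem_mul h2 h2',
    fun h => (hp.dvd_or_dvd h).elim h3 h3'⟩

lemma Prim.mono {g : ℕ} {X Y : Submodule K F} (hX : Prim x g X) (h : X ≤ Y) (hY : Y ≤ UU K x ^ g) :
    Prim x g Y :=
  ⟨hY, fun p hp => by obtain ⟨G, h1, h2, h3⟩ := hX.ex p hp; exact ⟨G, h1, h h2, h3⟩⟩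

lemma prim_one : Prim x 0 (1 : Submodule K F) :=
  ⟨by simp, fun p hp => ⟨1, isHomogeneous_one _ _, by simp, hp.not_dvd_one⟩⟩

lemma hom0 {n : ℕ} {q : MvPolynomial (Fin n) K} (hq : q ∈ Hm n K 0) : ∃ c : K, q = C c := by
  rw [Hm, homogeneousSubmodule_zero, mem_one] at hq
  obtain ⟨c, hc⟩ := hq
  exact ⟨c, hc.symm⟩

lemma prim_lin {V : Submodule K F} (hV : V ≤ UU K x) (h2 : 2 ≤ finrank K V) : Prim x 1 V := by
  have : FiniteDimensional K V := Submodule.finiteDimensional_of_le hV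
  refine ⟨by rwa [pow_one], fun p hp => ?_⟩
  have hne : V ≠ ⊥ := by rintro rfl; simp at h2
  obtain ⟨a, ha, ha0⟩ := (Submodule.ne_bot_iff V).1 hne
  obtain ⟨b, hb, hab⟩ := exists_ind2 h2 ha0
  obtain ⟨A, hA, rfl⟩ := mem_U.1 (hV ha)
  obtain ⟨B, hB, rfl⟩ := mem_U.1 (hV hb)
  by_contra hc
  push Not at hc
  obtain ⟨q, hq⟩ := hc A hA ha
  obtain ⟨q', hq'⟩ := hc B hB hb
  have hd := prime_deg hp
  obtain ⟨h1, r, hr, e⟩ := top_fac hA (by rintro rfl; simp at ha0) hq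
  obtain ⟨-, r', hr', e'⟩ := top_fac hB (by rintro rfl; exact hab.symm.ne (by simp)) hq'
  rw [show 1 - p.totalDegree = 0 by omega] at hr hr'
  obtain ⟨c, rfl⟩ := hom0 hr
  obtain ⟨c', rfl⟩ := hom0 hr'
  have := hab c' (-c) (by
    rw [e, e', map_mul, map_mul, aeval_C, aeval_C, Algebra.smul_def, Algebra.smul_def, map_neg]
    ring)
  rw [e, neg_eq_zero.1 this.2] at ha0
  simp at ha0

lemma Inj.primU (h : Inj K x) : Prim x 1 (UU K x) := prim_lin le_rfl (by rw [h.dimU]; norm_num)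

lemma Inj.primP (h : Inj K x) (j : ℕ) : Prim x j (UU K x ^ j) := by
  induction j with
  | zero => rw [pow_zero]; exact prim_one
  | succ j ih => rw [pow_succ]; exact ih.mul h.primU

lemma Prim.ne (h : Inj K x) {g : ℕ} {X : Submodule K F} (hX : Prim x g X) : X ≠ ⊥ := by
  obtain ⟨G, h1, h2, h3⟩ := hX.ex (MvPolynomial.X 0) (X_prime (i := 0))
  rintro rfl
  rw [h g G h1 h2] at h3
  exact h3 (dvd_zero _)

lemma Prim.two (h : Inj K x) {V : Submodule K F} (hV : Prim x 1 V) : 2 ≤ finrank K V := by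
  have : FiniteDimensional K V := Submodule.finiteDimensional_of_le hV.le
  obtain ⟨a, ha, ha0⟩ := (Submodule.ne_bot_iff V).1 (hV.ne h)
  by_contra h2
  have e : (K ∙ a) = V := by
    apply Submodule.eq_of_le_of_finrank_le ((span_singleton_le_iff_mem _ _).2 ha)
    rw [finrank_span_singleton ha0]; omega
  obtain ⟨A, hA, rfl⟩ := mem_Upow.1 (hV.le ha)
  have hA0 : A ≠ 0 := by rintro rfl; simp at ha0
  have hu : ¬ IsUnit A := fun hu => by
    have h3 := totalDegree_le_of_dvd_of_isDomain hu.dvd one_ne_zero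
    rw [IsHomogeneous.totalDegree hA hA0, totalDegree_one] at h3
    omega
  obtain ⟨p, hp, hpA⟩ := WfDvdMonoid.exists_irreducible_factor hu hA0
  obtain ⟨G, h1, h2, h3⟩ := hV.ex p hp.prime
  rw [← e] at h2
  obtain ⟨c, hc⟩ := mem_span_singleton.1 h2
  apply h3
  rw [← h.eq (smul_mem _ c hA) h1 (by rw [map_smul, hc]), smul_eq_C_mul]
  exact hpA.mul_left _

lemma Prim.cop [Infinite K] {g : ℕ} {X : Submodule K F} (hX : Prim x g X) :
    ∃ G ∈ Hm 4 K g, ∃ G' ∈ Hm 4 K g, aeval x G ∈ X ∧ aeval x G' ∈ X ∧ G ≠ 0 ∧ G' ≠ 0 ∧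
      IsRelPrime G G' := by
  classical
  obtain ⟨G, h1, h2, h3⟩ := hX.ex (MvPolynomial.X 0) (X_prime (i := 0))
  have hG : G ≠ 0 := by rintro rfl; exact h3 (dvd_zero _)
  let Y : Submodule K (MvPolynomial (Fin 4) K) :=
    Hm 4 K g ⊓ X.comap (aeval x : MvPolynomial (Fin 4) K →ₐ[K] F).toLinearMap
  let T := insert (MvPolynomial.X 0) (UniqueFactorizationMonoid.factors G).toFinset
  have hT : ∀ p ∈ T, Prime p := by
    intro p hp
    rcases Finset.mem_insert.1 hp with rfl | hp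
    · exact X_prime
    · exact UniqueFactorizationMonoid.prime_of_factor p (Multiset.mem_toFinset.1 hp)
  obtain ⟨G', hG'⟩ := Submodule.exists_forall_notMem_of_forall_ne_top
    (fun p : T => ((Ideal.span {p.1}).restrictScalars K).comap Y.subtype) (by
      intro p hp
      obtain ⟨G', a1, a2, a3⟩ := hX.ex p.1 (hT p.1 p.2)
      have : (⟨G', a1, a2⟩ : Y) ∈ ((Ideal.span {p.1}).restrictScalars K).comap Y.subtype := by
        rw [hp]; trivial
      exact a3 (Ideal.mem_span_singleton.1 this))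
  have hn : ∀ p ∈ T, ¬ p ∣ G'.1 := fun p hp h => hG' ⟨p, hp⟩ (Ideal.mem_span_singleton.2 h)
  refine ⟨G, h1, G'.1, G'.2.1, h2, G'.2.2, hG, fun h => hn _ (Finset.mem_insert_self _ _)
    (by rw [h]; exact dvd_zero _), ?_⟩
  rw [UniqueFactorizationMonoid.isRelPrime_iff_no_prime_factors hG]
  intro d hd hd' hp
  obtain ⟨q, hq, hdq⟩ := UniqueFactorizationMonoid.exists_mem_factors_of_dvd hG hp.irreducible hd
  exact hn q (Finset.mem_insert_of_mem (Multiset.mem_toFinset.2 hq)) (hdq.symm.dvd.trans hd')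

lemma Inj.cop_int (h : Inj K x) {g k : ℕ} {G G' : MvPolynomial (Fin 4) K} (hG : G ∈ Hm 4 K g)
    (hG' : G' ∈ Hm 4 K g) (h0 : G ≠ 0) (hc : IsRelPrime G G') {φ : F} (hφ : φ ≠ 0)
    (h1 : φ * aeval x G ∈ UU K x ^ k) (h2 : φ * aeval x G' ∈ UU K x ^ k) :
    g ≤ k ∧ φ ∈ UU K x ^ (k - g) := by
  obtain ⟨N, hN, e⟩ := mem_Upow.1 h1
  obtain ⟨N', hN', e'⟩ := mem_Upow.1 h2
  have e2 : N * G' = N' * G := h.eq (IsHomogeneous.mul hN hG') (IsHomogeneous.mul hN' hG)
    (by rw [map_mul, map_mul, e, e']; ring)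
  obtain ⟨q, hq⟩ : G ∣ N := hc.dvd_of_dvd_mul_right ⟨N', by rw [e2, mul_comm]⟩
  have hN0 : N ≠ 0 := by
    rintro rfl
    exact mul_ne_zero hφ (h.ne hG h0) (by simpa using e.symm)
  obtain ⟨h3, q', hq', e3⟩ := quo_hom hN hG hN0 hq
  refine ⟨h3, mem_Upow.2 ⟨q', hq', mul_left_cancel₀ (h.ne hG h0) ?_⟩⟩
  rw [← map_mul, ← e3, e, mul_comm]

lemma Prim.int [Infinite K] (h : Inj K x) {g k : ℕ} {X : Submodule K F} (hX : Prim x g X) {φ : F}
    (hφ : φ ≠ 0) (h1 : ∀ v ∈ X, φ * v ∈ UU K x ^ k) : g ≤ k ∧ φ ∈ UU K x ^ (k - g) := by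
  obtain ⟨G, hG, G', hG', a1, a2, a3, -, a4⟩ := hX.cop
  exact h.cop_int hG hG' a3 a4 hφ (h1 _ a1) (h1 _ a2)

lemma Prim.int' [Infinite K] (h : Inj K x) {g k : ℕ} {X : Submodule K F} (hX : Prim x g X) {φ : F}
    (h1 : ∀ v ∈ X, φ * v ∈ UU K x ^ (k + g)) : φ ∈ UU K x ^ k := by
  by_cases hφ : φ = 0
  · rw [hφ]; exact zero_mem _
  · simpa using (hX.int h hφ h1).2

lemma Prim.lb [Infinite K] (h : Inj K x) {g : ℕ} {X : Submodule K F} (hX : Prim x g X) :
    ∃ C, ∀ m, s (m + g) ≤ finrank K (X * UU K x ^ m : Submodule K F) + C * (m + 1) := by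
  have : FiniteDimensional K X := Submodule.finiteDimensional_of_le hX.le
  obtain ⟨G, hG, G', hG', a1, a2, a3, a3', a4⟩ := hX.cop
  refine ⟨s (2 * g) + 2 * g ^ 2, fun m => ?_⟩
  rcases lt_or_ge m g with hm | hm
  · have := s_mono (show m + g ≤ 2 * g by omega)
    nlinarith [Nat.zero_le (finrank K (X * UU K x ^ m : Submodule K F))]
  obtain ⟨m, rfl⟩ := Nat.exists_eq_add_of_le' hm
  have e1 := Submodule.finrank_sup_add_finrank_inf_eq ((K ∙ aeval x G) * UU K x ^ (m + g))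
    ((K ∙ aeval x G') * UU K x ^ (m + g))
  rw [finrank_sing_mul (h.ne hG a3), finrank_sing_mul (h.ne hG' a3'), h.dim] at e1
  have e2 : finrank K ((K ∙ aeval x G) * UU K x ^ (m + g) ⊔ (K ∙ aeval x G') * UU K x ^ (m + g) :
      Submodule K F) ≤ finrank K (X * UU K x ^ (m + g) : Submodule K F) :=
    Submodule.finrank_mono (sup_le
      (mul_le_mul' ((span_singleton_le_iff_mem _ _).2 a1) le_rfl)
      (mul_le_mul' ((span_singleton_le_iff_mem _ _).2 a2) le_rfl))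
  have e3 : finrank K ((K ∙ aeval x G) * UU K x ^ (m + g) ⊓ (K ∙ aeval x G') * UU K x ^ (m + g) :
      Submodule K F) ≤ s m := by
    rw [← h.dim m, ← finrank_sing_mul (mul_ne_zero (h.ne hG a3) (h.ne hG' a3')) (UU K x ^ m)]
    apply Submodule.finrank_mono
    rintro r ⟨b1, b2⟩
    obtain ⟨u, hu, rfl⟩ := mem_span_singleton_mul.1 b1
    obtain ⟨v, hv, e⟩ := mem_span_singleton_mul.1 b2
    by_cases hv0 : v = 0
    · rw [← e, hv0, mul_zero]; exact zero_mem _
    have hG0 := h.ne hG a3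
    have := h.cop_int hG hG' a3 a4 (φ := v / aeval x G) (k := m + g) (div_ne_zero hv0 hG0)
      (by rwa [div_mul_cancel₀ _ hG0]) (by
        rw [div_mul_eq_mul_div, mul_comm, e, mul_div_cancel_left₀ _ hG0]; exact hu)
    refine mem_span_singleton_mul.2 ⟨_, by simpa using this.2, ?_⟩
    rw [← e]; field_simp
  have e4 := s_second m g
  rw [show m + g + g = m + 2 * g by ring]
  nlinarith [Nat.zero_le (s (2 * g) * (m + g + 1)), Nat.zero_le (g ^ 2 * (m + g))]

variable (K) in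
/-- every element is a quotient of two forms of the same degree -/
def Frc (x : Fin 4 → F) : Prop :=
  ∀ φ : F, ∃ k, ∃ D ∈ Hm 4 K k, D ≠ 0 ∧ φ * aeval x D ∈ UU K x ^ k

lemma Frc.den (hf : Frc K x) (h : Inj K x) (X : Submodule K F) [FiniteDimensional K X] :
    ∃ κ : F, κ ≠ 0 ∧ ∃ g, κ ∈ UU K x ^ g ∧ ∀ v ∈ X, κ * v ∈ UU K x ^ g := by
  have hX : X.FG := (Submodule.fg_iff_finiteDimensional X).2 inferInstance
  induction X, hX using Submodule.fg_sup_span_induction with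
  | bot => exact ⟨1, one_ne_zero, 0, by simp, by simp⟩
  | sup N a hN ih =>
    obtain ⟨κ, h0, g, h1, h2⟩ := ih
    obtain ⟨k, D, hD, hD0, h3⟩ := hf a
    refine ⟨κ * aeval x D, mul_ne_zero h0 (h.ne hD hD0), g + k, mul_pow_mem h1 (aeval_mem hD), ?_⟩
    intro v hv
    obtain ⟨v1, hv1, v2, hv2, rfl⟩ := mem_sup.1 hv
    obtain ⟨c, rfl⟩ := mem_span_singleton.1 hv2
    have e : κ * aeval x D * (v1 + c • a) = κ * v1 * aeval x D + c • (κ * (a * aeval x D)) := by
      rw [Algebra.smul_def, Algebra.smul_def]; ring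
    rw [e]
    exact add_mem (mul_pow_mem (h2 v1 hv1) (aeval_mem hD)) (smul_mem _ _ (mul_pow_mem h1 h3))

lemma Inj.fam (h : Inj K x) (M : ℕ → Submodule K F) (h0 : M 0 ≠ ⊥)
    (hM : ∃ κ : F, κ ≠ 0 ∧ ∃ c, ∀ i, ∀ v ∈ M i, κ * v ∈ UU K x ^ (i + c)) :
    ∃ κ : F, κ ≠ 0 ∧ ∃ c, (∀ i, ∀ v ∈ M i, κ * v ∈ UU K x ^ (i + c)) ∧
      ∀ p : MvPolynomial (Fin 4) K, Prime p →
        ∃ i, ∃ G ∈ Hm 4 K (i + c), ∃ v ∈ M i, κ * v = aeval x G ∧ ¬ p ∣ G := by
  classical
  have hex : ∃ c, ∃ κ : F, κ ≠ 0 ∧ ∀ i, ∀ v ∈ M i, κ * v ∈ UU K x ^ (i + c) := by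
    obtain ⟨κ, h1, c, h2⟩ := hM; exact ⟨c, κ, h1, h2⟩
  obtain ⟨κ, h1, h2⟩ := Nat.find_spec hex
  refine ⟨κ, h1, Nat.find hex, h2, fun p hp => ?_⟩
  by_contra hc
  push Not at hc
  have hd := prime_deg hp
  set e := p.totalDegree
  set p' := homogeneousComponent e p
  have key : ∀ i, ∀ v ∈ M i, v ≠ 0 → e ≤ i + Nat.find hex ∧ aeval x p' ≠ 0 ∧
      ∃ w ∈ UU K x ^ (i + Nat.find hex - e), κ * v = aeval x p' * w := by
    intro i v hv hv0
    obtain ⟨G, hG, e1⟩ := mem_Upow.1 (h2 i v hv)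
    obtain ⟨q, hq⟩ := hc i G hG v hv e1.symm
    have hG0 : G ≠ 0 := by rintro rfl; exact mul_ne_zero h1 hv0 (by simpa using e1.symm)
    obtain ⟨a1, q', a2, a3⟩ := top_fac hG hG0 hq
    refine ⟨a1, fun a4 => ?_, aeval x q', aeval_mem a2, by rw [← e1, a3, map_mul]⟩
    apply h.ne hG hG0
    rw [a3, map_mul, a4, zero_mul]
  obtain ⟨v0, hv0, hv0'⟩ := (Submodule.ne_bot_iff _).1 h0
  obtain ⟨a1, a2, -⟩ := key 0 v0 hv0 hv0'
  apply Nat.find_min hex (m := Nat.find hex - e) (by omega)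
  refine ⟨κ / aeval x p', div_ne_zero h1 a2, fun i v hv => ?_⟩
  by_cases hv1 : v = 0
  · rw [hv1, mul_zero]; exact zero_mem _
  obtain ⟨-, -, w, hw, e1⟩ := key i v hv hv1
  rw [div_mul_eq_mul_div, e1, mul_div_cancel_left₀ _ a2,
    show i + (Nat.find hex - e) = i + Nat.find hex - e by omega]
  exact hw

lemma Frc.prim (hf : Frc K x) (h : Inj K x) (X : Submodule K F) [FiniteDimensional K X]
    (h0 : X ≠ ⊥) : ∃ κ : F, κ ≠ 0 ∧ ∃ g, Prim x g ((K ∙ κ) * X) := by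
  obtain ⟨κ, h1, g, -, h2⟩ := hf.den h X
  obtain ⟨κ, h1, c, h2, h3⟩ := h.fam (fun i => if i = 0 then X else ⊥) (by simpa using h0)
    ⟨κ, h1, g, fun i v hv => by
      by_cases hi : i = 0
      · subst hi; simpa using h2 v (by simpa using hv)
      · rw [if_neg hi, mem_bot] at hv; rw [hv, mul_zero]; exact zero_mem _⟩
  refine ⟨κ, h1, c, fun r hr => ?_, fun p hp => ?_⟩
  · obtain ⟨v, hv, rfl⟩ := mem_span_singleton_mul.1 hr
    simpa using h2 0 v (by simpa using hv)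
  · obtain ⟨i, G, hG, v, hv, e, hp'⟩ := h3 p hp
    by_cases hi : i = 0
    · subst hi
      exact ⟨G, by simpa using hG, mem_span_singleton_mul.2 ⟨v, by simpa using hv, e⟩, hp'⟩
    · rw [if_neg hi, mem_bot] at hv
      rw [hv, mul_zero] at e
      rw [h _ G hG e.symm] at hp'
      exact absurd (dvd_zero p) hp'

/-- deficiency of the ideal generated by `X` grows at most like `a j` -/
def df (x : Fin 4 → F) (X : Submodule K F) (c a : ℕ) : Prop :=
  X ≤ UU K x ^ c ∧ ∃ C, ∀ j, s (j + c) ≤ finrank K (X * UU K x ^ j : Submodule K F) + a * j + C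

lemma df.mono {X Y : Submodule K F} {c a : ℕ} (h : df x X c a) (hXY : X ≤ Y)
    (hY : Y ≤ UU K x ^ c) : df x Y c a := by
  have : FiniteDimensional K Y := Submodule.finiteDimensional_of_le hY
  obtain ⟨-, C, hC⟩ := h
  refine ⟨hY, C, fun j => (hC j).trans ?_⟩
  have := Submodule.finrank_mono (mul_le_mul' hXY (le_refl (UU K x ^ j)))
  omega

lemma df.weak {X : Submodule K F} {c a b : ℕ} (h : df x X c a) (hab : a ≤ b) : df x X c b := by
  obtain ⟨h1, C, hC⟩ := h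
  refine ⟨h1, C, fun j => (hC j).trans ?_⟩
  have := Nat.mul_le_mul_right j hab
  omega

lemma df.mul (h : Inj K x) {X Y : Submodule K F} {c c' a : ℕ} (hX : df x X c a) (hY : df x Y c' 0) :
    df x (X * Y) (c + c') a := by
  obtain ⟨h1, C, hC⟩ := hX
  obtain ⟨h2, C', hC'⟩ := hY
  have : FiniteDimensional K X := Submodule.finiteDimensional_of_le h1
  refine ⟨by rw [pow_add]; exact mul_le_mul' h1 h2, C + a * c' + finrank K X * C', fun j => ?_⟩
  have e1 := finrank_mul_sub X (UU K x ^ (j + c')) (Y * UU K x ^ j)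
    (by rw [add_comm, pow_add]; exact mul_le_mul' h2 le_rfl)
  have e2 := hC (j + c')
  have e3 := hC' j
  rw [h.dim, ← mul_assoc] at e1
  have e4 : finrank K X * (s (j + c') - finrank K (Y * UU K x ^ j : Submodule K F)) ≤
      finrank K X * C' := Nat.mul_le_mul_left _ (by omega)
  rw [show j + (c + c') = j + c' + c by ring]
  rw [mul_add] at e2
  omega

lemma Inj.lb_gen (h : Inj K x) {V : Submodule K F} (hV : V ≤ UU K x) {c : ℕ} {e : F}
    (he : e ∈ UU K x ^ (c + 1)) (he' : e ∉ V * UU K x ^ c) (j : ℕ) :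
    s (j + (c + 1)) + (4 - finrank K V + j - 1).choose j ≤
      finrank K ((V * UU K x ^ c ⊔ K ∙ e) * UU K x ^ j : Submodule K F) +
        (4 - finrank K V + (j + c + 1) - 1).choose (j + c + 1) := by
  have : FiniteDimensional K V := Submodule.finiteDimensional_of_le hV
  obtain ⟨W, p, hp⟩ := h.prj hV
  have : FiniteDimensional K W := Submodule.finiteDimensional_of_le hp.le
  have hW : 4 - finrank K V = finrank K W := by have := hp.dim; omega
  rw [hW, ← h.dimW hp.le, ← h.dimW hp.le]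
  have he0 : p (c + 1) e ≠ 0 := fun h0 => he' ((hp.zero_iff hV he).1 h0)
  obtain ⟨Z, hZ⟩ := (((K ∙ p (c + 1) e) * W ^ j).comap (W ^ (j + c + 1)).subtype).exists_isCompl
  have hle : (K ∙ p (c + 1) e) * W ^ j ≤ W ^ (j + c + 1) := by
    rw [show j + c + 1 = (c + 1) + j by ring, pow_add]
    exact mul_le_mul' ((span_singleton_le_iff_mem _ _).2 (hp.mem _ e he)) le_rfl
  have h2 := Submodule.finrank_add_eq_of_isCompl hZ
  rw [← Submodule.finrank_map_subtype_eq _ (Submodule.comap _ _), Submodule.map_comap_subtype,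
    inf_eq_right.2 hle, finrank_sing_mul he0, ← Submodule.finrank_map_subtype_eq _ Z] at h2
  have h3 : UU K x ^ (j + (c + 1)) ≤ (V * UU K x ^ c ⊔ K ∙ e) * UU K x ^ j ⊔
      Z.map (W ^ (j + c + 1)).subtype := by
    have hVU : V * UU K x ^ (j + c) ≤ (V * UU K x ^ c ⊔ K ∙ e) * UU K x ^ j := by
      rw [add_comm j c, pow_add, ← mul_assoc]; exact mul_le_mul' le_sup_left le_rfl
    intro a ha
    have e1 := hp.sub (j + c) a ha
    have e2 : (⟨p (j + c + 1) a, hp.mem _ a ha⟩ : (W ^ (j + c + 1) : Submodule K F)) ∈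
        ((K ∙ p (c + 1) e) * W ^ j).comap (W ^ (j + c + 1)).subtype ⊔ Z := by
      rw [hZ.sup_eq_top]; trivial
    obtain ⟨b1, hb1, b2, hb2, e3⟩ := mem_sup.1 e2
    have e4 : a = (a - p (j + c + 1) a) + b1 + b2 := by
      have := congrArg Subtype.val e3
      simp only [Submodule.coe_add] at this
      rw [← this]; ring
    rw [e4]
    refine add_mem (mem_sup_left (add_mem (hVU e1) ?_)) (mem_sup_right ⟨b2, hb2, rfl⟩)
    obtain ⟨w, hw, e5⟩ := mem_span_singleton_mul.1 hb1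
    have e6 : (b1 : F) = e * w - (e - p (c + 1) e) * w := by
      have : p (c + 1) e * w = b1 := e5
      rw [← this]; ring
    have hw' : w ∈ UU K x ^ j := pow_le_pow_left' hp.le j hw
    rw [e6]
    exact sub_mem (mul_mem_mul (mem_sup_right (mem_span_singleton_self e)) hw')
      (mul_mem_mul (mem_sup_left (hp.sub c e he)) hw')
  have h4 := (Submodule.finrank_mono h3).trans (Submodule.finrank_add_le_finrank_add_finrank _ _)
  rw [h.dim] at h4
  omega

lemma Inj.lb_lin (h : Inj K x) {V : Submodule K F} (hV : V ≤ UU K x) (j : ℕ) :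
    s (j + 1) ≤ finrank K (V * UU K x ^ j : Submodule K F) +
        (4 - finrank K V + (j + 1) - 1).choose (j + 1) := by
  have : FiniteDimensional K V := Submodule.finiteDimensional_of_le hV
  obtain ⟨W, p, hp⟩ := h.prj hV
  have : FiniteDimensional K W := Submodule.finiteDimensional_of_le hp.le
  have hW : 4 - finrank K V = finrank K W := by have := hp.dim; omega
  rw [hW, ← h.dimW hp.le, ← h.dim]
  refine (Submodule.finrank_mono (?_ : _ ≤ V * UU K x ^ j ⊔ W ^ (j + 1))).trans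
    (Submodule.finrank_add_le_finrank_add_finrank _ _)
  intro a ha
  have := add_mem (mem_sup_left (T := W ^ (j + 1)) (hp.sub j a ha)) (mem_sup_right (hp.mem _ a ha))
  simpa using this

lemma Inj.df3 (h : Inj K x) {V : Submodule K F} (hV : V ≤ UU K x) (h3 : 3 ≤ finrank K V) :
    df x V 1 0 := by
  refine ⟨by rwa [pow_one], 1, fun j => (h.lb_lin hV j).trans ?_⟩
  have : (4 - finrank K V + (j + 1) - 1).choose (j + 1) ≤ (j + 1).choose (j + 1) :=
    Nat.choose_le_choose _ (by omega)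
  rw [Nat.choose_self] at this
  omega

lemma Inj.df2 (h : Inj K x) {V : Submodule K F} (hV : V ≤ UU K x) (h3 : 2 ≤ finrank K V) :
    df x V 1 1 := by
  refine ⟨by rwa [pow_one], 2, fun j => (h.lb_lin hV j).trans ?_⟩
  have : (4 - finrank K V + (j + 1) - 1).choose (j + 1) ≤ (j + 1 + 1).choose (j + 1) :=
    Nat.choose_le_choose _ (by omega)
  rw [Nat.choose_succ_self_right] at this
  omega

lemma Inj.dfq (h : Inj K x) {V : Submodule K F} (hV : V ≤ UU K x) (h2 : finrank K V = 2) {e : F}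
    (he : e ∈ UU K x ^ 2) (he' : e ∉ V * UU K x) : df x (V * UU K x ⊔ K ∙ e) 2 0 := by
  refine ⟨sup_le (by rw [pow_two]; exact mul_le_mul' hV le_rfl)
    ((span_singleton_le_iff_mem _ _).2 he), 2, fun j => ?_⟩
  have := h.lb_gen hV (c := 1) he (by rwa [pow_one]) j
  rw [h2, pow_one, show 4 - 2 + j - 1 = j + 1 by omega, Nat.choose_succ_self_right,
    show 4 - 2 + (j + 1 + 1) - 1 = j + 1 + 1 + 1 by omega, Nat.choose_succ_self_right] at this
  rw [show (1 + 1 : ℕ) = 2 from rfl] at this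
  omega

lemma ch2 (n : ℕ) : (n + 1).choose 2 = n.choose 2 + n := by
  rw [Nat.choose_succ_succ']; simp [add_comm]

lemma Inj.dfc (h : Inj K x) {η e : F} (hη : η ∈ UU K x) (h0 : η ≠ 0)
    (he : e ∈ UU K x ^ 3) (he' : e ∉ (K ∙ η) * UU K x ^ 2) :
    df x ((K ∙ η) * UU K x ^ 2 ⊔ K ∙ e) 3 3 := by
  have hV : (K ∙ η) ≤ UU K x := (span_singleton_le_iff_mem _ _).2 hη
  refine ⟨sup_le (by rw [pow_succ' _ 2]; exact mul_le_mul' hV le_rfl)
    ((span_singleton_le_iff_mem _ _).2 he), 9, fun j => ?_⟩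
  have := h.lb_gen hV (c := 2) he he' j
  rw [finrank_span_singleton h0, show 4 - 1 + j - 1 = j + 2 by omega,
    show 4 - 1 + (j + 2 + 1) - 1 = (j + 2 + 1) + 2 by omega, Nat.choose_symm_add,
    Nat.choose_symm_add, show (2 + 1 : ℕ) = 3 from rfl] at this
  have e : (j + 2 + 1 + 2).choose 2 = (j + 2).choose 2 + (3 * j + 9) := by
    rw [show j + 2 + 1 + 2 = j + 2 + 1 + 1 + 1 from rfl, ch2, ch2, ch2]
    omega
  omega

end Pool.Agent.Lib.MP_a9ad87_al.Ch
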