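import Pool.Agent.Lib.MP_a9ad87_al.ChTB3

namespace Pool.Agent.Lib.MP_a9ad87_al.Ch

open Module Submodule

variable {K F B : Type*} [Field K] [Field F] [Algebra K F] [CommRing B] [Algebra F B]
    [Algebra K B] [IsScalarTower K F B]

lemma AS.count4 {D : AS K F B} {q : Fin 4 → B} {N T : Submodule K B} [FiniteDimensional K N]
    (hT : T ≤ N ⊔ span K (Set.range q) * D.U') (r : Fin 4 → Fin 4 → F) (hr : ∀ k i, r k i ∈ D.U)
    (hi : LinearIndependent K r) (hN : ∀ k, ∑ i, algebraMap F B (r k i) * q i ∈ N) :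
    finrank K T ≤ 12 + finrank K N := by
  have : FiniteDimensional K (span K (Set.range q)) :=
    FiniteDimensional.span_of_finite K (Set.finite_range q)
  have : FiniteDimensional K T := Submodule.finiteDimensional_of_le hT
  let φ : (Fin 4 → F) →ₗ[K] B ⧸ N := N.mkQ ∘ₗ (Fintype.linearCombination F q).restrictScalars K
  let E := LinearMap.range (LinearMap.compLeft D.U.subtype (Fin 4))
  have hE : ∀ f : Fin 4 → F, (∀ i, f i ∈ D.U) → f ∈ E := fun f hf => ⟨fun i => ⟨f i, hf i⟩, rfl⟩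
  have e1 : finrank K E ≤ 16 := by
    refine (LinearMap.finrank_range_le _).trans ?_
    rw [Module.finrank_pi_fintype]; simp [D.inj.dimU]
  have e2 := finrank_map_add E φ
  have e3 : span K (Set.range r) ≤ E ⊓ LinearMap.ker φ := by
    rw [span_le]
    rintro _ ⟨k, rfl⟩
    refine ⟨hE _ (hr k), ?_⟩
    refine (Submodule.Quotient.mk_eq_zero N).2 ?_
    simpa [Fintype.linearCombination_apply, Algebra.smul_def] using hN k
  have e4 := Submodule.finrank_mono e3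
  rw [finrank_span_eq_card hi, Fintype.card_fin] at e4
  have e5 : T.map N.mkQ ≤ E.map φ := by
    refine (Submodule.map_mono hT).trans ?_
    rw [Submodule.map_sup, Submodule.mkQ_map_self, bot_sup_eq, Submodule.map_le_iff_le_comap,
      Submodule.mul_le]
    rintro p hp _ ⟨u, hu, rfl⟩
    obtain ⟨c, rfl⟩ := (mem_span_range_iff_exists_fun K).1 hp
    refine ⟨fun i => c i • u, hE _ fun i => smul_mem _ _ hu, ?_⟩
    simp only [φ, LinearMap.comp_apply, LinearMap.restrictScalars_apply,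
      Fintype.linearCombination_apply, Finset.sum_mul]
    congr 1
    refine Finset.sum_congr rfl fun i _ => ?_
    simp [Algebra.smul_def, IsScalarTower.algebraMap_apply K F B]; ring
  have e6 := Submodule.finrank_mono e5
  have e7 := finrank_map_add T N.mkQ
  have e8 : finrank K (T ⊓ LinearMap.ker N.mkQ : Submodule K B) ≤ finrank K N :=
    Submodule.finrank_mono (by rw [Submodule.ker_mkQ]; exact inf_le_right)
  omega

lemma li4 {M : Type*} [AddCommGroup M] [Module K M] {r : Fin 4 → M}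
    (h : ∀ a b c d : K, a • r 0 + b • r 1 + c • r 2 + d • r 3 = 0 → a = 0 ∧ b = 0 ∧ c = 0 ∧ d = 0) :
    LinearIndependent K r := by
  rw [Fintype.linearIndependent_iff]
  intro g hg i
  rw [Fin.sum_univ_four] at hg
  obtain ⟨h0, h1, h2, h3⟩ := h _ _ _ _ hg
  fin_cases i <;> assumption

lemma mem_pairU {Λ : Type*} [CommRing Λ] [Algebra K Λ] {U : Submodule K Λ} {a b c : Λ}
    (h : c ∈ span K {a, b} * U) : ∃ u ∈ U, ∃ m ∈ U, c = a * u + b * m := by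
  rw [span_insert, Submodule.sup_mul] at h
  obtain ⟨_, h1, _, h2, rfl⟩ := mem_sup.1 h
  obtain ⟨u, hu, rfl⟩ := mem_span_singleton_mul.1 h1
  obtain ⟨m, hm, rfl⟩ := mem_span_singleton_mul.1 h2
  exact ⟨u, hu, m, hm, rfl⟩

lemma eta_mul {Λ : Type*} [CommRing Λ] [Algebra K Λ] {U A A' : Submodule K Λ} {η : Λ} {i j : ℕ}
    (hη : η ∈ U) (hA : A ≤ U ^ (i + 1)) (hA' : A' ≤ U ^ (j + 1)) :
    ((K ∙ η) * U ^ i ⊔ A) * ((K ∙ η) * U ^ j ⊔ A') ≤ (K ∙ η) * U ^ (i + j + 1) ⊔ A * A' := by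
  rw [Submodule.sup_mul, Submodule.mul_sup A]
  refine sup_le (le_sup_of_le_left ?_) (sup_le_sup_right ?_ _)
  · rw [mul_assoc, add_assoc, pow_add]
    refine mul_le_mul' le_rfl (mul_le_mul' le_rfl (sup_le ?_ hA'))
    rw [pow_succ']; exact mul_le_mul' (sing_le hη) le_rfl
  · rw [mul_left_comm, add_right_comm, pow_add]
    exact mul_le_mul' le_rfl (mul_le_mul' hA le_rfl)

lemma eta_mul1 {Λ : Type*} [CommRing Λ] [Algebra K Λ] {U A A' : Submodule K Λ} {η : Λ}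
    (hη : η ∈ U) (hA : A ≤ U) (hA' : A' ≤ U) :
    ((K ∙ η) ⊔ A) * ((K ∙ η) ⊔ A') ≤ (K ∙ η) * U ⊔ A * A' := by
  simpa using eta_mul (i := 0) (j := 0) hη (A := A) (A' := A') (by simpa) (by simpa)

lemma eta_mul2 {Λ : Type*} [CommRing Λ] [Algebra K Λ] {U A A' : Submodule K Λ} {η : Λ}
    (hη : η ∈ U) (hA : A ≤ U) (hA' : A' ≤ U ^ 2) :
    ((K ∙ η) ⊔ A) * ((K ∙ η) * U ⊔ A') ≤ (K ∙ η) * U ^ 2 ⊔ A * A' := by
  simpa using eta_mul (i := 0) (j := 1) hη (A := A) (A' := A') (by simpa) (by simpa)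

lemma sup_sq {Λ : Type*} [CommRing Λ] [Algebra K Λ] {U V : Submodule K Λ} {e : Λ}
    (he : e ∈ U ^ 2) (hV : V ≤ U) :
    (V * U ⊔ K ∙ e) * (V * U ⊔ K ∙ e) ≤ (V * V ⊔ K ∙ e) * U ^ 2 := by
  have h := pow_le_sup (V := V * U ⊔ K ∙ e) (W := V * U) (H := K ∙ e) le_rfl le_sup_left 1
  rw [pow_succ', pow_one] at h
  rw [Submodule.sup_mul (V * V)]
  refine h.trans (sup_le_sup ?_ (mul_le_mul' le_rfl ?_))
  · rw [mul_pow, ← pow_two]
  · exact sup_le (by rw [pow_two]; exact mul_le_mul' hV le_rfl) (sing_le he)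

lemma df.le {x : Fin 4 → F} {X : Submodule K F} {c a : ℕ} (h : df x X c a) {M : ℕ → Submodule K F}
    [∀ i, FiniteDimensional K (M i)] (hM : ∀ i j, M i * UU K x ^ j ≤ M (i + j)) (hX : X ≤ M c) :
    ∃ C, ∀ j, c ≤ j → s j ≤ finrank K (M j) + a * j + C := by
  obtain ⟨-, C, hC⟩ := h
  refine ⟨C, fun j hj => ?_⟩
  obtain ⟨j, rfl⟩ := Nat.exists_eq_add_of_le hj
  have e1 := hC j
  have e2 := Submodule.finrank_mono ((mul_le_mul' hX le_rfl).trans (hM c j))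
  rw [add_comm j c] at e1
  rw [mul_add]
  omega

namespace MG
variable {D : MG K F B} {κ : F → F → F} {a b c d P : F} {y1 y2 h : B}

lemma L3_s01 : D.L3 κ a b c d = D.L3 κ b a c d := by
  rw [L3, L3, mul_comm (κ a d), mul_comm (D.t a)]

lemma L3_s12 : D.L3 κ a b c d = D.L3 κ a c b d := by
  rw [L3, L3, mul_right_comm (κ a d), mul_right_comm (D.t a)]

variable (D κ) in
/-- the first type -/
structure TA (a b c d : F) (h : B) (η : F) : Prop where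
  o : D.Od a b c d
  v : h ∈ D.V
  J : h ∈ D.J3 a b c
  h0 : h ≠ 0
  e : D.L3 κ a b c d h = η

variable {η : F}

lemma TA.s01 (T : TA D κ a b c d h η) : TA D κ b a c d h η :=
  ⟨T.o.s01, T.v, by rw [J3_s01]; exact T.J, T.h0, by rw [L3_s01]; exact T.e⟩

lemma TA.s12 (T : TA D κ a b c d h η) : TA D κ a c b d h η :=
  ⟨T.o.s12, T.v, by rw [J3_s12]; exact T.J, T.h0, by rw [L3_s12]; exact T.e⟩

lemma TA.ne (T : TA D κ a b c d h η) (N : NM D κ) : η ≠ 0 := fun e =>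
  T.h0 (T.o.L3_ker N.ne T.J (T.e.trans e))

lemma TA.m1 (T : TA D κ a b c d h η) : η ∈ D.M3 κ a b c d 1 :=
  T.e ▸ M3_of ⟨by rw [pow_one]; exact T.v, T.J⟩

lemma TA.memU (T : TA D κ a b c d h η) (N : NM D κ) : η ∈ D.U := by
  simpa using N.m3 T.o 1 T.m1

lemma TA.etaU (T : TA D κ a b c d h η) : (K ∙ η) * D.U ^ 2 ≤ D.M3 κ a b c d 3 :=
  (mul_le_mul' (sing_le T.m1) le_rfl).trans M3_cl

lemma TA.G_eta (T : TA D κ a b c d h η) (N : NM D κ) : D.G κ a d h ∈ K ∙ η := by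
  obtain ⟨q, rfl⟩ := mem_J3.1 T.J
  rw [← T.e, T.o.L3_t, mul_assoc (D.t a * D.t b), mul_assoc (D.t a), T.o.s23.s12.G_t, map_mul,
    map_mul, T.o.rd.ev_t, T.o.rd.ev_t]
  by_cases h1 : b = d
  · simp [h1]
  by_cases h2 : c = d
  · simp [h2]
  rw [N.eq b d h1, N.eq c d h2, mul_assoc, mul_assoc]
  exact mem_span_singleton_self _

lemma TA.L2_eta (T : TA D κ a b c d h η) (N : NM D κ) : D.L2 κ a b d h ∈ K ∙ η := by
  by_cases h2 : c = d
  · subst h2; rw [T.o.L2_J3 T.J]; exact zero_mem _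
  · rw [← N.L3_L2 T.o h2 T.J, T.e]; exact mem_span_singleton_self _

lemma TA.XM (T : TA D κ a b c d h η) (N : NM D κ) :
    ((K ∙ η) ⊔ D.W κ c d) * ((K ∙ η) * D.U ⊔ D.M2 κ a b d 2) ≤ D.M3 κ a b c d 3 :=
  (eta_mul2 (T.memU N) (N.le T.o.s12.s01.s23.s12) (N.m2 T.o.s23 2)).trans
    (sup_le T.etaU (T.o.WM_le 2))

lemma TA.XX (T : TA D κ a b c d h η) (N : NM D κ) :
    ((K ∙ η) ⊔ D.W κ a d) * ((K ∙ η) ⊔ D.W κ b d) ≤ (K ∙ η) * D.U ⊔ D.M2 κ a b d 2 :=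
  (eta_mul1 (T.memU N) (N.le T.o.s23.s12) (N.le T.o.s23.s01.s12)).trans
    (sup_le_sup_left T.o.s23.WW_le _)

lemma TA.X_le (T : TA D κ a b c d h η) (N : NM D κ) : (K ∙ η) ⊔ D.W κ a d ≤ D.U :=
  sup_le (sing_le (T.memU N)) (N.le T.o.s23.s12)

lemma TA.X_two (T : TA D κ a b c d h η) (N : NM D κ) :
    2 ≤ finrank K ((K ∙ η) ⊔ D.W κ a d : Submodule K F) :=
  (N.two T.o.s23.s12).trans (Submodule.finrank_mono le_sup_right)

lemma TA.two (T : TA D κ a b c d h η) (N : NM D κ)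
    (ha : 3 ≤ finrank K ((K ∙ η) ⊔ D.W κ a d : Submodule K F))
    (hb : 3 ≤ finrank K ((K ∙ η) ⊔ D.W κ b d : Submodule K F)) : False :=
  N.no_df T.o ((mul_le_mul' le_rfl (T.XX N)).trans (T.XM N))
    ((D.inj.df2 (T.s12.s01.X_le N) (T.s12.s01.X_two N)).mul D.inj
      ((D.inj.df3 (T.X_le N) ha).mul D.inj (D.inj.df3 (T.s01.X_le N) hb)))

lemma TA.exl (T : TA D κ a b c d h η) (N : NM D κ)
    (ha : ¬ 3 ≤ finrank K ((K ∙ η) ⊔ D.W κ a d : Submodule K F)) :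
    ∃ l ∈ D.U, Ind2 K η l ∧ (K ∙ η) ⊔ D.W κ a d = (K ∙ η) ⊔ K ∙ l := by
  obtain ⟨l, hl, e⟩ := exists_sup_one (X := K ∙ η) (Y := (K ∙ η) ⊔ D.W κ a d) le_sup_left
    (by rw [finrank_span_singleton (T.ne N)]; omega)
  exact ⟨l, T.X_le N hl, ind2_of_le (by rwa [span_insert]) (T.X_two N),
    le_antisymm e (sup_le le_sup_left (sing_le hl))⟩

lemma TA.exA (T : TA D κ a b c d h η) (N : NM D κ) : ∃ A : Submodule K F, A ≤ D.U ∧
    (K ∙ η) ⊔ D.W κ a d ≤ (K ∙ η) ⊔ A ∧ finrank K A ≤ 2 ∧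
      (finrank K A ≤ 1 ∨ 3 ≤ finrank K ((K ∙ η) ⊔ D.W κ a d : Submodule K F)) := by
  by_cases ha : 3 ≤ finrank K ((K ∙ η) ⊔ D.W κ a d : Submodule K F)
  · obtain ⟨y1, y2, E⟩ := N.ed0 T.o T.v (J3_le T.J) T.h0
    refine ⟨_, pair_le (N.le T.o.s23.s12 (W_of E.v1)) (N.le T.o.s23.s12 (W_of E.v2)),
      sup_le le_sup_left ((E.G_le N T.o a d).trans ?_), finrank_span_pair_le _ _, Or.inr ha⟩
    exact sup_le le_sup_right (le_sup_of_le_left (sing_le (T.G_eta N)))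
  · obtain ⟨l, hl, -, e⟩ := T.exl N ha
    exact ⟨K ∙ l, sing_le hl, e.le, (finrank_sing_le _).trans (by omega),
      Or.inl (finrank_sing_le _)⟩

variable (D κ) in
noncomputable def NZ (a b c d : F) (Z : Submodule K F) : Submodule K B :=
  D.J3 a b c ⊓ Z.comap ((D.L3 κ a b c d).restrictScalars K)

lemma Od.NZ_Y (o : D.Od a b c d) {Z : Submodule K F} (z2 : D.W κ c d * D.M2 κ a b d 2 ≤ Z)
    {r y : B} (hr : r ∈ D.V ^ 2 ⊓ D.J2 a b) (hy : y ∈ D.Y c) : r * y ∈ D.NZ κ a b c d Z := by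
  rw [mul_comm]
  refine ⟨o.rc.mul_J3 hy.2 hr.2, ?_⟩
  show D.L3 κ a b c d (y * r) ∈ Z
  rw [o.L3_mul hy.2 hr.2]
  exact z2 (mul_mem_mul (W_of hy.1) (M2_of hr))

lemma TA.count (T : TA D κ a b c d h η) (N : NM D κ) (E : Ed D κ a b y1 y2 h) {Z : Submodule K F}
    [FiniteDimensional K Z] (z1 : (K ∙ η) * D.U ^ 2 ≤ Z) (z2 : D.W κ c d * D.M2 κ a b d 2 ≤ Z)
    {q : Fin 4 → B} (hq : D.Qs κ a b y1 y2 ≤ span K (Set.range q)) (r : Fin 4 → Fin 4 → F)
    (hr : ∀ k i, r k i ∈ D.U) (hi : LinearIndependent K r)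
    (hN : ∀ k, ∑ i, algebraMap F B (r k i) * q i ∈ D.NZ κ a b c d Z) : 13 ≤ finrank K Z := by
  let f : D.NZ κ a b c d Z →ₗ[K] Z :=
    ((D.L3 κ a b c d).restrictScalars K).restrict fun _ hr => hr.2
  have hf : Function.Injective f := by
    rw [← LinearMap.ker_eq_bot, eq_bot_iff]
    exact fun r hr => Subtype.ext (T.o.L3_ker N.ne r.2.1 (congrArg Subtype.val hr))
  have : FiniteDimensional K (D.NZ κ a b c d Z) := Module.Finite.of_injective f hf
  have e1 := LinearMap.finrank_le_finrank_of_injective hf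
  have e2 := (N.m1_edge T.o E.edge).2.1
  have e3 := AS.count4 (T := D.V ^ 3 ⊓ D.J2 a b) (D := D.toAS) ((E.gen N T.o 1).trans
    (sup_le (le_sup_of_le_left ?_) ?_)) r hr hi hN
  · omega
  · intro p hp
    obtain ⟨l, hl, rfl⟩ := mem_span_singleton_mul.1 hp
    rw [mul_comm]
    refine ⟨J3_mul _ T.J, ?_⟩
    show D.L3 κ a b c d (l * h) ∈ Z
    rw [T.o.L3_smul _ T.J, T.e, mul_comm]
    exact z1 (mul_mem_mul (mem_span_singleton_self _) (D.ev_pow _ T.o.rd.mem hl))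
  · rw [pow_one]
    refine (mul_le_mul' le_rfl T.o.rc.V_le).trans ?_
    rw [Submodule.mul_sup, sup_comm]
    exact sup_le_sup (Submodule.mul_le.2 fun p hp y hy => T.o.NZ_Y z2 (E.Qs_le N T.o hp) hy)
      (mul_le_mul' hq le_rfl)

lemma TA.WM (T : TA D κ a b c d h η) (N : NM D κ) (E : Ed D κ a b y1 y2 h) {A1 A2 A3 X : Submodule K F}
    (h3 : A3 ≤ D.U) (hX : X ≤ D.U ^ 2) (h1 : A1 ≤ D.U) (h2 : A2 ≤ D.U)
    (e1 : (K ∙ η) ⊔ D.W κ a d ≤ (K ∙ η) ⊔ A1) (e2 : (K ∙ η) ⊔ D.W κ b d ≤ (K ∙ η) ⊔ A2)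
    (e3 : (K ∙ η) ⊔ D.W κ c d ≤ (K ∙ η) ⊔ A3) (e4 : A1 * A2 ≤ X)
    (e5 : D.L2 κ a b d (D.rho κ a b y1 y2) ∈ (K ∙ η) * D.U ⊔ X) :
    D.W κ c d * D.M2 κ a b d 2 ≤ (K ∙ η) * D.U ^ 2 ⊔ A3 * X := by
  refine le_trans (mul_le_mul' (le_sup_right.trans e3) (E.M2_le N T.o.s23 ?_ ?_ e5))
    (eta_mul2 (T.memU N) h3 hX)
  · exact le_sup_of_le_left (mul_le_mul' (sing_le (T.L2_eta N)) le_rfl)
  · exact (mul_le_mul' (le_sup_right.trans e1) (le_sup_right.trans e2)).trans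
      ((eta_mul1 (T.memU N) h1 h2).trans (sup_le_sup_left e4 _))

lemma TA.dimZ (T : TA D κ a b c d h η) (N : NM D κ) {X : Submodule K F} [FiniteDimensional K X]
    (h13 : 13 ≤ finrank K ((K ∙ η) * D.U ^ 2 ⊔ X : Submodule K F)) : 3 ≤ finrank K X := by
  have := Submodule.finrank_add_le_finrank_add_finrank ((K ∙ η) * D.U ^ 2) X
  rw [finrank_sing_mul (T.ne N), D.inj.dim, show s 2 = 10 from rfl] at this
  omega

lemma TA.a1 (T : TA D κ a b c d h η) (N : NM D κ) (hab : a ≠ b) (hac : a ≠ c) (hbc : b ≠ c) :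
    False := by
  obtain ⟨y1, y2, E⟩ := N.ed0 T.o T.v (J3_le T.J) T.h0
  obtain ⟨A1, h1, e1, d1, c1⟩ := T.exA N
  obtain ⟨A2, h2, e2, d2, c2⟩ := T.s01.exA N
  obtain ⟨A3, h3, e3, d3, c3⟩ := T.s12.s01.exA N
  have : FiniteDimensional K A1 := Submodule.finiteDimensional_of_le h1
  have : FiniteDimensional K A2 := Submodule.finiteDimensional_of_le h2
  have : FiniteDimensional K A3 := Submodule.finiteDimensional_of_le h3
  have o := T.o
  have g1 := N.G_eq o hab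
  have eρ : D.rho κ a b y1 y2 = D.Q b y1 y2 - D.Q b y2 y1 := by
    simp only [rho, Q, g1, E.e1, E.e2, sub_zero]; ring
  have z2 := T.WM N E h3 (X := A1 * A2) (by rw [pow_two]; exact mul_le_mul' h1 h2) h1 h2 e1 e2 e3
    le_rfl (by
      rw [eρ, map_sub, o.s23.L2_Q _ E.e1, o.s23.L2_Q _ E.e2]
      have k := (mul_le_mul' (le_sup_right.trans e1) (le_sup_right.trans e2)).trans
        (eta_mul1 (T.memU N) h1 h2)
      exact sub_mem (k (mul_mem_mul (W_of E.v1) (W_of E.v2)))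
        (k (mul_mem_mul (W_of E.v2) (W_of E.v1))))
  have ea : D.ev a h = 0 := o.ra.ev_J2 (J3_le T.J)
  have eb : D.ev b h = 0 := o.rb.ev_J2 (J3_le T.s01.J)
  have ec : D.ev c h = 0 := o.rc.ev_J2 (J3_le T.s12.s01.J)
  have iv : Ind2 K (D.ev c y1) (D.ev c y2) := by
    refine ind2_of_le ((E.G_le N o a c).trans ?_) (N.two o.s12)
    simp [N.G_eq o.s12 hac, E.e1, E.e2, ea, ec]
  have iw : Ind2 K (D.ev c y1 - D.ev b y1) (D.ev c y2 - D.ev b y2) := by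
    refine ind2_of_le ((E.G_le N o b c).trans ?_) (N.two o.s01.s12)
    simp [N.G_eq o.s01.s12 hbc, eb, ec]
  have v1 := o.rc.mem _ E.v1
  have v2 := o.rc.mem _ E.v2
  have w1 := sub_mem v1 (o.rb.mem _ E.v1)
  have w2 := sub_mem v2 (o.rb.mem _ E.v2)
  have q11 := o.Q_mem E.v1 E.v1 E.e1
  have q12 := o.Q_mem E.v1 E.v2 E.e1
  have q21 := o.Q_mem E.v2 E.v1 E.e2
  have q22 := o.Q_mem E.v2 E.v2 E.e2
  have s1 := o.rc.sub_Y E.v1
  have s2 := o.rc.sub_Y E.v2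
  have := T.dimZ N (T.count N E le_sup_left z2
    (q := ![D.Q b y1 y1, D.Q b y1 y2, D.Q b y2 y1, D.Q b y2 y2]) (by
      rw [Qs, span_le]
      rintro r (rfl | rfl | rfl | rfl | rfl)
      exacts [subset_span ⟨0, rfl⟩, subset_span ⟨1, rfl⟩, subset_span ⟨2, rfl⟩, subset_span ⟨3, rfl⟩,
        eρ ▸ sub_mem (subset_span ⟨1, rfl⟩) (subset_span ⟨2, rfl⟩)])
    ![![D.ev c y2, 0, -D.ev c y1, 0], ![0, D.ev c y2, 0, -D.ev c y1],
      ![D.ev c y2 - D.ev b y2, -(D.ev c y1 - D.ev b y1), 0, 0],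
      ![0, 0, D.ev c y2 - D.ev b y2, -(D.ev c y1 - D.ev b y1)]]
    (fun k i => by fin_cases k <;> fin_cases i <;> simp [-neg_sub, v1, v2, w1, w2])
    (li4 fun α β γ δ e => by
      have a0 := congrFun e 0
      have a1 := congrFun e 1
      have a2 := congrFun e 2
      simp [-neg_sub] at a0 a1 a2
      have b1 := iv (-(α * γ)) (-(α * δ)) (by
        simp only [Algebra.smul_def, map_neg, map_mul] at a0 a2 ⊢
        linear_combination algebraMap K F γ * a2 - algebraMap K F δ * a0)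
      have hα : α = 0 := by
        by_contra hα
        have k1 := (mul_eq_zero.1 (neg_eq_zero.1 b1.1)).resolve_left hα
        rw [k1, zero_smul, add_zero, smul_eq_zero] at a0
        exact a0.elim hα iv.symm.ne
      subst hα
      simp only [zero_smul, zero_add, neg_zero, smul_eq_zero, iw.symm.ne, or_false] at a0 a2
      subst a0 a2
      simpa [iv.symm.ne] using a1)
    (fun k => by
      rw [Fin.sum_univ_four]
      fin_cases k
      · convert sub_mem (o.NZ_Y z2 q21 s1) (o.NZ_Y z2 q11 s2) using 1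
        simp [Q]; ring
      · convert sub_mem (o.NZ_Y z2 q22 s1) (o.NZ_Y z2 q12 s2) using 1
        simp [Q]; ring
      · convert sub_mem (o.NZ_Y z2 q12 s1) (o.NZ_Y z2 q11 s2) using 1
        simp [Q]; ring
      · convert sub_mem (o.NZ_Y z2 q22 s1) (o.NZ_Y z2 q21 s2) using 1
        simp [Q]; ring))
  have f1 := (finrank_mul_le A3 (A1 * A2)).trans (Nat.mul_le_mul_left _ (finrank_mul_le A1 A2))
  have key : ∀ p q r : ℕ, p ≤ 1 → q ≤ 1 → r ≤ 2 → p * q * r ≤ 2 := fun p q r hp hq hr =>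
    (Nat.mul_le_mul (Nat.mul_le_mul hp hq) hr).trans (by norm_num)
  rcases c1 with c1 | c1 <;> rcases c2 with c2 | c2 <;> rcases c3 with c3 | c3
  · have := key _ _ _ c1 c2 d3; nlinarith
  · have := key _ _ _ c1 c2 d3; nlinarith
  · have := key _ _ _ c1 c3 d2; nlinarith
  · exact T.s01.s12.two N c2 c3
  · have := key _ _ _ c2 c3 d1; nlinarith
  · exact T.s12.two N c1 c3
  · exact T.two N c1 c2
  · exact T.two N c1 c2

end MG

end Pool.Agent.Lib.MP_a9ad87_al.Ch
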