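import Pool.Agent.Lib.MP_a9ad87_al.ChEdge

namespace Pool.Agent.Lib.MP_a9ad87_al.Ch

open Module Submodule

variable {K F B : Type*} [Field K] [Field F] [Algebra K F] [CommRing B] [Algebra F B]
    [Algebra K B] [IsScalarTower K F B]

variable (K) in
/-- linear independence of three elements -/
def Ind3 {M : Type*} [AddCommGroup M] [Module K M] (a b c : M) : Prop :=
  ∀ p q r : K, p • a + q • b + r • c = 0 → p = 0 ∧ q = 0 ∧ r = 0

section ind3
variable {M : Type*} [AddCommGroup M] [Module K M] {a b c : M}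

lemma Ind3.i12 (h : Ind3 K a b c) : Ind2 K a b := fun p q e => by
  have := h p q 0 (by simpa using e); exact ⟨this.1, this.2.1⟩

lemma Ind3.i23 (h : Ind3 K a b c) : Ind2 K b c := fun p q e => by
  have := h 0 p q (by simpa using e); exact this.2

lemma Ind3.n1 (h : Ind3 K a b c) : a ∉ span K {b, c} := fun hm => by
  obtain ⟨p, q, e⟩ := mem_span_pair.1 hm
  have := (h (-1) p q (by rw [← e]; module)).1
  simp at this

lemma Ind3.n3 (h : Ind3 K a b c) : c ∉ span K {a, b} := fun hm => by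
  obtain ⟨p, q, e⟩ := mem_span_pair.1 hm
  have := (h p q (-1) (by rw [← e]; module)).2.2
  simp at this

lemma Ind3.not_in {W : Submodule K M} [FiniteDimensional K W] (h : Ind3 K a b c)
    (hW : finrank K W ≤ 2) (ha : a ∈ W) (hb : b ∈ W) (hc : c ∈ W) : False :=
  h.n3 (eq_span2 hW ha hb h.i12 ▸ hc)

end ind3

lemma pair_le {M : Type*} [AddCommGroup M] [Module K M] {W : Submodule K M} {a b : M} (ha : a ∈ W)
    (hb : b ∈ W) : span K {a, b} ≤ W := by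
  rw [span_le]; rintro r (rfl | rfl) <;> assumption

lemma mem_pair_l {M : Type*} [AddCommGroup M] [Module K M] (a b : M) : a ∈ span K {a, b} :=
  subset_span (by simp)

lemma mem_pair_r {M : Type*} [AddCommGroup M] [Module K M] (a b : M) : b ∈ span K {a, b} :=
  subset_span (by simp)

variable {x : Fin 4 → F}

lemma Inj.lin3 (h : Inj K x) {g1 g2 g3 A A' w : F} (h1 : g1 ∈ UU K x) (h2 : g2 ∈ UU K x)
    (h3 : g3 ∈ UU K x) (hi : Ind3 K g1 g2 g3) (hA : A ∈ UU K x) (hA' : A' ∈ UU K x)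
    (hw : w ∈ UU K x) (e : g1 * A + g2 * A' + g3 * w = 0) :
    ∃ α β γ : K, A = α • g2 + β • g3 ∧ A' = -(α • g1) + γ • g3 ∧ w = -(β • g1) - γ • g2 := by
  have := h.prime1 (pair_le h2 h3) h1 hA (by
    rw [show g1 * A = -(g2 * A' + g3 * w) by linear_combination e]
    exact neg_mem (add_mem (mul_mem_mul (mem_pair_l _ _) hA') (mul_mem_mul (mem_pair_r _ _) hw)))
  obtain ⟨α, β, rfl⟩ := mem_span_pair.1 (this.resolve_left hi.n1)
  obtain ⟨γ, e1, e2⟩ := h.div1 h2 h3 hi.i23 (add_mem hA' (smul_mem _ α h1))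
    (neg_mem (add_mem hw (smul_mem _ β h1))) (by
      simp only [Algebra.smul_def] at e ⊢; linear_combination e)
  exact ⟨α, β, γ, rfl, by rw [← e1]; ring, by rw [← e2]; ring⟩

lemma Inj.rows (h : Inj K x) {g1 g2 g3 u1 u2 : F} (h1 : g1 ∈ UU K x) (h2 : g2 ∈ UU K x)
    (h3 : g3 ∈ UU K x) (hi : Ind3 K g1 g2 g3) (hu1 : u1 ∈ UU K x) (hu2 : u2 ∈ UU K x)
    (hu : Ind2 K u1 u2) {n m : Fin 4 → K} (hnm : Ind2 K n m)
    (hn : ∃ w ∈ UU K x, g1 * (n 0 • u1 + n 1 • u2) + g2 * (n 2 • u1 + n 3 • u2) + g3 * w = 0)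
    (hm : ∃ w ∈ UU K x, g1 * (m 0 • u1 + m 1 • u2) + g2 * (m 2 • u1 + m 3 • u2) + g3 * w = 0) :
    ∃ p1 p2 : K, (p1 ≠ 0 ∨ p2 ≠ 0) ∧ n 0 * p2 = n 1 * p1 ∧ n 2 * p2 = n 3 * p1 ∧
      m 0 * p2 = m 1 * p1 ∧ m 2 * p2 = m 3 * p1 := by
  have hc : ∀ p q : K, p • u1 + q • u2 ∈ UU K x := fun p q =>
    add_mem (smul_mem _ _ hu1) (smul_mem _ _ hu2)
  obtain ⟨w, hw, hn⟩ := hn
  obtain ⟨w', hw', hm⟩ := hm
  obtain ⟨α, β, γ, a1, a2, -⟩ := h.lin3 h1 h2 h3 hi (hc _ _) (hc _ _) hw hn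
  obtain ⟨α', β', γ', b1, b2, -⟩ := h.lin3 h1 h2 h3 hi (hc _ _) (hc _ _) hw' hm
  have key : ∀ s t : K, s * α + t * α' = 0 → (s ≠ 0 ∨ t ≠ 0) → g3 ∈ span K {u1, u2} := by
    intro s t e hst
    have c1 : (s * n 0 + t * m 0) • u1 + (s * n 1 + t * m 1) • u2 = (s * β + t * β') • g3 := by
      linear_combination (norm := module) s • a1 + t • b1 + e • g2
    have c2 : (s * n 2 + t * m 2) • u1 + (s * n 3 + t * m 3) • u2 = (s * γ + t * γ') • g3 := by
      linear_combination (norm := module) s • a2 + t • b2 - e • g1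
    by_contra hg
    have z : ∀ p q k : K, p • u1 + q • u2 = k • g3 → p = 0 ∧ q = 0 := fun p q k e => by
      by_cases hk : k = 0
      · exact hu p q (by rw [e, hk, zero_smul])
      · exact absurd ((smul_mem_iff _ hk).1 (e ▸ mem_span_pair.2 ⟨p, q, rfl⟩)) hg
    have d1 := z _ _ _ c1
    have d2 := z _ _ _ c2
    have := hnm s t (by
      funext i; fin_cases i
      exacts [d1.1, d1.2, d2.1, d2.2])
    tauto
  have hg : g3 ∈ span K {u1, u2} := by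
    by_cases h0 : α = 0
    · exact key 1 0 (by simp [h0]) (by simp)
    · exact key α' (-α) (by ring) (Or.inr (neg_ne_zero.2 h0))
  have z : ∀ {p q p' q' α β γ : K}, p • u1 + q • u2 = α • g2 + β • g3 →
      p' • u1 + q' • u2 = -(α • g1) + γ • g3 → α = 0 := by
    intro p q p' q' α β γ e1 e2
    by_contra h0
    refine hi.not_in (finrank_span_pair_le u1 u2) ?_ ?_ hg
    · rw [← smul_mem_iff _ h0, show α • g1 = γ • g3 - (p' • u1 + q' • u2) by rw [e2]; ring]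
      exact sub_mem (smul_mem _ _ hg) (mem_span_pair.2 ⟨_, _, rfl⟩)
    · rw [← smul_mem_iff _ h0, show α • g2 = (p • u1 + q • u2) - β • g3 by rw [e1]; ring]
      exact sub_mem (mem_span_pair.2 ⟨_, _, rfl⟩) (smul_mem _ _ hg)
  obtain rfl := z a1 a2
  obtain rfl := z b1 b2
  obtain ⟨p1, p2, rfl⟩ := mem_span_pair.1 hg
  have y : ∀ {p q k : K}, p • u1 + q • u2 = k • (p1 • u1 + p2 • u2) → p * p2 = q * p1 := by
    intro p q k e
    have := hu (p - k * p1) (q - k * p2) (by linear_combination (norm := module) e)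
    rw [sub_eq_zero.1 this.1, sub_eq_zero.1 this.2]; ring
  refine ⟨p1, p2, ?_, y (by simpa using a1), y (by simpa using a2), y (by simpa using b1),
    y (by simpa using b2)⟩
  by_contra hp
  push Not at hp
  exact hi.i23.symm.ne (by simp [hp.1, hp.2])

lemma rows_cols {n m : Fin 4 → K} (hnm : Ind2 K n m) {p1 p2 q1 q2 : K} (hp : p1 ≠ 0 ∨ p2 ≠ 0)
    (hq : q1 ≠ 0 ∨ q2 ≠ 0) (a1 : n 0 * p2 = n 1 * p1) (a2 : n 2 * p2 = n 3 * p1)
    (a3 : m 0 * p2 = m 1 * p1) (a4 : m 2 * p2 = m 3 * p1) (b1 : n 0 * q2 = n 2 * q1)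
    (b2 : n 1 * q2 = n 3 * q1) (b3 : m 0 * q2 = m 2 * q1) (b4 : m 1 * q2 = m 3 * q1) : False := by
  have key : ∀ i : Fin 4, (∀ k : Fin 4 → K, k 0 * p2 = k 1 * p1 → k 2 * p2 = k 3 * p1 →
      k 0 * q2 = k 2 * q1 → k 1 * q2 = k 3 * q1 → k i = 0 → k = 0) → False := by
    intro i hi
    have h1 := hnm (m i) (-n i) (hi _ (by simp; linear_combination m i * a1 - n i * a3)
      (by simp; linear_combination m i * a2 - n i * a4)
      (by simp; linear_combination m i * b1 - n i * b3)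
      (by simp; linear_combination m i * b2 - n i * b4) (by simp; ring))
    exact hnm.ne (hi n a1 a2 b1 b2 (neg_eq_zero.1 h1.2))
  rcases hp with hp | hp <;> rcases hq with hq | hq
  · refine key 0 fun k c1 c2 c3 c4 c => ?_
    funext i; fin_cases i <;> simp <;> grind
  · refine key 2 fun k c1 c2 c3 c4 c => ?_
    funext i; fin_cases i <;> simp <;> grind
  · refine key 1 fun k c1 c2 c3 c4 c => ?_
    funext i; fin_cases i <;> simp <;> grind
  · refine key 3 fun k c1 c2 c3 c4 c => ?_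
    funext i; fin_cases i <;> simp <;> grind

namespace MG
variable {D : MG K F B} {κ : F → F → F} {a b c d P R : F} {y1 y2 h : B}

lemma NM.G_inj (N : NM D κ) (o : D.Od a b c d) (e : ¬ D.Edge a b) {r : B} (hr : r ∈ D.V)
    (h1 : D.ev a r = 0) (h2 : D.G κ a b r = 0) : r = 0 :=
  (Submodule.eq_bot_iff _).1 (not_not.1 e) r ⟨hr, o.G_ker N.ne h1 h2⟩

lemma NM.edge_pp (N : NM D κ) (o : D.Od P P a b) : D.Edge P b := by
  by_contra e
  have := (N.nedge_dim o.s23.s12 e).ge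
  exact N.t1 o this this

lemma TB.p211 (tb : D.TB) (N : NM D κ) (o : D.Od P P a b) (ha : P ≠ a) (hb : P ≠ b)
    (hab : a ≠ b) : False := by
  have ne : ¬ D.Edge P P := tb.gl0 N o ha ha hb hb
  obtain ⟨h, ⟨hv, hJ⟩, h0⟩ := (Submodule.ne_bot_iff _).1 (N.edge_pp o.s23)
  obtain ⟨h', ⟨hv', hJ'⟩, h0'⟩ := (Submodule.ne_bot_iff _).1 (N.edge_pp o)
  have J3 : ∀ r ∈ D.J2 P a, r ∈ D.J2 P b → r ∈ D.J3 P a b := fun r h1 h2 =>
    o.s12.s23.J2_J3 hb hab h1 (o.rd.ev_J2 (b := P) (by rwa [J2_comm]))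
  have hi : Ind2 K h h' := ind2_of h0 fun hh => h0' ((Submodule.eq_bot_iff _).1
    (tb _ _ _ _ o.s12.s23) h' ⟨hv', J3 _ ((span_singleton_le_iff_mem _ _).2 hJ hh) hJ'⟩)
  have e1 := o.ra.ev_J2 hJ
  have e1' := o.ra.ev_J2 hJ'
  have hg : Ind2 K (D.G κ P P h) (D.G κ P P h') := fun p q e => hi p q
    (N.G_inj o ne (add_mem (smul_mem _ _ hv) (smul_mem _ _ hv')) (by simp [ksm (F := F), e1, e1'])
      (by simpa using e))
  have h2 := tb.gl N o.s12 hv hJ hv' hJ' hi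
  rw [finrank_map_add _ ((D.G κ P P).restrictScalars K)] at h2
  have e2 : (K ∙ h) * D.V ^ 1 ⊓ (K ∙ h') * D.V ^ 1 ⊓
      LinearMap.ker ((D.G κ P P).restrictScalars K) = ⊥ := by
    rw [eq_bot_iff]
    rintro r ⟨⟨h1, h2⟩, h3⟩
    obtain ⟨l, -, rfl⟩ := mem_span_singleton_mul.1 h1
    obtain ⟨l', -, e⟩ := mem_span_singleton_mul.1 h2
    have := J3 (h * l) (by rw [mul_comm]; exact J2_mul _ hJ) (by rw [← e, mul_comm]; exact J2_mul _ hJ')
    rw [J3_s01, J3_s12] at this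
    exact o.J2_disj ha ha hb hb (o.G_ker N.ne (by simp [e1]) h3) (J3_le this)
  have e3 : ((K ∙ h) * D.V ^ 1 ⊓ (K ∙ h') * D.V ^ 1).map ((D.G κ P P).restrictScalars K) ≤
      K ∙ (D.G κ P P h * D.G κ P P h') := by
    rintro _ ⟨r, ⟨h1, h2⟩, rfl⟩
    obtain ⟨l, hl, rfl⟩ := mem_span_singleton_mul.1 h1
    obtain ⟨l', hl', e⟩ := mem_span_singleton_mul.1 h2
    rw [pow_one] at hl hl'
    have e4 := congrArg (D.G κ P P) e
    rw [o.G_mul, o.G_mul, e1, e1', zero_mul, zero_mul, zero_add, zero_add] at e4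
    obtain ⟨k, k1, -⟩ := D.inj.div1 (N.le o (W_of hv)) (N.le o (W_of hv')) hg (o.ra.mem l hl)
      (o.ra.mem l' hl') e4.symm
    rw [LinearMap.restrictScalars_apply, o.G_mul, e1, zero_mul, zero_add, k1, mul_smul_comm]
    exact smul_mem _ _ (mem_span_singleton_self _)
  have := (Submodule.finrank_mono e3).trans (finrank_sing_le _)
  rw [e2, finrank_bot] at h2
  omega

lemma Ed.ind3 (E : Ed D κ a b y1 y2 h) (o : D.Od a b c d) {p q r : K} {u : F}
    (e : p • y1 + q • y2 + r • h = algebraMap F B u) : p = 0 ∧ q = 0 ∧ r = 0 := by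
  have e1 := congrArg (D.G κ a b) e
  have e2 := congrArg (D.ev a) e
  simp only [map_add, lin_k, o.G_J2 E.hJ, smul_zero, add_zero, G_alg] at e1
  simp only [map_add, ksm (F := F) (B := B), map_mul, E.e1, E.e2, o.ra.ev_J2 E.hJ, mul_zero,
    add_zero, AlgHom.commutes, Algebra.algebraMap_self, RingHom.id_apply] at e2
  obtain ⟨rfl, rfl⟩ := E.ind p q e1
  rw [← e2] at e
  exact ⟨rfl, rfl, (smul_eq_zero.1 (by simpa using e)).resolve_right E.h0⟩

lemma TB.p22 (tb : D.TB) (N : NM D κ) (o : D.Od P P R R) (hPR : P ≠ R) : False := by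
  have ne : ¬ D.Edge P P := tb.gl0 N o hPR hPR hPR hPR
  have o' := o.s12.s01.s23.s12
  have ne' : ¬ D.Edge R R := tb.gl0 N o' hPR.symm hPR.symm hPR.symm hPR.symm
  obtain ⟨h, ⟨hv, hJ⟩, h0⟩ := (Submodule.ne_bot_iff _).1 (N.edge_pp o)
  obtain ⟨y1, y2, E⟩ := N.ed0 o.s12 hv hJ h0
  have eP := o.ra.ev_J2 hJ
  have eR := o.rc.ev_J2 (b := P) (r := h) (by rwa [J2_comm])
  have hu : Ind2 K (D.ev R y1) (D.ev R y2) := by
    have := E.ind
    rwa [N.G_eq o.s12 hPR, N.G_eq o.s12 hPR, E.e1, E.e2, sub_zero, sub_zero] at this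
  have hY : ∀ p q r : K, p • y1 + q • y2 + r • h ∈ D.V := fun p q r =>
    add_mem (add_mem (smul_mem _ _ E.v1) (smul_mem _ _ E.v2)) (smul_mem _ _ hv)
  have g1 : Ind3 K (D.G κ P P y1) (D.G κ P P y2) (D.G κ P P h) := fun p q r e =>
    E.ind3 o.s12 (u := 0) (by
      rw [map_zero]
      exact N.G_inj o ne (hY p q r) (by simp [ksm (F := F), E.e1, E.e2, eP]) (by simpa using e))
  have g2 : Ind3 K (D.G κ R R y1) (D.G κ R R y2) (D.G κ R R h) := fun p q r e =>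
    E.ind3 o.s12 (u := D.ev R (p • y1 + q • y2 + r • h)) (by
      rw [← sub_eq_zero]
      exact N.G_inj o' ne' (sub_mem (hY p q r) (D.le _ (o.rc.mem _ (hY p q r)))) (by simp)
        (by rw [map_sub, G_alg]; simpa using e))
  let φ := ((K ∙ h) * D.V ^ 1).mkQ ∘ₗ
    Fintype.linearCombination K ![D.Q R y1 y1, D.Q R y1 y2, D.Q R y2 y1, D.Q R y2 y2]
  have hφ : ∀ n : Fin 4 → K, φ n = ((K ∙ h) * D.V ^ 1).mkQ
      (n 0 • D.Q R y1 y1 + n 1 • D.Q R y1 y2 + n 2 • D.Q R y2 y1 + n 3 • D.Q R y2 y2) := fun n => by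
    simp [φ, Fintype.linearCombination_apply, Fin.sum_univ_four]
  have r1 : LinearMap.range φ ≤ (D.V ^ 2 ⊓ D.J2 P R).map ((K ∙ h) * D.V ^ 1).mkQ := by
    rintro _ ⟨n, rfl⟩
    rw [hφ]
    exact ⟨_, add_mem (add_mem (add_mem (smul_mem _ _ (o.s12.Q_mem E.v1 E.v1 E.e1))
      (smul_mem _ _ (o.s12.Q_mem E.v1 E.v2 E.e1))) (smul_mem _ _ (o.s12.Q_mem E.v2 E.v1 E.e2)))
      (smul_mem _ _ (o.s12.Q_mem E.v2 E.v2 E.e2)), rfl⟩
  have r2 := finrank_map_add (D.V ^ 2 ⊓ D.J2 P R) ((K ∙ h) * D.V ^ 1).mkQ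
  have r3 : D.V ^ 2 ⊓ D.J2 P R ⊓ LinearMap.ker ((K ∙ h) * D.V ^ 1).mkQ = (K ∙ h) * D.V ^ 1 := by
    rw [Submodule.ker_mkQ, inf_eq_right]
    intro r hr
    obtain ⟨l, hl, rfl⟩ := mem_span_singleton_mul.1 hr
    exact ⟨mul_pow_succ hv hl, by rw [mul_comm]; exact J2_mul _ hJ⟩
  rw [r3, tb.dim_h N o.s12 hv hJ h0 1, M1_one, (N.edge_dim o.s12 E.edge).1,
    (N.m1_edge o.s12 E.edge).1, show s 1 = 4 from rfl] at r2
  have r4 := φ.finrank_range_add_finrank_ker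
  have r5 := Submodule.finrank_mono r1
  rw [finrank_fin_fun] at r4
  have r6 : 2 ≤ finrank K (LinearMap.ker φ) := by omega
  obtain ⟨n, hn, hn0⟩ := (Submodule.ne_bot_iff (LinearMap.ker φ)).1 (fun e => by
    rw [e, finrank_bot] at r6; omega)
  obtain ⟨m, hm, hnm⟩ := exists_ind2 r6 hn0
  have key : ∀ n ∈ LinearMap.ker φ, ∃ l ∈ D.V, h * l =
      n 0 • D.Q R y1 y1 + n 1 • D.Q R y1 y2 + n 2 • D.Q R y2 y1 + n 3 • D.Q R y2 y2 := fun n hn => by
    rw [LinearMap.mem_ker, hφ, Submodule.mkQ_apply, Submodule.Quotient.mk_eq_zero, pow_one] at hn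
    exact mem_span_singleton_mul.1 hn
  have k1 : ∀ n ∈ LinearMap.ker φ, ∃ w ∈ D.U,
      D.G κ P P y1 * (n 0 • D.ev R y1 + n 1 • D.ev R y2) +
      D.G κ P P y2 * (n 2 • D.ev R y1 + n 3 • D.ev R y2) + D.G κ P P h * w = 0 := fun n hn => by
    obtain ⟨l, hl, e⟩ := key n hn
    refine ⟨D.ev P l, o.ra.mem l hl, ?_⟩
    have := congrArg (D.G κ P P) e
    simp only [map_add, lin_k, Q, o.G_mul, eP, E.e1, E.e2, map_sub, AlgHom.commutes,
      Algebra.algebraMap_self, RingHom.id_apply] at this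
    simp only [Algebra.smul_def] at this ⊢
    linear_combination this
  have k2 : ∀ n ∈ LinearMap.ker φ, ∃ w ∈ D.U,
      D.G κ R R y1 * (n 0 • D.ev R y1 + n 2 • D.ev R y2) +
      D.G κ R R y2 * (n 1 • D.ev R y1 + n 3 • D.ev R y2) + D.G κ R R h * w = 0 := fun n hn => by
    obtain ⟨l, hl, e⟩ := key n hn
    refine ⟨-D.ev R l, neg_mem (o.rc.mem l hl), ?_⟩
    have := congrArg (D.G κ R R) e
    simp only [map_add, lin_k, Q, o'.G_mul, eR, map_sub, AlgHom.commutes, G_alg,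
      Algebra.algebraMap_self, RingHom.id_apply] at this
    simp only [Algebra.smul_def] at this ⊢
    linear_combination -this
  obtain ⟨p1, p2, hp, a1, a2, a3, a4⟩ := D.inj.rows (N.le o (W_of E.v1)) (N.le o (W_of E.v2))
    (N.le o (W_of hv)) g1 (o.rc.mem _ E.v1) (o.rc.mem _ E.v2) hu hnm (k1 n hn) (k1 m hm)
  obtain ⟨q1, q2, hq, b1, b2, b3, b4⟩ := D.inj.rows (N.le o' (W_of E.v1)) (N.le o' (W_of E.v2))
    (N.le o' (W_of hv)) g2 (o.rc.mem _ E.v1) (o.rc.mem _ E.v2) hu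
    (n := ![n 0, n 2, n 1, n 3]) (m := ![m 0, m 2, m 1, m 3]) (fun p q e => hnm p q (by
      funext i; fin_cases i
      exacts [congrFun e 0, congrFun e 2, congrFun e 1, congrFun e 3])) (k2 n hn) (k2 m hm)
  exact rows_cols hnm hp hq a1 a2 a3 a4 b1 b2 b3 b4

end MG

end Pool.Agent.Lib.MP_a9ad87_al.Ch
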