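import Pool.Agent.Lib.MP_a9ad87_al.ChTB1

namespace Pool.Agent.Lib.MP_a9ad87_al.Ch

open Module Submodule

variable {K F B : Type*} [Field K] [Field F] [Algebra K F] [CommRing B] [Algebra F B]
    [Algebra K B] [IsScalarTower K F B]

lemma exists_sup_one {M : Type*} [AddCommGroup M] [Module K M] {X Y : Submodule K M}
    [FiniteDimensional K Y] (h : X ≤ Y) (hd : finrank K Y ≤ finrank K X + 1) :
    ∃ e ∈ Y, Y ≤ X ⊔ K ∙ e := by
  by_cases h1 : Y ≤ X
  · exact ⟨0, zero_mem _, h1.trans le_sup_left⟩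
  obtain ⟨e, he, he'⟩ := SetLike.not_le_iff_exists.1 h1
  have : FiniteDimensional K X := Submodule.finiteDimensional_of_le h
  have h2 : X ⊔ K ∙ e ≤ Y := sup_le h ((span_singleton_le_iff_mem _ _).2 he)
  have h3 : X < X ⊔ K ∙ e := lt_of_le_of_ne le_sup_left fun e1 =>
    he' (e1 ▸ mem_sup_right (mem_span_singleton_self e))
  have h4 := Submodule.finrank_lt_finrank_of_lt h3
  exact ⟨e, he, (Submodule.eq_of_le_of_finrank_le h2 (by omega)).ge⟩

lemma finrank_sup_le_sub {M : Type*} [AddCommGroup M] [Module K M] {X Y Z : Submodule K M}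
    [FiniteDimensional K X] [FiniteDimensional K Y] (h1 : Z ≤ X) (h2 : Z ≤ Y) :
    finrank K (X ⊔ Y : Submodule K M) + finrank K Z ≤ finrank K X + finrank K Y := by
  have := Submodule.finrank_sup_add_finrank_inf_eq X Y
  have := Submodule.finrank_mono (le_inf h1 h2)
  omega

lemma dim_two {p q : F} (hp : p ≠ 0) (hq : q ≠ 0) {X Y : Submodule K F} [FiniteDimensional K X]
    [FiniteDimensional K Y] (h1 : q ∈ X) (h2 : p ∈ Y) :
    finrank K ((K ∙ p) * X ⊔ (K ∙ q) * Y : Submodule K F) + 1 ≤ finrank K X + finrank K Y := by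
  have e2 := finrank_sup_le_sub (X := (K ∙ p) * X) (Y := (K ∙ q) * Y) (Z := K ∙ (p * q))
    ((span_singleton_le_iff_mem _ _).2 (mul_mem_mul (mem_span_singleton_self _) h1))
    ((span_singleton_le_iff_mem _ _).2
      (by rw [mul_comm p q]; exact mul_mem_mul (mem_span_singleton_self _) h2))
  rwa [finrank_sing_mul hp X, finrank_sing_mul hq Y, finrank_span_singleton (mul_ne_zero hp hq)]
    at e2

lemma pair_pow3 {Λ : Type*} [CommRing Λ] [Algebra K Λ] {U : Submodule K Λ} {a b : Λ} (ha : a ∈ U)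
    (hb : b ∈ U) : span K {a, b} ^ 3 ≤ (K ∙ a) * span K {a, b} * U ⊔ K ∙ (b * b * b) := by
  have h := pow_le_sup (V := span K {a, b}) (W := K ∙ b) (H := K ∙ a)
    (by rw [span_insert, sup_comm]) ((span_singleton_le_iff_mem _ _).2 (mem_pair_r _ _)) 2
  refine h.trans (sup_le ?_ ?_)
  · rw [Submodule.span_pow, Set.singleton_pow, show b ^ (2 + 1) = b * b * b by ring]
    exact le_sup_right
  · rw [pow_two, ← mul_assoc]
    exact le_sup_of_le_left (mul_le_mul' le_rfl (pair_le ha hb))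

lemma sup_cube {Λ : Type*} [CommRing Λ] [Algebra K Λ] {U V : Submodule K Λ} {e : Λ}
    (he : e ∈ U ^ 2) (hV : V ≤ U) :
    (V * U ⊔ K ∙ e) * ((V * U ⊔ K ∙ e) * (V * U ⊔ K ∙ e)) ≤ V ^ 3 * U ^ 3 ⊔ (K ∙ e) * U ^ 4 := by
  have h := pow_le_sup (V := V * U ⊔ K ∙ e) (W := V * U) (H := K ∙ e) le_rfl le_sup_left 2
  rw [pow_succ', pow_two] at h
  refine h.trans (sup_le_sup ?_ (mul_le_mul' le_rfl ?_))
  · rw [mul_pow]
  · have : V * U ⊔ K ∙ e ≤ U ^ 2 := sup_le (by rw [pow_two]; exact mul_le_mul' hV le_rfl)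
      ((span_singleton_le_iff_mem _ _).2 he)
    rw [show (4 : ℕ) = 2 + 2 from rfl, pow_add]
    exact mul_le_mul' this this

namespace MG
variable {D : MG K F B} {κ : F → F → F} {a b c d P A : F} {y1 y2 h : B}

variable (D) in
def Y (c : F) : Submodule K B := D.V ⊓ LinearMap.ker ((D.ev c).toLinearMap.restrictScalars K)

lemma mem_Y {y : B} (h1 : y ∈ D.V) (h2 : D.ev c y = 0) : y ∈ D.Y c := ⟨h1, h2⟩

lemma Rt.V_le (h : D.Rt c) : D.V ≤ D.U' ⊔ D.Y c := fun v hv => by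
  have := add_mem (mem_sup_left (T := D.Y c) (AS.mem_U' (h.mem v hv)))
    (mem_sup_right (mem_Y (sub_mem hv (D.le _ (h.mem v hv))) (by simp)))
  simpa using this

lemma Rt.sub_Y (h : D.Rt c) {v : B} (hv : v ∈ D.V) : v - algebraMap F B (D.ev c v) ∈ D.Y c :=
  mem_Y (sub_mem hv (D.le _ (h.mem v hv))) (by simp)

lemma mem_UU {r : B} (hr : r ∈ D.U' * D.U') : ∃ f ∈ D.U ^ 2, algebraMap F B f = r := by
  rw [AS.U', ← Submodule.map_mul, ← pow_two] at hr
  exact hr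

lemma Ed.gen3 (E : Ed D κ a b y1 y2 h) (N : NM D κ) (o : D.Od a b c d) :
    D.V ^ 3 ⊓ D.J2 a b ≤ (D.V ^ 2 ⊓ D.J2 a b) * D.V := by
  refine (E.gen N o 1).trans (sup_le ?_ ?_)
  · rw [show (1 + 1 : ℕ) = 2 from rfl, pow_two, ← mul_assoc]
    refine mul_le_mul' (Submodule.mul_le.2 fun p hp q hq => ?_) le_rfl
    obtain ⟨k, rfl⟩ := mem_span_singleton.1 hp
    exact ⟨by rw [← pow_two]; exact mul_mem_two (smul_mem _ _ E.vh) hq,
      by rw [mul_comm]; exact J2_mul _ (smul_mem _ _ E.hJ)⟩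
  · rw [pow_one]; exact mul_le_mul' (E.Qs_le N o) le_rfl

lemma Ed.gen2 (E : Ed D κ a b y1 y2 h) (N : NM D κ) (o : D.Od a b c d) :
    D.V ^ 2 ⊓ D.J2 a b ≤ (K ∙ h) * D.V ⊔ D.Qs κ a b y1 y2 := by
  simpa using E.gen N o 0

lemma Ed.M2_le (E : Ed D κ a b y1 y2 h) (N : NM D κ) (o : D.Od a b c d) {X : Submodule K F}
    (h0 : (K ∙ D.L2 κ a b c h) * D.U ≤ X) (h1 : D.W κ a c * D.W κ b c ≤ X)
    (h2 : D.L2 κ a b c (D.rho κ a b y1 y2) ∈ X) : D.M2 κ a b c 2 ≤ X := by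
  rw [M2, Submodule.map_le_iff_le_comap]
  refine (E.gen2 N o).trans (sup_le (fun r hr => ?_) ?_)
  · obtain ⟨l, hl, rfl⟩ := mem_span_singleton_mul.1 hr
    rw [mem_comap, LinearMap.restrictScalars_apply, mul_comm, o.L2_smul _ E.hJ, mul_comm]
    exact h0 (mul_mem_mul (mem_span_singleton_self _) (o.rc.mem l hl))
  · rw [Qs, span_le]
    rintro r (rfl | rfl | rfl | rfl | rfl)
    · show D.L2 κ a b c _ ∈ X
      rw [o.L2_Q y1 E.e1]; exact h1 (mul_mem_mul (W_of E.v1) (W_of E.v1))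
    · show D.L2 κ a b c _ ∈ X
      rw [o.L2_Q y2 E.e1]; exact h1 (mul_mem_mul (W_of E.v1) (W_of E.v2))
    · show D.L2 κ a b c _ ∈ X
      rw [o.L2_Q y1 E.e2]; exact h1 (mul_mem_mul (W_of E.v2) (W_of E.v1))
    · show D.L2 κ a b c _ ∈ X
      rw [o.L2_Q y2 E.e2]; exact h1 (mul_mem_mul (W_of E.v2) (W_of E.v2))
    · exact h2

lemma M2_of {i : ℕ} {r : B} (hr : r ∈ D.V ^ i ⊓ D.J2 a b) : D.L2 κ a b c r ∈ D.M2 κ a b c i :=
  ⟨r, hr, rfl⟩

lemma M3_of {i : ℕ} {r : B} (hr : r ∈ D.V ^ i ⊓ D.J3 a b c) :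
    D.L3 κ a b c d r ∈ D.M3 κ a b c d i := ⟨r, hr, rfl⟩

lemma Ed.hU (E : Ed D κ a b y1 y2 h) {u : F} (hu : u ∈ D.U) :
    algebraMap F B u * h ∈ D.V ^ 2 ⊓ D.J2 a b := ⟨mul_mem_two (D.le u hu) E.vh, J2_mul _ E.hJ⟩

lemma Ed.eta_mem (E : Ed D κ a b y1 y2 h) (N : NM D κ) (o : D.Od a b c d) :
    D.L2 κ a b c h ∈ D.U := by
  have := N.m2 o 1 (M2_of ⟨by rw [pow_one]; exact E.vh, E.hJ⟩)
  rwa [pow_one] at this

lemma Ed.etaU (E : Ed D κ a b y1 y2 h) : (K ∙ D.L2 κ a b c h) * D.U ≤ D.M2 κ a b c 2 := by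
  intro r hr
  obtain ⟨u, hu, rfl⟩ := mem_span_singleton_mul.1 hr
  rw [mul_comm, ← lin_alg]
  exact M2_of (E.hU hu)

lemma dim5 {η β : F} (hη : η ∈ D.U) (hβ : β ∈ D.U) (hi : Ind2 K η β) :
    finrank K ((K ∙ η) * D.U ⊔ K ∙ (β * β) : Submodule K F) = 5 := by
  have e := Submodule.finrank_sup_add_finrank_inf_eq ((K ∙ η) * D.U) (K ∙ (β * β))
  have e2 : (K ∙ η) * D.U ⊓ (K ∙ (β * β)) = ⊥ := by
    rw [← disjoint_iff, Submodule.disjoint_span_singleton' (mul_ne_zero hi.symm.ne hi.symm.ne)]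
    intro hm
    exact hi.notMem ((D.inj.prime1 ((span_singleton_le_iff_mem _ _).2 hη) hβ hβ hm).elim id id)
  rw [e2, finrank_bot, finrank_sing_mul hi.ne, D.inj.dimU,
    finrank_span_singleton (mul_ne_zero hi.symm.ne hi.symm.ne)] at e
  omega

lemma Ed.fl (E : Ed D κ a b y1 y2 h) (N : NM D κ) (o : D.Od a b c d) {q : B}
    (hq : q ∈ D.V ^ 2 ⊓ D.J2 a b) {η β' α β : F} (hβ' : β' ∈ D.U) (hi' : Ind2 K η β')
    (eh : D.L2 κ a b c h = η) (eq : D.L2 κ a b c q = β' * β')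
    (hM : D.M2 κ a b c 2 ≤ (K ∙ η) * D.U ⊔ K ∙ (β' * β'))
    (hσ : algebraMap F B η * q - algebraMap F B (β' * β') * h ∈
      (D.V ^ 2 ⊓ D.J2 a b) * D.Y c ⊔ (D.V ^ 2 ⊓ D.J3 a b c) * D.U')
    (hα : α ∈ D.U) (hβ : β ∈ D.U) (hi : Ind2 K α β)
    (hW : D.W κ c d * D.M2 κ a b d 2 ≤ (K ∙ α) * Submodule.span K {α, β} * D.U ⊔
      Submodule.span K {α, β} ^ 3 ⊔ D.M3 κ a b c d 2 * D.U)
    (h3 : Submodule.span K {α, β} ^ 3 ≤ D.M3 κ a b c d 3)
    (h2 : (K ∙ α) * Submodule.span K {α, β} ≤ D.M3 κ a b c d 2) : False := by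
  have hη : η ∈ D.U := eh ▸ E.eta_mem N o
  set V0 := Submodule.span K {α, β} with hV0
  have hV0U : V0 ≤ D.U := pair_le hα hβ
  obtain ⟨d2, d3, -, -⟩ := N.m1_edge o E.edge
  rw [o.dim2 N.ne, o.dim3 N.ne] at d2 d3
  have s1 : D.V ^ 2 ⊓ D.J2 a b ≤ (K ∙ h) * D.U' ⊔ (K ∙ q) ⊔ D.V ^ 2 ⊓ D.J3 a b c := by
    intro r hr
    obtain ⟨_, h1, _, h2, e⟩ := mem_sup.1 (hM (M2_of hr))
    obtain ⟨u, hu, rfl⟩ := mem_span_singleton_mul.1 h1
    obtain ⟨k, rfl⟩ := mem_span_singleton.1 h2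
    have h4 := sub_mem (sub_mem hr (E.hU hu)) (smul_mem _ k hq)
    have h5 : r - algebraMap F B u * h - k • q ∈ D.V ^ 2 ⊓ D.J3 a b c :=
      ⟨h4.1, o.L2_ker N.ne h4.2 (by rw [map_sub, map_sub, lin_alg, lin_k, eh, eq, ← e]; ring)⟩
    have := add_mem (mem_sup_left (add_mem (mem_sup_left (T := K ∙ q)
      (mul_mem_mul (mem_span_singleton_self h) (AS.mem_U' hu)))
      (mem_sup_right (smul_mem _ k (mem_span_singleton_self q))))) (mem_sup_right h5)
    convert this using 1; ring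
  have s2 : 5 ≤ finrank K (D.M2 κ a b c 2) := by
    rw [← dim5 hη hβ' hi']
    exact Submodule.finrank_mono (sup_le (eh ▸ E.etaU)
      ((span_singleton_le_iff_mem _ _).2 (eq ▸ M2_of hq)))
  have s4 : finrank K (D.M2 κ a b c 3) ≤ 13 := by
    have e1 : D.M2 κ a b c 3 ≤ (K ∙ η) * D.U ^ 2 ⊔ (K ∙ (β' * β')) * D.U := by
      rw [pow_two, ← mul_assoc, ← Submodule.sup_mul]
      refine le_trans ?_ (mul_le_mul' hM le_rfl)
      rw [M2, Submodule.map_le_iff_le_comap]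
      refine (E.gen3 N o).trans (Submodule.mul_le.2 fun r hr v hv => ?_)
      rw [mem_comap, LinearMap.restrictScalars_apply, mul_comm r v, o.L2_smul _ hr.2,
        mul_comm (D.ev c v)]
      exact mul_mem_mul (M2_of hr) (o.rc.mem v hv)
    have e2 := dim_two hi'.ne (mul_ne_zero hi'.symm.ne hi'.symm.ne) (mul_mem_two hβ' hβ') hη
    rw [D.inj.dim, D.inj.dimU, show s 2 = 10 from rfl] at e2
    have := Submodule.finrank_mono e1
    omega
  have s5 : D.M3 κ a b c d 3 ≤ D.W κ c d * D.M2 κ a b d 2 ⊔ D.M3 κ a b c d 2 * D.U := by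
    set Pm : Submodule K B := D.J3 a b c ⊓ (D.W κ c d * D.M2 κ a b d 2 ⊔
      D.M3 κ a b c d 2 * D.U).comap ((D.L3 κ a b c d).restrictScalars K)
    have p1 : (D.V ^ 2 ⊓ D.J2 a b) * D.Y c ≤ Pm := Submodule.mul_le.2 fun r hr y hy => by
      rw [mul_comm]
      refine ⟨o.rc.mul_J3 hy.2 hr.2, ?_⟩
      show D.L3 κ a b c d (y * r) ∈ D.W κ c d * D.M2 κ a b d 2 ⊔ D.M3 κ a b c d 2 * D.U
      rw [o.L3_mul hy.2 hr.2]
      exact mem_sup_left (mul_mem_mul (W_of hy.1) (M2_of hr))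
    have p2 : (D.V ^ 2 ⊓ D.J3 a b c) * D.U' ≤ Pm := Submodule.mul_le.2 fun r hr y hy => by
      obtain ⟨u, hu, rfl⟩ := hy
      rw [mul_comm]
      refine ⟨J3_mul _ hr.2, ?_⟩
      have := mem_sup_right (S := D.W κ c d * D.M2 κ a b d 2) (mul_mem_mul (M3_of (κ := κ) (d := d) hr) hu)
      rw [mul_comm _ u, ← lin_alg] at this
      exact this
    rintro _ ⟨r, hr, rfl⟩
    have e1 := mul_le_mul' le_rfl o.rc.V_le (E.gen3 N o ⟨hr.1, J3_le hr.2⟩)
    rw [Submodule.mul_sup] at e1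
    obtain ⟨r1, h1, r2, h2, rfl⟩ := mem_sup.1 e1
    have e2 := mul_le_mul' s1 le_rfl h1
    rw [Submodule.sup_mul, Submodule.sup_mul, mul_assoc] at e2
    obtain ⟨r4, h4, r3, h3, rfl⟩ := mem_sup.1 e2
    obtain ⟨r5, h5, r6, h6, rfl⟩ := mem_sup.1 h4
    obtain ⟨_, hf', rfl⟩ := mem_span_singleton_mul.1 h5
    obtain ⟨f, hf, rfl⟩ := mem_UU hf'
    obtain ⟨_, ⟨l, hl, rfl⟩, rfl⟩ := mem_span_singleton_mul.1 h6
    have e3 : h * algebraMap F B f + q * algebraMap F B l ∈ D.J3 a b c := by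
      have := sub_mem (sub_mem hr.2 (p1 h2).1) (p2 h3).1
      convert this using 1
      change _ = h * algebraMap F B f + q * algebraMap F B l + r3 + r2 - r2 - r3
      ring
    have e4 := o.L2_J3 (κ := κ) e3
    rw [map_add, mul_comm h, mul_comm q, lin_alg, lin_alg, eh, eq] at e4
    have e5 := D.inj.prime ((span_singleton_le_iff_mem _ _).2 hη) (i := 0) (j := 1) (a := l)
      (b := β' * β') (by simpa using hl) (mul_mem_two hβ' hβ') (by
        rw [show l * (β' * β') = η * (-f) by linear_combination e4]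
        exact mul_mem_mul (mem_span_singleton_self _) (neg_mem hf))
    rcases e5 with e5 | e5
    · obtain ⟨k, rfl⟩ := mem_span_singleton.1 (by simpa using e5 : l ∈ K ∙ η)
      have e6 : f = -(k • (β' * β')) := mul_right_cancel₀ hi'.ne (by
        simp only [Algebra.smul_def] at e4 ⊢; linear_combination e4)
      have e7 := add_mem (add_mem (smul_mem _ k (sup_le p1 p2 hσ)) (p2 h3)) (p1 h2)
      have e8 : h * algebraMap F B f + q * algebraMap F B (k • η) = k • (algebraMap F B η * q -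
          algebraMap F B (β' * β') * h) := by
        rw [e6]; simp only [ksm (F := F) (B := B), Algebra.smul_def, map_mul, map_neg]; ring
      rw [← e8] at e7
      exact e7.2
    · rw [pow_one] at e5
      exact absurd ((D.inj.prime1 ((span_singleton_le_iff_mem _ _).2 hη) hβ' hβ' e5).elim id id)
        hi'.notMem
  obtain ⟨e, he, hle⟩ := exists_sup_one h2 (by rw [finrank_sing_mul hi.ne, hi.dim]; omega)
  by_cases hc : e ∈ V0 * D.U
  · have e1 : D.M3 κ a b c d 3 ≤ ((K ∙ α) * V0 * D.U ⊔ (K ∙ e) * D.U) ⊔ K ∙ (β * β * β) := by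
      have e2 : D.M3 κ a b c d 2 * D.U ≤ (K ∙ α) * V0 * D.U ⊔ (K ∙ e) * D.U := by
        rw [← Submodule.sup_mul]; exact mul_le_mul' hle le_rfl
      refine s5.trans (sup_le (hW.trans (sup_le (sup_le ?_ ?_) ?_)) ?_)
      · exact le_sup_of_le_left le_sup_left
      · exact (pair_pow3 hα hβ).trans (sup_le_sup_right le_sup_left _)
      · exact le_sup_of_le_left e2
      · exact le_sup_of_le_left e2
    have e3 := (Submodule.finrank_mono e1).trans (Submodule.finrank_add_le_finrank_add_finrank _ _)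
    have e4 := finrank_sing_le (K := K) (β * β * β)
    have e5 : finrank K ((K ∙ α) * V0 * D.U : Submodule K F) = 7 := by
      have := D.inj.dim_lin hV0U 1
      rw [hi.dim, pow_one, show s (1 + 1) = 10 from rfl] at this
      rw [mul_assoc, finrank_sing_mul hi.ne]
      simp only [Nat.reduceSub, Nat.reduceAdd, Nat.choose] at this
      unfold AS.U; omega
    by_cases he0 : e = 0
    · rw [he0, span_zero_singleton, Submodule.bot_mul, sup_bot_eq] at e3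
      omega
    · have e6 := dim_two hi.ne he0 hc hα
      rw [← mul_assoc, D.inj.dimU] at e6
      rw [mul_assoc, finrank_sing_mul hi.ne] at e5
      omega
  · have e1 := D.inj.dfq hV0U hi.dim (N.m3 o 2 he) hc
    refine N.no_df o (k := 6) ?_ ((e1.mul D.inj (e1.mul D.inj e1)).weak (by omega))
    refine (sup_cube (N.m3 o 2 he) hV0U).trans (sup_le ?_ ?_)
    · exact (mul_le_mul' h3 le_rfl).trans M3_cl
    · exact (mul_le_mul' ((span_singleton_le_iff_mem _ _).2 he) le_rfl).trans M3_cl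

end MG

end Pool.Agent.Lib.MP_a9ad87_al.Ch
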