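import Pool.Agent.Lib.MP_a9ad87_al.ChTB2

namespace Pool.Agent.Lib.MP_a9ad87_al.Ch

open Module Submodule

variable {K F B : Type*} [Field K] [Field F] [Algebra K F] [CommRing B] [Algebra F B]
    [Algebra K B] [IsScalarTower K F B]

lemma Inj.disj_pow {x : Fin 4 → F} (h : Inj K x) {V W : Submodule K F} (hV : V ≤ UU K x)
    (hW : W ≤ UU K x) (hd : W ⊓ V = ⊥) (j : ℕ) : W ^ (j + 1) ⊓ V * UU K x ^ j = ⊥ := by
  have : FiniteDimensional K W := Submodule.finiteDimensional_of_le hW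
  obtain ⟨Z, p, hp⟩ := h.prj hV
  have e1 := finrank_map_add W (p 1)
  have e2 : W ⊓ LinearMap.ker (p 1) = ⊥ := by
    rw [eq_bot_iff, ← hd]; exact fun u hu => ⟨hu.1, (hp.ker u (hW hu.1)).1 hu.2⟩
  rw [e2, finrank_bot, add_zero] at e1
  have e3 : W.map (p 1) ≤ UU K x := by
    rintro _ ⟨u, hu, rfl⟩
    exact hp.le (by simpa using hp.mem 1 u (by simpa using hW hu))
  have e4 := Submodule.finrank_mono (hp.map_pow hW (j + 1))
  have e5 := finrank_map_add (W ^ (j + 1)) (p (j + 1))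
  rw [h.dimW e3, ← e1, ← h.dimW hW] at e4
  have e6 : W ^ (j + 1) ⊓ LinearMap.ker (p (j + 1)) = ⊥ := Submodule.finrank_eq_zero.1 (by omega)
  rw [eq_bot_iff, ← e6]
  exact fun r hr => ⟨hr.1, hp.kill hV hr.2⟩

lemma pair_sq {Λ : Type*} [CommRing Λ] [Algebra K Λ] {U : Submodule K Λ} {a b : Λ} (ha : a ∈ U)
    (hb : b ∈ U) : span K {a, b} * span K {a, b} ≤ (K ∙ a) * U ⊔ K ∙ (b * b) := by
  have h := pow_le_sup (V := span K {a, b}) (W := K ∙ b) (H := K ∙ a)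
    (by rw [span_insert, sup_comm]) ((span_singleton_le_iff_mem _ _).2 (mem_pair_r _ _)) 1
  rw [← pow_two]
  refine h.trans (sup_le ?_ ?_)
  · rw [Submodule.span_pow, Set.singleton_pow, show b ^ (1 + 1) = b * b by ring]
    exact le_sup_right
  · rw [pow_one]
    exact le_sup_of_le_left (mul_le_mul' le_rfl (pair_le ha hb))

lemma sing_le {M : Type*} [AddCommGroup M] [Module K M] {X : Submodule K M} {a : M} (h : a ∈ X) :
    (K ∙ a) ≤ X := (span_singleton_le_iff_mem _ _).2 h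

lemma finrank_lt_sup {M : Type*} [AddCommGroup M] [Module K M] {X Y : Submodule K M}
    [FiniteDimensional K Y] {c : M} (h : X ≤ Y) (hc : c ∈ Y) (hc' : c ∉ X) :
    finrank K X + 1 ≤ finrank K Y :=
  Submodule.finrank_lt_finrank_of_lt (lt_of_le_of_ne h fun e => hc' (e ▸ hc))

namespace MG
variable {D : MG K F B} {κ : F → F → F} {a b c d P A : F} {y1 y2 h : B}

lemma Od.etaW (o : D.Od a b c d) (hv : h ∈ D.V) (hJ : h ∈ D.J2 a b) :
    (K ∙ D.L2 κ a b d h) * D.W κ c d ≤ D.M3 κ a b c d 2 := by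
  rw [mul_comm]
  exact (mul_le_mul' le_rfl (sing_le (M2_of ⟨by rwa [pow_one], hJ⟩))).trans (o.WM_le 1)

lemma NM.J3_of (N : NM D κ) (o : D.Od a b c d) {i : ℕ} {r : B} (hr : r ∈ D.V ^ i ⊓ D.J2 a b)
    (e : D.L2 κ a b c r = 0) : r ∈ D.V ^ i ⊓ D.J3 a b c := ⟨hr.1, o.L2_ker N.ne hr.2 e⟩

lemma Od.yy (o : D.Od a b c d) {y z : B} (hy : y ∈ D.V) (hz : z ∈ D.V) (e : D.ev a y = 0)
    (e' : D.ev b z = 0) : y * z ∈ D.V ^ 2 ⊓ D.J2 a b := ⟨mul_mem_two hy hz, o.ra.mul_J2 o.rb e e'⟩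

lemma TB.p4 (tb : D.TB) (N : NM D κ) (o : D.Od P P P P) : False := by
  have e := N.edge_pp o
  obtain ⟨h, ⟨hv, hJ⟩, h0⟩ := (Submodule.ne_bot_iff _).1 e
  have η0 := tb.L2_ne N o hv hJ h0
  obtain ⟨d2, -, -, -⟩ := N.m1_edge o e
  rw [o.dim2 N.ne, o.dim3 N.ne] at d2
  have hW2 := (N.edge_dim o e).1
  have m3 := Submodule.finrank_mono (o.etaW (κ := κ) hv hJ)
  rw [finrank_sing_mul η0, hW2] at m3
  have hη : D.L2 κ P P P h ∈ D.W κ P P := by
    by_contra hc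
    obtain ⟨y1, y2, E⟩ := N.ed0 o hv hJ h0
    have e1 := D.inj.disj_pow (sing_le (E.eta_mem N o)) (N.le o)
      (by rwa [← disjoint_iff, Submodule.disjoint_span_singleton' η0]) 1
    have e2 := Submodule.finrank_sup_add_finrank_inf_eq (D.W κ P P ^ (1 + 1))
      ((K ∙ D.L2 κ P P P h) * D.U ^ 1)
    rw [e1, finrank_bot, finrank_sing_mul η0, D.inj.dim, D.inj.dimW (N.le o), hW2] at e2
    have e3 := Submodule.finrank_mono (sup_le (show D.W κ P P ^ (1 + 1) ≤ D.M2 κ P P P 2 by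
      rw [pow_succ, pow_one]; exact o.WW_le) (show (K ∙ D.L2 κ P P P h) * D.U ^ 1 ≤ _ by
      rw [pow_one]; exact E.etaU))
    simp only [Nat.reduceAdd, Nat.reduceSub, Nat.choose, show s 1 = 4 from rfl] at e2 e3
    omega
  obtain ⟨y1, v1, e1, g1⟩ := o.ra.W_mem hη
  obtain ⟨y2, E⟩ := N.ed1 o hv hJ h0 v1 e1 (by rwa [g1])
  have hWe := E.W_eq N o
  have hi := E.ind
  have hρ := E.rho_mem N o
  have hM := @E.M2_le _ _ _ _ _ _ _ _ _ _ _ _ _ _ P P _ _ _ N o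
  have hU := E.etaU (c := P)
  rw [← g1] at hM hU
  set α := D.G κ P P y1 with hα
  set β := D.G κ P P y2 with hβ
  have hαU : α ∈ D.U := N.le o (W_of E.v1)
  have hβU : β ∈ D.U := N.le o (W_of E.v2)
  have q11 := o.yy v1 v1 e1 e1
  have q12 := o.yy v1 E.v2 e1 E.e2
  have q22 := o.yy E.v2 E.v2 E.e2 E.e2
  have j11 : y1 * y1 - algebraMap F B α * h ∈ D.V ^ 2 ⊓ D.J3 P P P :=
    N.J3_of o (sub_mem q11 (E.hU hαU)) (by rw [map_sub, lin_alg, o.L2_mul e1 e1, ← g1]; ring)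
  have j12 : y1 * y2 - algebraMap F B β * h ∈ D.V ^ 2 ⊓ D.J3 P P P :=
    N.J3_of o (sub_mem q12 (E.hU hβU)) (by rw [map_sub, lin_alg, o.L2_mul e1 E.e2, ← g1]; ring)
  have h2 : (K ∙ α) * Submodule.span K {α, β} ≤ D.M3 κ P P P P 2 := by
    rw [← hWe, g1]; exact o.etaW hv hJ
  by_cases hc : D.L2 κ P P P (D.rho κ P P y1 y2) ∈ (K ∙ α) * D.U ⊔ K ∙ (β * β)
  · have hM' := hM le_sup_left (by rw [hWe]; exact pair_sq hαU hβU) hc
    refine E.fl N o q22 hβU hi g1.symm (o.L2_mul E.e2 E.e2) hM' ?_ hαU hβU hi ?_ ?_ h2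
    · have := add_mem (mem_sup_left (mul_mem_mul hρ (mem_Y E.v2 E.e2)))
        (mem_sup_right (mul_mem_mul j12 (AS.mem_U' hβU)))
      convert this using 1
      simp only [rho, ← hα, ← hβ, map_mul]; ring
    · refine (mul_le_mul' hWe.le hM').trans ?_
      rw [Submodule.mul_sup, ← mul_assoc, mul_comm _ (K ∙ α)]
      refine le_sup_of_le_left (sup_le_sup_left ?_ _)
      rw [pow_succ', pow_two]
      exact mul_le_mul' le_rfl (sing_le (mul_mem_mul (mem_pair_r _ _) (mem_pair_r _ _)))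
    · rw [← hWe, pow_succ', pow_two]; exact o.WWW_le
  · have e2 := finrank_lt_sup (sup_le hU (sing_le (o.L2_mul (κ := κ) E.e2 E.e2 ▸ M2_of q22)))
      (M2_of hρ) hc
    rw [dim5 hαU hβU hi] at e2
    have e3 := Submodule.eq_of_le_of_finrank_le h2 (by rw [finrank_sing_mul hi.ne, hi.dim]; omega)
    obtain ⟨w1, hw1, f1⟩ := mem_span_singleton_mul.1 (e3.ge (M3_of j11))
    obtain ⟨w2, hw2, f2⟩ := mem_span_singleton_mul.1 (e3.ge (M3_of j12))
    have e4 : algebraMap F B β * (y1 * y1 - algebraMap F B α * h) -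
        algebraMap F B α * (y1 * y2 - algebraMap F B β * h) = -(y1 * D.rho κ P P y1 y2) := by
      simp only [rho, ← hα, ← hβ]; ring
    have e5 := congrArg (D.L3 κ P P P P) e4
    rw [map_sub, lin_alg, lin_alg, map_neg, o.L3_mul e1 hρ.2, ← f1, ← f2, ← hα] at e5
    apply hc
    rw [show D.L2 κ P P P (D.rho κ P P y1 y2) = α * w2 - β * w1 from
      mul_left_cancel₀ hi.ne (by linear_combination e5)]
    exact sub_mem (pair_sq hαU hβU (mul_mem_mul (mem_pair_l _ _) hw2))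
      (pair_sq hαU hβU (mul_mem_mul (mem_pair_r _ _) hw1))

lemma TB.p31a (tb : D.TB) (N : NM D κ) (o : D.Od P P P A) (hPA : P ≠ A) :
    ∃ h y1, h ∈ D.V ∧ h ∈ D.J2 P P ∧ h ≠ 0 ∧ y1 ∈ D.V ∧ y1 ∈ D.J2 P A ∧
      D.L2 κ P P P h = D.G κ P P y1 ∧ D.W κ A P = D.W κ P P := by
  have eA := N.edge_pp o
  have o1 : D.Od P A P P := o.s23.s12
  have eP := tb.b1 N o1 eA
  obtain ⟨h, ⟨hv, hJ⟩, h0⟩ := (Submodule.ne_bot_iff _).1 eP
  obtain ⟨h', ⟨hv', hJ'⟩, h0'⟩ := (Submodule.ne_bot_iff _).1 eA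
  have eA' : ∀ r ∈ D.J2 P A, D.ev A r = 0 := fun r hr =>
    o.rd.ev_J2 (b := P) (by rwa [J2_comm])
  have J3 : ∀ r ∈ D.J2 P P, r ∈ D.J2 P A → r ∈ D.J3 P P A := fun r h1 h2 =>
    o.s23.J2_J3 hPA hPA h1 (eA' r h2)
  have nJ : h' ∉ D.J2 P P := fun hh =>
    h0' ((Submodule.eq_bot_iff _).1 (tb _ _ _ _ o.s23) h' ⟨hv', J3 _ hh hJ'⟩)
  have hi : Ind2 K h h' := ind2_of h0 fun hh => nJ (sing_le hJ hh)
  have e1' := o.ra.ev_J2 hJ'
  have a0 : D.G κ P P h' ≠ 0 := fun e => nJ (o.G_ker N.ne e1' e)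
  have η0 := tb.L2_ne N o hv hJ h0
  have w0 : D.ev A h ≠ 0 := by
    have := tb.L2_ne N o.s23 hv hJ h0
    rwa [N.L2_eq o.s23 hPA hPA hJ] at this
  have h2 := tb.gl N o hv hJ hv' hJ' hi
  rw [finrank_map_add _ ((D.L2 κ P P P).restrictScalars K)] at h2
  have hJJ : ∀ r ∈ (K ∙ h) * D.V ^ 1 ⊓ (K ∙ h') * D.V ^ 1, r ∈ D.J3 P P A := by
    rintro r ⟨h1, h2⟩
    obtain ⟨l, -, rfl⟩ := mem_span_singleton_mul.1 h1
    obtain ⟨l', -, e⟩ := mem_span_singleton_mul.1 h2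
    exact J3 (h * l) (by rw [mul_comm]; exact J2_mul _ hJ) (by rw [← e, mul_comm]; exact J2_mul _ hJ')
  have e2 : (K ∙ h) * D.V ^ 1 ⊓ (K ∙ h') * D.V ^ 1 ⊓
      LinearMap.ker ((D.L2 κ P P P).restrictScalars K) = ⊥ := by
    rw [eq_bot_iff]
    rintro r ⟨h1, h3⟩
    exact o.s23.L3_ker N.ne (hJJ r h1) (by rw [N.L3_L2 o.s23 hPA.symm (hJJ r h1)]; exact h3)
  rw [e2, finrank_bot, add_zero] at h2
  have e3 : ((K ∙ h) * D.V ^ 1 ⊓ (K ∙ h') * D.V ^ 1).map ((D.L2 κ P P P).restrictScalars K) ≤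
      (K ∙ D.L2 κ P P P h) * D.W κ A P := by
    rintro _ ⟨r, hr, rfl⟩
    have e0 := hJJ r hr
    rw [J3_s12, J3_s01] at e0
    have e4 := o.rd.ev_J2 (J3_le e0)
    obtain ⟨l, hl, rfl⟩ := mem_span_singleton_mul.1 hr.1
    rw [pow_one] at hl
    rw [map_mul, mul_eq_zero, or_iff_right w0] at e4
    rw [LinearMap.restrictScalars_apply, mul_comm h, o.L2_smul _ hJ, mul_comm (D.ev P l)]
    refine mul_mem_mul (mem_span_singleton_self _) ?_
    have := W_of (κ := κ) (a := A) (b := P) hl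
    rwa [N.G_eq o1.s01 hPA.symm, e4, sub_zero] at this
  have e4 : ((K ∙ h) * D.V ^ 1 ⊓ (K ∙ h') * D.V ^ 1).map ((D.L2 κ P P P).restrictScalars K) ≤
      (K ∙ D.G κ P P h') * D.W κ P P := by
    rintro _ ⟨r, hr, rfl⟩
    have e4 := o.G_J2 (κ := κ) (J3_le (hJJ r hr))
    obtain ⟨l, hl, rfl⟩ := mem_span_singleton_mul.1 hr.2
    rw [pow_one] at hl
    rw [o.G_mul, e1', zero_mul, zero_add, mul_eq_zero, or_iff_right a0] at e4
    rw [LinearMap.restrictScalars_apply, o.L2_mul e1' e4]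
    exact mul_mem_mul (mem_span_singleton_self _) (W_of hl)
  have dA := (N.edge_dim o1.s01 eA.symm).1
  have dP := (N.edge_dim o eP).1
  have e5 : (K ∙ D.L2 κ P P P h) * D.W κ A P = (K ∙ D.G κ P P h') * D.W κ P P := by
    rw [← Submodule.eq_of_le_of_finrank_le e3 (by rw [finrank_sing_mul η0]; omega),
      ← Submodule.eq_of_le_of_finrank_le e4 (by rw [finrank_sing_mul a0]; omega)]
  have hη : D.L2 κ P P P h ∈ D.U := by
    simpa using N.m2 o 1 (M2_of ⟨by rwa [pow_one], hJ⟩)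
  have ha : D.G κ P P h' ∈ D.U := N.le o (W_of hv')
  obtain ⟨k, hk⟩ : ∃ k : K, k • D.L2 κ P P P h = D.G κ P P h' := by
    by_contra hc
    have hi2 := ind2_of η0 (fun hh => hc (mem_span_singleton.1 hh))
    have : D.W κ A P ≤ K ∙ D.G κ P P h' := fun w hw => by
      obtain ⟨w', hw', e⟩ := mem_span_singleton_mul.1
        (e5.le (mul_mem_mul (mem_span_singleton_self _) hw))
      obtain ⟨c, rfl, -⟩ := D.inj.div1 hη ha hi2 (N.le o1.s01 hw) (N.le o hw') e.symm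
      exact smul_mem _ _ (mem_span_singleton_self _)
    have := (Submodule.finrank_mono this).trans (finrank_sing_le _)
    omega
  have hk0 : k ≠ 0 := by rintro rfl; exact a0 (by rw [← hk, zero_smul])
  refine ⟨k • h, h', smul_mem _ _ hv, smul_mem _ _ hJ, smul_ne_zero hk0 h0, hv', hJ',
    by rw [lin_k, hk], Submodule.eq_of_le_of_finrank_le (fun w hw => ?_) (by omega)⟩
  obtain ⟨w', hw', e⟩ := mem_span_singleton_mul.1
    (e5.le (mul_mem_mul (smul_mem _ k (mem_span_singleton_self _)) hw))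
  rw [hk] at e
  rwa [← mul_left_cancel₀ a0 e]

lemma TB.p31 (tb : D.TB) (N : NM D κ) (o : D.Od P P P A) (hPA : P ≠ A) : False := by
  obtain ⟨h, y1, hv, hJ, h0, v1, hJ', g1, hW⟩ := tb.p31a N o hPA
  have o1 : D.Od P A P P := o.s23.s12
  have η0 := tb.L2_ne N o hv hJ h0
  have e1 := o.ra.ev_J2 hJ'
  have eP := o.ra.ev_J2 hJ
  have e1A : D.ev A y1 = 0 := o.rd.ev_J2 (b := P) (by rwa [J2_comm])
  obtain ⟨y2, E⟩ := N.ed1 o hv hJ h0 v1 e1 (by rwa [← g1])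
  have hWe := E.W_eq N o
  have hi := E.ind
  have hρ := E.rho_mem N o
  have hM := @E.M2_le _ _ _ _ _ _ _ _ _ _ _ _ _ _ P A _ _ _ N o
  have gA : ∀ r, D.G κ P A r = D.ev A r - D.ev P r := N.G_eq o1 hPA
  have hW' : D.W κ P P ≤ D.W κ P A := by
    rw [← hW]
    rintro _ ⟨v, hv, rfl⟩
    have := neg_mem (W_of (κ := κ) (a := P) (b := A) hv)
    rwa [gA, neg_sub, ← N.G_eq o1.s01 hPA.symm] at this
  have hWA : D.W κ P A ≤ Submodule.span K {D.ev A h, D.ev A y2} := by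
    refine (E.G_le N o P A).trans (sup_le (pair_le ?_ ?_) (sing_le ?_))
    · rw [gA, e1, e1A, sub_zero]; exact zero_mem _
    · rw [gA, E.e2, sub_zero]; exact mem_pair_r _ _
    · rw [gA, eP, sub_zero]; exact mem_pair_l _ _
  have hi' := ind2_of_le hWA (N.two o1)
  obtain ⟨t, s, hts⟩ := mem_span_pair.1 (hWA (hW' (W_of v1)))
  rw [g1] at hM
  have hρA : D.ev A (D.rho κ P P y1 y2) = D.G κ P P y1 * D.ev A y2 := by simp [rho, e1A]
  have eρ : D.L2 κ P P P (D.rho κ P P y1 y2 - s • (y2 * y2) - t • (y2 * h)) =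
      D.L2 κ P P P (D.rho κ P P y1 y2) - s • (D.G κ P P y2 * D.G κ P P y2) := by
    rw [map_sub, map_sub, lin_k, lin_k, o.L2_mul E.e2 E.e2, o.L2_smul _ hJ, E.e2]; simp
  set α := D.G κ P P y1 with hα
  set β := D.G κ P P y2 with hβ
  have hαU : α ∈ D.U := N.le o (W_of E.v1)
  have hβU : β ∈ D.U := N.le o (W_of E.v2)
  have h2U := o.rd.mem _ E.v2
  have h3U := o.rd.mem _ hv
  have q22 := o.yy E.v2 E.v2 E.e2 E.e2
  have l1 := N.L2_eq o.s23 hPA hPA hJ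
  have hj : D.rho κ P P y1 y2 - s • (y2 * y2) - t • (y2 * h) ∈ D.V ^ 2 ⊓ D.J3 P P A := by
    have := sub_mem (sub_mem hρ (smul_mem _ s q22)) (smul_mem _ t (o.yy E.v2 hv E.e2 eP))
    refine ⟨this.1, o.s23.J2_J3 hPA hPA this.2 ?_⟩
    simp only [map_sub, hρA, ksm (F := F) (B := B), map_mul, AlgHom.commutes, ← hts,
      Algebra.algebraMap_self, RingHom.id_apply, Algebra.smul_def]
    ring
  refine E.fl N o.s23 q22 h2U hi' l1 (by rw [N.L2_eq o.s23 hPA hPA q22.2, map_mul]) ?_ ?_ hαU hβU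
    hi ?_ ?_ ?_
  · refine E.M2_le N o.s23 (by rw [l1]; exact le_sup_left)
      ((mul_le_mul' hWA hWA).trans (pair_sq h3U h2U)) ?_
    rw [N.L2_eq o.s23 hPA hPA hρ.2, hρA]
    exact pair_sq h3U h2U (mul_mem_mul (hWA (hW' (W_of v1))) (mem_pair_r _ _))
  · have b1 : h * (y2 + algebraMap F B (D.ev A y2)) ∈ D.V ^ 2 ⊓ D.J2 P P :=
      ⟨mul_mem_two hv (add_mem E.v2 (D.le _ h2U)), by rw [mul_comm]; exact J2_mul _ hJ⟩
    have := mem_sup_left (T := (D.V ^ 2 ⊓ D.J3 P P A) * D.U')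
      (sub_mem (mul_mem_mul b1 (o.rd.sub_Y E.v2)) (mul_mem_mul q22 (o.rd.sub_Y hv)))
    convert this using 1
    simp only [map_mul]; ring
  · have hM' := hM (X := ((K ∙ α) * D.U ⊔ K ∙ (β * β)) ⊔ D.M3 κ P P A P 2)
      (le_sup_of_le_left le_sup_left)
      (le_sup_of_le_left (by rw [hWe]; exact pair_sq hαU hβU)) (by
        have := M3_of (κ := κ) (d := P) hj
        rw [N.L3_L2 o.s23 hPA.symm hj.2, eρ] at this
        simpa using add_mem (mem_sup_left (mem_sup_right (S := (K ∙ α) * D.U)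
          (smul_mem _ s (mem_span_singleton_self (β * β))))) (mem_sup_right this))
    rw [hW]
    refine (mul_le_mul' hWe.le hM').trans ?_
    rw [Submodule.mul_sup, Submodule.mul_sup, ← mul_assoc, mul_comm _ (K ∙ α),
      mul_comm _ (D.M3 κ P P A P 2)]
    refine sup_le_sup (sup_le_sup_left ?_ _) (mul_le_mul' le_rfl (pair_le hαU hβU))
    rw [pow_succ', pow_two]
    exact mul_le_mul' le_rfl (sing_le (mul_mem_mul (mem_pair_r _ _) (mem_pair_r _ _)))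
  · rw [← hWe, pow_succ', pow_two]
    have := o.s23.WWW_le (κ := κ)
    rwa [hW] at this
  · rw [← hWe, ← g1, ← hW]; exact o.s23.etaW hv hJ

lemma TB.p1111 (tb : D.TB) (N : NM D κ) (o : D.Od a b c d) (hab : a ≠ b) (hac : a ≠ c)
    (had : a ≠ d) (hbc : b ≠ c) (hbd : b ≠ d) (hcd : c ≠ d) : False := by
  refine N.t1 o (N.nedge_dim o.s23.s12 ?_).ge (N.nedge_dim o.s23.s01.s12 ?_).ge
  · exact tb.gl0 N o.s23.s12 hab hbd.symm hac hcd.symm
  · exact tb.gl0 N o.s23.s01.s12 hab.symm had.symm hbc hcd.symm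

lemma TB.p2 (tb : D.TB) (N : NM D κ) (o : D.Od P P c d) : False := by
  by_cases h1 : P = c
  · subst h1
    by_cases h2 : P = d
    · subst h2; exact tb.p4 N o
    · exact tb.p31 N o h2
  by_cases h2 : P = d
  · subst h2; exact tb.p31 N o.s23 h1
  by_cases h3 : c = d
  · subst h3; exact tb.p22 N o h1
  · exact tb.p211 N o h1 h2 h3

theorem TB.false (tb : D.TB) (N : NM D κ) (o : D.Od a b c d) : False := by
  refine tb.p1111 N o ?_ ?_ ?_ ?_ ?_ ?_ <;> rintro rfl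
  exacts [tb.p2 N o, tb.p2 N o.s12, tb.p2 N o.s23.s12, tb.p2 N o.s01.s12,
    tb.p2 N o.s23.s01.s12, tb.p2 N o.s12.s01.s23.s12]

end MG

end Pool.Agent.Lib.MP_a9ad87_al.Ch
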