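import Pool.Agent.Lib.MP_a9ad87_al.ChLM

namespace Pool.Agent.Lib.MP_a9ad87_al.Ch

open MvPolynomial Module Submodule

/-- number of monomials of degree `i` in four variables -/
def s (i : ℕ) : ℕ := (i + 3).choose 3

lemma six_s (i : ℕ) : 6 * s i = (i + 1) * (i + 2) * (i + 3) := by
  induction i with
  | zero => rfl
  | succ i ih =>
    have h1 : s (i + 1) = (i + 3).choose 2 + s i := by
      unfold s; rw [show i + 1 + 3 = (i + 3) + 1 from rfl, Nat.choose_succ_succ]
    have h2 : 2 * (i + 3).choose 2 = (i + 3) * (i + 2) := by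
      rw [Nat.choose_two_right, show i + 3 - 1 = i + 2 from rfl,
        Nat.mul_div_cancel' (by simpa [mul_comm] using (Nat.even_mul_succ_self (i + 2)).two_dvd)]
    nlinarith

lemma s_mono {i j : ℕ} (h : i ≤ j) : s i ≤ s j := Nat.choose_le_choose 3 (by omega)

lemma s_second (m g : ℕ) : s (m + 2 * g) + s m = 2 * s (m + g) + g ^ 2 * (m + g + 2) := by
  have h1 := six_s (m + 2 * g)
  have h2 := six_s m
  have h3 := six_s (m + g)
  nlinarith

lemma hc_top {σ R : Type*} [CommSemiring R] {p q : MvPolynomial σ R} {a b : ℕ}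
    (hp : p.totalDegree ≤ a) (hq : q.totalDegree ≤ b) :
    homogeneousComponent (a + b) (p * q) = homogeneousComponent a p * homogeneousComponent b q := by
  classical
  ext d
  rw [coeff_homogeneousComponent, coeff_mul, coeff_mul]
  have key : ∀ (r : MvPolynomial σ R) (c : ℕ), r.totalDegree ≤ c → ∀ u : σ →₀ ℕ, c < u.degree →
      coeff u r = 0 := fun r c hr u hu => by
    apply coeff_eq_zero_of_totalDegree_lt
    exact lt_of_le_of_lt hr hu
  split_ifs with h
  · refine Finset.sum_congr rfl fun u hu => ?_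
    have h1 : u.1.degree + u.2.degree = a + b := by
      rw [← map_add, Finset.HasAntidiagonal.mem_antidiagonal.1 hu, h]
    rw [coeff_homogeneousComponent, coeff_homogeneousComponent]
    by_cases h2 : u.1.degree = a
    · rw [if_pos h2, if_pos (by omega)]
    · rw [if_neg h2, zero_mul]
      rcases lt_or_gt_of_ne h2 with h3 | h3
      · rw [key q b hq u.2 (by omega), mul_zero]
      · rw [key p a hp u.1 h3, zero_mul]
  · symm
    refine Finset.sum_eq_zero fun u hu => ?_
    have h1 : u.1.degree + u.2.degree = d.degree := by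
      rw [← map_add, Finset.HasAntidiagonal.mem_antidiagonal.1 hu]
    rw [coeff_homogeneousComponent, coeff_homogeneousComponent]
    split_ifs with h2 h3
    · omega
    all_goals simp

variable {K : Type*} [Field K] {n : ℕ}

lemma top_fac {G p q : MvPolynomial (Fin n) K} {g : ℕ} (hG : G ∈ Hm n K g) (h0 : G ≠ 0)
    (h : G = p * q) : p.totalDegree ≤ g ∧ ∃ q' ∈ Hm n K (g - p.totalDegree),
      G = homogeneousComponent p.totalDegree p * q' := by
  have hp : p ≠ 0 := by rintro rfl; simp at h; exact h0 h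
  have hq : q ≠ 0 := by rintro rfl; simp at h; exact h0 h
  have h1 : g = p.totalDegree + q.totalDegree := by
    rw [← totalDegree_mul_of_isDomain hp hq, ← h, IsHomogeneous.totalDegree hG h0]
  refine ⟨by omega, homogeneousComponent q.totalDegree q, ?_, ?_⟩
  · rw [show g - p.totalDegree = q.totalDegree by omega]
    exact homogeneousComponent_isHomogeneous _ _
  · rw [← hc_top le_rfl le_rfl, ← h, ← h1, homogeneousComponent_eq_self hG]

lemma quo_hom {N G q : MvPolynomial (Fin n) K} {k g : ℕ} (hN : N ∈ Hm n K k) (hG : G ∈ Hm n K g)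
    (h0 : N ≠ 0) (h : N = G * q) : g ≤ k ∧ ∃ q' ∈ Hm n K (k - g), N = G * q' := by
  have hG0 : G ≠ 0 := by rintro rfl; simp at h; exact h0 h
  have := top_fac hN h0 h
  rwa [IsHomogeneous.totalDegree hG hG0, homogeneousComponent_eq_self hG] at this

lemma prime_deg {p : MvPolynomial (Fin n) K} (hp : Prime p) : 1 ≤ p.totalDegree := by
  by_contra h
  have h1 : p.totalDegree = 0 := by omega
  have h2 := totalDegree_eq_zero_iff_eq_C.1 h1
  apply hp.not_isUnit
  rw [h2]
  refine IsUnit.map C (IsUnit.mk0 _ fun h3 => hp.ne_zero ?_)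
  rw [h2, h3, map_zero]

lemma finrank_mul_le {Λ : Type*} [CommRing Λ] [Algebra K Λ] (X Y : Submodule K Λ)
    [FiniteDimensional K X] [FiniteDimensional K Y] :
    finrank K (X * Y : Submodule K Λ) ≤ finrank K X * finrank K Y := by
  rw [← Submodule.mulMap_range, ← Module.finrank_tensorProduct]
  exact LinearMap.finrank_range_le _

instance fin_mul {Λ : Type*} [CommRing Λ] [Algebra K Λ] (X Y : Submodule K Λ)
    [FiniteDimensional K X] [FiniteDimensional K Y] :
    FiniteDimensional K (X * Y : Submodule K Λ) := by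
  rw [← Submodule.mulMap_range]; infer_instance

instance fin_pow {Λ : Type*} [CommRing Λ] [Algebra K Λ] (X : Submodule K Λ)
    [FiniteDimensional K X] (j : ℕ) : FiniteDimensional K (X ^ j : Submodule K Λ) := by
  induction j with
  | zero => rw [pow_zero, Submodule.one_eq_span]; infer_instance
  | succ j ih => rw [pow_succ]; infer_instance

lemma finrank_sing_mul {Λ : Type*} [CommRing Λ] [IsDomain Λ] [Algebra K Λ] {a : Λ} (ha : a ≠ 0)
    (X : Submodule K Λ) : finrank K ((K ∙ a) * X : Submodule K Λ) = finrank K X := by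
  have : ((K ∙ a) * X : Submodule K Λ) = X.map (LinearMap.mulLeft K a) := by
    ext r; simp [Submodule.mem_span_singleton_mul]
  rw [this]
  exact (LinearEquiv.finrank_eq (Submodule.equivMapOfInjective _ (mul_right_injective₀ ha) X)).symm

lemma mul_pow_mem {Λ : Type*} [CommRing Λ] [Algebra K Λ] {U : Submodule K Λ} {i j : ℕ} {a b : Λ}
    (ha : a ∈ U ^ i) (hb : b ∈ U ^ j) : a * b ∈ U ^ (i + j) := by
  rw [pow_add]; exact mul_mem_mul ha hb

lemma mul_pow_succ {Λ : Type*} [CommRing Λ] [Algebra K Λ] {U : Submodule K Λ} {j : ℕ} {a b : Λ}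
    (ha : a ∈ U) (hb : b ∈ U ^ j) : a * b ∈ U ^ (j + 1) := by
  rw [pow_succ']; exact mul_mem_mul ha hb

lemma mul_mem_two {Λ : Type*} [CommRing Λ] [Algebra K Λ] {U : Submodule K Λ} {a b : Λ}
    (ha : a ∈ U) (hb : b ∈ U) : a * b ∈ U ^ 2 := by
  rw [pow_two]; exact mul_mem_mul ha hb

lemma finrank_mul_sub {Λ : Type*} [CommRing Λ] [Algebra K Λ] (V X Y : Submodule K Λ)
    [FiniteDimensional K V] [FiniteDimensional K X] (h : Y ≤ X) :
    finrank K (V * X : Submodule K Λ) ≤ finrank K (V * Y : Submodule K Λ) +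
      finrank K V * (finrank K X - finrank K Y) := by
  have : FiniteDimensional K Y := Submodule.finiteDimensional_of_le h
  obtain ⟨Z, hZ⟩ := (Y.comap X.subtype).exists_isCompl
  have h1 : X = Y ⊔ Z.map X.subtype := by
    conv_lhs => rw [← Submodule.map_subtype_top X, ← hZ.sup_eq_top, Submodule.map_sup,
      Submodule.map_comap_subtype, inf_eq_right.2 h]
  have h2 := Submodule.finrank_add_eq_of_isCompl hZ
  rw [← Submodule.finrank_map_subtype_eq X (Y.comap X.subtype), Submodule.map_comap_subtype,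
    inf_eq_right.2 h, ← Submodule.finrank_map_subtype_eq X Z] at h2
  have h3 : finrank K X - finrank K Y = finrank K (Z.map X.subtype) := by omega
  rw [h3]
  calc finrank K (V * X : Submodule K Λ)
      = finrank K (V * Y ⊔ V * Z.map X.subtype : Submodule K Λ) := by
        rw [← Submodule.mul_sup, ← h1]
    _ ≤ _ := (Submodule.finrank_add_le_finrank_add_finrank _ _).trans
        (Nat.add_le_add_left (finrank_mul_le _ _) _)

variable {F : Type*} [Field F] [Algebra K F]

variable (K) in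
/-- span of the four coordinates -/
def UU (x : Fin 4 → F) : Submodule K F := span K (Set.range x)

instance finUU (x : Fin 4 → F) : FiniteDimensional K (UU K x) :=
  FiniteDimensional.span_of_finite K (Set.finite_range x)

variable (K) in
/-- projective independence of the coordinates -/
def Inj (x : Fin 4 → F) : Prop := ∀ i, ∀ f ∈ Hm 4 K i, aeval x f = 0 → f = 0

variable {x : Fin 4 → F}

lemma mem_Upow {i : ℕ} {a : F} : a ∈ UU K x ^ i ↔ ∃ f ∈ Hm 4 K i, aeval x f = a := by
  rw [UU, ← map_Hm]; rfl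

lemma aeval_mem {i : ℕ} {f : MvPolynomial (Fin 4) K} (hf : f ∈ Hm 4 K i) :
    aeval x f ∈ UU K x ^ i := mem_Upow.2 ⟨f, hf, rfl⟩

lemma mem_U {a : F} : a ∈ UU K x ↔ ∃ f ∈ Hm 4 K 1, aeval x f = a := by
  rw [← mem_Upow, pow_one]

lemma Inj.eq (h : Inj K x) {i : ℕ} {f g : MvPolynomial (Fin 4) K} (hf : f ∈ Hm 4 K i)
    (hg : g ∈ Hm 4 K i) (e : aeval x f = aeval x g) : f = g :=
  sub_eq_zero.1 (h i _ (sub_mem hf hg) (by rw [map_sub, e, sub_self]))

lemma Inj.ne (h : Inj K x) {i : ℕ} {f : MvPolynomial (Fin 4) K} (hf : f ∈ Hm 4 K i)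
    (h0 : f ≠ 0) : aeval x f ≠ 0 := fun e => h0 (h i f hf e)

lemma Inj.dim (h : Inj K x) (i : ℕ) : finrank K (UU K x ^ i : Submodule K F) = s i := by
  have e := finrank_map_add (Hm 4 K i) (aeval x : MvPolynomial (Fin 4) K →ₐ[K] F).toLinearMap
  have e2 : Hm 4 K i ⊓ LinearMap.ker (aeval x : MvPolynomial (Fin 4) K →ₐ[K] F).toLinearMap = ⊥ := by
    rw [eq_bot_iff]; exact fun f hf => h i f hf.1 hf.2
  rw [map_Hm, e2, finrank_bot, finrank_Hm] at e
  rw [UU, ← Nat.add_zero (finrank _ _), ← e, s, show 4 + i - 1 = i + 3 by omega]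
  exact Nat.choose_symm_add

lemma Inj.dimU (h : Inj K x) : finrank K (UU K x) = 4 := by
  have := h.dim 1
  rw [pow_one] at this; exact this

lemma Inj.spec (h : Inj K x) {Λ : Type*} [CommRing Λ] [Algebra K Λ] (π : F →ₗ[K] Λ) :
    ∃ p : ℕ → F →ₗ[K] Λ, (∀ u ∈ UU K x, p 1 u = π u) ∧ p 0 1 = 1 ∧
      ∀ i j, ∀ a ∈ UU K x ^ i, ∀ b ∈ UU K x ^ j, p (i + j) (a * b) = p i a * p j b := by
  have h1 : ∀ i, ∃ p : F →ₗ[K] Λ, ∀ f ∈ Hm 4 K i, p (aeval x f) = aeval (fun k => π (x k)) f := by
    intro i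
    let δ := (aeval x : MvPolynomial (Fin 4) K →ₐ[K] F).toLinearMap ∘ₗ (Hm 4 K i).subtype
    have hδ : LinearMap.ker δ = ⊥ := by
      rw [eq_bot_iff]; exact fun f hf => Subtype.ext (h i f.1 f.2 hf)
    obtain ⟨g, hg⟩ := δ.exists_leftInverse_of_injective hδ
    refine ⟨(aeval fun k => π (x k) : MvPolynomial (Fin 4) K →ₐ[K] Λ).toLinearMap ∘ₗ
      (Hm 4 K i).subtype ∘ₗ g, fun f hf => ?_⟩
    have := LinearMap.congr_fun hg ⟨f, hf⟩
    simp only [δ, LinearMap.comp_apply, Submodule.subtype_apply, AlgHom.toLinearMap_apply,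
      LinearMap.id_apply] at this ⊢
    rw [this]
  choose p hp using h1
  refine ⟨p, fun u hu => ?_, by simpa using hp 0 1 (isHomogeneous_one _ _), ?_⟩
  · induction hu using Submodule.span_induction with
    | mem u hu =>
      obtain ⟨k, rfl⟩ := hu
      simpa using hp 1 (X k) (isHomogeneous_X K k)
    | zero => simp
    | add u v _ _ h1 h2 => rw [map_add, map_add, h1, h2]
    | smul c u _ h1 => rw [map_smul, map_smul, h1]
  · intro i j a ha b hb
    obtain ⟨f, hf, rfl⟩ := mem_Upow.1 ha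
    obtain ⟨g, hg, rfl⟩ := mem_Upow.1 hb
    rw [← map_mul, hp _ _ (IsHomogeneous.mul hf hg), hp _ _ hf, hp _ _ hg, map_mul]

lemma Inj.dimW (h : Inj K x) {W : Submodule K F} (hW : W ≤ UU K x) (j : ℕ) :
    finrank K (W ^ j : Submodule K F) = (finrank K W + j - 1).choose j := by
  have : FiniteDimensional K W := Submodule.finiteDimensional_of_le hW
  set r := finrank K W
  let b := Module.finBasis K W
  let w : Fin r → F := fun a => b a
  have hw : span K (Set.range w) = W := by
    have := congrArg (Submodule.map W.subtype) b.span_eq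
    rwa [Submodule.map_span, ← Set.range_comp, Submodule.map_subtype_top] at this
  obtain ⟨π, hπ⟩ := LinearMap.exists_extend
    (b.constr K fun a => (X a : MvPolynomial (Fin r) K))
  have hπ' : ∀ a, π (w a) = X a := fun a => by
    have := LinearMap.congr_fun hπ (b a)
    simpa using this
  obtain ⟨p, h1, h0, hm⟩ := h.spec π
  have key : ∀ j, ∀ f ∈ Hm r K j, p j (aeval w f) = f := by
    intro j f hf
    rw [Hm, ← homogeneousSubmodule_one_pow] at hf
    induction hf using Submodule.pow_induction_on_left' with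
    | algebraMap c => rw [AlgHom.commutes, Algebra.algebraMap_eq_smul_one, map_smul, h0,
        Algebra.algebraMap_eq_smul_one]
    | add f g i _ _ h1 h2 => rw [map_add, map_add, h1, h2]
    | mem_mul m hm' i f hf ih =>
      have e1 : aeval w m ∈ W := by
        have : aeval w m ∈ (span K (Set.range w)) ^ 1 := by rw [← map_Hm]; exact ⟨m, hm', rfl⟩
        rwa [pow_one, hw] at this
      have e2 : aeval w f ∈ UU K x ^ i := by
        have : aeval w f ∈ (span K (Set.range w)) ^ i := by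
          rw [← map_Hm]; exact ⟨f, by rwa [Hm, ← homogeneousSubmodule_one_pow], rfl⟩
        rw [hw] at this
        exact pow_le_pow_left' hW i this
      rw [map_mul, Nat.succ_eq_add_one, add_comm, hm 1 i _ (by rw [pow_one]; exact hW e1) _ e2, ih,
        h1 _ (hW e1)]
      congr 1
      rw [homogeneousSubmodule_one_eq_span_X] at hm'
      clear e1
      induction hm' using Submodule.span_induction with
      | mem u hu => obtain ⟨k, rfl⟩ := hu; simpa using hπ' k
      | zero => simp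
      | add u v _ _ h1 h2 => rw [map_add, map_add, h1, h2]
      | smul c u _ h1 => rw [map_smul, map_smul, h1]
  have e := finrank_map_add (Hm r K j) (aeval w : MvPolynomial (Fin r) K →ₐ[K] F).toLinearMap
  have e2 : Hm r K j ⊓ LinearMap.ker (aeval w : MvPolynomial (Fin r) K →ₐ[K] F).toLinearMap = ⊥ := by
    rw [eq_bot_iff]
    intro f hf
    have h3 : aeval w f = 0 := hf.2
    have := key j f hf.1
    rw [h3, map_zero] at this
    exact this.symm
  rw [map_Hm, e2, finrank_bot, finrank_Hm, hw] at e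
  omega

/-- projection along a space of linear forms -/
structure Prj (x : Fin 4 → F) (V W : Submodule K F) (p : ℕ → F →ₗ[K] F) : Prop where
  le : W ≤ UU K x
  dim : finrank K V + finrank K W = 4
  mul : ∀ i j, ∀ a ∈ UU K x ^ i, ∀ b ∈ UU K x ^ j, p (i + j) (a * b) = p i a * p j b
  ker : ∀ u ∈ UU K x, p 1 u = 0 ↔ u ∈ V
  sub : ∀ j, ∀ a ∈ UU K x ^ (j + 1), a - p (j + 1) a ∈ V * UU K x ^ j
  mem : ∀ j, ∀ a ∈ UU K x ^ j, p j a ∈ W ^ j
  one : p 0 1 = 1
  onto : ∀ w ∈ W, ∃ u ∈ UU K x, p 1 u = w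

lemma Inj.prj (h : Inj K x) {V : Submodule K F} (hV : V ≤ UU K x) : ∃ W p, Prj x V W p := by
  have : FiniteDimensional K V := Submodule.finiteDimensional_of_le hV
  obtain ⟨Z, hZ⟩ := V.exists_isCompl
  let π : F →ₗ[K] F := Z.subtype ∘ₗ Z.projectionOnto V hZ.symm
  have hπ1 : ∀ u, u - π u ∈ V := fun u => by
    have := Submodule.projection_add_projection_eq_self hZ u
    rw [sub_eq_iff_eq_add.2 (show u = V.projection Z hZ u + π u from this.symm)]
    exact Submodule.projection_apply_mem hZ u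
  have hπ2 : ∀ u, π u = 0 ↔ u ∈ V := fun u => by
    constructor
    · intro h; simpa [h] using hπ1 u
    · intro h; simp [π, Submodule.projectionOnto_apply_of_mem_right hZ.symm h]
  obtain ⟨p, h1, h0, hm⟩ := h.spec π
  have hW : (UU K x).map π ≤ UU K x := by
    rintro _ ⟨u, hu, rfl⟩
    have := sub_mem hu (hV (hπ1 u))
    simpa using this
  have hmem : ∀ j, ∀ a ∈ UU K x ^ j, p j a ∈ (UU K x).map π ^ j := by
    intro j a ha
    induction ha using Submodule.pow_induction_on_left' with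
    | algebraMap c =>
      rw [Algebra.algebraMap_eq_smul_one, map_smul, h0, pow_zero]
      exact smul_mem _ _ (one_le.1 le_rfl)
    | add f g i _ _ h1 h2 => rw [map_add]; exact add_mem h1 h2
    | mem_mul m hm' i f hf ih =>
      rw [Nat.succ_eq_add_one, add_comm, hm 1 i _ (by rwa [pow_one]) _ hf, add_comm, h1 _ hm']
      exact mul_pow_succ ⟨m, hm', rfl⟩ ih
  refine ⟨(UU K x).map π, p, hW, ?_, hm, fun u hu => by rw [h1 u hu, hπ2], ?_, hmem, h0,
    fun _ ⟨u, hu, e⟩ => ⟨u, hu, by rw [h1 u hu, e]⟩⟩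
  · have e := finrank_map_add (UU K x) π
    have e2 : UU K x ⊓ LinearMap.ker π = V := by
      ext u
      exact ⟨fun hu => (hπ2 u).1 hu.2, fun hu => ⟨hV hu, (hπ2 u).2 hu⟩⟩
    rw [e2, h.dimU] at e
    omega
  · intro j
    induction j with
    | zero =>
      intro a ha
      rw [zero_add, pow_one] at ha
      rw [pow_zero, mul_one, zero_add, h1 a ha]; exact hπ1 a
    | succ j ih =>
      intro a ha
      rw [pow_succ'] at ha
      refine Submodule.mul_induction_on ha (fun u hu b hb => ?_) (fun a b h1 h2 => ?_)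
      · rw [add_comm (j + 1) 1, hm 1 (j + 1) u (by rwa [pow_one]) b hb, h1 u hu]
        have e : u * b - π u * p (j + 1) b = (u - π u) * b + π u * (b - p (j + 1) b) := by ring
        rw [e]
        refine add_mem (mul_mem_mul (hπ1 u) hb) ?_
        have := mul_mem_mul (hW ⟨u, hu, rfl⟩) (ih b hb)
        rwa [mul_left_comm, ← pow_succ'] at this
      · rw [map_add, add_sub_add_comm]; exact add_mem h1 h2

lemma Prj.kill {V W : Submodule K F} {p : ℕ → F →ₗ[K] F} (h : Prj x V W p) (hV : V ≤ UU K x)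
    {j : ℕ} {a : F} (ha : a ∈ V * UU K x ^ j) : p (j + 1) a = 0 := by
  refine Submodule.mul_induction_on ha (fun u hu b hb => ?_) (fun a b h1 h2 => ?_)
  · rw [add_comm, h.mul 1 j u (by rw [pow_one]; exact hV hu) b hb, (h.ker u (hV hu)).2 hu, zero_mul]
  · rw [map_add, h1, h2, add_zero]

lemma Prj.zero_iff {V W : Submodule K F} {p : ℕ → F →ₗ[K] F} (h : Prj x V W p) (hV : V ≤ UU K x)
    {j : ℕ} {a : F} (ha : a ∈ UU K x ^ (j + 1)) : p (j + 1) a = 0 ↔ a ∈ V * UU K x ^ j :=
  ⟨fun e => by simpa [e] using h.sub j a ha, h.kill hV⟩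

lemma Prj.map_pow {V W : Submodule K F} {p : ℕ → F →ₗ[K] F} (h : Prj x V W p) {X : Submodule K F}
    (hX : X ≤ UU K x) (j : ℕ) : (X.map (p 1)) ^ j ≤ (X ^ j).map (p j) := by
  induction j with
  | zero =>
    rw [pow_zero, pow_zero, Submodule.one_le]
    exact ⟨1, one_le.1 le_rfl, h.one⟩
  | succ j ih =>
    rw [pow_succ', Submodule.mul_le]
    rintro _ ⟨u, hu, rfl⟩ b' hb'
    obtain ⟨b, hb, rfl⟩ := ih hb'
    refine ⟨u * b, mul_pow_succ hu hb, ?_⟩
    rw [add_comm, h.mul 1 j u (by rw [pow_one]; exact hX hu) b (pow_le_pow_left' hX j hb)]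

lemma Inj.dim_lin (h : Inj K x) {V : Submodule K F} (hV : V ≤ UU K x) (j : ℕ) :
    finrank K (V * UU K x ^ j : Submodule K F) + (4 - finrank K V + j).choose (j + 1) =
      s (j + 1) := by
  obtain ⟨W, p, hp⟩ := h.prj hV
  have e := finrank_map_add (UU K x ^ (j + 1)) (p (j + 1))
  have e1 : UU K x ^ (j + 1) ⊓ LinearMap.ker (p (j + 1)) = V * UU K x ^ j := by
    ext a
    exact ⟨fun ha => (hp.zero_iff hV ha.1).1 ha.2, fun ha =>
      ⟨by rw [pow_succ']; exact mul_le_mul' hV le_rfl ha, hp.kill hV ha⟩⟩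
  have e2 : (UU K x ^ (j + 1)).map (p (j + 1)) = W ^ (j + 1) := by
    apply le_antisymm
    · rintro _ ⟨a, ha, rfl⟩; exact hp.mem _ a ha
    · refine le_trans (pow_le_pow_left' (fun w hw => ?_) _) (hp.map_pow le_rfl _)
      exact hp.onto w hw
  rw [e1, e2, h.dim, h.dimW hp.le] at e
  have := hp.dim
  rw [show 4 - finrank K V + j = finrank K W + (j + 1) - 1 by omega]
  omega

/-- the ideal generated by linear forms is prime -/
lemma Inj.prime (h : Inj K x) {V : Submodule K F} (hV : V ≤ UU K x) {i j : ℕ} {a b : F}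
    (ha : a ∈ UU K x ^ (i + 1)) (hb : b ∈ UU K x ^ (j + 1))
    (hab : a * b ∈ V * UU K x ^ (i + j + 1)) : a ∈ V * UU K x ^ i ∨ b ∈ V * UU K x ^ j := by
  obtain ⟨W, p, hp⟩ := h.prj hV
  have := hp.kill hV hab
  rw [show i + j + 1 + 1 = (i + 1) + (j + 1) by ring, hp.mul _ _ a ha b hb, mul_eq_zero,
    hp.zero_iff hV ha, hp.zero_iff hV hb] at this
  exact this

lemma Inj.prime1 (h : Inj K x) {V : Submodule K F} (hV : V ≤ UU K x) {a b : F}
    (ha : a ∈ UU K x) (hb : b ∈ UU K x) (hab : a * b ∈ V * UU K x) : a ∈ V ∨ b ∈ V := by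
  have := h.prime hV (i := 0) (j := 0) (a := a) (b := b) (by simpa using ha) (by simpa using hb)
    (by simpa using hab)
  simpa using this

variable (K) in
/-- linear independence of two elements -/
def Ind2 {M : Type*} [AddCommGroup M] [Module K M] (a b : M) : Prop :=
  ∀ c d : K, c • a + d • b = 0 → c = 0 ∧ d = 0

section ind
variable {M : Type*} [AddCommGroup M] [Module K M] {a b : M}

lemma Ind2.symm (h : Ind2 K a b) : Ind2 K b a :=
  fun c d e => (h d c (by rwa [add_comm])).symm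

lemma Ind2.ne (h : Ind2 K a b) : a ≠ 0 := by
  rintro rfl
  exact one_ne_zero (h 1 0 (by simp)).1

lemma Ind2.notMem (h : Ind2 K a b) : b ∉ K ∙ a := by
  intro hb
  obtain ⟨c, rfl⟩ := mem_span_singleton.1 hb
  have := (h c (-1) (by simp)).2
  simp at this

lemma ind2_of (ha : a ≠ 0) (hb : b ∉ K ∙ a) : Ind2 K a b := by
  intro c d e
  have hd : d = 0 := by
    by_contra hd
    apply hb
    refine mem_span_singleton.2 ⟨-(d⁻¹ * c), ?_⟩
    have : b = d⁻¹ • (d • b) := by rw [smul_smul, inv_mul_cancel₀ hd, one_smul]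
    rw [this, eq_neg_of_add_eq_zero_right e, smul_neg, smul_smul, neg_smul]
  rw [hd, zero_smul, add_zero] at e
  exact ⟨(smul_eq_zero.1 e).resolve_right ha, hd⟩

lemma Ind2.dim (h : Ind2 K a b) : finrank K (span K {a, b}) = 2 := by
  have h1 : LinearIndependent K ![a, b] := LinearIndependent.pair_iff.2 h
  have := finrank_span_eq_card h1
  rwa [Matrix.range_cons, Matrix.range_cons, Matrix.range_empty, Set.union_empty,
    Set.singleton_union, Fintype.card_fin] at this

lemma exists_ind2 {V : Submodule K M} [FiniteDimensional K V] (h : 2 ≤ finrank K V)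
    (h0 : a ≠ 0) : ∃ b ∈ V, Ind2 K a b := by
  by_contra hc
  push Not at hc
  have : V ≤ K ∙ a := fun b hb => by
    by_contra hb'
    exact hc b hb (ind2_of h0 hb')
  have := Submodule.finrank_mono this
  rw [finrank_span_singleton h0] at this
  omega

lemma eq_span2 {V : Submodule K M} [FiniteDimensional K V] (h : finrank K V ≤ 2) (ha : a ∈ V)
    (hb : b ∈ V) (hab : Ind2 K a b) : V = span K {a, b} := by
  symm
  apply Submodule.eq_of_le_of_finrank_le
  · rw [span_le]; rintro u (rfl | rfl) <;> assumption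
  · rw [hab.dim]; exact h

end ind

lemma Inj.div (h : Inj K x) {a b f g : F} {k : ℕ} (ha : a ∈ UU K x) (hb : b ∈ UU K x)
    (hab : Ind2 K a b) (hg : g ∈ UU K x ^ (k + 1)) (e : a * f = b * g) (hf : f ∈ UU K x ^ (k + 1)) :
    ∃ m ∈ UU K x ^ k, f = b * m ∧ g = a * m := by
  have hV : (K ∙ a) ≤ UU K x := by rwa [span_singleton_le_iff_mem]
  have := h.prime hV (i := 0) (j := k) (a := b) (b := g) (by simpa using hb) hg
    (by rw [← e, zero_add]; exact mul_mem_mul (mem_span_singleton_self a) hf)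
  rcases this with h1 | h1
  · exact absurd (by simpa using h1) hab.notMem
  · obtain ⟨m, hm, rfl⟩ := mem_span_singleton_mul.1 h1
    refine ⟨m, hm, mul_left_cancel₀ hab.ne ?_, rfl⟩
    rw [e]; ring

lemma mem_pow_zero {Λ : Type*} [CommRing Λ] [Algebra K Λ] {U : Submodule K Λ} {a : Λ} :
    a ∈ U ^ 0 ↔ ∃ c : K, a = algebraMap K Λ c := by
  rw [pow_zero, mem_one]; exact ⟨fun ⟨c, h⟩ => ⟨c, h.symm⟩, fun ⟨c, h⟩ => ⟨c, h.symm⟩⟩

lemma Inj.div1 (h : Inj K x) {a b f g : F} (ha : a ∈ UU K x) (hb : b ∈ UU K x)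
    (hab : Ind2 K a b) (hf : f ∈ UU K x) (hg : g ∈ UU K x) (e : a * f = b * g) :
    ∃ c : K, f = c • b ∧ g = c • a := by
  obtain ⟨m, hm, h1, h2⟩ := h.div (k := 0) ha hb hab (by simpa using hg) e (by simpa using hf)
  obtain ⟨c, rfl⟩ := mem_pow_zero.1 hm
  exact ⟨c, by rw [h1, Algebra.smul_def, mul_comm], by rw [h2, Algebra.smul_def, mul_comm]⟩

end Pool.Agent.Lib.MP_a9ad87_al.Ch
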