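import Pool.Agent.Lib.MP_a9ad87_al.ChDer

namespace Pool.Agent.Lib.MP_a9ad87_al.Ch

open MvPolynomial Module Submodule

variable {K : Type*} [Field K] {F : Type*} [Field F] [Algebra K F] {x : Fin 4 → F}

/-- fractions of degree zero whose denominator is prime to `p` -/
def Op (x : Fin 4 → F) {p : MvPolynomial (Fin 4) K} (hp : Prime p) : Subalgebra K F where
  carrier := {φ | ∃ k, ∃ D ∈ Hm 4 K k, ¬ p ∣ D ∧ φ * aeval x D ∈ UU K x ^ k}
  mul_mem' := by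
    rintro a b ⟨k, D, h1, h2, h3⟩ ⟨k', D', h1', h2', h3'⟩
    refine ⟨k + k', D * D', IsHomogeneous.mul h1 h1', fun h => (hp.dvd_or_dvd h).elim h2 h2', ?_⟩
    rw [map_mul, mul_mul_mul_comm]; exact mul_pow_mem h3 h3'
  add_mem' := by
    rintro a b ⟨k, D, h1, h2, h3⟩ ⟨k', D', h1', h2', h3'⟩
    refine ⟨k + k', D * D', IsHomogeneous.mul h1 h1', fun h => (hp.dvd_or_dvd h).elim h2 h2', ?_⟩
    rw [map_mul, show (a + b) * (aeval x D * aeval x D') =
      a * aeval x D * aeval x D' + aeval x D * (b * aeval x D') by ring]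
    exact add_mem (mul_pow_mem h3 (aeval_mem h1')) (mul_pow_mem (aeval_mem h1) h3')
  algebraMap_mem' c := ⟨0, 1, isHomogeneous_one _ _, hp.not_dvd_one, by
    rw [map_one, mul_one]; exact mem_pow_zero.2 ⟨c, rfl⟩⟩

lemma mem_Op {p : MvPolynomial (Fin 4) K} {hp : Prime p} {φ : F} : φ ∈ Op x hp ↔
    ∃ k, ∃ D ∈ Hm 4 K k, ¬ p ∣ D ∧ φ * aeval x D ∈ UU K x ^ k := Iff.rfl

lemma Inj.cancel (h : Inj K x) {p D N : MvPolynomial (Fin 4) K} {a b : ℕ} {φ : F} (hφ : φ ≠ 0)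
    (hD : D ∈ Hm 4 K a) (hN : N ∈ Hm 4 K b) (h0 : D ≠ 0) (e : aeval x N = φ * aeval x D)
    (h1 : p ∣ D) (h2 : p ∣ N) : p.totalDegree ≤ a ∧ p.totalDegree ≤ b ∧
      ∃ D' ∈ Hm 4 K (a - p.totalDegree), D' ≠ 0 ∧ φ * aeval x D' ∈ UU K x ^ (b - p.totalDegree) := by
  obtain ⟨q, hq⟩ := h1
  obtain ⟨q', hq'⟩ := h2
  have hD0 := h.ne hD h0
  obtain ⟨a1, D', a2, a3⟩ := top_fac hD h0 hq
  obtain ⟨b1, N', b2, b3⟩ := top_fac hN (by
    rintro rfl; exact mul_ne_zero hφ hD0 (by simpa using e.symm)) hq'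
  refine ⟨a1, b1, D', a2, by rintro rfl; exact h0 (by simpa using a3), ?_⟩
  rw [a3, map_mul] at hD0
  rw [a3, b3, map_mul, map_mul, mul_left_comm] at e
  rw [← mul_left_cancel₀ (left_ne_zero_of_mul hD0) e]
  exact aeval_mem b2

lemma Inj.val (h : Inj K x) (hf : Frc K x) {p : MvPolynomial (Fin 4) K} (hp : Prime p) (φ : F) :
    φ ∈ Op x hp ∨ φ⁻¹ ∈ Op x hp := by
  classical
  by_cases hφ : φ = 0
  · left; rw [hφ]; exact zero_mem _
  obtain ⟨D, hD, h0, h1⟩ := Nat.find_spec (hf φ)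
  obtain ⟨N, hN, e⟩ := mem_Upow.1 h1
  by_cases a1 : p ∣ D
  · refine Or.inr ⟨_, N, hN, fun a2 => ?_, by
      rw [e, inv_mul_cancel_left₀ hφ]; exact aeval_mem hD⟩
    obtain ⟨b1, -, b2⟩ := h.cancel hφ hD hN h0 e a1 a2
    have := prime_deg hp
    exact Nat.find_min (hf φ) (by omega) b2
  · exact Or.inl ⟨_, D, hD, a1, h1⟩

lemma Inj.loc (h : Inj K x) {φ : F} (hφ : φ ≠ 0) {e i : ℕ} (hei : e = 0 ∨ i = 0)
    (H : ∀ p : MvPolynomial (Fin 4) K, Prime p →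
      ∃ k, ∃ G ∈ Hm 4 K (k + e), ¬ p ∣ G ∧ φ * aeval x G ∈ UU K x ^ (k + i)) :
    e = 0 ∧ φ ∈ UU K x ^ i := by
  classical
  have hex : ∃ k, ∃ G ∈ Hm 4 K (k + e), G ≠ 0 ∧ φ * aeval x G ∈ UU K x ^ (k + i) := by
    obtain ⟨k, G, h1, h2, h3⟩ := H (X 0) X_prime
    exact ⟨k, G, h1, by rintro rfl; exact h2 (dvd_zero _), h3⟩
  obtain ⟨D, hD, h0, h1⟩ := Nat.find_spec hex
  obtain ⟨N, hN, eN⟩ := mem_Upow.1 h1
  have hu : IsUnit D := by
    by_contra hu
    obtain ⟨p, hp, hpD⟩ := WfDvdMonoid.exists_irreducible_factor hu h0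
    obtain ⟨k, G, a1, a2, a3⟩ := H p hp.prime
    obtain ⟨N', hN', eN'⟩ := mem_Upow.1 a3
    have e2 : N * G = N' * D := h.eq (IsHomogeneous.mul hN a1)
      (by rw [show Nat.find hex + i + (k + e) = k + i + (Nat.find hex + e) by ring]
          exact IsHomogeneous.mul hN' hD)
      (by rw [map_mul, map_mul, eN, eN']; ring)
    have a4 : p ∣ N := (hp.prime.dvd_or_dvd (e2 ▸ hpD.mul_left N')).resolve_right a2
    obtain ⟨b1, b2, b3⟩ := h.cancel hφ hD hN h0 eN hpD a4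
    have := prime_deg hp.prime
    apply Nat.find_min hex (m := Nat.find hex - p.totalDegree) (by omega)
    rwa [show Nat.find hex - p.totalDegree + e = Nat.find hex + e - p.totalDegree by omega,
      show Nat.find hex - p.totalDegree + i = Nat.find hex + i - p.totalDegree by omega]
  have h3 := totalDegree_le_of_dvd_of_isDomain hu.dvd one_ne_zero
  rw [IsHomogeneous.totalDegree hD h0, totalDegree_one] at h3
  rw [show Nat.find hex + e = 0 by omega] at hD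
  obtain ⟨c, rfl⟩ := hom0 hD
  rw [show Nat.find hex + i = i by omega, aeval_C, mul_comm, ← Algebra.smul_def] at h1
  exact ⟨by omega, (smul_mem_iff _ (by rintro rfl; simp at h0)).1 h1⟩

lemma Inj.ell (h : Inj K x) {p : MvPolynomial (Fin 4) K} (hp : Prime p) :
    ∃ l ∈ UU K x, l ≠ 0 ∧ (∀ k, ∀ u ∈ UU K x ^ k, u / l ^ k ∈ Op x hp) ∧
      ∀ k φ, φ / l ^ k ∈ Op x hp → ∃ j, ∃ G ∈ Hm 4 K (j + 0), ¬ p ∣ G ∧
        φ * aeval x G ∈ UU K x ^ (j + k) := by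
  obtain ⟨G, h1, h2, h3⟩ := h.primU.ex p hp
  have h0 := h.ne h1 (by rintro rfl; exact h3 (dvd_zero _))
  refine ⟨_, h2, h0, fun k u hu => ⟨k, G ^ k, by simpa using IsHomogeneous.pow h1 k,
    fun h => h3 (hp.dvd_of_dvd_pow h), by rwa [map_pow, div_mul_cancel₀ _ (pow_ne_zero k h0)]⟩, ?_⟩
  rintro k φ ⟨j, D, a1, a2, a3⟩
  refine ⟨j, D, a1, a2, ?_⟩
  have := mul_pow_mem a3 (pow_mem_pow _ h2 k)
  rwa [mul_right_comm, div_mul_cancel₀ _ (pow_ne_zero k h0)] at this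

lemma prod_mem_pow {Λ ι : Type*} [CommRing Λ] [Algebra K Λ] {U : Submodule K Λ} (t : Finset ι)
    {f : ι → Λ} {n : ι → ℕ} (h : ∀ a, f a ∈ U ^ n a) : ∏ a ∈ t, f a ∈ U ^ (∑ a ∈ t, n a) := by
  classical
  induction t using Finset.induction_on with
  | empty => exact mem_pow_zero.2 ⟨1, by simp⟩
  | insert a t ha ih => rw [Finset.prod_insert ha, Finset.sum_insert ha]; exact mul_pow_mem (h a) ih

lemma det_mem_pow {ι : Type*} [Fintype ι] [DecidableEq ι] {U : Submodule K F} {M : Matrix ι ι F}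
    {n : ι → ℕ} (h : ∀ a b, M a b ∈ U ^ (n a + n b)) : M.det ∈ U ^ (2 * ∑ a, n a) := by
  rw [Matrix.det_apply]
  refine sum_mem fun σ _ => ?_
  have := prod_mem_pow Finset.univ fun a => h (σ a) a
  rw [Finset.sum_add_distrib, Equiv.sum_comp σ n, ← two_mul] at this
  rcases Int.units_eq_one_or (Equiv.Perm.sign σ) with e | e <;> simpa [e] using this

lemma s_shift (c : ℕ) : ∃ C, ∀ i, 2 * s i + c * i ^ 2 ≤ 2 * s (i + c) ∧
    2 * s (i + c) ≤ 2 * s i + c * i ^ 2 + C * (i + 1) := by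
  induction c with
  | zero => exact ⟨0, by simp⟩
  | succ c ih =>
    obtain ⟨C, hC⟩ := ih
    refine ⟨C + (2 * c + 5) + (c + 2) * (c + 3), fun i => ?_⟩
    have h1 := six_s (i + c + 1)
    have h2 := six_s (i + c)
    have e : 2 * s (i + c + 1) = 2 * s (i + c) + (i + c + 2) * (i + c + 3) := by nlinarith
    obtain ⟨h3, h4⟩ := hC i
    rw [← add_assoc, e]
    constructor <;> nlinarith [Nat.zero_le ((c + 2) * (c + 3) * i), Nat.zero_le (c * i),
      Nat.zero_le (c * c)]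

lemma flag_dim {L : Type*} [AddCommGroup L] [Module K L] (X : Submodule K L) [FiniteDimensional K X]
    (f : ℕ → L →ₗ[K] F) (k : ℕ) : finrank K X = ∑ a ∈ Finset.range k,
      finrank K ((X ⊓ ⨅ b < a, LinearMap.ker (f b)).map (f a)) +
        finrank K (X ⊓ ⨅ b < k, LinearMap.ker (f b) : Submodule K L) := by
  induction k with
  | zero =>
    have : (X ⊓ ⨅ b < 0, LinearMap.ker (f b) : Submodule K L) = X := by simp
    rw [this]; simp
  | succ k ih =>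
    have : (X ⊓ ⨅ b < k + 1, LinearMap.ker (f b) : Submodule K L) =
        (X ⊓ ⨅ b < k, LinearMap.ker (f b)) ⊓ LinearMap.ker (f k) := by
      ext r
      simp only [mem_inf, mem_iInf, Nat.lt_succ_iff_lt_or_eq]
      exact ⟨fun h => ⟨⟨h.1, fun b hb => h.2 b (Or.inl hb)⟩, h.2 k (Or.inr rfl)⟩,
        fun h => ⟨h.1.1, fun b hb => hb.elim (h.1.2 b) fun e => e ▸ h.2⟩⟩
    rw [Finset.sum_range_succ, add_assoc, this, ← finrank_map_add _ (f k), ← ih]

end Pool.Agent.Lib.MP_a9ad87_al.Ch
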