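import Pool.Agent.Lib.MP_a9ad87_al.Build

namespace Pool.Agent.Lib.MP_a9ad87_al

open Classical

/-- add one variable whose cube gets the label `j0` -/
def Dat.pad {σ τ ι τ' : Type} (D : Dat σ τ ι) (e : τ → τ') (he : Function.Injective e) (j0 : τ')
    (hs : ∀ j', j' = j0 ∨ ∃ j, e j = j') : Dat (Option σ) τ' (Option ι) where
  lab x y z j' := (x = none ∧ y = none ∧ z = none ∧ j' = j0) ∨
    ∃ a b c j, x = some a ∧ y = some b ∧ z = some c ∧ e j = j' ∧ D.lab a b c j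
  S β x y := (β = none ∧ x = none ∧ y = none) ∨
    ∃ γ a b, β = some γ ∧ x = some a ∧ y = some b ∧ D.S γ a b
  T z j' β := (z = none ∧ j' = j0 ∧ β = none) ∨
    ∃ c j γ, z = some c ∧ e j = j' ∧ β = some γ ∧ D.T c j γ
  prim β := β = none ∨ ∃ γ, β = some γ ∧ D.prim γ
  h12 x y z j := by
    rintro (h | ⟨a, b, c, j, h1, h2, h3, h4, h5⟩)
    · tauto
    · exact Or.inr ⟨b, a, c, j, h2, h1, h3, h4, D.h12 _ _ _ _ h5⟩
  h23 x y z j := by
    rintro (h | ⟨a, b, c, j, h1, h2, h3, h4, h5⟩)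
    · tauto
    · exact Or.inr ⟨a, c, b, j, h1, h3, h2, h4, D.h23 _ _ _ _ h5⟩
  ne β := by
    cases β with
    | none => exact ⟨none, none, by simp⟩
    | some γ =>
      obtain ⟨a, b, h⟩ := D.ne γ
      exact ⟨some a, some b, by simpa using h⟩
  disj β β' x y := by
    rintro (⟨rfl, rfl, rfl⟩ | ⟨γ, a, b, rfl, rfl, rfl, h⟩) h'
    · simpa [eq_comm] using h'
    · simp only [reduceCtorEq, and_false, false_or, Option.some.injEq] at h'
      obtain ⟨γ', a', b', rfl, rfl, rfl, h'⟩ := h'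
      rw [D.disj _ _ _ _ h h']
  cov x y z j' := by
    constructor
    · rintro (⟨rfl, rfl, rfl, rfl⟩ | ⟨a, b, c, j, rfl, rfl, rfl, rfl, h⟩)
      · exact ⟨none, by simp, by simp⟩
      · obtain ⟨γ, h1, h2⟩ := (D.cov _ _ _ _).1 h
        exact ⟨some γ, Or.inr ⟨c, j, γ, rfl, rfl, rfl, h1⟩, Or.inr ⟨γ, a, b, rfl, rfl, rfl, h2⟩⟩
    · rintro ⟨β, ⟨rfl, rfl, rfl⟩ | ⟨c, j, γ, rfl, rfl, rfl, h1⟩, h2⟩
      · left; simpa using h2
      · simp only [reduceCtorEq, false_and, false_or, Option.some.injEq] at h2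
        obtain ⟨γ', a, b, rfl, rfl, rfl, h2⟩ := h2
        exact Or.inr ⟨a, b, c, j, rfl, rfl, rfl, rfl, (D.cov _ _ _ _).2 ⟨γ, h1, h2⟩⟩
  gen1 β := by
    rintro (rfl | ⟨γ, rfl, h⟩)
    · exact ⟨none, j0, by simp⟩
    · obtain ⟨z, j, h⟩ := D.gen1 γ h
      refine ⟨some z, e j, fun β' => ?_⟩
      simp [he.eq_iff, h]
  gen2 β := by
    cases β with
    | none => exact ⟨none, j0, by simp⟩
    | some γ =>
      obtain ⟨z, j, h, h'⟩ := D.gen2 γ
      refine ⟨some z, e j, Or.inr ⟨z, j, γ, rfl, rfl, rfl, h⟩, ?_⟩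
      rintro β' (⟨h1, -⟩ | ⟨c, j', γ', h1, h2, rfl, h3⟩)
      · simp at h1
      · obtain rfl := Option.some.inj h1
        obtain rfl := he h2
        simpa using h' γ' h3
  h4 j' := by
    by_cases h : ∃ j, e j = j'
    · obtain ⟨j, rfl⟩ := h
      obtain ⟨x, y, z, h, h'⟩ := D.h4 j
      refine ⟨some x, some y, some z, Or.inr ⟨x, y, z, j, rfl, rfl, rfl, rfl, h⟩, ?_⟩
      rintro j'' (⟨h1, -⟩ | ⟨a, b, c, j2, h1, h2, h3, rfl, h5⟩)
      · simp at h1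
      · obtain rfl := Option.some.inj h1
        obtain rfl := Option.some.inj h2
        obtain rfl := Option.some.inj h3
        rw [h' _ h5]
    · obtain rfl := (hs j').resolve_right h
      exact ⟨none, none, none, by simp⟩
  h5 z := by
    cases z with
    | none => exact ⟨none, none, j0, by simp⟩
    | some z =>
      obtain ⟨x, y, j, h, h'⟩ := D.h5 z
      refine ⟨some x, some y, e j, Or.inr ⟨x, y, z, j, rfl, rfl, rfl, rfl, h⟩, ?_⟩
      rintro z' (⟨h1, -⟩ | ⟨a, b, c, j2, h1, h2, rfl, h4, h5⟩)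
      · simp at h1
      · obtain rfl := Option.some.inj h1
        obtain rfl := Option.some.inj h2
        obtain rfl := he h4
        rw [h' _ h5]

lemma Real3.pad0 {r a t : ℕ} (h : Real3 r a t) (ht : 0 < t) : Real3 (r + 1) (a + 1) t := by
  obtain ⟨σ, τ, ι, _, _, _, rfl, rfl, rfl, ⟨D⟩⟩ := h
  obtain ⟨j0⟩ : Nonempty τ := Fintype.card_pos_iff.1 ht
  exact ⟨Option σ, τ, Option ι, inferInstance, inferInstance, inferInstance, by simp, by simp, rfl,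
    ⟨D.pad id Function.injective_id j0 fun j => Or.inr ⟨j, rfl⟩⟩⟩

lemma Real3.pad1 {r a t : ℕ} (h : Real3 r a t) : Real3 (r + 1) (a + 1) (t + 1) := by
  obtain ⟨σ, τ, ι, _, _, _, rfl, rfl, rfl, ⟨D⟩⟩ := h
  exact ⟨Option σ, Option τ, Option ι, inferInstance, inferInstance, inferInstance, by simp, by simp, by simp,
    ⟨D.pad some (Option.some_injective _) none fun j => by cases j <;> simp⟩⟩

lemma Real3.pad {r a t : ℕ} (h : Real3 r a t) (ht : 0 < t) (p q : ℕ) :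
    Real3 (r + p + q) (a + p + q) (t + q) := by
  induction q with
  | zero =>
    induction p with
    | zero => exact h
    | succ p ih => exact ih.pad0 ht
  | succ q ih => exact ih.pad1

/-- sum of cubes together with forms built from `x_i^2 x_(f i j)` -/
def datI {σ κ : Type} (i0 : σ) (f : σ → κ → σ) (E : Finset (σ × κ)) (hf1 : ∀ i j, f i j ≠ i)
    (hf2 : ∀ i j j', f i j = f i j' → j = j') (hf3 : ∀ i j j', f (f i j) j' ≠ i)
    (hE : ∀ j, ∃ i, (i, j) ∈ E) : Dat σ (Option κ) (σ ⊕ E) where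
  lab x y z j := (j = none ∧ x = y ∧ y = z) ∨ ∃ p : E, j = some p.1.2 ∧
    ((x = p.1.1 ∧ y = p.1.1 ∧ z = f p.1.1 p.1.2) ∨ (x = p.1.1 ∧ y = f p.1.1 p.1.2 ∧ z = p.1.1) ∨
      (x = f p.1.1 p.1.2 ∧ y = p.1.1 ∧ z = p.1.1))
  S β x y := (∃ i, β = .inl i ∧ x = i ∧ y = i) ∨ ∃ p : E, β = .inr p ∧
    ((x = p.1.1 ∧ y = f p.1.1 p.1.2) ∨ (x = f p.1.1 p.1.2 ∧ y = p.1.1))
  T z j β := (j = none ∧ β = .inl z) ∨ ∃ p : E, j = some p.1.2 ∧
    ((β = .inl p.1.1 ∧ z = f p.1.1 p.1.2) ∨ (β = .inr p ∧ z = p.1.1))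
  prim β := ∃ i, β = .inl i
  h12 x y z j := by
    rintro (h | ⟨p, h, h'⟩)
    · left; grind
    · exact Or.inr ⟨p, h, by tauto⟩
  h23 x y z j := by
    rintro (h | ⟨p, h, h'⟩)
    · left; grind
    · exact Or.inr ⟨p, h, by tauto⟩
  ne β := by
    cases β with
    | inl i => exact ⟨i, i, by simp⟩
    | inr p => exact ⟨p.1.1, f p.1.1 p.1.2, Or.inr ⟨p, rfl, Or.inl ⟨rfl, rfl⟩⟩⟩
  disj β β' x y := by
    rintro (⟨i, rfl, rfl, h⟩ | ⟨⟨⟨i, j⟩, hp⟩, rfl, h⟩)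
      (⟨i', rfl, h1, h2⟩ | ⟨⟨⟨i', j'⟩, hp'⟩, rfl, h'⟩) <;> grind
  cov x y z j := by
    constructor
    · rintro (⟨rfl, rfl, rfl⟩ | ⟨p, rfl, h | h | h⟩)
      · exact ⟨.inl x, by simp, by simp⟩
      · exact ⟨.inl p.1.1, Or.inr ⟨p, rfl, Or.inl ⟨rfl, h.2.2⟩⟩, Or.inl ⟨_, rfl, h.1, h.2.1⟩⟩
      · exact ⟨.inr p, Or.inr ⟨p, rfl, Or.inr ⟨rfl, h.2.2⟩⟩, Or.inr ⟨p, rfl, Or.inl ⟨h.1, h.2.1⟩⟩⟩
      · exact ⟨.inr p, Or.inr ⟨p, rfl, Or.inr ⟨rfl, h.2.2⟩⟩, Or.inr ⟨p, rfl, Or.inr ⟨h.1, h.2.1⟩⟩⟩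
    · rintro ⟨β, ⟨rfl, rfl⟩ | ⟨p, rfl, ⟨rfl, rfl⟩ | ⟨rfl, rfl⟩⟩, h⟩
      · grind
      · exact Or.inr ⟨p, rfl, by grind⟩
      · exact Or.inr ⟨p, rfl, by grind⟩
  gen1 β := by
    rintro ⟨i, rfl⟩
    exact ⟨i, none, by simp⟩
  gen2 β := by
    cases β with
    | inl i => exact ⟨i, none, by simp⟩
    | inr p =>
      refine ⟨p.1.1, some p.1.2, Or.inr ⟨p, rfl, Or.inr ⟨rfl, rfl⟩⟩, ?_⟩
      rintro β' (⟨h, -⟩ | ⟨p', h1, ⟨rfl, -⟩ | ⟨rfl, h2⟩⟩)
      · simp at h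
      · exact Or.inr ⟨_, rfl⟩
      · left; congr 1
        exact Subtype.ext (Prod.ext h2.symm (Option.some.inj h1).symm)
  h4 j := by
    cases j with
    | none => exact ⟨i0, i0, i0, by simp, by grind⟩
    | some j =>
      obtain ⟨i, hi⟩ := hE j
      exact ⟨i, i, f i j, Or.inr ⟨⟨(i, j), hi⟩, rfl, Or.inl ⟨rfl, rfl, rfl⟩⟩, by grind⟩
  h5 z := ⟨z, z, none, by simp, by grind⟩

lemma realI {r w e : ℕ} (h1 : 2 * w < r) (h2 : w ≤ e) (h3 : e ≤ r * w) :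
    Real3 r (r + e) (w + 1) := by
  let i0 : Fin r := ⟨0, by omega⟩
  let f : Fin r → Fin w → Fin r := fun i j =>
    if h : i.1 + j.1 + 1 < r then ⟨i.1 + j.1 + 1, h⟩ else ⟨i.1 + j.1 + 1 - r, by omega⟩
  have hf : ∀ i j, ((f i j).1 = i.1 + j.1 + 1 ∧ i.1 + j.1 + 1 < r) ∨
      ((f i j).1 + r = i.1 + j.1 + 1) := by
    intro i j
    simp only [f]
    split_ifs with h
    · exact Or.inl ⟨rfl, h⟩
    · right; simp only; omega
  obtain ⟨E, hE1, -, hE2⟩ := Finset.exists_subsuperset_card_eq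
    (s := ({i0} : Finset (Fin r)) ×ˢ (Finset.univ : Finset (Fin w))) (t := Finset.univ) (n := e)
    (Finset.subset_univ _) (by simpa using h2) (by simpa using h3)
  refine ⟨Fin r, Option (Fin w), Fin r ⊕ E, inferInstance, inferInstance, inferInstance, by simp, by simp [hE2], by simp,
    ⟨datI i0 f E ?_ ?_ ?_ fun j => ⟨i0, hE1 (by simp)⟩⟩⟩
  · intro i j h
    have := hf i j
    have := j.2
    rw [h] at *; omega
  · intro i j j' h
    have := hf i j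
    have := hf i j'
    have := j.2
    have := j'.2
    have := i.2
    apply Fin.ext
    rw [h] at *; omega
  · intro i j j' h
    have := hf i j
    have := hf (f i j) j'
    have := j.2
    have := j'.2
    rw [h] at *; omega

end Pool.Agent.Lib.MP_a9ad87_al
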