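import Pool.Agent.Lib.MP_a9ad87_al.Comb

namespace Pool.Agent.Lib.MP_a9ad87_al

open Classical

/-- forms `sum X_(j,m) m` over quadratic monomials `m`, and monomials `u^2 v` -/
def datII {υ κ : Type} [LinearOrder υ] (j0 : κ) (Q : κ → Finset (υ × υ)) (B : κ → Finset υ)
    (H : Finset (υ × υ)) (hle : ∀ j, ∀ p ∈ Q j, p.1 ≤ p.2) (hsub : ∀ j, ∀ p ∈ Q j, p ∈ Q j0)
    (hB : ∀ j, ∀ p ∈ Q j, p.1 ∈ B j ∧ p.2 ∈ B j) (hd : ∀ j, ∀ u ∈ B j, (u, u) ∈ Q j)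
    (hne : ∀ j, ∃ u, u ∈ B j) (h0 : ∀ u, u ∈ B j0) (hH : ∀ p ∈ H, p ∈ Q j0) :
    Dat (υ ⊕ {q : κ × (υ × υ) // q.2 ∈ Q q.1}) (κ ⊕ H) (Q j0 ⊕ {q : κ × υ // q.2 ∈ B q.1}) where
  lab x y z j := (∃ q : {q : κ × (υ × υ) // q.2 ∈ Q q.1}, j = .inl q.1.1 ∧
      ((x = .inr q ∧ y = .inl q.1.2.1 ∧ z = .inl q.1.2.2) ∨
       (x = .inr q ∧ y = .inl q.1.2.2 ∧ z = .inl q.1.2.1) ∨
       (x = .inl q.1.2.1 ∧ y = .inr q ∧ z = .inl q.1.2.2) ∨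
       (x = .inl q.1.2.2 ∧ y = .inr q ∧ z = .inl q.1.2.1) ∨
       (x = .inl q.1.2.1 ∧ y = .inl q.1.2.2 ∧ z = .inr q) ∨
       (x = .inl q.1.2.2 ∧ y = .inl q.1.2.1 ∧ z = .inr q))) ∨
    ∃ h : H, j = .inr h ∧
      ((x = .inl h.1.1 ∧ y = .inl h.1.1 ∧ z = .inl h.1.2) ∨
       (x = .inl h.1.1 ∧ y = .inl h.1.2 ∧ z = .inl h.1.1) ∨
       (x = .inl h.1.2 ∧ y = .inl h.1.1 ∧ z = .inl h.1.1))
  S β x y := (∃ p : Q j0, β = .inl p ∧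
      ((x = .inl p.1.1 ∧ y = .inl p.1.2) ∨ (x = .inl p.1.2 ∧ y = .inl p.1.1))) ∨
    ∃ (b : {q : κ × υ // q.2 ∈ B q.1}) (q : {q : κ × (υ × υ) // q.2 ∈ Q q.1}) (v : υ),
      β = .inr b ∧ q.1.1 = b.1.1 ∧ (q.1.2 = (b.1.2, v) ∨ q.1.2 = (v, b.1.2)) ∧
      ((x = .inr q ∧ y = .inl v) ∨ (x = .inl v ∧ y = .inr q))
  T z j β := (∃ (q : {q : κ × (υ × υ) // q.2 ∈ Q q.1}) (p : Q j0),
      z = .inr q ∧ j = .inl q.1.1 ∧ β = .inl p ∧ p.1 = q.1.2) ∨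
    (∃ b : {q : κ × υ // q.2 ∈ B q.1}, z = .inl b.1.2 ∧ j = .inl b.1.1 ∧ β = .inr b) ∨
    ∃ (h : H) (p : Q j0), j = .inr h ∧ β = .inl p ∧
      ((z = .inl h.1.1 ∧ p.1 = h.1) ∨ (z = .inl h.1.2 ∧ p.1 = (h.1.1, h.1.1)))
  prim _ := True
  h12 x y z j := by
    rintro (⟨q, h, h'⟩ | ⟨p, h, h'⟩)
    · exact Or.inl ⟨q, h, by tauto⟩
    · exact Or.inr ⟨p, h, by tauto⟩
  h23 x y z j := by
    rintro (⟨q, h, h'⟩ | ⟨p, h, h'⟩)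
    · exact Or.inl ⟨q, h, by tauto⟩
    · exact Or.inr ⟨p, h, by tauto⟩
  ne β := by
    cases β with
    | inl p => exact ⟨_, _, Or.inl ⟨p, rfl, Or.inl ⟨rfl, rfl⟩⟩⟩
    | inr b =>
      exact ⟨_, _, Or.inr ⟨b, ⟨(b.1.1, b.1.2, b.1.2), hd _ _ b.2⟩, b.1.2, rfl, rfl, Or.inl rfl,
        Or.inl ⟨rfl, rfl⟩⟩⟩
  disj β β' x y := by
    rintro (⟨⟨⟨a, b⟩, hp⟩, rfl, h⟩ | ⟨⟨⟨j, u⟩, hb⟩, q, v, rfl, h1, h2, h3⟩)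
      (⟨⟨⟨a', b'⟩, hp'⟩, rfl, h'⟩ | ⟨⟨⟨j', u'⟩, hb'⟩, q', v', rfl, h1', h2', h3'⟩)
    · have := hle _ _ hp
      have := hle _ _ hp'
      grind
    · grind
    · grind
    · grind
  cov x y z j := by
    constructor
    · rintro (⟨q, rfl, h⟩ | ⟨h, rfl, h'⟩)
      · have b1 := (hB _ _ q.2).1
        have b2 := (hB _ _ q.2).2
        rcases h with h | h | h | h | h | h
        · exact ⟨.inr ⟨(q.1.1, q.1.2.2), b2⟩, Or.inr (Or.inl ⟨_, h.2.2, rfl, rfl⟩),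
            Or.inr ⟨_, q, q.1.2.1, rfl, rfl, Or.inr rfl, Or.inl ⟨h.1, h.2.1⟩⟩⟩
        · exact ⟨.inr ⟨(q.1.1, q.1.2.1), b1⟩, Or.inr (Or.inl ⟨_, h.2.2, rfl, rfl⟩),
            Or.inr ⟨_, q, q.1.2.2, rfl, rfl, Or.inl rfl, Or.inl ⟨h.1, h.2.1⟩⟩⟩
        · exact ⟨.inr ⟨(q.1.1, q.1.2.2), b2⟩, Or.inr (Or.inl ⟨_, h.2.2, rfl, rfl⟩),
            Or.inr ⟨_, q, q.1.2.1, rfl, rfl, Or.inr rfl, Or.inr ⟨h.1, h.2.1⟩⟩⟩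
        · exact ⟨.inr ⟨(q.1.1, q.1.2.1), b1⟩, Or.inr (Or.inl ⟨_, h.2.2, rfl, rfl⟩),
            Or.inr ⟨_, q, q.1.2.2, rfl, rfl, Or.inl rfl, Or.inr ⟨h.1, h.2.1⟩⟩⟩
        · exact ⟨.inl ⟨q.1.2, hsub _ _ q.2⟩, Or.inl ⟨q, _, h.2.2, rfl, rfl, rfl⟩,
            Or.inl ⟨_, rfl, Or.inl ⟨h.1, h.2.1⟩⟩⟩
        · exact ⟨.inl ⟨q.1.2, hsub _ _ q.2⟩, Or.inl ⟨q, _, h.2.2, rfl, rfl, rfl⟩,
            Or.inl ⟨_, rfl, Or.inr ⟨h.1, h.2.1⟩⟩⟩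
      · rcases h' with h' | h' | h'
        · exact ⟨.inl ⟨(h.1.1, h.1.1), hd _ _ (h0 _)⟩,
            Or.inr (Or.inr ⟨h, _, rfl, rfl, Or.inr ⟨h'.2.2, rfl⟩⟩),
            Or.inl ⟨_, rfl, Or.inl ⟨h'.1, h'.2.1⟩⟩⟩
        · exact ⟨.inl ⟨h.1, hH _ h.2⟩, Or.inr (Or.inr ⟨h, _, rfl, rfl, Or.inl ⟨h'.2.2, rfl⟩⟩),
            Or.inl ⟨_, rfl, Or.inl ⟨h'.1, h'.2.1⟩⟩⟩
        · exact ⟨.inl ⟨h.1, hH _ h.2⟩, Or.inr (Or.inr ⟨h, _, rfl, rfl, Or.inl ⟨h'.2.2, rfl⟩⟩),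
            Or.inl ⟨_, rfl, Or.inr ⟨h'.1, h'.2.1⟩⟩⟩
    · rintro ⟨β, ⟨q, p, rfl, rfl, rfl, h1⟩ | ⟨b, rfl, rfl, rfl⟩ | ⟨h, p, rfl, rfl, h1⟩,
        ⟨p', h2, h3⟩ | ⟨b', q', v, h2, h3, h4, h5⟩⟩
      · exact Or.inl ⟨q, rfl, by grind⟩
      · simp at h2
      · simp at h2
      · exact Or.inl ⟨q', by grind, by grind⟩
      · exact Or.inr ⟨h, rfl, by grind⟩
      · simp at h2
  gen1 β _ := by
    cases β with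
    | inl p =>
      refine ⟨.inr ⟨(j0, p.1), p.2⟩, .inl j0, fun β' => ⟨?_, ?_⟩⟩
      · rintro (⟨q, p', h1, h2, rfl, h3⟩ | ⟨b, h1, -⟩ | ⟨h, p', h1, -⟩)
        · congr 1; apply Subtype.ext; grind
        · simp at h1
        · simp at h1
      · rintro rfl; exact Or.inl ⟨_, p, rfl, rfl, rfl, rfl⟩
    | inr b =>
      refine ⟨.inl b.1.2, .inl b.1.1, fun β' => ⟨?_, ?_⟩⟩
      · rintro (⟨q, p', h1, -⟩ | ⟨b', h1, h2, rfl⟩ | ⟨h, p', h1, -⟩)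
        · simp at h1
        · congr 1; apply Subtype.ext; apply Prod.ext <;> grind
        · simp at h1
      · rintro rfl; exact Or.inr (Or.inl ⟨b, rfl, rfl, rfl⟩)
  gen2 β := by
    cases β with
    | inl p => exact ⟨.inr ⟨(j0, p.1), p.2⟩, .inl j0, Or.inl ⟨_, p, rfl, rfl, rfl, rfl⟩, by simp⟩
    | inr b => exact ⟨.inl b.1.2, .inl b.1.1, Or.inr (Or.inl ⟨b, rfl, rfl, rfl⟩), by simp⟩
  h4 j := by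
    cases j with
    | inl j =>
      obtain ⟨u, hu⟩ := hne j
      exact ⟨.inr ⟨(j, u, u), hd _ _ hu⟩, .inl u, .inl u,
        Or.inl ⟨⟨(j, u, u), hd _ _ hu⟩, rfl, Or.inl ⟨rfl, rfl, rfl⟩⟩, by grind⟩
    | inr h =>
      refine ⟨.inl h.1.1, .inl h.1.1, .inl h.1.2, Or.inr ⟨h, rfl, Or.inl ⟨rfl, rfl, rfl⟩⟩, ?_⟩
      rintro j' (⟨q, -, h1⟩ | ⟨h', rfl, h1⟩)
      · simp at h1
      · congr 1; apply Subtype.ext; apply Prod.ext <;> grind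
  h5 z := by
    cases z with
    | inl u =>
      exact ⟨.inr ⟨(j0, u, u), hd _ _ (h0 u)⟩, .inl u, .inl j0,
        Or.inl ⟨⟨(j0, u, u), hd _ _ (h0 u)⟩, rfl, Or.inl ⟨rfl, rfl, rfl⟩⟩, by grind⟩
    | inr q =>
      refine ⟨.inl q.1.2.1, .inl q.1.2.2, .inl q.1.1, Or.inl ⟨q, rfl, by simp⟩, ?_⟩
      rintro z' (⟨q', h0, h1⟩ | ⟨h', h0, -⟩)
      · have := hle _ _ q.2
        have := hle _ _ q'.2
        have : q' = q := by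
          apply Subtype.ext; apply Prod.ext
          · grind
          · apply Prod.ext <;> grind
        grind
      · simp at h0

end Pool.Agent.Lib.MP_a9ad87_al
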