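import Mathlib

namespace Pool.Agent.Lib.MP_a9ad87_al

open MvPolynomial

/-- The degree `i` part of the quotient of the polynomial ring by `I`. -/
noncomputable def piece (k : Type*) [Field k] {n : ℕ} (I : Ideal (MvPolynomial (Fin n) k))
    (i : ℕ) : Submodule k (MvPolynomial (Fin n) k ⧸ I) :=
  (homogeneousSubmodule (Fin n) k i).map (Ideal.Quotient.mkₐ k I).toLinearMap

/-- `h` (extended by zeros) is the Hilbert function of a graded quotient of a polynomial ring over
`k` whose socle is its part of degree `h.length - 1`. -/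
def IsLevel (k : Type*) [Field k] (h : List ℕ) : Prop :=
  ∃ (n : ℕ) (I : Ideal (MvPolynomial (Fin n) k)),
    (∀ p ∈ I, ∀ i, homogeneousComponent i p ∈ I) ∧
    (∀ i, Module.finrank k (piece k I i) = h.getD i 0) ∧
    ∀ a : MvPolynomial (Fin n) k ⧸ I,
      (∀ j, a * Ideal.Quotient.mk I (X j) = 0) ↔ a ∈ piece k I (h.length - 1)

end Pool.Agent.Lib.MP_a9ad87_al
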