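import Pool.Agent.Lib.MP_a9ad87_al.ChFF
import Pool.Agent.Lib.MP_a9ad87_al.Defs

namespace Pool.Agent.Lib.MP_a9ad87_al.Lim

open MvPolynomial Module Submodule Ch

/-- polynomials in seven variables -/
abbrev P (k : Type*) [Field k] := MvPolynomial (Fin 7) k

variable {k : Type*} [Field k]

/-- degree `i` part of an ideal -/
noncomputable abbrev Id (I : Ideal (P k)) (i : ℕ) : Submodule k (P k) :=
  Hm 7 k i ⊓ I.restrictScalars k

/-- truncated level data -/
structure LV (H : ℕ → ℕ) (d j t : ℕ) (I : Ideal (P k)) : Prop where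
  dim : ∀ i ≤ d, finrank k (Id I i) + H i = finrank k (Hm 7 k i)
  soc : ∀ i < d + j, ∀ f ∈ Hm 7 k i, (∀ a, X a * f ∈ I) → f ∈ I
  pair : ∀ Y Y' : Submodule k (P k), Y ≤ Hm 7 k d → Y' ≤ Hm 7 k j →
    (∀ f ∈ Y, ∀ g ∈ Y', f * g ∈ I) →
    finrank k Y ≤ finrank k (Id I d) + t * (finrank k (Hm 7 k j) - finrank k Y')

/-- functionals concentrated in degree `e` -/
def Conc {t : ℕ} (e : ℕ) (φ : Fin t → P k →ₗ[k] k) : Prop :=
  ∀ a m, Finsupp.degree m ≠ e → φ a (monomial m 1) = 0

/-- annihilator of a family of functionals -/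
def ann {t : ℕ} (φ : Fin t → P k →ₗ[k] k) : Ideal (P k) where
  carrier := {f | ∀ a g, φ a (f * g) = 0}
  add_mem' := fun h1 h2 a g => by rw [add_mul, map_add, h1, h2, add_zero]
  zero_mem' := fun a g => by simp
  smul_mem' := fun c f h a g => by rw [smul_eq_mul, mul_comm c, mul_assoc]; exact h a _

variable {t e : ℕ} {φ : Fin t → P k →ₗ[k] k}

lemma mem_ann {f : P k} : f ∈ ann φ ↔ ∀ a g, φ a (f * g) = 0 := Iff.rfl

lemma mon_eq {σ R : Type*} [CommSemiring R] (m : σ →₀ ℕ) (c : R) :
    monomial m c = c • monomial m (1 : R) := by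
  rw [smul_monomial, smul_eq_mul, mul_one]

lemma Conc.kill (h : Conc e φ) {i : ℕ} {f : P k} (hf : f ∈ Hm 7 k i) (hi : i ≠ e) (a : Fin t) :
    φ a f = 0 := by
  rw [f.as_sum, map_sum]
  refine Finset.sum_eq_zero fun m hm => ?_
  have : m.degree = i := by
    by_contra h'; exact mem_support_iff.1 hm (IsHomogeneous.coeff_eq_zero hf h')
  rw [mon_eq, map_smul, h a m (by omega), smul_zero]

lemma Conc.mem_iff (h : Conc e φ) {i j : ℕ} (hij : i + j = e) {f : P k} (hf : f ∈ Hm 7 k i) :
    f ∈ ann φ ↔ ∀ a, ∀ g ∈ Hm 7 k j, φ a (f * g) = 0 := by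
  refine ⟨fun h1 a g _ => h1 a g, fun h1 a g => ?_⟩
  rw [← sum_homogeneousComponent g, Finset.mul_sum, map_sum]
  refine Finset.sum_eq_zero fun l _ => ?_
  by_cases hl : l = j
  · subst hl; exact h1 a _ (homogeneousComponent_mem _ _)
  · exact h.kill (i := i + l) (IsHomogeneous.mul hf (homogeneousComponent_mem _ _)) (by omega) a

lemma Hm_succ (n i : ℕ) : Hm n k (i + 1) = Hm n k 1 * Hm n k i := by
  rw [Hm, ← homogeneousSubmodule_one_pow, pow_succ', homogeneousSubmodule_one_pow]

lemma Hm_add (n i j : ℕ) : Hm n k (i + j) = Hm n k i * Hm n k j := by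
  rw [Hm, ← homogeneousSubmodule_one_pow, pow_add, homogeneousSubmodule_one_pow,
    homogeneousSubmodule_one_pow]

lemma Hm_one_ind {n : ℕ} {W : Type*} [AddCommGroup W] [Module k W]
    (L : MvPolynomial (Fin n) k →ₗ[k] W) (N : Submodule k W) (h : ∀ a, L (X a) ∈ N)
    {g : MvPolynomial (Fin n) k} (hg : g ∈ Hm n k 1) : L g ∈ N := by
  rw [Hm, homogeneousSubmodule_one_eq_span_X] at hg
  induction hg using Submodule.span_induction with
  | mem u hu => obtain ⟨a, rfl⟩ := hu; exact h a
  | zero => simp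
  | add u v _ _ h1 h2 => rw [map_add]; exact add_mem h1 h2
  | smul c u _ h1 => rw [map_smul]; exact smul_mem _ _ h1

lemma Conc.soc (h : Conc e φ) {i : ℕ} (hi : i < e) {f : P k} (hf : f ∈ Hm 7 k i)
    (h1 : ∀ a, X a * f ∈ ann φ) : f ∈ ann φ := by
  obtain ⟨j, rfl⟩ : ∃ j, e = i + (j + 1) := ⟨e - i - 1, by omega⟩
  rw [h.mem_iff rfl hf]
  intro a g hg
  rw [Hm_succ] at hg
  refine Submodule.mul_induction_on hg (fun u hu b _ => ?_) (fun u v h1 h2 => ?_)
  · have : u * f ∈ (ann φ).restrictScalars k :=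
      Hm_one_ind (LinearMap.mulRight k f) ((ann φ).restrictScalars k) h1 hu
    rw [← mul_assoc, mul_comm f u]
    exact this a b
  · rw [mul_add, map_add, h1, h2, add_zero]

lemma exists_compl {W : Type*} [AddCommGroup W] [Module k W] {X Y : Submodule k W}
    [FiniteDimensional k X] (h : Y ≤ X) :
    ∃ Z : Submodule k W, Z ≤ X ∧ X = Y ⊔ Z ∧ finrank k Z = finrank k X - finrank k Y := by
  obtain ⟨Z, hZ⟩ := (Y.comap X.subtype).exists_isCompl
  have h1 : X = Y ⊔ Z.map X.subtype := by
    conv_lhs => rw [← Submodule.map_subtype_top X, ← hZ.sup_eq_top, Submodule.map_sup,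
      Submodule.map_comap_subtype, inf_eq_right.2 h]
  have h2 := Submodule.finrank_add_eq_of_isCompl hZ
  rw [← Submodule.finrank_map_subtype_eq X (Y.comap X.subtype), Submodule.map_comap_subtype,
    inf_eq_right.2 h, ← Submodule.finrank_map_subtype_eq X Z] at h2
  exact ⟨Z.map X.subtype, Submodule.map_subtype_le _ _, h1, by omega⟩

lemma Conc.pair (h : Conc e φ) {d j : ℕ} (hij : d + j = e) (Y Y' : Submodule k (P k))
    (hY : Y ≤ Hm 7 k d) (hY' : Y' ≤ Hm 7 k j) (hm : ∀ f ∈ Y, ∀ g ∈ Y', f * g ∈ ann φ) :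
    finrank k Y ≤ finrank k (Id (ann φ) d) + t * (finrank k (Hm 7 k j) - finrank k Y') := by
  obtain ⟨Z, hZ, hs, hd⟩ := exists_compl hY'
  have : FiniteDimensional k Z := Submodule.finiteDimensional_of_le hZ
  have : FiniteDimensional k Y := Submodule.finiteDimensional_of_le hY
  let T : P k →ₗ[k] (Fin t → Module.Dual k Z) := LinearMap.pi fun a =>
    ((LinearMap.mul k (P k)).compl₂ Z.subtype).compr₂ (φ a)
  have hT : ∀ f a (z : Z), T f a z = φ a (f * z) := fun f a z => rfl
  have h1 := finrank_map_add Y T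
  have h2 : finrank k (Y.map T) ≤ t * finrank k Z := by
    have := Submodule.finrank_le (Y.map T)
    simpa [Module.finrank_pi_fintype] using this
  have h3 : finrank k (Y ⊓ LinearMap.ker T : Submodule k (P k)) ≤ finrank k (Id (ann φ) d) := by
    apply Submodule.finrank_mono
    intro f hf
    refine ⟨hY hf.1, (h.mem_iff hij (hY hf.1)).2 fun a g hg => ?_⟩
    rw [hs] at hg
    obtain ⟨y, hy, z, hz, rfl⟩ := mem_sup.1 hg
    have e1 := hm f hf.1 y hy a 1
    have e2 : T f a ⟨z, hz⟩ = 0 := by rw [LinearMap.mem_ker.1 hf.2]; rfl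
    rw [mul_one] at e1
    rw [mul_add, map_add, e1, zero_add]; exact e2
  rw [← hd]; omega

lemma piece_eq {n : ℕ} (I : Ideal (MvPolynomial (Fin n) k)) (i : ℕ) :
    piece k I i = piece k I 1 ^ i := by
  rw [piece, piece, ← homogeneousSubmodule_one_pow, Submodule.map_pow]

/-- from a level algebra to functionals -/
theorem of_level {h : List ℕ} (hl : IsLevel k h) (h1 : h.getD 1 0 = 7) :
    ∃ φ : Fin (h.getD (h.length - 1) 0) → P k →ₗ[k] k, Conc (h.length - 1) φ ∧
      ∀ i ≤ h.length - 1, finrank k (Id (ann φ) i) + h.getD i 0 = finrank k (Hm 7 k i) := by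
  obtain ⟨n, I, hI, hd, hs⟩ := hl
  set e := h.length - 1
  have fin : ∀ i, FiniteDimensional k (piece k I i) := fun i => by
    unfold piece; infer_instance
  have := fin 1
  have := fin e
  let b := Module.finBasisOfFinrankEq k (piece k I 1) ((hd 1).trans h1)
  let z : Fin 7 → MvPolynomial (Fin n) k ⧸ I := fun a => b a
  have hz : span k (Set.range z) = piece k I 1 := by
    have := congrArg (Submodule.map (piece k I 1).subtype) b.span_eq
    rwa [Submodule.map_span, ← Set.range_comp, Submodule.map_subtype_top] at this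
  let ψ : P k →ₐ[k] MvPolynomial (Fin n) k ⧸ I := aeval z
  have hψ : ∀ i, (Hm 7 k i).map ψ.toLinearMap = piece k I i := fun i => by
    rw [map_Hm, hz, ← piece_eq]
  have hψ' : ∀ i, ∀ f ∈ Hm 7 k i, ψ f ∈ piece k I i := fun i f hf => by
    rw [← hψ]; exact ⟨f, hf, rfl⟩
  let c := Module.finBasisOfFinrankEq k (piece k I e) (hd e)
  have hc : ∀ a, ∃ l : (MvPolynomial (Fin n) k ⧸ I) →ₗ[k] k,
      l ∘ₗ (piece k I e).subtype = c.coord a := fun a => LinearMap.exists_extend _
  choose l hl using hc
  let φ : Fin (h.getD e 0) → P k →ₗ[k] k := fun a => l a ∘ₗ ψ.toLinearMap ∘ₗ homogeneousComponent e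
  have hφ : ∀ a, ∀ f ∈ Hm 7 k e, φ a f = l a (ψ f) := fun a f hf => by
    simp only [φ, LinearMap.comp_apply]
    rw [homogeneousComponent_eq_self hf]; rfl
  have hC : Conc e φ := fun a m hm => by
    simp only [φ, LinearMap.comp_apply]
    rw [homogeneousComponent_of_mem (isHomogeneous_monomial 1 rfl), if_neg (Ne.symm hm)]
    simp
  have key : ∀ j i, i + j = e → ∀ f ∈ Hm 7 k i, f ∈ ann φ → ψ f = 0 := by
    intro j
    induction j with
    | zero =>
      intro i hi f hf h2
      obtain rfl : i = e := hi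
      have h3 : (⟨ψ f, hψ' _ f hf⟩ : piece k I e) = 0 := by
        refine c.forall_coord_eq_zero_iff.1 fun a => ?_
        rw [← hl a]
        have := h2 a 1
        rwa [mul_one, hφ a f hf] at this
      exact congrArg Subtype.val h3
    | succ j ih =>
      intro i hi f hf h2
      have h3 : ∀ a, z a * ψ f = 0 := fun a => by
        have := ih (i + 1) (by omega) (X a * f)
          (by simpa [add_comm] using (isHomogeneous_X k a).mul hf) (Ideal.mul_mem_left _ _ h2)
        simpa [ψ] using this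
      have h4 : ∀ v ∈ piece k I 1, ψ f * v = 0 := fun v hv => by
        rw [← hz] at hv
        induction hv using Submodule.span_induction with
        | mem u hu => obtain ⟨a, rfl⟩ := hu; rw [mul_comm]; exact h3 a
        | zero => simp
        | add u v _ _ h1 h2 => rw [mul_add, h1, h2, add_zero]
        | smul c u _ h1 => rw [mul_smul_comm, h1, smul_zero]
      obtain ⟨q, hq, e1⟩ := (hs (ψ f)).1 fun a => h4 _ ⟨X a, isHomogeneous_X k a, rfl⟩
      obtain ⟨p, hp, e2⟩ := hψ' i f hf
      have h5 : p - q ∈ I := by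
        rw [← Ideal.Quotient.eq]; exact e2.trans e1.symm
      have h6 := hI _ h5 i
      rw [map_sub, homogeneousComponent_eq_self hp, homogeneousComponent_of_mem hq,
        if_neg (by omega), sub_zero] at h6
      rw [← e2]; exact Ideal.Quotient.eq_zero_iff_mem.2 h6
  refine ⟨φ, hC, fun i hi => ?_⟩
  have h2 : Id (ann φ) i = Hm 7 k i ⊓ LinearMap.ker ψ.toLinearMap := by
    ext f
    refine ⟨fun hf => ⟨hf.1, key (e - i) i (by omega) f hf.1 hf.2⟩, fun hf => ⟨hf.1, ?_⟩⟩
    refine (hC.mem_iff (j := e - i) (by omega) hf.1).2 fun a g hg => ?_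
    have h3 : ψ f = 0 := hf.2
    rw [hφ a _ (by simpa [show i + (e - i) = e by omega] using IsHomogeneous.mul hf.1 hg),
      map_mul, h3, zero_mul, map_zero]
  rw [h2, finrank_map_add (Hm 7 k i) ψ.toLinearMap, hψ, hd, add_comm]

lemma deg_eq_of {n : ℕ} {R S : Type*} [CommSemiring R] [CommSemiring S]
    {f : MvPolynomial (Fin n) R} {g : MvPolynomial (Fin n) S} (h : g.support ⊆ f.support)
    (h1 : (mo n).degree f ∈ g.support) : (mo n).degree g = (mo n).degree f := by
  apply (mo n).toSyn.injective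
  apply le_antisymm
  · exact (mo n).degree_le_iff.2 fun c hc => (mo n).le_degree (h hc)
  · exact (mo n).le_degree h1

lemma deg_eq_supp {n : ℕ} {R S : Type*} [CommSemiring R] [CommSemiring S]
    {f : MvPolynomial (Fin n) R} {g : MvPolynomial (Fin n) S} (h : g.support = f.support) :
    (mo n).degree g = (mo n).degree f := by
  unfold MonomialOrder.degree; rw [h]

lemma hom_of_supp {σ R S : Type*} [CommSemiring R] [CommSemiring S] {i : ℕ}
    {f : MvPolynomial σ R} {g : MvPolynomial σ S} (h : g.support ⊆ f.support)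
    (hf : f.IsHomogeneous i) : g.IsHomogeneous i :=
  fun _ hd => hf (mem_support_iff.1 (h (mem_support_iff.2 hd)))

/-- base change of functionals -/
theorem base_change (kb : Type*) [Field kb] [Algebra k kb] (h : Conc e φ) :
    ∃ φb : Fin t → P kb →ₗ[kb] kb, Conc e φb ∧
      ∀ i, finrank kb (Id (ann φb) i) = finrank k (Id (ann φ) i) := by
  classical
  let φb : Fin t → P kb →ₗ[kb] kb := fun a =>
    (basisMonomials (Fin 7) kb).constr kb fun m => algebraMap k kb (φ a (monomial m 1))
  have h1 : ∀ a m, φb a (monomial m 1) = algebraMap k kb (φ a (monomial m 1)) := fun a m =>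
    (basisMonomials (Fin 7) kb).constr_basis kb _ m
  have h2 : ∀ a (f : P k), φb a (map (algebraMap k kb) f) = algebraMap k kb (φ a f) := by
    intro a f
    induction f using MvPolynomial.induction_on' with
    | monomial m c =>
      rw [map_monomial, mon_eq, map_smul, h1, mon_eq m c, map_smul, smul_eq_mul, smul_eq_mul,
        map_mul]
    | add p q hp hq => simp only [map_add, hp, hq]
  refine ⟨φb, fun a m hm => by rw [h1, h a m hm, map_zero], fun i => ?_⟩
  rw [finrank_LM (i := i) inf_le_left, finrank_LM (i := i) inf_le_left]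
  congr 1
  apply Set.Subset.antisymm
  · rintro m ⟨f, hf, h0, rfl⟩
    have hc := (mo 7).coeff_degree_ne_zero_iff.2 h0
    obtain ⟨l, hl⟩ := Module.Projective.exists_dual_ne_zero k hc
    let g : P k := ∑ m ∈ f.support, monomial m (l (coeff m f))
    have hg : ∀ m, coeff m g = l (coeff m f) := fun m => by
      simp only [g, coeff_sum, coeff_monomial]
      rw [Finset.sum_ite_eq']
      split_ifs with hm
      · rfl
      · rw [notMem_support_iff.1 hm, map_zero]
    have hs : g.support ⊆ f.support := fun m hm => by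
      rw [MvPolynomial.mem_support_iff] at hm ⊢
      intro h'; rw [hg, h', map_zero] at hm; exact hm rfl
    have hd : (mo 7).degree f ∈ g.support := by rw [MvPolynomial.mem_support_iff, hg]; exact hl
    refine ⟨g, ⟨hom_of_supp hs hf.1, fun a q => ?_⟩, ?_, deg_eq_of hs hd⟩
    · have h3 := hf.2 a (map (algebraMap k kb) q)
      have h4 : φ a (g * q) = l (φb a (f * map (algebraMap k kb) q)) := by
        conv_rhs => rw [f.as_sum]
        simp only [g, Finset.sum_mul, map_sum]
        refine Finset.sum_congr rfl fun m _ => ?_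
        rw [mon_eq m (coeff m f), mon_eq m (l _), smul_mul_assoc, smul_mul_assoc, map_smul,
          map_smul, show (monomial m (1 : kb) : P kb) = map (algebraMap k kb) (monomial m 1) by simp,
          ← map_mul, h2, smul_eq_mul, smul_eq_mul, mul_comm (coeff m f), ← Algebra.smul_def,
          map_smul, smul_eq_mul, mul_comm]
      rw [h4, h3, map_zero]
    · rintro h'; rw [h'] at hd; simp at hd
  · rintro m ⟨f, hf, h0, rfl⟩
    have hs := support_map_of_injective f (algebraMap k kb).injective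
    refine ⟨map (algebraMap k kb) f, ⟨IsHomogeneous.map hf.1 _, fun a q => ?_⟩, ?_, deg_eq_supp hs⟩
    · induction q using MvPolynomial.induction_on' with
      | monomial m c =>
        rw [mon_eq, mul_smul_comm, map_smul,
          show (monomial m (1 : kb) : P kb) = map (algebraMap k kb) (monomial m 1) by simp,
          ← map_mul, h2, hf.2 a, map_zero, smul_zero]
      | add p q hp hq => rw [mul_add, map_add, hp, hq, add_zero]
    · intro h'; rw [h'] at hs; exact h0 (support_eq_empty.1 hs.symm)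

/-- step A -/
theorem stepA {H : ℕ → ℕ} (h1 : H 1 = 7) {d j t : ℕ} {h : List ℕ} (hd : 1 ≤ d)
    (hlen : h.length = d + j + 1) (hl : IsLevel k h) (hH : ∀ i ≤ d, h.getD i 0 = H i)
    (ht : h.getD (d + j) 0 ≤ t) :
    ∃ I : Ideal (P (AlgebraicClosure k)), LV H d j t I := by
  obtain ⟨φ, hC, hφ⟩ := of_level hl ((hH 1 hd).trans h1)
  obtain ⟨φb, hCb, hb⟩ := base_change (AlgebraicClosure k) hC
  have he : d + j = h.length - 1 := by omega
  refine ⟨ann φb, fun i hi => ?_, fun i hi f hf h2 => hCb.soc (by omega) hf h2,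
    fun Y Y' hY hY' hm => ?_⟩
  · rw [hb, ← hH i hi, hφ i (by omega), finrank_Hm, finrank_Hm]
  · refine (hCb.pair he Y Y' hY hY' hm).trans (Nat.add_le_add_left (Nat.mul_le_mul_right _ ?_) _)
    rwa [← he]

end Pool.Agent.Lib.MP_a9ad87_al.Lim
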