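import Pool.Agent.Lib.MP_a9ad87_al.LimA

namespace Pool.Agent.Lib.MP_a9ad87_al.Lim

open MvPolynomial Module Submodule Ch Filter

universe u

/-- the fixed ultrafilter -/
noncomputable abbrev UF : Filter ℕ := (hyperfilter ℕ : Ultrafilter ℕ)

lemma uf_or (p : ℕ → Prop) : (∀ᶠ n in UF, p n) ∨ ∀ᶠ n in UF, ¬ p n := (hyperfilter ℕ).em p

lemma uf_ge (c : ℕ) : ∀ᶠ n in UF, c ≤ n := Nat.hyperfilter_le_atTop (eventually_ge_atTop c)

section field
variable (k : ℕ → Type u) [∀ n, Field (k n)]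

/-- sequences vanishing almost everywhere -/
def mU : Ideal (∀ n, k n) where
  carrier := {c | ∀ᶠ n in UF, c n = 0}
  add_mem' := fun h1 h2 => (h1.and h2).mono fun n h => by simp [h.1, h.2]
  zero_mem' := Eventually.of_forall fun _ => rfl
  smul_mem' := fun c f h => Eventually.mono h fun n h => by simp [h]

lemma mU_max : (mU k).IsMaximal := by
  classical
  rw [Ideal.isMaximal_iff]
  refine ⟨fun h => ?_, fun J x hJ hx hxJ => ?_⟩
  · obtain ⟨n, hn⟩ := Eventually.exists (show ∀ᶠ n in UF, (1 : ∀ n, k n) n = 0 from h)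
    exact one_ne_zero hn
  · have h1 := (uf_or fun n => x n = 0).resolve_left hx
    have h2 : (1 - (fun n => (x n)⁻¹) * x) ∈ mU k := h1.mono fun n h => by simp [h]
    have := add_mem (hJ h2) (J.mul_mem_left (fun n => (x n)⁻¹) hxJ)
    simpa using this

theorem exists_ultra [∀ n, CharZero (k n)] [∀ n, IsAlgClosed (k n)] :
    ∃ (K : Type u) (_ : Field K) (_ : IsAlgClosed K) (_ : CharZero K) (π : (∀ n, k n) →+* K),
      Function.Surjective π ∧ ∀ c, π c = 0 ↔ ∀ᶠ n in UF, c n = 0 := by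
  have := mU_max k
  let : Field ((∀ n, k n) ⧸ mU k) := Ideal.Quotient.field _
  let π : (∀ n, k n) →+* (∀ n, k n) ⧸ mU k := Ideal.Quotient.mk _
  have hs : Function.Surjective π := Ideal.Quotient.mk_surjective
  have h0 : ∀ c, π c = 0 ↔ ∀ᶠ n in UF, c n = 0 := fun c => Ideal.Quotient.eq_zero_iff_mem
  refine ⟨_, inferInstance, IsAlgClosed.of_exists_root _ fun p hp hi => ?_, ?_, π, hs, h0⟩
  · obtain ⟨q, h1, h2, h3⟩ := Polynomial.lifts_and_natDegree_eq_and_monic
      ((Polynomial.mem_lifts p).2 (Polynomial.map_surjective π hs p)) hp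
    have h4 : ∀ n, ∃ x : k n, (q.map (Pi.evalRingHom k n)).IsRoot x := fun n => by
      apply IsAlgClosed.exists_root
      have := hi.natDegree_pos
      rw [← h2, ← h3.natDegree_map (Pi.evalRingHom k n)] at this
      exact (Polynomial.natDegree_pos_iff_degree_pos.1 this).ne'
    choose x hx using h4
    refine ⟨π x, ?_⟩
    rw [← h1, Polynomial.eval_map, Polynomial.eval₂_hom, h0]
    refine Eventually.of_forall fun n => ?_
    have := hx n
    rw [Polynomial.IsRoot, Polynomial.eval_map,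
      show x n = Pi.evalRingHom k n x from rfl, Polynomial.eval₂_hom] at this
    exact this
  · refine charZero_of_inj_zero fun m hm => ?_
    rw [← map_natCast π, h0] at hm
    obtain ⟨n, hn⟩ := hm.exists
    simpa using hn

end field

/-- the limit ring -/
structure LR {K : Type*} [Field K] (H : ℕ → ℕ) (I : Ideal (P K)) : Prop where
  dim : ∀ i, finrank K (Id I i) + H i = finrank K (Hm 7 K i)
  soc : ∀ i, ∀ f ∈ Hm 7 K i, (∀ a, X a * f ∈ I) → f ∈ I
  ss : ∀ J J' : ℕ → Submodule K (P K), (∀ i, J i ≤ Hm 7 K i) → (∀ i, J' i ≤ Hm 7 K i) →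
    (∀ a b, ∀ f ∈ J a, ∀ g ∈ J' b, f * g ∈ I) → ∀ ρ ≤ 4,
    (∃ C, ∀ d, ρ * s d + finrank K (Id I d) ≤ finrank K (J d) + C * (d + 1) ^ 2) →
    ∀ j0, ∃ j, j0 ≤ j ∧ ρ * H j + 4 * finrank K (J' j) ≤ 4 * finrank K (Hm 7 K j)

lemma dickson {K : Type*} [Field K] (J : ℕ → Submodule K (P K)) :
    ∃ (ι : Type) (_ : Finite ι) (e : ι → ℕ) (f : ι → P K), (∀ a, f a ∈ J (e a) ∧ f a ≠ 0) ∧
      ∀ i, ∀ m ∈ LM (J i), ∃ a, (mo 7).degree (f a) ≤ m := by
  let S : (Fin 7 →₀ ℕ) → Prop := fun m => ∃ i, m ∈ LM (J i)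
  have hf : {m | Minimal S m}.Finite :=
    WellQuasiOrderedLE.finite_of_isAntichain (setOfPred_minimal_antichain S)
  have h : ∀ a : {m | Minimal S m}, ∃ i, ∃ f ∈ J i, f ≠ 0 ∧ (mo 7).degree f = a.1 :=
    fun a => a.2.1
  choose e f h1 h2 h3 using h
  refine ⟨_, hf.to_subtype, e, f, fun a => ⟨h1 a, h2 a⟩, fun i m hm => ?_⟩
  obtain ⟨b, hb, hb'⟩ := exists_minimal_le_of_wellFoundedLT S m ⟨i, hm⟩
  exact ⟨⟨b, hb'⟩, by rw [h3]; exact hb⟩

lemma LM_span {K k : Type*} [Field K] [Field k] {ι : Type} {J : Submodule K (P K)} {i : ℕ}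
    (hJ : J ≤ Hm 7 K i) {f : ι → P K} {g : ι → P k} {e : ι → ℕ}
    (h1 : ∀ m ∈ LM J, ∃ a, (mo 7).degree (f a) ≤ m) (h2 : ∀ a, f a ∈ Hm 7 K (e a) ∧ f a ≠ 0)
    (h3 : ∀ a, (g a).support = (f a).support) :
    finrank K J ≤ finrank k (Id (Ideal.span (Set.range g)) i) := by
  rw [finrank_LM hJ, finrank_LM (i := i) inf_le_left]
  refine Set.ncard_le_ncard (fun m hm => ?_) (LM_fin (i := i) inf_le_left)
  obtain ⟨a, ha⟩ := h1 m hm
  obtain ⟨c, rfl⟩ := exists_add_of_le ha
  have hg : g a ≠ 0 := fun h => (h2 a).2 (by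
    have := h3 a; rw [h] at this; exact support_eq_empty.1 this.symm)
  have hd : ((mo 7).degree (f a)).degree = e a :=
    mem_mons.1 (LM_sub (X := Hm 7 K (e a)) le_rfl ⟨f a, (h2 a).1, (h2 a).2, rfl⟩)
  have hi := mem_mons.1 (LM_sub hJ hm)
  rw [map_add, hd] at hi
  obtain ⟨h4, h5⟩ := LM_mul_mon hg c
  refine ⟨_, ⟨?_, Ideal.mul_mem_left _ _ (Ideal.subset_span ⟨a, rfl⟩)⟩, h4, ?_⟩
  · rw [← hi, add_comm]
    exact (isHomogeneous_monomial 1 rfl).mul (hom_of_supp (h3 a).le (h2 a).1)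
  · rw [h5, deg_eq_supp (h3 a), add_comm]

section lim
variable {k : ℕ → Type u} [∀ n, Field (k n)] {K : Type u} [Field K] {π : (∀ n, k n) →+* K}

/-- the `n`-th component of a polynomial over the product -/
noncomputable abbrev cp (n : ℕ) : MvPolynomial (Fin 7) (∀ n, k n) →+* P (k n) :=
  map (Pi.evalRingHom k n)

lemma supp_ev (h0 : ∀ c, π c = 0 ↔ ∀ᶠ n in UF, c n = 0) (f : MvPolynomial (Fin 7) (∀ n, k n)) :
    ∀ᶠ n in UF, (cp n f).support = (map π f).support := by
  have h1 : ∀ᶠ n in UF, ∀ m ∈ f.support, (coeff m f n = 0 ↔ π (coeff m f) = 0) := by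
    rw [eventually_all_finset]
    intro m _
    rcases uf_or fun n => coeff m f n = 0 with h | h
    · exact h.mono fun n hn => by simp [hn, (h0 _).2 h]
    · refine h.mono fun n hn => ⟨fun h' => absurd h' hn, fun h' => ?_⟩
      obtain ⟨n, h1, h2⟩ := (((h0 _).1 h').and h).exists
      exact absurd h1 h2
  refine h1.mono fun n hn => ?_
  ext m
  rw [MvPolynomial.mem_support_iff, MvPolynomial.mem_support_iff, coeff_map, coeff_map]
  by_cases hm : m ∈ f.support
  · exact not_congr (hn m hm)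
  · rw [notMem_support_iff.1 hm]; simp

variable (π) in
/-- the limit ideal -/
noncomputable def lim (I : ∀ n, Ideal (P (k n))) : Ideal (P K) :=
  Ideal.map (MvPolynomial.map π)
    { carrier := {f : MvPolynomial (Fin 7) (∀ n, k n) | ∀ᶠ n in UF, cp n f ∈ I n}
      add_mem' := fun h1 h2 => (h1.and h2).mono fun n h => by
        rw [map_add]; exact add_mem h.1 h.2
      zero_mem' := Eventually.of_forall fun _ => by simp
      smul_mem' := fun c f h => Eventually.mono h fun n h => by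
        rw [smul_eq_mul, map_mul]; exact Ideal.mul_mem_left _ _ h }

variable {I : ∀ n, Ideal (P (k n))}

lemma mem_lim (hs : Function.Surjective π) (h0 : ∀ c, π c = 0 ↔ ∀ᶠ n in UF, c n = 0)
    (f : MvPolynomial (Fin 7) (∀ n, k n)) : map π f ∈ lim π I ↔ ∀ᶠ n in UF, cp n f ∈ I n := by
  refine ⟨fun h => ?_, fun h => Ideal.mem_map_of_mem _ h⟩
  obtain ⟨g, hg, e⟩ := (Ideal.mem_map_iff_of_surjective _ (map_surjective π hs)).1 h
  refine ((supp_ev h0 (g - f)).and hg).mono fun n hn => ?_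
  have h1 := hn.1
  rw [map_sub (MvPolynomial.map π), e, sub_self, support_zero, MvPolynomial.support_eq_empty, map_sub,
    sub_eq_zero] at h1
  rw [← h1]; exact hn.2

lemma dim_lim (hs : Function.Surjective π) (h0 : ∀ c, π c = 0 ↔ ∀ᶠ n in UF, c n = 0) (i : ℕ) :
    ∀ᶠ n in UF, finrank K (Id (lim π I) i) = finrank (k n) (Id (I n) i) := by
  classical
  have h1 : ∀ᶠ n in UF, ∀ m ∈ mons 7 i, (m ∈ LM (Id (lim π I) i) ↔ m ∈ LM (Id (I n) i)) := by
    rw [eventually_all_finset]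
    intro m _
    by_cases hm : m ∈ LM (Id (lim π I) i)
    · obtain ⟨g, hg, hg0, rfl⟩ := id hm
      obtain ⟨f, rfl⟩ := map_surjective π hs g
      refine ((supp_ev h0 f).and ((mem_lim hs h0 f).1 hg.2)).mono fun n hn => ⟨fun _ => ?_,
        fun _ => hm⟩
      refine ⟨cp n f, ⟨hom_of_supp hn.1.le hg.1, hn.2⟩, fun h => hg0 ?_, deg_eq_supp hn.1⟩
      have := hn.1
      rw [h] at this; exact support_eq_empty.1 this.symm
    · rcases uf_or fun n => m ∈ LM (Id (I n) i) with h | h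
      · exfalso
        have h2 : ∀ n, ∃ f ∈ Id (I n) i, m ∈ LM (Id (I n) i) → f ≠ 0 ∧ (mo 7).degree f = m := by
          intro n
          by_cases h3 : m ∈ LM (Id (I n) i)
          · obtain ⟨f, h4, h5⟩ := h3; exact ⟨f, h4, fun _ => h5⟩
          · exact ⟨0, zero_mem _, fun h4 => absurd h4 h3⟩
        choose f h3 h4 using h2
        let F : MvPolynomial (Fin 7) (∀ n, k n) :=
          ∑ u ∈ mons 7 i, monomial u fun n => coeff u (f n)
        have hF : ∀ n, cp n F = f n := fun n => by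
          ext u
          simp only [F, coeff_map, coeff_sum, coeff_monomial]
          rw [Finset.sum_ite_eq']
          split_ifs with hu
          · rfl
          · rw [map_zero, IsHomogeneous.coeff_eq_zero (h3 n).1 fun h => hu (mem_mons.2 h)]
        obtain ⟨n, h5, h6⟩ := ((supp_ev h0 F).and h).exists
        rw [hF] at h5
        refine hm ⟨map π F, ⟨hom_of_supp h5.ge (h3 n).1, (mem_lim hs h0 F).2
          (Eventually.of_forall fun n => by rw [hF]; exact (h3 n).2)⟩, fun h7 => (h4 n h6).1 ?_,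
          (deg_eq_supp h5.symm).trans (h4 n h6).2⟩
        rw [h7] at h5; exact support_eq_empty.1 h5
      · exact h.mono fun n hn => ⟨fun h' => absurd h' hm, fun h' => absurd h' hn⟩
  refine h1.mono fun n hn => ?_
  rw [finrank_LM (i := i) inf_le_left, finrank_LM (i := i) inf_le_left]
  congr 1
  ext m
  exact ⟨fun h => (hn m (LM_sub inf_le_left h)).1 h, fun h => (hn m (LM_sub inf_le_left h)).2 h⟩

theorem stepB (hs : Function.Surjective π) (h0 : ∀ c, π c = 0 ↔ ∀ᶠ n in UF, c n = 0)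
    {H d j t : ℕ → ℕ} (hd : ∀ n, n ≤ d n) (hj : ∀ n, n ≤ j n)
    (hI : ∀ n, LV H (d n) (j n) (t n) (I n))
    (hn : ∀ n, t n * (4 * H (j n) - 1) + 16 * n * (d n + 1) ^ 2 < 16 * s (d n)) :
    LR H (lim π I) := by
  have hdim : ∀ i, finrank K (Id (lim π I) i) + H i = finrank K (Hm 7 K i) := fun i => by
    obtain ⟨n, h1, h2⟩ := ((dim_lim (I := I) hs h0 i).and (uf_ge i)).exists
    rw [h1, (hI n).dim i (h2.trans (hd n)), finrank_Hm, finrank_Hm]
  refine ⟨hdim, fun i g hg h => ?_, fun J J' hJ hJ' hm ρ hρ ⟨C, hC⟩ j0 => ?_⟩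
  · obtain ⟨f, rfl⟩ := map_surjective π hs g
    have h1 : ∀ᶠ n in UF, ∀ a, cp n (X a * f) ∈ I n :=
      eventually_all.2 fun a => (mem_lim hs h0 _).1 (by simpa using h a)
    refine (mem_lim hs h0 f).2 ((h1.and ((supp_ev h0 f).and (uf_ge (i + 1)))).mono fun n hn => ?_)
    refine (hI n).soc i (by have := hd n; omega) _ (hom_of_supp hn.2.1.le hg) fun a => ?_
    simpa using hn.1 a
  · obtain ⟨ι, _, e, f, h1, h2⟩ := dickson J
    obtain ⟨ι', _, e', f', h1', h2'⟩ := dickson J'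
    choose F hF using fun a => map_surjective π hs (f a)
    choose F' hF' using fun a => map_surjective π hs (f' a)
    have a1 : ∀ᶠ n in UF, ∀ a, (cp n (F a)).support = (f a).support :=
      eventually_all.2 fun a => by rw [← hF]; exact supp_ev h0 _
    have a2 : ∀ᶠ n in UF, ∀ a, (cp n (F' a)).support = (f' a).support :=
      eventually_all.2 fun a => by rw [← hF']; exact supp_ev h0 _
    have a3 : ∀ᶠ n in UF, ∀ a b, cp n (F a * F' b) ∈ I n :=
      eventually_all.2 fun a => eventually_all.2 fun b => (mem_lim hs h0 _).1 (by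
        rw [map_mul, hF, hF']; exact hm _ _ _ (h1 a).1 _ (h1' b).1)
    obtain ⟨n, ⟨⟨b1, b2⟩, b3⟩, b4, b5⟩ :=
      (((a1.and a2).and a3).and ((uf_ge C).and (uf_ge j0))).exists
    refine ⟨j n, b5.trans (hj n), ?_⟩
    have c1 := LM_span (hJ (d n)) (h2 (d n)) (fun a => ⟨hJ _ (h1 a).1, (h1 a).2⟩) b1
    have c2 := LM_span (hJ' (j n)) (h2' (j n)) (fun a => ⟨hJ' _ (h1' a).1, (h1' a).2⟩) b2
    have c3 := (hI n).pair (Id (Ideal.span (Set.range fun a => cp n (F a))) (d n))
      (Id (Ideal.span (Set.range fun a => cp n (F' a))) (j n)) inf_le_left inf_le_left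
      (fun u hu v hv => by
        have : Ideal.span (Set.range fun a => cp n (F a)) *
            Ideal.span (Set.range fun a => cp n (F' a)) ≤ I n := by
          rw [Ideal.span_mul_span', Ideal.span_le]
          rintro _ ⟨_, ⟨a, rfl⟩, _, ⟨b, rfl⟩, rfl⟩
          simpa using b3 a b
        exact this (Ideal.mul_mem_mul hu.2 hv.2))
    have c4 := (hI n).dim (d n) le_rfl
    have c5 := hdim (d n)
    have c6 := hC (d n)
    have c7 := hn n
    have c8 : finrank K (J' (j n)) ≤ finrank K (Hm 7 K (j n)) := Submodule.finrank_mono (hJ' _)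
    rw [finrank_Hm] at c3 c4 c5 c8 ⊢
    generalize (7 + j n - 1).choose (j n) = N at *
    generalize finrank K (J' (j n)) = y at *
    generalize finrank (k n) (Id (Ideal.span (Set.range fun a => cp n (F' a))) (j n)) = y' at *
    by_contra hc
    obtain ⟨c, rfl⟩ := exists_add_of_le c8
    have c9 : t n * (y + c - y') ≤ t n * c := Nat.mul_le_mul_left _ (by omega)
    have c10 : ρ * s (d n) ≤ t n * c + C * (d n + 1) ^ 2 := by omega
    have c11 : 4 * c + 1 ≤ ρ * H (j n) := by omega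
    have hH : 1 ≤ H (j n) := by
      rcases Nat.eq_zero_or_pos (H (j n)) with h | h
      · rw [h] at c11; omega
      · exact h
    have hρ1 : 1 ≤ ρ := by
      rcases Nat.eq_zero_or_pos ρ with h | h
      · rw [h] at c11; omega
      · exact h
    obtain ⟨w, hw⟩ : ∃ w, 4 * H (j n) = w + 1 := ⟨4 * H (j n) - 1, by omega⟩
    rw [hw, Nat.add_sub_cancel] at c7
    have c12 : 16 * c ≤ ρ * w := by nlinarith
    have c13 : C * (d n + 1) ^ 2 ≤ ρ * (n * (d n + 1) ^ 2) := by
      rw [← mul_assoc]; exact Nat.mul_le_mul_right _ (by nlinarith)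
    have c14 := Nat.mul_lt_mul_of_pos_left (k := ρ) c7 hρ1
    have c15 := Nat.mul_le_mul_left (t n) c12
    nlinarith

end lim

end Pool.Agent.Lib.MP_a9ad87_al.Lim
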