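import Pool.Agent.Lib.MP_a9ad87_al.LimB

namespace Pool.Agent.Lib.MP_a9ad87_al.Lim

open MvPolynomial Module Submodule Ch

variable {K : Type*} [Field K] {Λ : Type*} [CommRing Λ] [Algebra K Λ]

/-- abstract form of the limit ring -/
structure GA (H : ℕ → ℕ) (V : Submodule K Λ) : Prop where
  fin : FiniteDimensional K V
  dim : ∀ i, finrank K (V ^ i : Submodule K Λ) = H i
  soc : ∀ i, ∀ f ∈ V ^ i, (∀ v ∈ V, v * f = 0) → f = 0
  ss : ∀ M M' : ℕ → Submodule K Λ, (∀ i, M i ≤ V ^ i) → (∀ i, M' i ≤ V ^ i) →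
    (∀ a b, ∀ f ∈ M a, ∀ g ∈ M' b, f * g = 0) → ∀ ρ ≤ 4,
    (∃ C, ∀ d, ρ * s d ≤ finrank K (M d) + C * (d + 1) ^ 2) →
    ∀ j0, ∃ j, j0 ≤ j ∧ ρ * H j + 4 * finrank K (M' j) ≤ 4 * H j

lemma mem_spow {n i : ℕ} {z : Fin n → Λ} {a : Λ} :
    a ∈ span K (Set.range z) ^ i ↔ ∃ f ∈ Hm n K i, aeval z f = a := by
  rw [← map_Hm]; rfl

theorem LR.ga {H : ℕ → ℕ} {I : Ideal (P K)} (h : LR H I) (z : Fin 7 → Λ)
    (hz : ∀ i, ∀ f ∈ Hm 7 K i, aeval z f = 0 ↔ f ∈ I) : GA H (span K (Set.range z)) := by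
  let ψ := (aeval z : P K →ₐ[K] Λ).toLinearMap
  have key : ∀ i, ∀ M : Submodule K Λ, M ≤ span K (Set.range z) ^ i →
      finrank K (Hm 7 K i ⊓ M.comap ψ : Submodule K (P K)) = finrank K M + finrank K (Id I i) := by
    intro i M hM
    have : FiniteDimensional K (Hm 7 K i ⊓ M.comap ψ : Submodule K (P K)) :=
      Submodule.finiteDimensional_of_le inf_le_left
    have e1 : (Hm 7 K i ⊓ M.comap ψ).map ψ = M := by
      apply le_antisymm
      · rintro _ ⟨f, hf, rfl⟩; exact hf.2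
      · intro a ha
        obtain ⟨f, hf, rfl⟩ := mem_spow.1 (hM ha)
        exact ⟨f, ⟨hf, ha⟩, rfl⟩
    have e2 : Hm 7 K i ⊓ M.comap ψ ⊓ LinearMap.ker ψ = Id I i := by
      ext f
      refine ⟨fun hf => ⟨hf.1.1, (hz i f hf.1.1).1 hf.2⟩, fun hf => ?_⟩
      have e3 : ψ f = 0 := (hz i f hf.1).2 hf.2
      exact ⟨⟨hf.1, by rw [SetLike.mem_coe, mem_comap, e3]; exact zero_mem _⟩, e3⟩
    rw [finrank_map_add _ ψ, e1, e2]
  have hdim : ∀ i, finrank K (span K (Set.range z) ^ i : Submodule K Λ) = H i := fun i => by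
    have h1 := key i _ le_rfl
    have h2 := h.dim i
    have h3 : Hm 7 K i ⊓ (span K (Set.range z) ^ i).comap ψ = Hm 7 K i :=
      inf_eq_left.2 fun f hf => mem_spow.2 ⟨f, hf, rfl⟩
    rw [h3] at h1
    exact Nat.add_right_cancel (h1.symm.trans (h2.symm.trans (add_comm _ _)))
  refine ⟨FiniteDimensional.span_of_finite K (Set.finite_range z), hdim, fun i a ha h1 => ?_,
    fun M M' hM hM' hm ρ hρ ⟨C, hC⟩ j0 => ?_⟩
  · obtain ⟨f, hf, rfl⟩ := mem_spow.1 ha
    refine (hz i f hf).2 (h.soc i f hf fun a => ?_)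
    refine (hz (i + 1) _ (by simpa [add_comm] using (isHomogeneous_X K a).mul hf)).1 ?_
    simpa using h1 (z a) (subset_span ⟨a, rfl⟩)
  · obtain ⟨j, h1, h2⟩ := h.ss (fun i => Hm 7 K i ⊓ (M i).comap ψ)
      (fun i => Hm 7 K i ⊓ (M' i).comap ψ) (fun i => inf_le_left) (fun i => inf_le_left)
      (fun a b f hf g hg => (hz (a + b) _ (IsHomogeneous.mul hf.1 hg.1)).1 (by
        rw [map_mul]; exact hm a b _ hf.2 _ hg.2)) ρ hρ
      ⟨C, fun d => by have := key d _ (hM d); have := hC d; omega⟩ j0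
    refine ⟨j, h1, ?_⟩
    have := key j _ (hM' j)
    have := h.dim j
    omega

variable (K) in
/-- no homogeneous relations -/
def RI {r : ℕ} (u : Fin r → Λ) : Prop := ∀ i, ∀ f ∈ Hm r K i, aeval u f = 0 → f = 0

lemma nn_pow {U V : Submodule K Λ} {m : ℕ} (h : V ^ (m + 1) ≤ U * V ^ m) (a : ℕ) :
    V ^ (m + a) ≤ U ^ a * V ^ m := by
  induction a with
  | zero => simp
  | succ a ih =>
    calc V ^ (m + (a + 1)) = V * V ^ (m + a) := by ring
      _ ≤ V * (U ^ a * V ^ m) := mul_le_mul' le_rfl ih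
      _ = U ^ a * V ^ (m + 1) := by ring
      _ ≤ U ^ a * (U * V ^ m) := mul_le_mul' le_rfl h
      _ = U ^ (a + 1) * V ^ m := by ring

lemma cone {r : ℕ} (u : Fin r → Λ) (c : Fin r → K) (w : Λ) (U' : Submodule K Λ)
    (hw : w ∈ span K (Set.range u)) (h : ∀ a, u a - c a • w ∈ U') (i : ℕ) :
    ∀ f ∈ Hm r K (i + 1), aeval u f - aeval c f • w ^ (i + 1) ∈ U' * span K (Set.range u) ^ i := by
  have h1 : ∀ f ∈ Hm r K 1, aeval u f - aeval c f • w ∈ U' := fun f hf =>
    Hm_one_ind ((aeval u : MvPolynomial (Fin r) K →ₐ[K] Λ).toLinearMap -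
      LinearMap.toSpanSingleton K Λ w ∘ₗ (aeval c : MvPolynomial (Fin r) K →ₐ[K] K).toLinearMap) U'
      (fun a => by simpa using h a) hf
  induction i with
  | zero => simpa using h1
  | succ i ih =>
    intro f hf
    rw [Hm_succ] at hf
    refine Submodule.mul_induction_on hf (fun g hg b hb => ?_) (fun g b h1 h2 => ?_)
    · have e : aeval u (g * b) - aeval c (g * b) • w ^ (i + 1 + 1) =
          (aeval u g - aeval c g • w) * aeval u b +
            aeval c g • (w * (aeval u b - aeval c b • w ^ (i + 1))) := by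
        simp only [map_mul, Algebra.smul_def]; ring
      rw [e]
      refine add_mem (mul_mem_mul (h1 g hg) (mem_spow.2 ⟨b, hb, rfl⟩)) (smul_mem _ _ ?_)
      have := mul_mem_mul hw (ih b hb)
      rwa [mul_left_comm, ← pow_succ'] at this
    · rw [map_add, map_add, add_smul, add_sub_add_comm]; exact add_mem h1 h2

theorem noether [Infinite K] [Nontrivial Λ] {n : ℕ} (z : Fin n → Λ) :
    ∃ r, ∃ u : Fin r → Λ, (∀ a, u a ∈ span K (Set.range z)) ∧ RI K u ∧
      ∃ m, span K (Set.range z) ^ (m + 1) ≤ span K (Set.range u) * span K (Set.range z) ^ m := by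
  classical
  set V := span K (Set.range z)
  have hex : ∃ r, ∃ u : Fin r → Λ, (∀ a, u a ∈ V) ∧
      ∃ m, V ^ (m + 1) ≤ span K (Set.range u) * V ^ m :=
    ⟨n, z, fun a => subset_span ⟨a, rfl⟩, 0, by simp [V]⟩
  have hmin := fun m => Nat.find_min hex (m := m)
  obtain ⟨u, hu, m, hm⟩ := Nat.find_spec hex
  generalize Nat.find hex = r at *
  refine ⟨r, u, hu, fun i G hG e => ?_, m, hm⟩
  by_contra h0
  cases i with
  | zero =>
    obtain ⟨c, rfl⟩ := hom0 hG
    rw [aeval_C, map_eq_zero] at e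
    exact h0 (by rw [e, map_zero])
  | succ i =>
    obtain ⟨c, hc⟩ : ∃ c : Fin r → K, aeval c G ≠ 0 := by
      by_contra h1
      push Not at h1
      exact h0 (IsHomogeneous.eq_zero_of_forall_eval_eq_zero hG fun c => by
        rw [← coe_aeval_eq_eval]; exact h1 c)
    obtain ⟨a0, ha0⟩ : ∃ a, c a ≠ 0 := by
      by_contra h1
      push Not at h1
      have h2 := cone (K := K) c (fun _ => 0) 0 ⊥ (zero_mem _)
        (fun a => by rw [h1 a, smul_zero, sub_zero]; exact zero_mem _) i G hG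
      rw [bot_mul, mem_bot, zero_pow (by omega), smul_zero, sub_zero] at h2
      exact hc h2
    obtain ⟨r, rfl⟩ : ∃ r', r = r' + 1 := ⟨r - 1, by have := a0.pos; omega⟩
    set U := span K (Set.range u)
    let w := (c a0)⁻¹ • u a0
    have hw : w ∈ U := smul_mem _ _ (subset_span ⟨a0, rfl⟩)
    let u' : Fin r → Λ := fun a => u (a0.succAbove a) - c (a0.succAbove a) • w
    have h1 : ∀ a, u a - c a • w ∈ span K (Set.range u') := fun a => by
      rcases Fin.eq_self_or_eq_succAbove a0 a with rfl | ⟨b, rfl⟩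
      · rw [smul_smul, mul_inv_cancel₀ ha0, one_smul, sub_self]; exact zero_mem _
      · exact subset_span ⟨b, rfl⟩
    have h2 := cone u c w _ hw h1 i
    have h3 : w ^ (i + 1) ∈ span K (Set.range u') * U ^ i := by
      have := h2 G hG
      rw [e, zero_sub, neg_mem_iff] at this
      exact (smul_mem_iff _ hc).1 this
    have h4 : U ^ (i + 1) ≤ span K (Set.range u') * U ^ i := fun a ha => by
      obtain ⟨f, hf, rfl⟩ := mem_spow.1 ha
      simpa using add_mem (h2 f hf) (smul_mem _ (aeval c f) h3)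
    have hU : U ≤ V := span_le.2 (by rintro _ ⟨a, rfl⟩; exact hu a)
    refine hmin r (by omega) ⟨u', fun a => sub_mem (hu _) (smul_mem _ _ (hU hw)), m + i, ?_⟩
    calc V ^ (m + i + 1) ≤ U ^ (i + 1) * V ^ m := nn_pow hm (i + 1)
      _ ≤ span K (Set.range u') * U ^ i * V ^ m := mul_le_mul' h4 le_rfl
      _ ≤ span K (Set.range u') * V ^ i * V ^ m :=
          mul_le_mul' (mul_le_mul' le_rfl (pow_le_pow_left' hU i)) le_rfl
      _ = span K (Set.range u') * V ^ (m + i) := by ring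

lemma RI.dim_mul {r : ℕ} {u : Fin r → Λ} (h : RI K u) {k : ℕ} {G : MvPolynomial (Fin r) K}
    (hG : G ∈ Hm r K k) (h0 : G ≠ 0) (i : ℕ) :
    finrank K ((K ∙ aeval u G) * span K (Set.range u) ^ i : Submodule K Λ) =
      (r + i - 1).choose i := by
  let L := (aeval u : MvPolynomial (Fin r) K →ₐ[K] Λ).toLinearMap ∘ₗ LinearMap.mulLeft K G
  have e := finrank_map_add (Hm r K i) L
  have e2 : Hm r K i ⊓ LinearMap.ker L = ⊥ := by
    rw [eq_bot_iff]
    intro f hf
    exact (mul_eq_zero.1 (h _ _ (IsHomogeneous.mul hG hf.1) hf.2)).resolve_left h0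
  have e3 : (Hm r K i).map L = (K ∙ aeval u G) * span K (Set.range u) ^ i := by
    ext a
    rw [mem_span_singleton_mul]
    constructor
    · rintro ⟨f, hf, rfl⟩; exact ⟨_, mem_spow.2 ⟨f, hf, rfl⟩, by simp [L]⟩
    · rintro ⟨_, hb, rfl⟩
      obtain ⟨f, hf, rfl⟩ := mem_spow.1 hb
      exact ⟨f, hf, by simp [L]⟩
  rw [e2, e3, finrank_bot, finrank_Hm] at e
  omega

lemma RI.dim {r : ℕ} {u : Fin r → Λ} (h : RI K u) (i : ℕ) :
    finrank K (span K (Set.range u) ^ i : Submodule K Λ) = (r + i - 1).choose i := by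
  have := h.dim_mul (isHomogeneous_one _ _) one_ne_zero i
  rwa [map_one, ← Submodule.one_eq_span, one_mul] at this

lemma ch_s (i : ℕ) : (4 + i - 1).choose i = s i := by
  rw [s, show 4 + i - 1 = i + 3 by omega]; exact Nat.choose_symm_add

lemma s_pos (i : ℕ) : 1 ≤ s i := s_mono (Nat.zero_le i)

lemma s_le (i : ℕ) : s i ≤ (i + 1) * (i + 1) ^ 2 := by
  have := six_s i; nlinarith [Nat.zero_le (i ^ 2), Nat.zero_le (i ^ 3)]

lemma s_add (a c : ℕ) : s (a + c) ≤ s a + c * (a + c + 1) ^ 2 := by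
  induction c with
  | zero => simp
  | succ c ih =>
    have h1 := six_s (a + c)
    have h2 := six_s (a + (c + 1))
    have h3 : s (a + (c + 1)) ≤ s (a + c) + (a + (c + 1) + 1) ^ 2 := by nlinarith
    have h4 : c * (a + c + 1) ^ 2 ≤ c * (a + (c + 1) + 1) ^ 2 :=
      Nat.mul_le_mul_left _ (Nat.pow_le_pow_left (by omega) 2)
    nlinarith

lemma four_of {H : ℕ → ℕ} {r m C : ℕ}
    (hb : ∀ j, 4 * s j ≤ H j + 5 * j + C ∧ H j + 5 * j ≤ 4 * s j + C)
    (h1 : ∀ i, (r + i - 1).choose i ≤ H i) (h2 : ∀ i, H (m + i) ≤ (r + i - 1).choose i * H m) :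
    r = 4 := by
  apply le_antisymm
  · by_contra hr
    have a1 := h1 (4 * C + 13)
    have a2 := (hb (4 * C + 13)).2
    have a3 := s_pos (4 * C + 13)
    set i := 4 * C + 13
    have a4 : (i + 4).choose i ≤ (r + i - 1).choose i := Nat.choose_le_choose _ (by omega)
    have a5 : (i + 3 + 1) * s i = (i + 4).choose i * 4 := by
      rw [s, Nat.add_one_mul_choose_eq, Nat.choose_symm_add]
    have a6 : (i + 3 + 1) * s i ≤ 16 * s i + 4 * C := by omega
    simp only [i] at a6 a3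
    nlinarith
  · by_contra hr
    set a := H m + 30 * m + 6 * C + 30 with ha
    have a1 := h2 a
    have a2 := (hb (m + a)).1
    have a3 : s a ≤ s (m + a) := s_mono (by omega)
    have a4 : (r + a - 1).choose a ≤ (a + 2).choose a := Nat.choose_le_choose _ (by omega)
    have a5 : (a + 1 + 1) * (a + 1) = (a + 2).choose a * 2 := by
      have := Nat.add_one_mul_choose_eq (a + 1) 1
      rw [Nat.choose_one_right] at this
      rw [Nat.choose_symm_add]; exact this
    have a6 := six_s a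
    have a7 := Nat.mul_le_mul_right (H m) a4
    generalize (a + 2).choose a = q at *
    have a8 : 6 * s a = 2 * q * (a + 3) := by rw [a6]; nlinarith
    have a9 : 8 * (q * (a + 3)) ≤ 6 * (q * H m) + 30 * (m + a) + 6 * C := by nlinarith
    have a10 : q * H m ≤ q * a := Nat.mul_le_mul_left _ (by omega)
    have a11 : 31 ≤ q := by nlinarith
    have a12 : 31 * a ≤ q * a := Nat.mul_le_mul_right _ a11
    nlinarith

theorem GA.desc {H : ℕ → ℕ} {V : Submodule K Λ} (h : GA H V) (a : ℕ) :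
    ∀ i, ∀ f ∈ V ^ i, (∀ b ∈ V ^ a, b * f = 0) → f = 0 := by
  induction a with
  | zero => intro i f _ h1; simpa using h1 1 (mem_pow_zero.2 ⟨1, by simp⟩)
  | succ a ih =>
    intro i f hf h1
    refine h.soc i f hf fun v hv => ih (i + 1) _ (mul_pow_succ hv hf) fun b hb => ?_
    rw [← mul_assoc, mul_comm b]
    exact h1 _ (mul_pow_succ hv hb)

theorem GA.pure {H : ℕ → ℕ} {V : Submodule K Λ} (h : GA H V) {C m : ℕ}
    (hb : ∀ j, 4 * s j ≤ H j + 5 * j + C) {u : Fin 4 → Λ} (hu : ∀ a, u a ∈ V) (hr : RI K u)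
    (hm : V ^ (m + 1) ≤ span K (Set.range u) * V ^ m) {k : ℕ} {G : MvPolynomial (Fin 4) K}
    (hG : G ∈ Hm 4 K k) (h0 : G ≠ 0) {i : ℕ} {f : Λ} (hf : f ∈ V ^ i) (e : aeval u G * f = 0) :
    f = 0 := by
  have := h.fin
  set U := span K (Set.range u)
  have hU : U ≤ V := span_le.2 (by rintro _ ⟨a, rfl⟩; exact hu a)
  have : FiniteDimensional K U := Submodule.finiteDimensional_of_le hU
  set g := aeval u G
  have hg : g ∈ U ^ k := mem_spow.2 ⟨G, hG, rfl⟩
  obtain ⟨j, h1, h2⟩ := h.ss (fun d => V ^ d ⊓ (Ideal.span {g}).restrictScalars K)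
    (fun d => V ^ d ⊓ LinearMap.ker (LinearMap.mulLeft K g)) (fun _ => inf_le_left)
    (fun _ => inf_le_left) (fun a b p hp q hq => by
      obtain ⟨c, rfl⟩ := Ideal.mem_span_singleton'.1 hp.2
      have : g * q = 0 := hq.2
      rw [mul_assoc, this, mul_zero]) 4 le_rfl
    ⟨H m * k + 5 + C + 4 * (m + k), fun d => by
      have b1 : d + 1 ≤ (d + 1) ^ 2 := by nlinarith
      by_cases hd : d < m + k
      · have := s_le d
        have : (d + 1) * (d + 1) ^ 2 ≤ (m + k) * (d + 1) ^ 2 := Nat.mul_le_mul_right _ hd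
        nlinarith [Nat.zero_le ((H m * k + 5 + C) * (d + 1) ^ 2)]
      obtain ⟨a, rfl⟩ : ∃ a, d = m + (a + k) := ⟨d - m - k, by omega⟩
      have hY : (K ∙ g) * U ^ a ≤ U ^ (a + k) := by
        rw [add_comm, pow_add]; exact mul_le_mul' ((span_singleton_le_iff_mem _ _).2 hg) le_rfl
      have c1 := finrank_mul_sub (V ^ m) _ _ hY
      rw [hr.dim_mul hG h0, hr.dim, ch_s, ch_s, h.dim] at c1
      have c2 : finrank K (V ^ (m + (a + k)) : Submodule K Λ) ≤
          finrank K (V ^ m * U ^ (a + k) : Submodule K Λ) :=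
        Submodule.finrank_mono (by rw [mul_comm]; exact nn_pow hm _)
      have c3 : finrank K (V ^ m * ((K ∙ g) * U ^ a) : Submodule K Λ) ≤ finrank K
          (V ^ (m + (a + k)) ⊓ (Ideal.span {g}).restrictScalars K : Submodule K Λ) := by
        apply Submodule.finrank_mono
        refine le_inf ?_ (Submodule.mul_le.2 fun p _ q hq => ?_)
        · rw [pow_add]; exact mul_le_mul' le_rfl (hY.trans (pow_le_pow_left' hU _))
        · obtain ⟨b, _, rfl⟩ := mem_span_singleton_mul.1 hq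
          exact Ideal.mem_span_singleton'.2 ⟨p * b, by ring⟩
      rw [h.dim] at c2
      have c4 := hb (m + (a + k))
      have c5 : s (a + k) - s a ≤ k * (m + (a + k) + 1) ^ 2 := by
        have := s_add a k
        have : k * (a + k + 1) ^ 2 ≤ k * (m + (a + k) + 1) ^ 2 :=
          Nat.mul_le_mul_left _ (Nat.pow_le_pow_left (by omega) 2)
        omega
      have c6 := Nat.mul_le_mul_left (H m) c5
      have c7 : C ≤ C * (m + (a + k) + 1) ^ 2 := Nat.le_mul_of_pos_right _ (by positivity)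
      nlinarith [Nat.zero_le ((m + k) * (m + (a + k) + 1) ^ 2)]⟩ i
  obtain ⟨a, rfl⟩ := exists_add_of_le h1
  have h3 : V ^ (i + a) ⊓ LinearMap.ker (LinearMap.mulLeft K g) = ⊥ :=
    Submodule.finrank_eq_zero.1 (by omega)
  refine h.desc a i f hf fun b hb => ?_
  rw [← mem_bot K, ← h3]
  refine ⟨by rw [mul_comm]; exact mul_pow_mem hf hb, ?_⟩
  change g * (b * f) = 0
  rw [mul_left_comm, e, mul_zero]

end Pool.Agent.Lib.MP_a9ad87_al.Lim
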