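import Pool.Agent.Lib.MP_a9ad87_al.LimC

namespace Pool.Agent.Lib.MP_a9ad87_al.Lim

open MvPolynomial Module Submodule Ch

lemma cubic (A c : ℕ) : ∃ a, A * (a + c + 1) ^ 2 < s a := by
  refine ⟨24 * A + c, ?_⟩
  have h1 := six_s (24 * A + c)
  set a := 24 * A + c with ha
  have h2 : (a + c + 1) ^ 2 ≤ (2 * (a + 1)) ^ 2 := Nat.pow_le_pow_left (by omega) 2
  have h3 := Nat.mul_le_mul_left A h2
  have h4 : 24 * A * (a + 1) ^ 2 ≤ a * (a + 1) ^ 2 := Nat.mul_le_mul_right _ (by omega)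
  nlinarith [Nat.zero_le (a ^ 2)]

section aff
variable {K F B : Type*} [Field K] [Field F] [Algebra K F] [CommRing B] [Algebra F B]
    [Algebra K B] [IsScalarTower K F B]

/-- combinations with coefficients in a subspace -/
noncomputable def cmb {n : ℕ} (W : Submodule K F) (b : Fin n → B) : (Fin n → W) →ₗ[K] B :=
  ∑ i, (LinearMap.toSpanSingleton F B (b i)).restrictScalars K ∘ₗ W.subtype ∘ₗ LinearMap.proj i

lemma cmb_apply {n : ℕ} (W : Submodule K F) (b : Fin n → B) (y : Fin n → W) :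
    cmb W b y = ∑ i, (y i : F) • b i := by
  simp [cmb]

variable {x : Fin 4 → F} {V : Submodule K B}

lemma smul_pow_mem (hle : ∀ u ∈ UU K x, algebraMap F B u ∈ V) {i j : ℕ} {u : F} {b : B}
    (hu : u ∈ UU K x ^ i) (hb : b ∈ V ^ j) : u • b ∈ V ^ (i + j) := by
  rw [Algebra.smul_def]
  refine mul_pow_mem ?_ hb
  induction hu using Submodule.pow_induction_on_left' with
  | algebraMap c => rw [← IsScalarTower.algebraMap_apply, pow_zero]; exact algebraMap_mem c
  | add f g i _ _ h1 h2 => rw [map_add]; exact add_mem h1 h2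
  | mem_mul m hm i f _ ih => rw [map_mul]; exact mul_pow_succ (hle m hm) ih

lemma Vpow_mono (h1 : (1 : B) ∈ V) {i j : ℕ} (h : i ≤ j) : V ^ i ≤ V ^ j := by
  induction h with
  | refl => exact le_rfl
  | step _ ih => exact fun a ha => by simpa using mul_pow_succ h1 (ih ha)

lemma span_top (h1 : (1 : B) ∈ V) (gen : Algebra.adjoin F (V : Set B) = ⊤) {m : ℕ}
    (nn : V ^ (m + 1) ≤ (UU K x).map (IsScalarTower.toAlgHom K F B).toLinearMap * V ^ m) (b : B) :
    b ∈ span F (V ^ m : Submodule K B).carrier := by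
  have h2 : ∀ r ∈ V ^ (m + 1), r ∈ span F (V ^ m : Submodule K B).carrier := fun r hr => by
    refine Submodule.mul_induction_on (nn hr) ?_ fun _ _ => add_mem
    rintro _ ⟨u, _, rfl⟩ r hr
    have : u • r ∈ span F (V ^ m : Submodule K B).carrier := smul_mem _ _ (subset_span hr)
    rwa [Algebra.smul_def] at this
  have h3 : ∀ r ∈ span F (V ^ m : Submodule K B).carrier,
      b * r ∈ span F (V ^ m : Submodule K B).carrier := by
    have hb : b ∈ Algebra.adjoin F (V : Set B) := by rw [gen]; trivial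
    induction hb using Algebra.adjoin_induction with
    | mem v hv =>
      intro r hr
      induction hr using Submodule.span_induction with
      | mem r hr => exact h2 _ (mul_pow_succ hv hr)
      | zero => simp
      | add r r' _ _ h1 h2 => rw [mul_add]; exact add_mem h1 h2
      | smul c r _ h1 => rw [mul_smul_comm]; exact smul_mem _ _ h1
    | algebraMap c => intro r hr; rw [← Algebra.smul_def]; exact smul_mem _ _ hr
    | add p q _ _ h1 h2 => intro r hr; rw [add_mul]; exact add_mem (h1 r hr) (h2 r hr)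
    | mul p q _ _ h1 h2 => intro r hr; rw [mul_assoc]; exact h1 _ (h2 r hr)
  simpa using h3 1 (subset_span (Vpow_mono h1 (Nat.zero_le m) (mem_pow_zero.2 ⟨1, by simp⟩)))

lemma scale (hi : Inj K x) (hf : Frc K x) (hle : ∀ u ∈ UU K x, algebraMap F B u ∈ V) {m : ℕ}
    {b : B} (hb : b ∈ span F (V ^ m : Submodule K B).carrier) :
    ∃ κ : F, κ ≠ 0 ∧ ∃ g, κ ∈ UU K x ^ g ∧ κ • b ∈ V ^ (g + m) := by
  induction hb using Submodule.span_induction with
  | mem r hr => exact ⟨1, one_ne_zero, 0, mem_pow_zero.2 ⟨1, by simp⟩, by simpa using hr⟩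
  | zero => exact ⟨1, one_ne_zero, 0, mem_pow_zero.2 ⟨1, by simp⟩, by simp⟩
  | add r r' _ _ h1 h2 =>
    obtain ⟨κ, a1, g, a2, a3⟩ := h1
    obtain ⟨κ', b1, g', b2, b3⟩ := h2
    refine ⟨κ * κ', mul_ne_zero a1 b1, g + g', mul_pow_mem a2 b2, ?_⟩
    rw [smul_add]
    refine add_mem ?_ ?_
    · rw [mul_comm, mul_smul, add_comm g, add_assoc]; exact smul_pow_mem hle b2 a3
    · rw [mul_smul, add_assoc]; exact smul_pow_mem hle a2 b3
  | smul c r _ h1 =>
    obtain ⟨κ, a1, g, a2, a3⟩ := h1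
    obtain ⟨k, D, hD, hD0, h3⟩ := hf c
    refine ⟨aeval x D * κ, mul_ne_zero (hi.ne hD hD0) a1, k + g, mul_pow_mem (aeval_mem hD) a2, ?_⟩
    rw [smul_smul, show aeval x D * κ * c = c * aeval x D * κ by ring, mul_smul, add_assoc]
    exact smul_pow_mem hle h3 a3

lemma low (hi : Inj K x) (hf : Frc K x) (hle : ∀ u ∈ UU K x, algebraMap F B u ∈ V)
    [FiniteDimensional K V] (h1 : (1 : B) ∈ V) {m : ℕ}
    (hb : ∀ b, b ∈ span F (V ^ m : Submodule K B).carrier)
    (J : Submodule F B) {ρ : ℕ} (hρ : ρ ≤ finrank F J) :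
    ∃ c, ∀ a, ρ * s a ≤ finrank K (V ^ (a + c) ⊓ J.restrictScalars K : Submodule K B) := by
  obtain ⟨b, hb'⟩ := exists_linearIndependent_of_le_finrank hρ
  choose κ a1 g a2 a3 using fun i => scale hi hf hle (hb (b i))
  refine ⟨Finset.univ.sup g + m, fun a => ?_⟩
  have hli : LinearIndependent F fun i => (b i : B) := hb'.map' J.subtype (ker_subtype J)
  have hinj : Function.Injective (cmb (UU K x ^ a) fun i => κ i • (b i : B)) := by
    rw [← LinearMap.ker_eq_bot, eq_bot_iff]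
    intro y hy
    rw [LinearMap.mem_ker, cmb_apply] at hy
    simp only [smul_smul] at hy
    have := Fintype.linearIndependent_iff.1 hli _ hy
    funext i
    exact Subtype.ext ((mul_eq_zero.1 (this i)).resolve_right (a1 i))
  have e := LinearMap.finrank_range_of_inj hinj
  rw [Module.finrank_pi_fintype] at e
  simp only [hi.dim, Finset.sum_const, Finset.card_univ, Fintype.card_fin, smul_eq_mul] at e
  rw [← e]
  apply Submodule.finrank_mono
  rintro _ ⟨y, rfl⟩
  rw [cmb_apply]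
  refine sum_mem fun i _ => ⟨smul_pow_mem hle (y i).2 (Vpow_mono h1 ?_ (a3 i)),
    J.smul_mem _ (J.smul_mem _ (b i).2)⟩
  exact Nat.add_le_add_right (Finset.le_sup (Finset.mem_univ i)) m

lemma upp (hi : Inj K x) (hf : Frc K x) [FiniteDimensional K V] [FiniteDimensional F B] {m : ℕ}
    (nn : V ^ (m + 1) ≤ (UU K x).map (IsScalarTower.toAlgHom K F B).toLinearMap * V ^ m) :
    ∃ g, ∀ a, finrank K (V ^ (m + a) : Submodule K B) ≤ finrank F B * s (a + g) := by
  let e := Module.finBasis F B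
  obtain ⟨κ, h0, g, -, h2⟩ :=
    hf.den hi (⨆ i, (V ^ m).map ((e.coord i).restrictScalars K))
  refine ⟨g, fun a => ?_⟩
  have h3 : ∀ i, ∀ r ∈ V ^ (m + a), κ * e.coord i r ∈ UU K x ^ (a + g) := fun i r hr => by
    have := nn_pow nn a hr
    rw [← Submodule.map_pow] at this
    refine Submodule.mul_induction_on this ?_ fun p q h1 h2 => ?_
    · rintro _ ⟨u, hu, rfl⟩ r hr
      have e1 : (IsScalarTower.toAlgHom K F B).toLinearMap u * r = u • r :=
        (Algebra.smul_def u r).symm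
      rw [e1, map_smul, smul_eq_mul, mul_left_comm]
      exact mul_pow_mem hu (h2 _ (mem_iSup_of_mem i ⟨r, hr, rfl⟩))
    · rw [map_add, mul_add]; exact add_mem h1 h2
  have h4 : V ^ (m + a) ≤ LinearMap.range (cmb (UU K x ^ (a + g)) fun i => κ⁻¹ • e i) := by
    intro r hr
    refine ⟨fun i => ⟨_, h3 i r hr⟩, ?_⟩
    rw [cmb_apply]
    conv_rhs => rw [← e.sum_repr r]
    refine Finset.sum_congr rfl fun i _ => ?_
    rw [smul_smul, mul_right_comm, mul_inv_cancel₀ h0, one_mul]; rfl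
  refine (Submodule.finrank_mono h4).trans ((LinearMap.finrank_range_le _).trans ?_)
  rw [Module.finrank_pi_fintype]
  simp [hi.dim]

theorem mkAS {H : ℕ → ℕ} (hi : Inj K x) (hf : Frc K x) (h0 : (1 : F) ∈ UU K x) (h : GA H V)
    (hle : ∀ u ∈ UU K x, algebraMap F B u ∈ V) (gen : Algebra.adjoin F (V : Set B) = ⊤) {m : ℕ}
    (nn : V ^ (m + 1) ≤ (UU K x).map (IsScalarTower.toAlgHom K F B).toLinearMap * V ^ m)
    (h1 : H 1 = 7) (h2 : H 2 = 25) (h3 : 61 ≤ H 3) {C : ℕ}
    (hb : ∀ j, 4 * s j ≤ H j + 5 * j + C ∧ H j + 5 * j ≤ 4 * s j + C) :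
    ∃ D : AS K F B, D.x = x := by
  have := h.fin
  have hV : (1 : B) ∈ V := by simpa using hle 1 h0
  have hs := span_top hV gen nn
  have : FiniteDimensional F B := by
    obtain ⟨S, hS⟩ := (Submodule.fg_iff_finiteDimensional (V ^ m)).2 inferInstance
    refine ⟨S, eq_top_iff.2 fun b _ => span_le.2 (fun r hr => ?_) (hs b)⟩
    have : r ∈ span K (S : Set B) := by rw [hS]; exact hr
    exact span_le_restrictScalars K F _ this
  have hd : finrank F B = 4 := by
    apply le_antisymm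
    · by_contra hc
      obtain ⟨c, hc⟩ := low hi hf hle hV hs ⊤ (ρ := 5) (by rw [finrank_top]; omega)
      obtain ⟨a, ha⟩ := cubic (4 * c + C) c
      have b1 := hc a
      rw [restrictScalars_top, inf_top_eq, h.dim] at b1
      have b2 := (hb (a + c)).2
      have b3 := s_add a c
      have b4 : C ≤ C * (a + c + 1) ^ 2 := Nat.le_mul_of_pos_right _ (by positivity)
      nlinarith
    · by_contra hc
      obtain ⟨g, hg⟩ := upp hi hf nn
      obtain ⟨a, ha⟩ := cubic (3 * g + 5 + C) (g + m)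
      have b1 := hg a
      rw [h.dim] at b1
      have b2 := (hb (m + a)).1
      have b3 := s_add a g
      have b4 : C ≤ C * (a + (g + m) + 1) ^ 2 := Nat.le_mul_of_pos_right _ (by positivity)
      have b5 : s a ≤ s (m + a) := s_mono (by omega)
      have b6 : finrank F B * s (a + g) ≤ 3 * s (a + g) := Nat.mul_le_mul_right _ (by omega)
      have b7 : g * (a + g + 1) ^ 2 ≤ g * (a + (g + m) + 1) ^ 2 :=
        Nat.mul_le_mul_left _ (Nat.pow_le_pow_left (by omega) 2)
      have b8 : m + a ≤ (a + (g + m) + 1) ^ 2 := by nlinarith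
      nlinarith
  refine ⟨⟨x, V, hi, hf, h.fin, hle, hd, gen, ⟨m, nn⟩, by rw [← h1, ← h.dim, pow_one],
    by rw [h.dim, h2], by rw [h.dim]; exact h3, ⟨C, fun j => by rw [h.dim]; exact hb j⟩,
    fun J J' hJ ρ hρ j0 => ?_⟩, rfl⟩
  have hρ4 : ρ ≤ 4 := hρ.trans (hd ▸ Submodule.finrank_le _)
  obtain ⟨c, hc⟩ := low hi hf hle hV hs _ hρ
  simp only [h.dim]
  refine h.ss (fun d => V ^ d ⊓ J.restrictScalars K) (fun d => V ^ d ⊓ J'.restrictScalars K)
    (fun _ => inf_le_left) (fun _ => inf_le_left) (fun a b p hp q hq => ?_) ρ hρ4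
    ⟨4 * c, fun d => ?_⟩ j0
  · rw [← Ideal.mem_bot, ← hJ]; exact Ideal.mul_mem_mul hp.2 hq.2
  · have b0 : ρ * s d ≤ 4 * s d := Nat.mul_le_mul_right _ hρ4
    by_cases hdc : d < c
    · have := s_le d
      have : (d + 1) * (d + 1) ^ 2 ≤ c * (d + 1) ^ 2 := Nat.mul_le_mul_right _ hdc
      nlinarith [Nat.zero_le (finrank K (V ^ d ⊓ J.restrictScalars K : Submodule K B))]
    · obtain ⟨a, rfl⟩ : ∃ a, d = a + c := ⟨d - c, by omega⟩
      have b1 : ρ * s a ≤ finrank K (V ^ (a + c) ⊓ J.restrictScalars K : Submodule K B) := hc a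
      have b2 := Nat.mul_le_mul_left ρ (s_add a c)
      have b3 : ρ * (c * (a + c + 1) ^ 2) ≤ 4 * (c * (a + c + 1) ^ 2) :=
        Nat.mul_le_mul_right _ hρ4
      nlinarith

end aff

end Pool.Agent.Lib.MP_a9ad87_al.Lim
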