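import Pool.Agent.Lib.MP_a9ad87_al.TwoLevel

namespace Pool.Agent.Lib.MP_a9ad87_al.Two

open MvPolynomial Module

lemma six (m : ℕ) : 6 * (m + 3).choose 3 = (m + 3) * (m + 2) * (m + 1) := by
  have := Nat.descFactorial_eq_factorial_mul_choose (m + 3) 3
  simp [Nat.descFactorial, Nat.factorial] at this
  linarith

lemma params (n e H b : ℕ) (hH : 0 < H) : ∃ d τ : ℕ, n ≤ d ∧ b ≤ τ ∧ e ≤ τ ∧
    (d + 2 + 3).choose 3 + e ≤ τ * H ∧
    4 * τ * (4 * H - 1) + 16 * n * (d + 1) ^ 2 < 16 * (d + 3).choose 3 := by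
  obtain ⟨c, hc⟩ : ∃ c, c = 4 + 4 * e + 4 * H + 4 * n + b := ⟨_, rfl⟩
  obtain ⟨d, hd⟩ : ∃ d, d = 6 * c * H + n := ⟨_, rfl⟩
  obtain ⟨τ, hτ⟩ : ∃ τ, τ = ((d + 2 + 3).choose 3 + e) / H + 1 := ⟨_, rfl⟩
  have h1 := six d
  have h2 := six (d + 2)
  have h3 := Nat.div_add_mod ((d + 2 + 3).choose 3 + e) H
  have h4 := Nat.mod_lt ((d + 2 + 3).choose 3 + e) hH
  have h0 : τ * H = H * (((d + 2 + 3).choose 3 + e) / H) + H := by rw [hτ]; ring
  have h5 : (d + 2 + 3).choose 3 + e < τ * H := by omega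
  have h6 : τ * H ≤ (d + 2 + 3).choose 3 + e + H := by omega
  obtain ⟨D, hD⟩ : ∃ D, D = (d + 3) ^ 2 := ⟨_, rfl⟩
  have h7 : (d + 2 + 3).choose 3 = (d + 3).choose 3 + D := by rw [hD]; nlinarith
  have h8 : c * D < τ := by
    by_contra h
    have a1 : τ * H ≤ c * D * H := Nat.mul_le_mul_right _ (not_lt.1 h)
    have a2 : 6 * c * H * D ≤ (d + 3) * D := Nat.mul_le_mul_right _ (by omega)
    have a3 : (d + 3) * D ≤ 6 * (d + 2 + 3).choose 3 := by rw [h2, hD]; nlinarith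
    nlinarith
  have h9 : 1 ≤ D := by rw [hD]; exact Nat.one_le_pow _ _ (by omega)
  have h10 : (d + 1) ^ 2 ≤ D := by rw [hD]; exact Nat.pow_le_pow_left (by omega) _
  have b1 : e ≤ e * D := Nat.le_mul_of_pos_right _ h9
  have b2 : H ≤ H * D := Nat.le_mul_of_pos_right _ h9
  have b3 : b ≤ b * D := Nat.le_mul_of_pos_right _ h9
  have b4 : n * (d + 1) ^ 2 ≤ n * D := Nat.mul_le_mul_left _ h10
  have b5 : c * D = 4 * D + 4 * (e * D) + 4 * (H * D) + 4 * (n * D) + b * D := by rw [hc]; ring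
  refine ⟨d, τ, by omega, by omega, by omega, h5.le, ?_⟩
  obtain ⟨M, hM⟩ : ∃ M, 4 * H = M + 1 := ⟨4 * H - 1, by omega⟩
  have b6 : 4 * τ * M + 4 * τ = 16 * (τ * H) := by nlinarith
  rw [hM, Nat.add_sub_cancel, mul_assoc 16 n]
  omega

variable {K : Type} [Field K] [CharP K 2]

lemma nums (i : ℕ) :
    finrank K (EE K (i + 3 : ℕ)) = 2 * finrank K (LL K (i + 3 : ℕ)) + (i + 3) + 2 ∧
    finrank K (Sd K (i + 3 : ℕ)) = finrank K (LL K (i + 3 : ℕ)) + 2 * (i + 3) + 2 ∧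
    2 * finrank K (Sd K ((i + 3 : ℕ) - 1)) < finrank K (EE K (i + 3 : ℕ)) := by
  have h1 := fr_EE (K := K) (i + 3 : ℕ)
  have h2 := fr_LP (K := K) (j := i + 3) (by omega)
  rw [show ((i + 3 : ℕ) : ℤ) - 3 = (i : ℕ) by push_cast; ring] at h1
  rw [show ((i + 3 : ℕ) : ℤ) - 1 = (i + 2 : ℕ) by push_cast; ring] at h1 ⊢
  rw [fr_LL]
  simp only [fr_Sd] at h1 ⊢
  have a1 : (i + 4).choose 3 = (i + 3).choose 2 + (i + 3).choose 3 := Nat.choose_succ_succ' _ _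
  have a2 : (i + 2 + 3).choose 3 = (i + 4).choose 2 + (i + 4).choose 3 :=
    Nat.choose_succ_succ' (i + 4) _
  have a3 : (i + 3 + 3).choose 3 = (i + 5).choose 2 + (i + 2 + 3).choose 3 :=
    Nat.choose_succ_succ' (i + 5) _
  have a4 : (i + 4).choose 2 = (i + 3).choose 1 + (i + 3).choose 2 := Nat.choose_succ_succ' _ _
  have a5 : (i + 5).choose 2 = (i + 4).choose 1 + (i + 4).choose 2 := Nat.choose_succ_succ' _ _
  rw [Nat.choose_one_right] at a4 a5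
  omega

lemma low : finrank K (TT K (0 : ℕ)) = 1 ∧ finrank K (TT K (1 : ℕ)) = 7 ∧
    finrank K (TT K (2 : ℕ)) = 25 := by
  have s0 : finrank K (Sd K 0) = 1 := fr_Sd 0
  have s1 : finrank K (Sd K 1) = 4 := fr_Sd 1
  have s2 : finrank K (Sd K 2) = 10 := fr_Sd 2
  have t1 : finrank K (Sd K (-1)) = 0 := by rw [Sd_neg (by omega), finrank_bot]
  have t2 : finrank K (Sd K (-2)) = 0 := by rw [Sd_neg (by omega), finrank_bot]
  have t3 : finrank K (Sd K (-3)) = 0 := by rw [Sd_neg (by omega), finrank_bot]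
  have e0 : finrank K (EE K 0) + finrank K (Sd K (-3)) = 3 * finrank K (Sd K (-1)) := fr_EE 0
  have e1 : finrank K (EE K 1) + finrank K (Sd K (-2)) = 3 * finrank K (Sd K 0) := fr_EE 1
  have e2 : finrank K (EE K 2) + finrank K (Sd K (-1)) = 3 * finrank K (Sd K 1) := fr_EE 2
  have l0 : finrank K (LP K 0) = 3 * finrank K (Sd K (-2)) := fr_LP_low (by omega)
  have l1 : finrank K (LP K 1) = 3 * finrank K (Sd K (-1)) := fr_LP_low (by omega)
  have l2 : finrank K (LP K 2) = 3 * finrank K (Sd K 0) := fr_LP_low (by omega)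
  change finrank K (TT K 0) = 1 ∧ finrank K (TT K 1) = 7 ∧ finrank K (TT K 2) = 25
  simp only [fr_TT, fr_LL]
  omega

lemma high (i : ℕ) :
    finrank K (TT K (i + 3 : ℕ)) + 5 * (i + 3) + 4 = 4 * (i + 3 + 3).choose 3 := by
  obtain ⟨h1, h2, -⟩ := nums (K := K) i
  rw [fr_TT, ← fr_Sd (K := K)]
  omega

theorem partI (K : Type) [Field K] [Infinite K] [CharP K 2] :
    ∃ H : ℕ → ℕ, H 1 = 7 ∧ H 2 = 25 ∧ 61 ≤ H 3 ∧
    (∃ C : ℕ, ∀ j, 4 * (j + 3).choose 3 ≤ H j + 5 * j + C ∧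
      H j + 5 * j ≤ 4 * (j + 3).choose 3 + C) ∧
    ∀ n : ℕ, ∃ (j d t : ℕ) (h : List ℕ), n ≤ j ∧ n ≤ d ∧ h.length = d + j + 1 ∧ IsLevel K h ∧
      (∀ i ≤ d, h.getD i 0 = H i) ∧ 0 < h.getD (d + j) 0 ∧ h.getD (d + j) 0 ≤ t ∧
      t * (4 * H j - 1) + 16 * n * (d + 1) ^ 2 < 16 * (d + 3).choose 3 := by
  obtain ⟨l0, l1, l2⟩ := low (K := K)
  refine ⟨fun j => finrank K (TT K j), l1, l2, ?_, ⟨5, fun j => ?_⟩, fun n => ?_⟩
  · have := high (K := K) 0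
    simp only [Nat.choose] at this
    change 61 ≤ finrank K (TT K (0 + 3 : ℕ))
    omega
  · rcases j with _ | _ | _ | i
    · simp only [l0]; decide
    · simp only [Nat.zero_add, l1]; decide
    · simp only [Nat.zero_add, Nat.reduceAdd, l2]; decide
    · have := high (K := K) i
      change 4 * (i + 3 + 3).choose 3 ≤ finrank K (TT K (i + 3 : ℕ)) + 5 * (i + 3) + 5 ∧
        finrank K (TT K (i + 3 : ℕ)) + 5 * (i + 3) ≤ 4 * (i + 3 + 3).choose 3 + 5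
      omega
  · obtain ⟨h1, h2, h3⟩ := nums (K := K) n
    have h4 : finrank K (TT K (n + 3 : ℕ)) =
        4 * finrank K (LL K (n + 3 : ℕ)) + 3 * (n + 3) + 4 := by
      rw [fr_TT]; omega
    obtain ⟨d, τ, a1, a2, a3, a4, a5⟩ := params n (finrank K (EE K (n + 3 : ℕ)))
      (finrank K (TT K (n + 3 : ℕ))) (finrank K (Sd K ((n + 3 : ℕ) + 1))) (by omega)
    obtain ⟨w, p, u, hS, hU⟩ := exists_config (K := K) (n + 3) d τ h1 h2 h3 a2 a3 (by
      rw [← h4, show (d : ℤ) + 2 = (d + 2 : ℕ) by push_cast; ring, fr_Sd]; exact a4)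
    obtain ⟨h, b1, b2, b3, b4, b5⟩ := level_of_config (n + 3) d p u hS hU
    refine ⟨n + 3, d, 4 * τ, h, by omega, a1, b1, b2, b3, b4, ?_, a5⟩
    simpa [mul_comm] using b5

end Pool.Agent.Lib.MP_a9ad87_al.Two
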