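import Pool.Agent.Lib.MP_a9ad87_al.LimMain
import Pool.Agent.Lib.MP_a9ad87_al.TwoMain

namespace Pool.Agent.Lib.MP_a9ad87_al.Lim

open Ch

universe v

theorem final
    (noAS : ∀ (K : Type v) [Field K] [IsAlgClosed K] [CharZero K] (B : Type v) [CommRing B]
      [Algebra (FF K) B] [Algebra K B] [IsScalarTower K (FF K) B] (D : AS K (FF K) B),
      D.x = xx K → False)
    (K : Type) [Field K] [Infinite K] [CharP K 2] :
    ∃ h : List ℕ, 0 < h.getD (h.length - 1) 0 ∧ IsLevel K h ∧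
      ∀ (k : Type v) [Field k] [CharZero k], ¬ IsLevel k h := by
  by_contra hc
  push Not at hc
  obtain ⟨H, h1, h2, h3, hb, hall⟩ := Two.partI K
  obtain ⟨L, _, _, _, B, _, _, _, _, D, hD⟩ := partIII.{v} h1 h2 h3 hb fun n => by
    obtain ⟨j, d, t, h, a1, a2, a3, a4, a5, a6, a7, a8⟩ := hall n
    obtain ⟨k, _, _, hk⟩ := hc h (by rw [a3]; exact a6) a4
    exact ⟨j, d, t, h, k, inferInstance, inferInstance, a1, a2, a3, hk, a5, a7, a8⟩
  exact noAS L B D hD

theorem final2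
    (noAS : ∀ (K : Type v) [Field K] [IsAlgClosed K] [CharZero K] (B : Type v) [CommRing B]
      [Algebra (FF K) B] [Algebra K B] [IsScalarTower K (FF K) B] (D : AS K (FF K) B),
      D.x = xx K → False) :
    ∃ h : List ℕ, 0 < h.getD (h.length - 1) 0 ∧
      (∃ (K : Type) (_ : Field K) (_ : Infinite K) (_ : CharP K 2), IsLevel K h) ∧
      ∀ (k : Type v) [Field k] [CharZero k], ¬ IsLevel k h := by
  obtain ⟨h, h1, h2, h3⟩ := final noAS (AlgebraicClosure (ZMod 2))
  exact ⟨h, h1, ⟨_, inferInstance, inferInstance, inferInstance, h2⟩, h3⟩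

end Pool.Agent.Lib.MP_a9ad87_al.Lim
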