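import Pool.Agent.Lib.MP_a9ad87_al.LimD

namespace Pool.Agent.Lib.MP_a9ad87_al.Lim

open MvPolynomial Module Submodule Ch

universe v

section loc
variable {K : Type v} [Field K] {Λ : Type v} [CommRing Λ] [Algebra K Λ]

lemma aeval_scale {T : Type*} [CommRing T] [Algebra K T] (φ : Λ →ₐ[K] T) (w : T) {n : ℕ}
    (z : Fin n → Λ) (i : ℕ) : ∀ f ∈ Hm n K i,
      aeval (fun a => φ (z a) * w) f = φ (aeval z f) * w ^ i := by
  intro f hf
  rw [Hm, ← homogeneousSubmodule_one_pow] at hf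
  induction hf using Submodule.pow_induction_on_left' with
  | algebraMap c => simp
  | add f g i _ _ h1 h2 => rw [map_add, map_add, map_add, h1, h2, add_mul]
  | mem_mul m hm i f _ ih =>
    have : aeval (fun a => φ (z a) * w) m = φ (aeval z m) * w := by
      rw [homogeneousSubmodule_one_eq_span_X] at hm
      induction hm using Submodule.span_induction with
      | mem u hu => obtain ⟨a, rfl⟩ := hu; simp
      | zero => simp
      | add u v _ _ h1 h2 => rw [map_add, map_add, map_add, h1, h2, add_mul]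
      | smul c u _ h1 => rw [map_smul, map_smul, map_smul, h1, smul_mul_assoc]
    rw [map_mul, map_mul, map_mul, ih, this, pow_succ]; ring

/-- values of nonzero forms -/
def forms (u : Fin 4 → Λ) : Submonoid Λ where
  carrier := {g | ∃ k, ∃ G ∈ Hm 4 K k, G ≠ 0 ∧ aeval u G = g}
  one_mem' := ⟨0, 1, isHomogeneous_one _ _, one_ne_zero, map_one _⟩
  mul_mem' := by
    rintro _ _ ⟨k, G, h1, h2, rfl⟩ ⟨k', G', h3, h4, rfl⟩
    exact ⟨k + k', G * G', IsHomogeneous.mul h1 h3, mul_ne_zero h2 h4, map_mul _ _ _⟩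

lemma homog (q : MvPolynomial (Fin 3) K) : ∃ k, ∃ G ∈ Hm 4 K k, aeval (x3 K) G = q := by
  obtain ⟨k, hk⟩ := poly_mem q
  obtain ⟨G, hG, e⟩ := mem_Upow.1 hk
  rw [aeval_xx] at e
  exact ⟨k, G, hG, IsFractionRing.injective (MvPolynomial (Fin 3) K) (FF K) e⟩

theorem construct (z : Fin 7 → Λ) (u : Fin 4 → Λ) (hu : ∀ a, u a ∈ span K (Set.range z))
    (hp : ∀ k, ∀ G ∈ Hm 4 K k, G ≠ 0 → ∀ i, ∀ f ∈ span K (Set.range z) ^ i,
      aeval u G * f = 0 → f = 0) :
    ∃ (B : Type v) (_ : CommRing B) (_ : Algebra (FF K) B) (_ : Algebra K B)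
      (_ : IsScalarTower K (FF K) B) (y : Fin 7 → B),
      (∀ i, ∀ f ∈ Hm 7 K i, aeval y f = 0 ↔ aeval z f = 0) ∧
      (∀ a, ∃ l ∈ Hm 7 K 1, aeval z l = u a ∧ aeval y l = algebraMap (FF K) B (xx K a)) ∧
      Algebra.adjoin (FF K) (Set.range y) = ⊤ := by
  let T := Localization (forms (K := K) u)
  let φ : Λ →ₐ[K] T := IsScalarTower.toAlgHom K Λ T
  have hun : ∀ k, ∀ G ∈ Hm 4 K k, G ≠ 0 → IsUnit (φ (aeval u G)) := fun k G h1 h2 =>
    IsLocalization.map_units T (⟨_, k, G, h1, h2, rfl⟩ : forms (K := K) u)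
  obtain ⟨w, hw⟩ := (hun 1 (X 0) (isHomogeneous_X K 0) (X_ne_zero 0)).exists_right_inv
  rw [aeval_X] at hw
  have hwu : IsUnit w := IsUnit.of_mul_eq_one_right _ hw
  let g : MvPolynomial (Fin 3) K →ₐ[K] T := aeval fun a => φ (u a.succ) * w
  have hg : ∀ a, g (x3 K a) = φ (u a) * w := fun a => by
    refine Fin.cases ?_ (fun a => ?_) a
    · simp [x3, hw]
    · simp [x3, g]
  have hg2 : ∀ q : nonZeroDivisors (MvPolynomial (Fin 3) K), IsUnit (g.toRingHom q) := fun q => by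
    obtain ⟨k, G, hG, e⟩ := homog q.1
    have h0 : G ≠ 0 := by
      rintro rfl; exact nonZeroDivisors.ne_zero q.2 (by simpa using e.symm)
    have e2 : g.comp (aeval (x3 K)) = aeval fun a => φ (u a) * w := by
      ext a; simp [hg]
    have e3 : g q = φ (aeval u G) * w ^ k := by
      rw [← e, ← aeval_scale φ w u k G hG, ← e2]; rfl
    change IsUnit (g q)
    rw [e3]; exact (hun k G hG h0).mul (hwu.pow k)
  let : Algebra (FF K) T := (IsLocalization.lift (S := FF K) hg2).toAlgebra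
  have hFT : ∀ q : MvPolynomial (Fin 3) K,
      algebraMap (FF K) T (algebraMap (MvPolynomial (Fin 3) K) (FF K) q) = g q :=
    fun q => IsLocalization.lift_eq hg2 q
  have : IsScalarTower K (FF K) T := IsScalarTower.of_algebraMap_eq fun c => by
    rw [IsScalarTower.algebraMap_apply K (MvPolynomial (Fin 3) K) (FF K), hFT, AlgHom.commutes]
  let θ : Fin 7 → T := fun a => φ (z a) * w
  let B := Algebra.adjoin (FF K) (Set.range θ)
  let y : Fin 7 → B := fun a => ⟨θ a, Algebra.subset_adjoin ⟨a, rfl⟩⟩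
  have hy : ∀ f : P K, ((aeval y f : B) : T) = aeval θ f := fun f => by
    have : (B.val.restrictScalars K).comp (aeval y) = aeval θ := by ext a; simp [y]
    rw [← this]; rfl
  refine ⟨B, inferInstance, inferInstance, inferInstance, inferInstance, y, fun i f hf => ?_,
    fun a => ?_, ?_⟩
  · rw [← ZeroMemClass.coe_eq_zero, hy, aeval_scale φ w z i f hf, (hwu.pow i).mul_left_eq_zero]
    refine ⟨fun h => ?_, fun h => by rw [h, map_zero]⟩
    obtain ⟨⟨_, k, G, h1, h2, rfl⟩, e⟩ := (IsLocalization.map_eq_zero_iff (forms (K := K) u) T _).1 h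
    exact hp k G h1 h2 i _ (mem_spow.2 ⟨f, hf, rfl⟩) e
  · obtain ⟨l, hl, e⟩ := (mem_spow (i := 1)).1 (by rw [pow_one]; exact hu a)
    refine ⟨l, hl, e, Subtype.ext ?_⟩
    rw [hy, aeval_scale φ w z 1 l hl, e, pow_one, ← hg, ← hFT]; rfl
  · rw [← Algebra.adjoin_adjoin_coe_preimage (s := Set.range θ)]
    congr 1
    ext b
    exact ⟨fun ⟨a, e⟩ => ⟨a, congrArg Subtype.val e⟩, fun ⟨a, e⟩ => ⟨a, Subtype.ext e⟩⟩

theorem ofLR [Infinite K] {H : ℕ → ℕ} {I : Ideal (P K)} (h : LR H I) (h1 : H 1 = 7)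
    (h2 : H 2 = 25) (h3 : 61 ≤ H 3) {C : ℕ}
    (hb : ∀ j, 4 * s j ≤ H j + 5 * j + C ∧ H j + 5 * j ≤ 4 * s j + C) :
    ∃ (B : Type v) (_ : CommRing B) (_ : Algebra (FF K) B) (_ : Algebra K B)
      (_ : IsScalarTower K (FF K) B) (D : AS K (FF K) B), D.x = xx K := by
  let z : Fin 7 → P K ⧸ I := fun a => Ideal.Quotient.mk I (X a)
  have hz : ∀ f : P K, aeval z f = 0 ↔ f ∈ I := fun f => by
    have : (aeval z : P K →ₐ[K] P K ⧸ I) = Ideal.Quotient.mkₐ K I := by ext a; simp [z]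
    rw [this]; exact Ideal.Quotient.eq_zero_iff_mem
  have hG := h.ga z fun i f _ => hz f
  have := hG.fin
  have : Nontrivial (P K ⧸ I) := by
    by_contra hc
    rw [not_nontrivial_iff_subsingleton] at hc
    have := hG.dim 1
    rw [Module.finrank_zero_of_subsingleton] at this
    omega
  obtain ⟨r, u, hu, hr, m, hm⟩ := noether (K := K) z
  have hU : span K (Set.range u) ≤ span K (Set.range z) :=
    span_le.2 (by rintro _ ⟨a, rfl⟩; exact hu a)
  have : FiniteDimensional K (span K (Set.range u)) := Submodule.finiteDimensional_of_le hU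
  obtain rfl : r = 4 := four_of (m := m) hb
    (fun i => by
      rw [← hr.dim, ← hG.dim]; exact Submodule.finrank_mono (pow_le_pow_left' hU i))
    (fun i => by
      rw [← hr.dim, ← hG.dim, ← hG.dim]
      exact (Submodule.finrank_mono (nn_pow hm i)).trans (finrank_mul_le _ _))
  obtain ⟨B, _, _, _, _, y, a1, a2, a3⟩ := construct z u hu fun k G b1 b2 i f b3 b4 =>
    hG.pure (fun j => (hb j).1) hu hr hm b1 b2 b3 b4
  choose l l1 l2 l3 using a2
  have hl : span K (Set.range l) ≤ Hm 7 K 1 := span_le.2 (by rintro _ ⟨a, rfl⟩; exact l1 a)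
  have e1 : (span K (Set.range l)).map (aeval z : P K →ₐ[K] _).toLinearMap =
      span K (Set.range u) := by
    rw [Submodule.map_span, ← Set.range_comp]; congr 2; funext a; exact l2 a
  have e2 : (span K (Set.range l)).map (aeval y : P K →ₐ[K] _).toLinearMap =
      (UU K (xx K)).map (IsScalarTower.toAlgHom K (FF K) B).toLinearMap := by
    rw [UU, Submodule.map_span, Submodule.map_span, ← Set.range_comp, ← Set.range_comp]
    congr 2; funext a; exact l3 a
  refine ⟨B, _, _, _, _, mkAS (m := m) inj_xx frc_xx one_mem_xx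
    (h.ga y fun i f hf => (a1 i f hf).trans (hz f)) (fun v hv => ?_) ?_ (fun b hb => ?_)
    h1 h2 h3 hb⟩
  · have : algebraMap (FF K) B v ∈
        (UU K (xx K)).map (IsScalarTower.toAlgHom K (FF K) B).toLinearMap := ⟨v, hv, rfl⟩
    rw [← e2] at this
    have := Submodule.map_mono hl this
    rwa [map_Hm, pow_one] at this
  · rw [eq_top_iff, ← a3]; exact Algebra.adjoin_mono subset_span
  · obtain ⟨f, hf, rfl⟩ := mem_spow.1 hb
    have c1 := hm (mem_spow.2 ⟨f, hf, rfl⟩)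
    rw [← e1, ← map_Hm, ← Submodule.map_mul] at c1
    obtain ⟨f', c2, c3⟩ := c1
    have c4 : f' ∈ Hm 7 K (m + 1) := by rw [Hm_succ]; exact mul_le_mul' hl le_rfl c2
    have c5 := (a1 _ _ (sub_mem c4 hf)).2 (by rw [map_sub, sub_eq_zero]; exact c3)
    rw [map_sub, sub_eq_zero] at c5
    rw [← c5, ← e2, ← map_Hm, ← Submodule.map_mul]
    exact ⟨f', c2, rfl⟩

end loc

theorem partIII {H : ℕ → ℕ} (h1 : H 1 = 7) (h2 : H 2 = 25) (h3 : 61 ≤ H 3)
  (hb : ∃ C : ℕ, ∀ j, 4 * (j+3).choose 3 ≤ H j + 5 * j + C ∧ H j + 5 * j ≤ 4 * (j+3).choose 3 + C)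
  (hall : ∀ n : ℕ, ∃ (j d t : ℕ) (h : List ℕ) (k : Type v) (_ : Field k) (_ : CharZero k),
     n ≤ j ∧ n ≤ d ∧ h.length = d + j + 1 ∧ IsLevel k h ∧ (∀ i ≤ d, h.getD i 0 = H i) ∧
     h.getD (d + j) 0 ≤ t ∧ t * (4 * H j - 1) + 16 * n * (d + 1) ^ 2 < 16 * (d+3).choose 3) :
  ∃ (K : Type v) (_ : Field K) (_ : IsAlgClosed K) (_ : CharZero K) (B : Type v) (_ : CommRing B)
    (_ : Algebra (FF K) B) (_ : Algebra K B) (_ : IsScalarTower K (FF K) B) (D : AS K (FF K) B),
    D.x = xx K := by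
  obtain ⟨C, hb⟩ := hb
  have h : ∀ n : ℕ, ∃ (j d t : ℕ) (k : Type v) (_ : Field k) (_ : CharZero k) (_ : IsAlgClosed k)
      (I : Ideal (P k)), n ≤ j ∧ n ≤ d ∧ LV H d j t I ∧
      t * (4 * H j - 1) + 16 * n * (d + 1) ^ 2 < 16 * s d := fun n => by
    obtain ⟨j, d, t, h, k, _, _, a1, a2, a3, a4, a5, a6, a7⟩ := hall (n + 1)
    obtain ⟨I, hI⟩ := stepA h1 (by omega) a3 a4 a5 a6
    refine ⟨j, d, t, AlgebraicClosure k, inferInstance, inferInstance, inferInstance, I,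
      by omega, by omega, hI, lt_of_le_of_lt ?_ a7⟩
    gcongr; omega
  choose j d t k _ _ _ I a1 a2 a3 a4 using h
  obtain ⟨K, _, _, _, π, hs, h0⟩ := exists_ultra k
  exact ⟨K, inferInstance, inferInstance, inferInstance,
    ofLR (stepB hs h0 a2 a1 a3 a4) h1 h2 h3 hb⟩

end Pool.Agent.Lib.MP_a9ad87_al.Lim
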