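import Pool.Agent.Lib.MP_a9ad87_al.Comb2

namespace Pool.Agent.Lib.MP_a9ad87_al

open Classical Finset

lemma card_sub_prod {κ α : Type} [Fintype κ] (Q : κ → Finset α)
    [Fintype {q : κ × α // q.2 ∈ Q q.1}] : Fintype.card {q : κ × α // q.2 ∈ Q q.1} = ∑ j, #(Q j) := by
  rw [Fintype.card_congr (Equiv.subtypeProdEquivSigmaSubtype fun j a => a ∈ Q j)]
  simp

lemma realII {κ : Type} [Fintype κ] (j0 : κ) (n d : κ → ℕ) (h : ℕ) (h1 : ∀ j, 1 ≤ n j)
    (h2 : ∀ j, n j ≤ n j0) (h3 : ∀ j, d j ≤ (n j).choose 2) (h4 : ∀ j, d j ≤ d j0)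
    (h5 : (n j0 - 1).choose 2 ≤ d j0) (h6 : h ≤ d j0 + n j0) :
    Real3 (n j0 + ∑ j, (d j + n j)) (d j0 + n j0 + ∑ j, n j) (Fintype.card κ + h) := by
  set N := n j0 with hN
  let B : ℕ → Finset (Fin N) := fun m => {i | i.1 < m}
  let Ed : ℕ → Finset (Fin N × Fin N) := fun m => {x ∈ B m ×ˢ B m | x.1 < x.2}
  have hB : ∀ m ≤ N, #(B m) = m := fun m hm => by
    simp only [B]; rw [Fin.card_filter_val_lt]; omega
  have hEd : ∀ m ≤ N, #(Ed m) = m.choose 2 := fun m hm => by
    simp only [Ed]; rw [card_product_filter_lt, hB m hm]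
  have hmono : ∀ m m', m ≤ m' → Ed m ⊆ Ed m' := by
    intro m m' hm x
    simp only [Ed, B, mem_filter, mem_product, mem_univ, true_and]
    omega
  obtain ⟨E0, a1, a2, a3⟩ := exists_subsuperset_card_eq (n := d j0) (hmono (N - 1) N (by omega))
    (by rw [hEd _ (by omega)]; exact h5) (by rw [hEd _ le_rfl]; exact h3 j0)
  have hE : ∀ j, ∃ E ⊆ E0 ∩ Ed (n j), #E = d j := by
    intro j
    apply exists_subset_card_eq
    by_cases hj : n j = N
    · rw [hj, inter_eq_left.2 a2, a3]; exact h4 j
    · have := h2 j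
      rw [inter_eq_right.2 ((hmono _ _ (by omega)).trans a1), hEd _ this]; exact h3 j
  choose E b1 b2 using hE
  have hE0 : E j0 = E0 :=
    eq_of_subset_of_card_le ((b1 j0).trans inter_subset_left) (by rw [a3, b2])
  have hEm : ∀ j, ∀ p ∈ E j, p.1 ∈ B (n j) ∧ p.2 ∈ B (n j) ∧ p.1 < p.2 := by
    intro j p hp
    have := (mem_inter.1 (b1 j hp)).2
    simp only [Ed, mem_filter, mem_product] at this
    tauto
  let Q : κ → Finset (Fin N × Fin N) := fun j => E j ∪ (B (n j)).diag
  have hQ : ∀ j, #(Q j) = d j + n j := by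
    intro j
    simp only [Q]
    rw [card_union_of_disjoint, b2, diag_card, hB _ (h2 j)]
    rw [disjoint_left]
    intro p hp hp'
    exact absurd (mem_diag.1 hp').2 (hEm j p hp).2.2.ne
  have hB0 : ∀ u, u ∈ B (n j0) := fun u => by simp [B, ← hN]
  obtain ⟨H, c1, c2⟩ := exists_subset_card_eq (s := Q j0) (n := h) (by rw [hQ]; exact h6)
  refine ⟨_, _, _, inferInstance, inferInstance, inferInstance, ?_, ?_, ?_,
    ⟨datII j0 Q (fun j => B (n j)) H ?_ ?_ ?_ ?_ ?_ hB0 fun p hp => c1 hp⟩⟩
  · rw [Fintype.card_sum, card_sub_prod Q]; simp [hQ]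
  · rw [Fintype.card_sum, card_sub_prod fun j => B (n j), Fintype.card_coe, hQ,
      sum_congr rfl fun j _ => hB _ (h2 j)]
  · simp [c2]
  · intro j p hp
    rcases mem_union.1 hp with hp | hp
    · exact (hEm j p hp).2.2.le
    · exact (mem_diag.1 hp).2.le
  · intro j p hp
    rcases mem_union.1 hp with hp | hp
    · exact mem_union_left _ (hE0 ▸ (mem_inter.1 (b1 j hp)).1)
    · exact mem_union_right _ (mem_diag.2 ⟨hB0 _, (mem_diag.1 hp).2⟩)
  · intro j p hp
    rcases mem_union.1 hp with hp | hp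
    · exact ⟨(hEm j p hp).1, (hEm j p hp).2.1⟩
    · exact ⟨(mem_diag.1 hp).1, (mem_diag.1 hp).2 ▸ (mem_diag.1 hp).1⟩
  · intro j u hu
    exact mem_union_right _ (mem_diag.2 ⟨hu, rfl⟩)
  · intro j
    have := h1 j
    have := h1 j0
    exact ⟨⟨0, by omega⟩, by simp [B]; omega⟩

lemma exists_le_sum {ι : Type} (s : Finset ι) (f : ι → ℕ) (m : ℕ) (hm : m ≤ ∑ i ∈ s, f i) :
    ∃ g : ι → ℕ, (∀ i, g i ≤ f i) ∧ ∑ i ∈ s, g i = m := by
  induction s using Finset.induction_on generalizing m with
  | empty => exact ⟨0, by simp, by simpa [eq_comm] using hm⟩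
  | insert i s hi ih =>
    rw [sum_insert hi] at hm
    obtain ⟨g, h1, h2⟩ := ih (m - f i) (by omega)
    refine ⟨Function.update g i (min m (f i)), fun j => ?_, ?_⟩
    · by_cases hj : j = i
      · subst hj; simp
      · rw [Function.update_of_ne hj]; exact h1 j
    · rw [sum_insert hi, Function.update_self,
        sum_congr rfl fun j hj => Function.update_of_ne (fun h : j = i => hi (h ▸ hj)) _ _, h2]
      omega

lemma le_choose_two (m : ℕ) : m ≤ m.choose 2 + 1 := by
  rcases m with _ | m
  · simp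
  induction m with
  | zero => simp
  | succ m ih => rw [Nat.choose_succ_succ' (m + 1) 1, Nat.choose_one_right]; omega

theorem suff {r a s : ℕ} (h1 : 2 * (s + 1) ≤ r + 1) (h2 : (s + 1) ^ 2 ≤ 4 * r)
    (h3 : a ≤ r * (s + 1)) {N D : ℕ} {n : Fin s → ℕ} (h4 : D ≤ N.choose 2)
    (h5 : D + 2 * N + ∑ j, n j ≤ a) (h6 : r ≤ a + ∑ j, min ((n j).choose 2) D) :
    Real3 r a (s + 1) := by
  by_cases har : r ≤ a
  · obtain ⟨e, rfl⟩ := Nat.exists_eq_add_of_le har
    by_cases he : s ≤ e
    · exact realI (by omega) he (by rw [mul_add, mul_one] at h3; omega)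
    · have := (realI (r := r - (s - e)) (w := e) (e := e) (by omega) le_rfl
        (Nat.le_mul_of_pos_left _ (by omega))).pad (by omega) 0 (s - e)
      convert this using 1 <;> omega
  · obtain ⟨d, d1, d2⟩ := exists_le_sum univ (fun j => min ((n j).choose 2) D) (r - a) (by omega)
    have hex : ∃ M : ℕ, D ≤ M.choose 2 := ⟨N, h4⟩
    set M := Nat.find hex with hM
    have m1 : D ≤ M.choose 2 := Nat.find_spec hex
    have m2 : M ≤ N := Nat.find_min' hex h4
    let κ := {j : Fin s // 0 < d j}
    have hsum : ∑ j : κ, d j = r - a := by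
      rw [← d2, ← Finset.sum_subtype (univ.filter fun j => 0 < d j) (by simp), sum_filter]
      exact sum_congr rfl fun j _ => by split_ifs <;> omega
    have hκ : 1 ≤ Fintype.card κ := by
      by_contra h
      have : IsEmpty κ := Fintype.card_eq_zero_iff.1 (by omega)
      simp at hsum; omega
    obtain ⟨j1⟩ : Nonempty κ := Fintype.card_pos_iff.1 hκ
    have hD : 1 ≤ D := by have := d1 j1; have := j1.2; omega
    have m3 : 1 ≤ M := by
      by_contra h
      have : M = 0 := by omega
      rw [this] at m1; simp at m1; omega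
    have m4 : (M - 1).choose 2 < D := by
      have := Nat.find_min hex (m := M - 1) (by omega)
      omega
    have m5 := le_choose_two (M - 1)
    have hκs : Fintype.card κ ≤ s := by simpa using Fintype.card_subtype_le fun j : Fin s => 0 < d j
    have hn : ∑ j : κ, min (n j) M ≤ ∑ j, n j := by
      rw [← Finset.sum_subtype (univ.filter fun j => 0 < d j) (by simp) fun j => min (n j) M]
      exact (sum_le_sum fun j _ => min_le_left _ _).trans
        (sum_le_sum_of_subset (filter_subset _ _))
    have hr : ∑ j : κ, (d j + min (n j) M) ≤ Fintype.card κ * (D + M) := by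
      have := sum_le_card_nsmul univ (fun j : κ => d j + min (n j) M) (D + M) fun j _ => by
        have := d1 j; omega
      simpa using this
    have core := fun h hh => realII (κ := Option κ) none (fun j => j.elim M fun j => min (n j) M)
      (fun j => j.elim D fun j => d j) h
      (by
        rintro (_ | j)
        · exact m3
        · have := d1 j
          have := j.2
          have : n j ≠ 0 := fun h => by simp [h] at *; omega
          simp only [Option.elim]; omega)
      (by rintro (_ | j) <;> simp)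
      (by
        rintro (_ | j)
        · exact m1
        · have := d1 j
          simp only [Option.elim]
          rcases le_total (n j) M with h | h
          · rw [min_eq_left h]; omega
          · rw [min_eq_right h]; omega)
      (by
        rintro (_ | j)
        · exact le_rfl
        · have := d1 j
          simp only [Option.elim]; omega) m4.le hh
    simp only [Fintype.sum_option, Option.elim, Fintype.card_option] at core
    rw [sum_add_distrib, hsum] at core hr
    set Sn := ∑ j : κ, min (n j) M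
    set u := Fintype.card κ
    obtain ⟨p, hp⟩ : ∃ p, a = D + 2 * M + Sn + p := ⟨a - (D + 2 * M + Sn), by omega⟩
    have key : s - u ≤ D + M + p := by
      by_contra hc
      have e1 : u + 1 + (D + M) + (p + 1) ≤ s + 1 := by omega
      have e2 : r ≤ M + (u + 1) * (D + M) + p := by rw [add_mul]; omega
      have e3 := Nat.pow_le_pow_left e1 2
      have e4 : 2 * M + 1 ≤ u + 1 + (D + M) := by omega
      have e5 := Nat.mul_le_mul_right (p + 1) e4
      nlinarith [sq_nonneg ((u + 1 : ℤ) - (D + M)), Nat.zero_le (M * p), Nat.zero_le (p * p)]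
    have := (core (min (s - u) (D + M)) (min_le_right _ _)).pad (by omega)
      (p - (s - u - (D + M))) (s - u - (D + M))
    convert this using 1 <;> omega

theorem main (k : Type*) [Field k] {r a s : ℕ} (h1 : 2 * (s + 1) ≤ r + 1)
    (h2 : (s + 1) ^ 2 ≤ 4 * r) :
    IsLevel k [1, r, a, s + 1] ↔ a ≤ r * (s + 1) ∧ ∃ (N D : ℕ) (n : Fin s → ℕ), D ≤ N.choose 2 ∧
      D + 2 * N + ∑ j, n j ≤ a ∧ r ≤ a + ∑ j, min ((n j).choose 2) D :=
  ⟨nec, fun ⟨h3, _, _, _, h4, h5, h6⟩ => (suff h1 h2 h3 h4 h5 h6).level k (by omega)⟩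

end Pool.Agent.Lib.MP_a9ad87_al
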