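import Mathlib

namespace Pool.Agent.Lib.MP_a9ad87_al

open Module Submodule

variable {k V B : Type*} [Field k] [AddCommGroup V] [Module k V] [FiniteDimensional k V]
  [AddCommGroup B] [Module k B] [FiniteDimensional k B]

lemma rank_flip (f : V →ₗ[k] B →ₗ[k] k) :
    finrank k V + finrank k (LinearMap.ker f.flip) = finrank k B + finrank k (LinearMap.ker f) := by
  have h1 := f.finrank_range_add_finrank_ker
  have h2 := f.flip.finrank_range_add_finrank_ker
  have h3 : f.flip = (LinearMap.dualMap (f : V →ₗ[k] Dual k B)) ∘ₗ (evalEquiv k B).toLinearMap := by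
    ext b v; simp
  have h4 : finrank k (LinearMap.range f.flip) = finrank k (LinearMap.range f) := by
    rw [h3, LinearMap.range_comp_of_range_eq_top _ (LinearEquiv.range _)]
    exact LinearMap.finrank_range_dualMap_eq_finrank_range (f : V →ₗ[k] Dual k B)
  omega

lemma finrank_comap_sub {W : Type*} [AddCommGroup W] [Module k W] (p q : Submodule k W) :
    finrank k (q.comap p.subtype) = finrank k (p ⊓ q : Submodule k W) := by
  rw [← Submodule.finrank_map_subtype_eq, Submodule.map_comap_subtype]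

lemma step (μ : V →ₗ[k] V →ₗ[k] B) (hμ : ∀ x y, μ x y = μ y x)
    (hspan : ∀ f : B →ₗ[k] k, (∀ x y, f (μ x y) = 0) → f = 0)
    (g : V →ₗ[k] B →ₗ[k] k) (hg : ∀ x y z, g x (μ y z) = g y (μ x z))
    (K : Submodule k V) (J : Submodule k B) (hKJ : ∀ x ∈ K, ∀ y, μ x y ∈ J) :
    ∃ n d : ℕ, d ≤ n.choose 2 ∧ d + 2 * n + finrank k (LinearMap.ker g) ≤ finrank k V ∧
      n + finrank k (J ⊓ LinearMap.ker g.flip : Submodule k B) ≤ finrank k J ∧
      finrank k K + finrank k (J ⊓ LinearMap.ker g.flip : Submodule k B) ≤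
        finrank k (K ⊓ LinearMap.ker g : Submodule k V) + finrank k J + d := by
  set Z := LinearMap.ker g with hZ
  set gJ : V →ₗ[k] J →ₗ[k] k := g.compl₂ J.subtype with hgJ
  set L := LinearMap.ker gJ with hL
  have hLm : ∀ z, z ∈ L ↔ ∀ b ∈ J, g z b = 0 := by
    intro z
    simp only [hL, LinearMap.mem_ker, hgJ, LinearMap.ext_iff]
    simp
  have hZm : ∀ z, z ∈ Z ↔ ∀ b, g z b = 0 := by
    intro z; simp only [hZ, LinearMap.mem_ker, LinearMap.ext_iff]; simp
  have e1 := rank_flip gJ
  have e2 : LinearMap.ker gJ.flip = (LinearMap.ker g.flip).comap J.subtype := by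
    ext b
    simp only [LinearMap.mem_ker, hgJ, LinearMap.ext_iff, Submodule.mem_comap]
    simp
  rw [e2, finrank_comap_sub, ← hL] at e1
  set M := (K ⊔ Z) ⊓ L with hM
  set S := (K ⊔ Z) ⊔ L with hS
  have e3 := Submodule.finrank_sup_add_finrank_inf_eq (K ⊔ Z) L
  have e4 := Submodule.finrank_sup_add_finrank_inf_eq K Z
  rw [← hM, ← hS] at e3
  obtain ⟨C, hC⟩ := Submodule.exists_isCompl S
  have e5 := Submodule.finrank_add_eq_of_isCompl hC
  set n := finrank k C with hn
  have hvan : ∀ z ∈ M, ∀ s ∈ S, ∀ y, g z (μ s y) = 0 := by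
    intro z hz s hs y
    obtain ⟨hz1, hz2⟩ := Submodule.mem_inf.1 hz
    obtain ⟨s1, hs1, s2, hs2, rfl⟩ := Submodule.mem_sup.1 hs
    obtain ⟨s3, hs3, s4, hs4, rfl⟩ := Submodule.mem_sup.1 hs1
    obtain ⟨z3, hz3, z4, hz4, hzz⟩ := Submodule.mem_sup.1 hz1
    have a1 : g z (μ s3 y) = 0 := (hLm z).1 hz2 _ (hKJ _ hs3 y)
    have a2 : g z (μ s4 y) = 0 := by rw [hg]; exact (hZm _).1 hs4 _
    have a3 : g z (μ s2 y) = 0 := by
      rw [← hzz, map_add, LinearMap.add_apply, (hZm _).1 hz4, add_zero, hg]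
      exact (hLm _).1 hs2 _ (hKJ _ hz3 y)
    simp only [map_add, LinearMap.add_apply, a1, a2, a3, add_zero]
  let b := Module.finBasis k C
  let Φ : V →ₗ[k] (Sym2 (Fin n) → k) := LinearMap.pi fun s : Sym2 (Fin n) =>
    Sym2.lift ⟨fun i j => g.flip (μ (b i) (b j)), fun i j => by simp only [hμ (b i) (b j)]⟩ s
  have hker : LinearMap.ker (Φ.domRestrict M) ≤ Z.comap M.subtype := by
    rintro ⟨z, hz⟩ h
    have h1 : ∀ i j, g z (μ (b i) (b j)) = 0 := fun i j => by
      have := congrFun (LinearMap.mem_ker.1 h) s(i, j)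
      simpa [Φ] using this
    have h2 : ∀ c c' : C, g z (μ c c') = 0 := by
      intro c c'
      rw [← b.sum_repr c, ← b.sum_repr c']
      simp only [Submodule.coe_sum, Submodule.coe_smul, map_sum, map_smul, LinearMap.sum_apply,
        LinearMap.smul_apply, h1, smul_zero, Finset.sum_const_zero]
    have h3 : g z = 0 := by
      apply hspan
      intro x y
      obtain ⟨x1, hx1, x2, hx2, rfl⟩ := Submodule.mem_sup.1 (hC.sup_eq_top ▸ Submodule.mem_top (x := x))
      obtain ⟨y1, hy1, y2, hy2, rfl⟩ := Submodule.mem_sup.1 (hC.sup_eq_top ▸ Submodule.mem_top (x := y))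
      have a1 := hvan z hz x1 hx1 (y1 + y2)
      have a2 := hvan z hz y1 hy1 x2
      have a3 := h2 ⟨x2, hx2⟩ ⟨y2, hy2⟩
      rw [hμ] at a2
      rw [map_add μ, LinearMap.add_apply, map_add (g z), a1, map_add, map_add, a2]
      simpa using a3
    exact h3
  have e6 := (Φ.domRestrict M).finrank_range_add_finrank_ker
  have e7 : finrank k (LinearMap.range (Φ.domRestrict M)) ≤ (n + 1).choose 2 := by
    have := Submodule.finrank_le (LinearMap.range (Φ.domRestrict M))
    simpa [Sym2.card] using this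
  have e8 : finrank k (LinearMap.ker (Φ.domRestrict M)) ≤ finrank k Z := by
    refine (Submodule.finrank_mono hker).trans ?_
    rw [finrank_comap_sub]
    exact Submodule.finrank_mono inf_le_right
  have e9 : finrank k M ≤ finrank k S := Submodule.finrank_mono (inf_le_left.trans le_sup_left)
  have e10 : finrank k L ≤ finrank k S := Submodule.finrank_mono le_sup_right
  have e11 : (n + 1).choose 2 = n.choose 2 + n := by
    rw [Nat.choose_succ_succ' n 1, Nat.choose_one_right]; ring
  have e12 : finrank k Z ≤ finrank k V := Submodule.finrank_le _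
  have e13 : finrank k (J ⊓ LinearMap.ker g.flip : Submodule k B) ≤ finrank k J :=
    Submodule.finrank_mono inf_le_left
  by_cases hc : finrank k K + finrank k (J ⊓ LinearMap.ker g.flip : Submodule k B) ≤
      finrank k (K ⊓ Z : Submodule k V) + finrank k J
  · exact ⟨0, 0, by simp, by omega, by omega, by omega⟩
  · refine ⟨n, finrank k K + finrank k (J ⊓ LinearMap.ker g.flip : Submodule k B) -
      (finrank k (K ⊓ Z : Submodule k V) + finrank k J), by omega, by omega, by omega, by omega⟩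

lemma steps (μ : V →ₗ[k] V →ₗ[k] B) (hμ : ∀ x y, μ x y = μ y x)
    (hspan : ∀ f : B →ₗ[k] k, (∀ x y, f (μ x y) = 0) → f = 0)
    {ι : Type*} (g0 : V →ₗ[k] B →ₗ[k] k) (hg0 : ∀ x y z, g0 x (μ y z) = g0 y (μ x z))
    (g : ι → V →ₗ[k] B →ₗ[k] k) (hg : ∀ i x y z, g i x (μ y z) = g i y (μ x z))
    (hmax : ∀ i, finrank k (LinearMap.ker g0) ≤ finrank k (LinearMap.ker (g i)))
    (s : Finset ι) :
    ∃ (n d : ι → ℕ) (K : Submodule k V) (J : Submodule k B),
      (∀ x, x ∈ K ↔ g0 x = 0 ∧ ∀ i ∈ s, g i x = 0) ∧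
      (∀ b, b ∈ J ↔ g0.flip b = 0 ∧ ∀ i ∈ s, (g i).flip b = 0) ∧
      (∀ i, d i ≤ (n i).choose 2 ∧ d i + 2 * n i + finrank k (LinearMap.ker g0) ≤ finrank k V) ∧
      finrank k V + ∑ i ∈ s, n i + finrank k J ≤ finrank k B + finrank k (LinearMap.ker g0) ∧
      finrank k V + finrank k J ≤ finrank k B + finrank k K + ∑ i ∈ s, d i := by
  classical
  induction s using Finset.induction_on with
  | empty =>
    have := rank_flip g0
    have h2 : finrank k (LinearMap.ker g0) ≤ finrank k V := Submodule.finrank_le _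
    exact ⟨0, 0, LinearMap.ker g0, LinearMap.ker g0.flip, by simp, by simp, fun _ => by simpa using h2,
      by simp; omega, by simp; omega⟩
  | insert i s hi ih =>
    obtain ⟨n, d, K, J, hK, hJ, h1, h2, h3⟩ := ih
    have hKJ : ∀ x ∈ K, ∀ y, μ x y ∈ J := by
      intro x hx y
      obtain ⟨a1, a2⟩ := (hK x).1 hx
      refine (hJ _).2 ⟨?_, fun j hj => ?_⟩
      · ext z; simp [hg0 z x y, a1]
      · ext z; simp [hg j z x y, a2 j hj]
    obtain ⟨n', d', b1, b2, b3, b4⟩ := step μ hμ hspan (g i) (hg i) K J hKJ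
    have hsum : ∀ (f : ι → ℕ) (v : ℕ), ∑ j ∈ insert i s, Function.update f i v j = v + ∑ j ∈ s, f j := by
      intro f v
      rw [Finset.sum_insert hi, Function.update_self]
      congr 1
      exact Finset.sum_congr rfl fun j hj => Function.update_of_ne (fun h : j = i => hi (h ▸ hj)) _ _
    refine ⟨Function.update n i n', Function.update d i d', K ⊓ LinearMap.ker (g i),
      J ⊓ LinearMap.ker (g i).flip, ?_, ?_, ?_, ?_, ?_⟩
    · intro x; simp only [Submodule.mem_inf, hK, LinearMap.mem_ker, Finset.forall_mem_insert]; tauto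
    · intro x; simp only [Submodule.mem_inf, hJ, LinearMap.mem_ker, Finset.forall_mem_insert]; tauto
    · intro j
      by_cases hj : j = i
      · subst hj
        have := hmax j
        simp only [Function.update_self]
        exact ⟨b1, by omega⟩
      · simp only [Function.update_of_ne hj]; exact h1 j
    · rw [hsum]; omega
    · rw [hsum]; omega

theorem nec_abs (μ : V →ₗ[k] V →ₗ[k] B) (hμ : ∀ x y, μ x y = μ y x)
    (hspan : ∀ f : B →ₗ[k] k, (∀ x y, f (μ x y) = 0) → f = 0)
    {s : ℕ} (g : Fin (s + 1) → V →ₗ[k] B →ₗ[k] k) (hg : ∀ i x y z, g i x (μ y z) = g i y (μ x z))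
    (hV : ∀ x, (∀ i, g i x = 0) → x = 0) (hB : ∀ b, (∀ i, (g i).flip b = 0) → b = 0) :
    finrank k B ≤ finrank k V * (s + 1) ∧ ∃ (N D : ℕ) (n : Fin s → ℕ), D ≤ N.choose 2 ∧
      D + 2 * N + ∑ j, n j ≤ finrank k B ∧
      finrank k V ≤ finrank k B + ∑ j, min ((n j).choose 2) D := by
  constructor
  · let Ψ : B →ₗ[k] (Fin (s + 1) → Dual k V) := LinearMap.pi fun i => (g i).flip
    have hinj : Function.Injective Ψ := by
      rw [← LinearMap.ker_eq_bot, LinearMap.ker_eq_bot']
      intro b hb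
      exact hB b fun i => congrFun hb i
    have := LinearMap.finrank_le_finrank_of_injective hinj
    simpa [Module.finrank_pi_fintype, mul_comm] using this
  · obtain ⟨j0, -, hj0⟩ := Finset.exists_min_image Finset.univ
      (fun i => finrank k (LinearMap.ker (g i))) Finset.univ_nonempty
    obtain ⟨n, d, K, J, hK, hJ, h1, h2, h3⟩ := steps μ hμ hspan (g j0) (hg j0)
      (fun i : Fin s => g (j0.succAbove i)) (fun i => hg _) (fun i => hj0 _ (Finset.mem_univ _))
      Finset.univ
    have hK0 : K = ⊥ := by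
      rw [eq_bot_iff]
      intro x hx
      obtain ⟨a1, a2⟩ := (hK x).1 hx
      refine hV x fun i => ?_
      refine Fin.succAboveCases j0 a1 (fun j => a2 j (Finset.mem_univ _)) i
    have hk : finrank k K = 0 := by rw [hK0]; simp
    have h0 : finrank k (LinearMap.ker (g j0)) ≤ finrank k V := Submodule.finrank_le _
    rcases Nat.eq_zero_or_pos s with rfl | hs
    · refine ⟨0, 0, n, by simp, by simp, ?_⟩
      simp at h3 ⊢; omega
    · have : Nonempty (Fin s) := ⟨⟨0, hs⟩⟩
      obtain ⟨i0, -, hi0⟩ := Finset.exists_max_image Finset.univ d Finset.univ_nonempty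
      refine ⟨n i0, d i0, n, (h1 i0).1, by have := (h1 i0).2; omega, ?_⟩
      have : ∑ j, d j ≤ ∑ j, min ((n j).choose 2) (d i0) :=
        Finset.sum_le_sum fun j _ => le_min (h1 j).1 (hi0 j (Finset.mem_univ _))
      omega

end Pool.Agent.Lib.MP_a9ad87_al
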