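import Pool.Agent.Lib.MP_a9ad87_al.Defs
import Pool.Agent.Lib.MP_a9ad87_al.Step

namespace Pool.Agent.Lib.MP_a9ad87_al

open MvPolynomial Module

variable {k : Type*} [Field k] {n : ℕ} (I : Ideal (MvPolynomial (Fin n) k))

instance piece_fin (i : ℕ) : FiniteDimensional k (piece k I i) := by
  have := (homogeneousSubmodule_fg (Fin n) k i).map (Ideal.Quotient.mkₐ k I).toLinearMap
  exact Module.Finite.iff_fg.2 this

lemma mem_piece {i : ℕ} {a : MvPolynomial (Fin n) k ⧸ I} :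
    a ∈ piece k I i ↔ ∃ p : MvPolynomial (Fin n) k, p.IsHomogeneous i ∧ Ideal.Quotient.mk I p = a := by
  simp [piece]

lemma piece_mul {i j : ℕ} {a b : MvPolynomial (Fin n) k ⧸ I} (ha : a ∈ piece k I i)
    (hb : b ∈ piece k I j) : a * b ∈ piece k I (i + j) := by
  obtain ⟨p, hp, rfl⟩ := (mem_piece I).1 ha
  obtain ⟨q, hq, rfl⟩ := (mem_piece I).1 hb
  exact (mem_piece I).2 ⟨p * q, hp.mul hq, by simp⟩

lemma X_mem (j : Fin n) : Ideal.Quotient.mk I (X j) ∈ piece k I 1 :=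
  (mem_piece I).2 ⟨X j, isHomogeneous_X k j, rfl⟩

lemma piece_disj (hI : ∀ p ∈ I, ∀ i, homogeneousComponent i p ∈ I) {i j : ℕ} (hij : i ≠ j)
    {a : MvPolynomial (Fin n) k ⧸ I} (ha : a ∈ piece k I i) (hb : a ∈ piece k I j) : a = 0 := by
  obtain ⟨p, hp, rfl⟩ := (mem_piece I).1 ha
  obtain ⟨q, hq, h⟩ := (mem_piece I).1 hb
  have h1 : p - q ∈ I := Ideal.Quotient.eq.1 h.symm
  have h2 := hI _ h1 i
  rw [map_sub, homogeneousComponent_eq_self hp, homogeneousComponent_of_mem hq, if_neg hij,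
    sub_zero] at h2
  exact Ideal.Quotient.eq_zero_iff_mem.2 h2

/-- multiplication of graded pieces -/
noncomputable def pmul (i j : ℕ) : piece k I i →ₗ[k] piece k I j →ₗ[k] piece k I (i + j) :=
  LinearMap.mk₂ k (fun a b => ⟨a.1 * b.1, piece_mul I a.2 b.2⟩)
    (fun _ _ _ => Subtype.ext (by simp [add_mul])) (fun _ _ _ => Subtype.ext (Algebra.smul_mul_assoc _ _ _))
    (fun _ _ _ => Subtype.ext (by simp [mul_add])) (fun _ _ _ => Subtype.ext (Algebra.mul_smul_comm _ _ _))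

@[simp] lemma pmul_coe (i j : ℕ) (a : piece k I i) (b : piece k I j) :
    (pmul I i j a b).1 = a.1 * b.1 := rfl

lemma span_two (f : piece k I 2 →ₗ[k] k) (hf : ∀ x y, f (pmul I 1 1 x y) = 0) : f = 0 := by
  ext ⟨b, hb⟩
  obtain ⟨p, hp, rfl⟩ := (mem_piece I).1 hb
  have h1 : p ∈ homogeneousSubmodule (Fin n) k 1 * homogeneousSubmodule (Fin n) k 1 := by
    rw [← pow_two, homogeneousSubmodule_one_pow]; exact hp
  have key : ∀ q ∈ homogeneousSubmodule (Fin n) k 1 * homogeneousSubmodule (Fin n) k 1,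
      ∃ h : Ideal.Quotient.mk I q ∈ piece k I 2, f ⟨_, h⟩ = 0 := by
    intro q hq
    refine Submodule.mul_induction_on hq ?_ ?_
    · intro x hx y hy
      have hx' : Ideal.Quotient.mk I x ∈ piece k I 1 := (mem_piece I).2 ⟨x, hx, rfl⟩
      have hy' : Ideal.Quotient.mk I y ∈ piece k I 1 := (mem_piece I).2 ⟨y, hy, rfl⟩
      exact ⟨piece_mul I hx' hy', hf ⟨_, hx'⟩ ⟨_, hy'⟩⟩
    · rintro x y ⟨hx, hx'⟩ ⟨hy, hy'⟩
      refine ⟨(piece k I 2).add_mem hx hy, ?_⟩
      have : f (⟨_, hx⟩ + ⟨_, hy⟩) = 0 := by rw [map_add, hx', hy', add_zero]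
      exact this
  exact (key p h1).2

theorem nec {r a s : ℕ} (h : IsLevel k [1, r, a, s + 1]) :
    a ≤ r * (s + 1) ∧ ∃ (N D : ℕ) (n : Fin s → ℕ), D ≤ N.choose 2 ∧
      D + 2 * N + ∑ j, n j ≤ a ∧ r ≤ a + ∑ j, min ((n j).choose 2) D := by
  obtain ⟨n, I, hI, hH, hS⟩ := h
  have h1 : finrank k (piece k I 1) = r := hH 1
  have h2 : finrank k (piece k I 2) = a := hH 2
  have h3 : finrank k (piece k I 3) = s + 1 := hH 3
  let c := Module.finBasisOfFinrankEq k (piece k I 3) h3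
  let g : Fin (s + 1) → piece k I 1 →ₗ[k] piece k I 2 →ₗ[k] k := fun i =>
    (pmul I 1 2).compr₂ (c.coord i)
  have hz : ∀ (x : piece k I 1) (b : piece k I 2), (∀ i, g i x b = 0) → x.1 * b.1 = 0 := by
    intro x b hb
    have : pmul I 1 2 x b = 0 := c.forall_coord_eq_zero_iff.1 hb
    exact congrArg Subtype.val this
  have hB : ∀ b : piece k I 2, (∀ x : piece k I 1, x.1 * b.1 = 0) → b = 0 := by
    intro b hb
    apply Subtype.ext
    refine piece_disj I hI (i := 2) (j := 3) (by norm_num) b.2 ((hS b.1).1 fun j => ?_)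
    rw [mul_comm]; exact hb ⟨_, X_mem I j⟩
  have := nec_abs (pmul I 1 1) (fun x y => Subtype.ext (mul_comm _ _)) (span_two I) g
    (fun i x y z => by
      change c.coord i _ = c.coord i _
      congr 1
      exact Subtype.ext (mul_left_comm _ _ _))
    (fun x hx => by
      apply Subtype.ext
      refine piece_disj I hI (i := 1) (j := 3) (by norm_num) x.2 ((hS x.1).1 fun j => ?_)
      have := hB (pmul I 1 1 x ⟨_, X_mem I j⟩) fun y => by
        have h := hz x (pmul I 1 1 y ⟨_, X_mem I j⟩) fun i => by rw [hx i]; rfl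
        simp only [pmul_coe] at h ⊢
        rw [mul_left_comm]; exact h
      exact congrArg Subtype.val this)
    (fun b hb => hB b fun x => hz x b fun i => by
      have := LinearMap.congr_fun (hb i) x
      simpa using this)
  rwa [h1, h2] at this

end Pool.Agent.Lib.MP_a9ad87_al
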