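import Pool.Agent.Lib.MP_a9ad87_al.TwoModel

namespace Pool.Agent.Lib.MP_a9ad87_al.Two

open MvPolynomial Module

variable {K : Type} [Field K]

lemma mono_mem (a b c d : ℕ) :
    (X 0 ^ a * X 1 ^ b * X 2 ^ c * X 3 ^ d : SS K) ∈ Sd K (a + b + c + d : ℕ) :=
  Sd_mul (Sd_mul (Sd_mul (Xpow_mem _ _) (Xpow_mem _ _) rfl) (Xpow_mem _ _) rfl) (Xpow_mem _ _)
    (by push_cast; ring)

lemma mixed_aux {a b c d : ℕ} (a' b' c' d' : ℕ) (f1 f2 f3 : SS K) (n : ℤ) (h1 : f1 ∈ Sd K n)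
    (h2 : f2 ∈ Sd K n) (h3 : f3 ∈ Sd K n) (hn : n + 2 = a' + b' + c' + d')
    (h : X 0 ^ a' * X 1 ^ b' * X 2 ^ c' * X 3 ^ d' = f1 * q1 K + f2 * q2 K + f3 * q3 K)
    (hl : a' ≤ a ∧ b' ≤ b ∧ c' ≤ c ∧ d' ≤ d) :
    (X 0 ^ a * X 1 ^ b * X 2 ^ c * X 3 ^ d : SS K) ∈ LP K (a + b + c + d : ℕ) := by
  obtain ⟨ha, hb, hc, hd⟩ := hl
  obtain ⟨a, rfl⟩ := Nat.exists_eq_add_of_le ha
  obtain ⟨b, rfl⟩ := Nat.exists_eq_add_of_le hb
  obtain ⟨c, rfl⟩ := Nat.exists_eq_add_of_le hc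
  obtain ⟨d, rfl⟩ := Nat.exists_eq_add_of_le hd
  have h4 : f1 * q1 K + f2 * q2 K + f3 * q3 K ∈ LP K (n + 2) :=
    mem_LP.2 ⟨f1, by simpa using h1, f2, by simpa using h2, f3, by simpa using h3, rfl⟩
  have := LP_mul (mono_mem a b c d) h4 (k := (a' + a + (b' + b) + (c' + c) + (d' + d) : ℕ))
    (by push_cast; omega)
  rw [← h] at this
  convert this using 1
  ring

lemma mixed {a b c d : ℕ} (h1 : 0 < a + b) (h2 : 0 < c + d) (h3 : 3 ≤ a + b + c + d) :
    (X 0 ^ a * X 1 ^ b * X 2 ^ c * X 3 ^ d : SS K) ∈ LP K (a + b + c + d : ℕ) := by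
  have z : ∀ n, (0 : SS K) ∈ Sd K n := fun n => Submodule.zero_mem _
  have o : (1 : SS K) ∈ Sd K 0 := mem_Sd_nat (n := 0).2 (isHomogeneous_one _ _)
  have x : ∀ i, (X i : SS K) ∈ Sd K 1 := X_mem
  have y : ∀ i, (-X i : SS K) ∈ Sd K 1 := fun i => Submodule.neg_mem _ (X_mem i)
  rcases (show (1 ≤ a ∧ 1 ≤ d) ∨ (1 ≤ b ∧ 1 ≤ c) ∨ (2 ≤ a ∧ 1 ≤ c) ∨ (1 ≤ a ∧ 2 ≤ c) ∨
    (2 ≤ b ∧ 1 ≤ d) ∨ (1 ≤ b ∧ 2 ≤ d) by omega) with h | h | h | h | h | h
  · exact mixed_aux 1 0 0 1 0 1 0 0 (z _) o (z _) rfl (by simp [q2]) (by omega)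
  · exact mixed_aux 0 1 1 0 0 0 1 0 (z _) (z _) o rfl (by simp [q3]) (by omega)
  · exact mixed_aux 2 0 1 0 _ _ 0 1 (x 0) (y 1) (z _) rfl (by unfold q1 q2; ring) (by omega)
  · exact mixed_aux 1 0 2 0 _ 0 _ 1 (x 2) (z _) (y 3) rfl (by unfold q1 q3; ring) (by omega)
  · exact mixed_aux 0 2 0 1 _ 0 _ 1 (x 1) (z _) (y 0) rfl (by unfold q1 q3; ring) (by omega)
  · exact mixed_aux 0 1 0 2 _ _ 0 1 (x 3) (y 2) (z _) rfl (by unfold q1 q2; ring) (by omega)

/-- binary forms -/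
abbrev BB (K : Type) [Field K] := MvPolynomial (Fin 2) K

noncomputable def p1 : SS K →ₐ[K] BB K := aeval ![X 0, X 1, 0, 0]
noncomputable def p2 : SS K →ₐ[K] BB K := aeval ![0, 0, X 0, X 1]
noncomputable def i1 : BB K →ₐ[K] SS K := aeval ![X 0, X 1]
noncomputable def i2 : BB K →ₐ[K] SS K := aeval ![X 2, X 3]

lemma p1_i1 (b : BB K) : p1 (i1 b) = b := by
  have : (p1 (K := K)).comp i1 = AlgHom.id K _ := by
    apply MvPolynomial.algHom_ext; intro i; fin_cases i <;> simp [p1, i1]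
  exact DFunLike.congr_fun this b

lemma p2_i2 (b : BB K) : p2 (i2 b) = b := by
  have : (p2 (K := K)).comp i2 = AlgHom.id K _ := by
    apply MvPolynomial.algHom_ext; intro i; fin_cases i <;> simp [p2, i2]
  exact DFunLike.congr_fun this b

lemma aeval_zero_hom {b : BB K} {j : ℕ} (hb : b.IsHomogeneous j) (hj : j ≠ 0) :
    aeval (fun _ => (0 : BB K)) b = 0 := by
  rw [aeval_zero', constantCoeff_eq, hb.coeff_eq_zero (by simpa using hj.symm), map_zero]

lemma p2_i1 {b : BB K} {j : ℕ} (hb : b.IsHomogeneous j) (hj : j ≠ 0) : p2 (i1 b) = 0 := by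
  have : (p2 (K := K)).comp i1 = aeval fun _ => 0 := by
    apply MvPolynomial.algHom_ext; intro i; fin_cases i <;> simp [p2, i1]
  exact (DFunLike.congr_fun this b).trans (aeval_zero_hom hb hj)

lemma p1_i2 {b : BB K} {j : ℕ} (hb : b.IsHomogeneous j) (hj : j ≠ 0) : p1 (i2 b) = 0 := by
  have : (p1 (K := K)).comp i2 = aeval fun _ => 0 := by
    apply MvPolynomial.algHom_ext; intro i; fin_cases i <;> simp [p1, i2]
  exact (DFunLike.congr_fun this b).trans (aeval_zero_hom hb hj)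

lemma aeval_hom {σ τ : Type} {f : MvPolynomial σ K} {j : ℕ} (hf : f.IsHomogeneous j)
    (g : σ → MvPolynomial τ K) (hg : ∀ i, (g i).IsHomogeneous 1) :
    (aeval g f).IsHomogeneous j := by
  simpa using hf.aeval g hg

lemma decomp {j : ℕ} (hj : 3 ≤ j) {f : SS K} (hf : f ∈ Sd K j) :
    f ∈ (homogeneousSubmodule (Fin 2) K j).map i1.toLinearMap ⊔
      (homogeneousSubmodule (Fin 2) K j).map i2.toLinearMap ⊔ LP K j := by
  rw [f.as_sum]
  refine Submodule.sum_mem _ fun m hm => ?_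
  have h1 : m 0 + m 1 + m 2 + m 3 = j := by
    have := mem_Sd.1 hf m (mem_support_iff.1 hm)
    rw [Finsupp.degree_eq_sum, Fin.sum_univ_four] at this
    exact_mod_cast this
  have h2 : monomial m (coeff m f) =
      coeff m f • (X 0 ^ m 0 * X 1 ^ m 1 * X 2 ^ m 2 * X 3 ^ m 3 : SS K) := by
    rw [monomial_eq, Finsupp.prod_fintype _ _ (by simp), Fin.prod_univ_four, C_mul']
  rw [h2]
  refine Submodule.smul_mem _ _ ?_
  have h3 : ∀ a b : ℕ, a + b = j → (X 0 ^ a * X 1 ^ b : BB K).IsHomogeneous j := by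
    rintro a b rfl
    exact (isHomogeneous_X_pow _ _).mul (isHomogeneous_X_pow _ _)
  by_cases hc : m 2 + m 3 = 0
  · refine Submodule.mem_sup_left (Submodule.mem_sup_left ⟨_, h3 (m 0) (m 1) (by omega), ?_⟩)
    simp [i1, show m 2 = 0 by omega, show m 3 = 0 by omega]
  by_cases ha : m 0 + m 1 = 0
  · refine Submodule.mem_sup_left (Submodule.mem_sup_right ⟨_, h3 (m 2) (m 3) (by omega), ?_⟩)
    simp [i2, show m 0 = 0 by omega, show m 1 = 0 by omega]
  refine Submodule.mem_sup_right ?_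
  rw [← h1]
  exact mixed (by omega) (by omega) (by omega)

lemma fr_LP {j : ℕ} (hj : 3 ≤ j) : finrank K (LP K j) + 2 * (j + 1) = (j + 3).choose 3 := by
  let pp : SS K →ₗ[K] BB K × BB K := p1.toLinearMap.prod p2.toLinearMap
  have hx := fun i => isHomogeneous_X K (σ := Fin 2) i
  have hy := fun i => isHomogeneous_X K (σ := Fin 4) i
  have h0 := isHomogeneous_zero (Fin 2) K 1
  have h1 : (Sd K j).map pp =
      (homogeneousSubmodule (Fin 2) K j).prod (homogeneousSubmodule (Fin 2) K j) := by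
    apply le_antisymm
    · rintro _ ⟨f, hf, rfl⟩
      refine ⟨aeval_hom (mem_Sd_nat.1 hf) _ fun i => ?_, aeval_hom (mem_Sd_nat.1 hf) _ fun i => ?_⟩
      · fin_cases i
        exacts [hx 0, hx 1, h0, h0]
      · fin_cases i
        exacts [h0, h0, hx 0, hx 1]
    · rintro ⟨a, b⟩ ⟨ha, hb⟩
      refine ⟨i1 a + i2 b, Submodule.add_mem _ (mem_Sd_nat.2 (aeval_hom ha _ fun i => ?_))
        (mem_Sd_nat.2 (aeval_hom hb _ fun i => ?_)), ?_⟩
      · fin_cases i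
        exacts [hy 0, hy 1]
      · fin_cases i
        exacts [hy 2, hy 3]
      · ext1
        · simp [pp, p1_i1, p1_i2 hb (by omega)]
        · simp [pp, p2_i2, p2_i1 ha (by omega)]
  have h3 : ∀ c ∈ LP K j, pp c = 0 := by
    intro c hc
    obtain ⟨f1, -, f2, -, f3, -, rfl⟩ := mem_LP.1 hc
    ext1 <;> simp [pp, p1, p2, q1, q2, q3]
  have h2 : Sd K j ⊓ LinearMap.ker pp = LP K j := by
    apply le_antisymm
    · rintro f ⟨hf, hf0⟩
      obtain ⟨_, hab, c, hc, rfl⟩ := Submodule.mem_sup.1 (decomp hj hf)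
      obtain ⟨_, ⟨a, ha, rfl⟩, _, ⟨b, hb, rfl⟩, rfl⟩ := Submodule.mem_sup.1 hab
      have h4 : pp (i1 a + i2 b) = 0 := by
        have : pp (i1 a + i2 b + c) = 0 := hf0
        rwa [map_add, h3 c hc, add_zero] at this
      have h5 := congrArg Prod.fst h4
      have h6 := congrArg Prod.snd h4
      simp [pp, p1_i1, p1_i2 hb (by omega)] at h5
      simp [pp, p2_i2, p2_i1 ha (by omega)] at h6
      simpa [h5, h6] using hc
    · exact fun c hc => ⟨LP_deg hc, h3 c hc⟩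
  have := fr_map_inf (Sd K j) pp
  rw [h1, h2, fr_prod, fr_hom, fr_Sd, show 2 + j - 1 = j + 1 by omega,
    Nat.choose_succ_self_right] at this
  omega

lemma fr_LL (j : ℤ) : finrank K (LL K j) = finrank K (LP K j) :=
  fr_map_inj _ _ (mul_left_injective₀ q3_ne)

lemma no_syz1 {f1 f2 f3 : SS K} (h1 : f1 ∈ Sd K 1) (h2 : f2 ∈ Sd K 1) (h3 : f3 ∈ Sd K 1)
    (h : f1 * q1 K + f2 * q2 K + f3 * q3 K = 0) : f1 = 0 ∧ f2 = 0 ∧ f3 = 0 := by
  have h4 := fr_map_inf (tri K 1) (psi K)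
  have h5 := fr_LP (K := K) (j := 3) le_rfl
  have h6 : finrank K (Sd K 1) = 4 := fr_Sd (K := K) 1
  have h7 : LP K (3 : ℕ) = (tri K 1).map (psi K) := rfl
  rw [fr_tri] at h4
  rw [h7] at h5
  simp only [Nat.choose] at h5
  have h8 : tri K 1 ⊓ LinearMap.ker (psi K) = ⊥ := Submodule.finrank_eq_zero.1 (by omega)
  have h9 : (f1, f2, f3) ∈ tri K 1 ⊓ LinearMap.ker (psi K) := ⟨⟨h1, h2, h3⟩, h⟩
  rw [h8] at h9
  simpa using h9

lemma no_syz {n : ℤ} (hn : n ≤ 1) {f1 f2 f3 : SS K} (h1 : f1 ∈ Sd K n) (h2 : f2 ∈ Sd K n)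
    (h3 : f3 ∈ Sd K n) (h : f1 * q1 K + f2 * q2 K + f3 * q3 K = 0) :
    f1 = 0 ∧ f2 = 0 ∧ f3 = 0 := by
  have hx := Xpow_mem (K := K) 0 (1 - n).toNat
  have hn' : ((1 - n).toNat : ℤ) + n = 1 := by omega
  have := no_syz1 (Sd_mul hx h1 hn') (Sd_mul hx h2 hn') (Sd_mul hx h3 hn')
    (by linear_combination (X 0 ^ (1 - n).toNat) * h)
  simpa using this

lemma fr_LP_low {j : ℤ} (hj : j ≤ 3) : finrank K (LP K j) = 3 * finrank K (Sd K (j - 2)) := by
  have h4 := fr_map_inf (tri K (j - 2)) (psi K)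
  have h8 : tri K (j - 2) ⊓ LinearMap.ker (psi K) = ⊥ := by
    rw [eq_bot_iff]
    rintro ⟨f1, f2, f3⟩ ⟨⟨h1, h2, h3⟩, h⟩
    simpa using no_syz (by omega) h1 h2 h3 h
  rw [h8, finrank_bot, fr_tri] at h4
  exact h4

noncomputable def syz : SS K →ₗ[K] SS K × SS K × SS K where
  toFun f := (f * q1 K, f * q2 K, f * q3 K)
  map_add' := by intros; simp [add_mul]
  map_smul' := by intros; simp

variable [CharP K 2]

lemma fr_EE (j : ℤ) :
    finrank K (EE K j) + finrank K (Sd K (j - 3)) = 3 * finrank K (Sd K (j - 1)) := by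
  have h1 := fr_map_inf (tri K (j - 1)) (phiE K)
  have h2 : tri K (j - 1) ⊓ LinearMap.ker (phiE K) = (Sd K (j - 3)).map syz := by
    apply le_antisymm
    · rintro ⟨f1, f2, f3⟩ ⟨⟨-, -, h3⟩, h⟩
      have e1 : f1 * q3 K + f3 * q1 K = 0 := congrArg Prod.fst h
      have e2 : f2 * q3 K + f3 * q2 K = 0 := congrArg Prod.snd h
      have hd : ∀ (i : Fin 4) (g : SS K), i ≠ 0 → i ≠ 3 → X i ∣ g * q2 K → X i ∣ g := by
        intro i g h0 h3 hg
        rcases X_prime.dvd_or_dvd hg with h | h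
        · exact h
        · rcases X_prime.dvd_or_dvd h with h | h
          · exact absurd (X_dvd_X.1 h) h0
          · exact absurd (X_dvd_X.1 h) h3
      obtain ⟨g, rfl⟩ := hd 1 f3 (by decide) (by decide) ⟨-(f2 * X 2), by
        unfold q3 at e2; linear_combination e2⟩
      have e3 : f2 * X 2 + g * q2 K = 0 := by
        apply mul_left_cancel₀ (X_ne_zero (R := K) (1 : Fin 4))
        unfold q3 at e2; linear_combination e2
      obtain ⟨g, rfl⟩ := hd 2 g (by decide) (by decide) ⟨-f2, by linear_combination e3⟩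
      have e4 : X 1 * (X 2 * g) = g * q3 K := by unfold q3; ring
      rw [e4] at h3 e1 e2 ⊢
      refine ⟨g, Sd_div h3 q3_mem q3_ne (by ring), ?_⟩
      have a1 : g * q1 K = f1 := by
        apply mul_right_cancel₀ (q3_ne (K := K))
        linear_combination e1 - (f1 * q3 K) * two_zero (K := K)
      have a2 : g * q2 K = f2 := by
        apply mul_right_cancel₀ (q3_ne (K := K))
        linear_combination e2 - (f2 * q3 K) * two_zero (K := K)
      simp [syz, a1, a2]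
    · rintro _ ⟨g, hg, rfl⟩
      refine ⟨⟨Sd_mul hg q1_mem (by ring), Sd_mul hg q2_mem (by ring),
        Sd_mul hg q3_mem (by ring)⟩, Prod.ext ?_ ?_⟩
      · change g * q1 K * q3 K + g * q3 K * q1 K = 0
        linear_combination (g * q1 K * q3 K) * two_zero (K := K)
      · change g * q2 K * q3 K + g * q3 K * q2 K = 0
        linear_combination (g * q2 K * q3 K) * two_zero (K := K)
  rw [h2, fr_tri, fr_map_inj _ _ fun a b h =>
    mul_right_cancel₀ q3_ne (congrArg (fun x => x.2.2) h)] at h1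
  exact h1

end Pool.Agent.Lib.MP_a9ad87_al.Two
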