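import Mathlib

namespace Pool.Agent.Lib.MP_a9ad87_al.Two

open MvPolynomial Module

variable {K : Type} [Field K]

section Lin
variable {V W ι : Type} [AddCommGroup V] [Module K V] [AddCommGroup W] [Module K W]

lemma fr_map_inf (P : Submodule K V) [FiniteDimensional K P] (f : V →ₗ[K] W) :
    finrank K (P.map f) + finrank K (P ⊓ LinearMap.ker f : Submodule K V) = finrank K P := by
  have h1 := (f.domRestrict P).finrank_range_add_finrank_ker
  rw [LinearMap.range_domRestrict] at h1
  have h2 : P ⊓ LinearMap.ker f = (LinearMap.ker (f.domRestrict P)).map P.subtype := by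
    ext v
    constructor
    · rintro ⟨h1, h2⟩
      exact ⟨⟨v, h1⟩, by simpa using h2, rfl⟩
    · rintro ⟨⟨v, hv⟩, h2, rfl⟩
      exact ⟨hv, by simpa using h2⟩
  rw [← h1, h2, Submodule.finrank_map_subtype_eq]

/-- a product of submodules is the product of the types -/
def prodEquiv (p : Submodule K V) (q : Submodule K W) : (p.prod q) ≃ₗ[K] p × q where
  toFun x := (⟨x.1.1, x.2.1⟩, ⟨x.1.2, x.2.2⟩)
  invFun y := ⟨(y.1.1, y.2.1), y.1.2, y.2.2⟩
  map_add' _ _ := rfl
  map_smul' _ _ := rfl
  left_inv _ := rfl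
  right_inv _ := rfl

instance prod_fin (p : Submodule K V) (q : Submodule K W) [FiniteDimensional K p]
    [FiniteDimensional K q] : FiniteDimensional K (p.prod q) :=
  (prodEquiv p q).symm.finiteDimensional

lemma fr_prod (p : Submodule K V) (q : Submodule K W) [FiniteDimensional K p]
    [FiniteDimensional K q] : finrank K (p.prod q) = finrank K p + finrank K q := by
  rw [(prodEquiv p q).finrank_eq, Module.finrank_prod]

lemma fr_map_inj (P : Submodule K V) (f : V →ₗ[K] W) (hf : Function.Injective f) :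
    finrank K (P.map f) = finrank K P :=
  (Submodule.equivMapOfInjective f hf P).finrank_eq.symm

/-- the functionals with index in `T` are independent -/
def Onto (T : Finset ι) (F : ι → V →ₗ[K] K) : Prop := ∀ y : ι → K, ∃ v, ∀ i ∈ T, F i v = y i

/-- common kernel -/
def kr (T : Finset ι) (F : ι → V →ₗ[K] K) : Submodule K V where
  carrier := {v | ∀ i ∈ T, F i v = 0}
  add_mem' := by
    intro a b ha hb i hi
    rw [map_add, ha i hi, hb i hi, add_zero]
  zero_mem' := by intro i _; simp
  smul_mem' := by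
    intro c a ha i hi
    rw [map_smul, ha i hi, smul_zero]

lemma mem_kr {T : Finset ι} {F : ι → V →ₗ[K] K} {v : V} : v ∈ kr T F ↔ ∀ i ∈ T, F i v = 0 :=
  Iff.rfl

lemma kr_eq (T : Finset ι) (F : ι → V →ₗ[K] K) :
    LinearMap.ker (LinearMap.pi fun i : T => F i.1) = kr T F := by
  ext v
  simp [mem_kr, funext_iff]

lemma fr_le_kr [FiniteDimensional K V] (T : Finset ι) (F : ι → V →ₗ[K] K) :
    finrank K V ≤ finrank K (kr T F) + T.card := by
  have h1 := (LinearMap.pi fun i : T => F i.1).finrank_range_add_finrank_ker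
  have h2 := Submodule.finrank_le (LinearMap.range (LinearMap.pi fun i : T => F i.1))
  rw [kr_eq] at h1
  simp only [finrank_fintype_fun_eq_card, Fintype.card_coe] at h2
  omega

lemma Onto.kr_le [FiniteDimensional K V] {T : Finset ι} {F : ι → V →ₗ[K] K} (h : Onto T F) :
    finrank K (kr T F) + T.card ≤ finrank K V := by
  classical
  have h1 := (LinearMap.pi fun i : T => F i.1).finrank_range_add_finrank_ker
  have h2 : LinearMap.range (LinearMap.pi fun i : T => F i.1) = ⊤ := by
    rw [LinearMap.range_eq_top]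
    intro y
    obtain ⟨v, hv⟩ := h fun i => if hi : i ∈ T then y ⟨i, hi⟩ else 0
    refine ⟨v, funext fun i => ?_⟩
    simp [hv i.1 i.2]
  rw [kr_eq, h2] at h1
  simp only [finrank_top, finrank_fintype_fun_eq_card, Fintype.card_coe] at h1
  omega

lemma Onto.eq_zero [FiniteDimensional K V] {T : Finset ι} {F : ι → V →ₗ[K] K} (h : Onto T F)
    (hc : finrank K V ≤ T.card) {v : V} (hv : ∀ i ∈ T, F i v = 0) : v = 0 := by
  have h1 := h.kr_le
  have h2 : finrank K (kr T F) = 0 := by omega
  have h3 : kr T F = ⊥ := Submodule.finrank_eq_zero.1 h2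
  have : v ∈ kr T F := hv
  rwa [h3] at this

lemma Onto.mono {T T' : Finset ι} {F F' : ι → V →ₗ[K] K} (h : Onto T F) (hT : T' ⊆ T)
    (hF : ∀ i ∈ T', F' i = F i) : Onto T' F' := by
  intro y
  obtain ⟨v, hv⟩ := h y
  exact ⟨v, fun i hi => by rw [hF i hi, hv i (hT hi)]⟩

lemma Onto.insert [DecidableEq ι] {T : Finset ι} {F : ι → V →ₗ[K] K} (h : Onto T F) {i : ι}
    {w : V} (hw : w ∈ kr T F) (hi : F i w ≠ 0) : Onto (insert i T) F := by
  intro y
  obtain ⟨v, hv⟩ := h y
  refine ⟨v + ((y i - F i v) / F i w) • w, fun k hk => ?_⟩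
  rcases Finset.mem_insert.1 hk with rfl | hk
  · rw [map_add, map_smul, smul_eq_mul, div_mul_cancel₀ _ hi]; ring
  · rw [map_add, map_smul, hw k hk, hv k hk]; simp

lemma exists_onto [FiniteDimensional K V] {X : Type} [Nonempty X] (ev : X → V →ₗ[K] K)
    (hev : ∀ v, (∀ x, ev x v = 0) → v = 0) (T : Finset ι) (hT : T.card ≤ finrank K V) :
    ∃ z : ι → X, Onto T fun i => ev (z i) := by
  classical
  induction T using Finset.induction_on with
  | empty => exact ⟨fun _ => Classical.arbitrary X, fun y => ⟨0, by simp⟩⟩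
  | insert i T hi ih =>
    rw [Finset.card_insert_of_notMem hi] at hT
    obtain ⟨z, hz⟩ := ih (by omega)
    have h1 := fr_le_kr T fun i => ev (z i)
    have h2 : kr T (fun i => ev (z i)) ≠ ⊥ := by
      intro h
      rw [h, finrank_bot] at h1
      omega
    obtain ⟨w, hw, hw0⟩ := (Submodule.ne_bot_iff _).1 h2
    obtain ⟨x, hx⟩ : ∃ x, ev x w ≠ 0 := by
      by_contra h
      push Not at h
      exact hw0 (hev w h)
    have h3 : ∀ k ∈ T, ev (Function.update z i x k) = ev (z k) := by
      intro k hk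
      rw [Function.update_of_ne (by rintro rfl; exact hi hk)]
    refine ⟨Function.update z i x, Onto.insert (w := w) (hz.mono (Finset.Subset.refl _) h3) ?_ ?_⟩
    · intro k hk
      exact (LinearMap.congr_fun (h3 k hk) w).trans (hw k hk)
    · simpa using hx

end Lin

section Gen
variable {σ : Type}

/-- polynomial function -/
def PF (f : (σ → K) → K) : Prop := ∃ P : MvPolynomial σ K, ∀ x, f x = eval x P

/-- holds on a nonempty principal open set -/
def Gen (Z : (σ → K) → Prop) : Prop :=
  ∃ P : MvPolynomial σ K, P ≠ 0 ∧ ∀ x, eval x P ≠ 0 → Z x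

lemma Gen.mono {Z Z' : (σ → K) → Prop} (h : Gen Z) (h' : ∀ x, Z x → Z' x) : Gen Z' := by
  obtain ⟨P, h1, h2⟩ := h
  exact ⟨P, h1, fun x hx => h' x (h2 x hx)⟩

lemma Gen.of_forall {Z : (σ → K) → Prop} (h : ∀ x, Z x) : Gen Z :=
  ⟨1, one_ne_zero, fun x _ => h x⟩

lemma Gen.and {Z Z' : (σ → K) → Prop} (h : Gen Z) (h' : Gen Z') : Gen fun x => Z x ∧ Z' x := by
  obtain ⟨P, h1, h2⟩ := h
  obtain ⟨P', h1', h2'⟩ := h'
  refine ⟨P * P', mul_ne_zero h1 h1', fun x hx => ?_⟩
  rw [map_mul] at hx
  exact ⟨h2 x (left_ne_zero_of_mul hx), h2' x (right_ne_zero_of_mul hx)⟩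

lemma Gen.all {β : Type} [Finite β] {Z : β → (σ → K) → Prop} (h : ∀ b, Gen (Z b)) :
    Gen fun x => ∀ b, Z b x := by
  have := Fintype.ofFinite β
  choose P h1 h2 using h
  refine ⟨∏ b, P b, Finset.prod_ne_zero_iff.2 fun b _ => h1 b, fun x hx b => h2 b x ?_⟩
  rw [map_prod] at hx
  exact Finset.prod_ne_zero_iff.1 hx b (Finset.mem_univ b)

lemma Gen.imp {c : Prop} {Z : (σ → K) → Prop} (h : c → Gen Z) : Gen fun x => c → Z x := by
  by_cases hc : c
  · exact (h hc).mono fun x hx _ => hx
  · exact Gen.of_forall fun x h => absurd h hc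

lemma Gen.exists [Infinite K] {Z : (σ → K) → Prop} (h : Gen Z) : ∃ x, Z x := by
  obtain ⟨P, h1, h2⟩ := h
  by_contra h
  push Not at h
  apply h1
  apply MvPolynomial.funext
  intro x
  by_contra hx
  exact h x (h2 x (by simpa using hx))

variable {V ι : Type} [AddCommGroup V] [Module K V]

lemma gen_onto (T : Finset ι) (F : (σ → K) → ι → V →ₗ[K] K) (hF : ∀ i v, PF fun x => F x i v)
    (x0 : σ → K) (h : Onto T (F x0)) : Gen fun x => Onto T (F x) := by
  classical
  choose v hv using fun k : T => h (Pi.single k.1 1)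
  choose P hP using fun (i k : T) => hF i.1 (v k)
  let M : Matrix T T (MvPolynomial σ K) := Matrix.of P
  have hM : ∀ x, eval x M.det = (Matrix.of fun i k : T => F x i (v k)).det := by
    intro x
    rw [RingHom.map_det]
    congr 1
    ext i k
    exact (hP i k x).symm
  refine ⟨M.det, ?_, fun x hx y => ?_⟩
  · intro h0
    have h2 := hM x0
    have h1 : Matrix.of (fun i k : T => F x0 i (v k)) = 1 := by
      ext i k
      rw [Matrix.of_apply, hv k i.1 i.2, Matrix.one_apply, Pi.single_apply]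
      exact if_congr Subtype.ext_iff.symm rfl rfl
    rw [h0, map_zero, h1, Matrix.det_one] at h2
    exact zero_ne_one h2
  · rw [hM] at hx
    obtain ⟨c, hc⟩ := (Matrix.mulVec_surjective_iff_isUnit.2
      ((Matrix.isUnit_iff_isUnit_det _).2 (Ne.isUnit hx))) (fun i => y i)
    refine ⟨∑ k, c k • v k, fun i hi => ?_⟩
    have := congrFun hc ⟨i, hi⟩
    simp only [Matrix.mulVec, dotProduct, Matrix.of_apply] at this
    rw [← this, map_sum]
    exact Finset.sum_congr rfl fun k _ => by rw [map_smul, smul_eq_mul, mul_comm]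

variable {κ : Type}

/-- the parameters of the point with index `i` -/
def sl (x : ι × κ → K) (i : ι) : κ → K := fun c => x (i, c)

lemma PF.sl {f : (κ → K) → K} (h : PF f) (i : ι) : PF fun x : ι × κ → K => f (sl x i) := by
  obtain ⟨P, hP⟩ := h
  refine ⟨rename (Prod.mk i) P, fun x => ?_⟩
  rw [eval_rename]
  exact hP _

lemma gen_interp [FiniteDimensional K V] (ev : (κ → K) → V →ₗ[K] K)
    (hp : ∀ v, PF fun z => ev z v) (hev : ∀ v, (∀ z, ev z v = 0) → v = 0) (T : Finset ι)
    (hT : T.card ≤ finrank K V) : Gen fun x : ι × κ → K => Onto T fun i => ev (sl x i) := by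
  obtain ⟨z, hz⟩ := exists_onto ev hev T hT
  exact gen_onto T (fun (x : ι × κ → K) i => ev (sl x i)) (fun i v => (hp v).sl i)
    (fun p => z p.1 p.2) hz

end Gen

end Pool.Agent.Lib.MP_a9ad87_al.Two
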