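import Pool.Agent.Lib.MP_a9ad87_al.TwoSurj
import Pool.Agent.Lib.MP_a9ad87_al.Build

namespace Pool.Agent.Lib.MP_a9ad87_al.Two

open MvPolynomial Module

variable {K : Type} [Field K]

section Ann
variable {n : ℕ} {α : Type} (l : α → MvPolynomial (Fin n) K →ₗ[K] K)

/-- the largest ideal in the common kernel -/
def annI : Ideal (MvPolynomial (Fin n) K) where
  carrier := {p | ∀ a q, l a (p * q) = 0}
  add_mem' := by
    intro a b ha hb j q
    rw [add_mul, map_add, ha j q, hb j q, add_zero]
  zero_mem' := by intro j q; simp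
  smul_mem' := by
    intro c p hp j q
    have := hp j (c * q)
    rwa [smul_eq_mul, mul_comm c p, mul_assoc]

lemma mem_annI {p : MvPolynomial (Fin n) K} :
    p ∈ annI l ↔ (∀ j, l j p = 0) ∧ ∀ x, p * X x ∈ annI l := by
  constructor
  · intro h
    exact ⟨fun j => by simpa using h j 1, fun x => Ideal.mul_mem_right _ _ h⟩
  · rintro ⟨h1, h2⟩ j q
    induction q using MvPolynomial.induction_on with
    | C a => rw [mul_comm, C_mul', map_smul, h1, smul_zero]
    | add p q hp hq => rw [mul_add, map_add, hp, hq, add_zero]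
    | mul_X q x _ =>
      have := h2 x j q
      rwa [mul_assoc, mul_comm (X x)] at this

variable {l} {e : ℕ} (hl : ∀ a p i, IsHomogeneous p i → i ≠ e → l a p = 0)
include hl

lemma annI_deg {p : MvPolynomial (Fin n) K} {i : ℕ} (hp : p.IsHomogeneous i)
    (h : ∀ a q k, IsHomogeneous q k → i + k = e → l a (p * q) = 0) : p ∈ annI l := by
  intro j q
  induction q using MvPolynomial.induction_on' with
  | monomial m c =>
    by_cases hm : i + m.degree = e
    · exact h _ _ _ (isHomogeneous_monomial c rfl) hm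
    · exact hl j _ _ (hp.mul (isHomogeneous_monomial c rfl)) hm
  | add p q hp hq => rw [mul_add, map_add, hp, hq, add_zero]

lemma annI_high {p : MvPolynomial (Fin n) K} {i : ℕ} (hp : p.IsHomogeneous i) (hi : e < i) :
    p ∈ annI l := annI_deg hl hp fun _ _ _ _ _ => by omega

lemma l_comp (j : α) (p q : MvPolynomial (Fin n) K) {i d : ℕ} (hq : q.IsHomogeneous d)
    (h : i + d = e) : l j (homogeneousComponent i p * q) = l j (p * q) := by
  conv_rhs => rw [← sum_homogeneousComponent p, Finset.sum_mul, map_sum]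
  symm
  apply Finset.sum_eq_single i
  · intro b _ hb
    exact hl j _ _ ((homogeneousComponent_isHomogeneous b p).mul hq) (by omega)
  · intro hi
    rw [homogeneousComponent_eq_zero i p (by simpa using hi)]; simp

lemma annI_hom (p : MvPolynomial (Fin n) K) (hp : p ∈ annI l) (i : ℕ) :
    homogeneousComponent i p ∈ annI l :=
  annI_deg hl (homogeneousComponent_isHomogeneous i p) fun a q _ hq h => by
    rw [l_comp hl a p q hq h]; exact hp a q

lemma annI_socle (a : MvPolynomial (Fin n) K ⧸ annI l) :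
    (∀ j, a * Ideal.Quotient.mk (annI l) (X j) = 0) ↔ a ∈ piece K (annI l) e := by
  obtain ⟨p, rfl⟩ := Ideal.Quotient.mk_surjective a
  simp only [← map_mul, Ideal.Quotient.eq_zero_iff_mem]
  constructor
  · intro h
    refine (mem_piece _).2 ⟨homogeneousComponent e p, homogeneousComponent_isHomogeneous e p, ?_⟩
    rw [Ideal.Quotient.eq, mem_annI]
    refine ⟨fun j => ?_, fun x => ?_⟩
    · have := l_comp hl j p 1 (isHomogeneous_one (Fin n) K) (i := e) rfl
      rw [map_sub]; simpa [sub_eq_zero] using this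
    · rw [sub_mul]
      exact Ideal.sub_mem _ (annI_high hl
        ((homogeneousComponent_isHomogeneous e p).mul (isHomogeneous_X K x)) (by omega)) (h x)
  · intro h x
    obtain ⟨q, hq, h⟩ := (mem_piece _).1 h
    have h1 : p - q ∈ annI l := Ideal.Quotient.eq.1 h.symm
    have : p * X x = (p - q) * X x + q * X x := by ring
    rw [this]
    exact Ideal.add_mem _ (Ideal.mul_mem_right _ _ h1)
      (annI_high hl (hq.mul (isHomogeneous_X K x)) (by omega))

lemma annI_top [Fintype α] : finrank K (piece K (annI l) e) ≤ Fintype.card α := by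
  rw [piece, finrank_map_congr _ _ (LinearMap.pi l)]
  · exact (Submodule.finrank_le _).trans (by simp)
  · intro p hp
    refine Ideal.Quotient.eq_zero_iff_mem.trans ((mem_annI l).trans ?_)
    simp only [funext_iff, LinearMap.pi_apply, Pi.zero_apply]
    exact ⟨fun h => h.1, fun h => ⟨h, fun x =>
      annI_high hl (IsHomogeneous.mul hp (isHomogeneous_X K x)) (by omega)⟩⟩

lemma annI_level : ∃ h : List ℕ, h.length = e + 1 ∧ IsLevel K h ∧
    ∀ i, h.getD i 0 = finrank K (piece K (annI l) i) := by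
  have h1 : ∀ i, (List.ofFn fun i : Fin (e + 1) => finrank K (piece K (annI l) i)).getD i 0 =
      finrank K (piece K (annI l) i) := by
    intro i
    rw [List.getD_eq_getElem?_getD, List.getElem?_ofFn]
    split_ifs with h
    · rfl
    · have : piece K (annI l) i = ⊥ := by
        rw [eq_bot_iff]
        intro a ha
        obtain ⟨p, hp, rfl⟩ := (mem_piece _).1 ha
        exact Ideal.Quotient.eq_zero_iff_mem.2 (annI_high hl hp (by omega))
      rw [this]; simp
  refine ⟨_, List.length_ofFn, ⟨n, annI l, annI_hom hl, fun i => (h1 i).symm, ?_⟩, h1⟩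
  rw [List.length_ofFn]
  exact annI_socle hl

end Ann

lemma Q.mul_inl_eq_zero {x : Q (SS K)} {g : SS K} (hg : g ≠ 0) (h : x * Q.inl g = 0) : x = 0 := by
  have h1 := congrArg Q.a h
  have h2 := congrArg Q.b h
  have h3 := congrArg Q.c h
  have h4 := congrArg Q.d h
  simp [hg] at h1 h2 h3 h4
  ext1 <;> simp [h1, h2, h3, h4]

lemma th_X0 (k : ℕ) : th K (X 0 ^ k) = Q.inl (X 0 ^ k) := by
  rw [map_pow, map_pow, th, aeval_X]; rfl

theorem level_of_config [CharP K 2] {ι α : Type} [Fintype ι] [Fintype α] (j d : ℕ)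
    (p : ι → Fin 4 → K) (u : ι → α → Q K)
    (hS : ∀ y : ι → Q K, ∃ g : α → Q (SS K), (∀ a, g a ∈ TT K j) ∧
        ∀ i, ∑ a, u i a * Q.map (aeval (p i)) (g a) = y i)
    (hU : ∀ r ∈ TT K d, (∀ i, Q.map (aeval (p i)) r = 0) → r = 0) :
    ∃ h : List ℕ, h.length = d + j + 1 ∧ IsLevel K h ∧
      (∀ i ≤ d, h.getD i 0 = finrank K (TT K i)) ∧ 0 < h.getD (d + j) 0 ∧
      h.getD (d + j) 0 ≤ Fintype.card α := by
  classical
  let Φ : α → MvPolynomial (Fin 7) K →ₗ[K] K := fun a => ∑ i, Q.dL ∘ₗ LinearMap.mulLeft K (u i a) ∘ₗ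
    (Q.map (aeval (p i))).toLinearMap ∘ₗ (th K).toLinearMap
  have hΦ : ∀ a f, Φ a f = ∑ i, (u i a * Q.map (aeval (p i)) (th K f)).d := by
    intro a f; simp only [Φ, LinearMap.sum_apply]; rfl
  let l : α → MvPolynomial (Fin 7) K →ₗ[K] K := fun a => Φ a ∘ₗ homogeneousComponent (d + j)
  have hl : ∀ a f i, IsHomogeneous f i → i ≠ d + j → l a f = 0 := by
    intro a f i hf hi
    simp only [l, LinearMap.comp_apply]
    rw [homogeneousComponent_of_mem hf, if_neg hi.symm, map_zero]
  have hl' : ∀ a f, IsHomogeneous f (d + j) → l a f = Φ a f := by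
    intro a f hf
    simp only [l, LinearMap.comp_apply]
    rw [homogeneousComponent_eq_self hf]
  have k1 : ∀ f, IsHomogeneous f d → f ∈ annI l → th K f = 0 := by
    intro f hf hI
    refine hU _ (by rw [← RR_eq]; exact ⟨f, hf, rfl⟩) fun i => Q.nondeg _ fun y => ?_
    obtain ⟨g, g1, g2⟩ := hS (Pi.single i y)
    simp only [← RR_eq] at g1
    choose G G1 G2 using g1
    have h1 : ∑ a, Φ a (f * G a) = 0 := Finset.sum_eq_zero fun a _ => by
      rw [← hl' a _ (hf.mul (G1 a))]; exact hI a _
    have h2 : ∀ k, ∑ a, (u k a * Q.map (aeval (p k)) (th K (f * G a))).d =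
        (Q.map (aeval (p k)) (th K f) * Pi.single (M := fun _ => Q K) i y k).d := by
      intro k
      rw [← g2 k, Finset.mul_sum, Q.sum_d]
      refine Finset.sum_congr rfl fun a _ => ?_
      rw [← G2 a, map_mul, map_mul, mul_left_comm]
      rfl
    simp only [hΦ] at h1
    rw [Finset.sum_comm, Finset.sum_congr rfl fun k _ => h2 k, Finset.sum_eq_single i] at h1
    · rwa [Pi.single_eq_same] at h1
    · intro k _ hk
      rw [Pi.single_eq_of_ne hk, mul_zero, Q.zero_d]
    · intro h; exact absurd (Finset.mem_univ i) h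
  have k2 : ∀ i ≤ d, ∀ f, IsHomogeneous f i → (f ∈ annI l ↔ th K f = 0) := by
    intro i hi f hf
    constructor
    · intro hI
      have h1 := k1 (f * X 0 ^ (d - i)) (by
        have := hf.mul (isHomogeneous_X_pow (R := K) (0 : Fin 7) (d - i))
        rwa [show i + (d - i) = d by omega] at this) (Ideal.mul_mem_right _ _ hI)
      rw [map_mul, th_X0] at h1
      exact Q.mul_inl_eq_zero (pow_ne_zero _ (X_ne_zero _)) h1
    · intro h0
      refine annI_deg hl hf fun a q k hq hk => ?_
      rw [hl' a _ (hk ▸ hf.mul hq), hΦ, map_mul, h0]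
      simp
  obtain ⟨h, h1, h2, h3⟩ := annI_level hl
  refine ⟨h, h1, h2, fun i hi => ?_, ?_, by rw [h3]; exact annI_top hl⟩
  · rw [h3, ← RR_eq, piece, RR]
    exact finrank_map_congr _ _ _ fun f hf => Ideal.Quotient.eq_zero_iff_mem.trans (k2 i hi f hf)
  · rw [h3]
    by_contra h0
    have h4 : piece K (annI l) (d + j) = ⊥ := Submodule.finrank_eq_zero.1 (by omega)
    have h5 := isHomogeneous_X_pow (R := K) (0 : Fin 7) d
    have h6 := k1 _ h5 (annI_deg hl h5 fun a q k hq hk => by
      have : Ideal.Quotient.mk (annI l) (X 0 ^ d * q) ∈ piece K (annI l) (d + j) :=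
        (mem_piece _).2 ⟨_, hk ▸ h5.mul hq, rfl⟩
      rw [h4, Submodule.mem_bot, Ideal.Quotient.eq_zero_iff_mem] at this
      exact ((mem_annI l).1 this).1 a)
    rw [th_X0] at h6
    exact pow_ne_zero d (X_ne_zero (R := K) (0 : Fin 4)) (congrArg Q.a h6)

end Pool.Agent.Lib.MP_a9ad87_al.Two
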