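import Pool.Agent.Lib.MP_a9ad87_al.TwoQ

namespace Pool.Agent.Lib.MP_a9ad87_al.Two

open MvPolynomial Module

variable (K : Type) [Field K]

noncomputable def q1 : SS K := X 0 * X 2 + X 1 * X 3
noncomputable def q2 : SS K := X 0 * X 3
noncomputable def q3 : SS K := X 1 * X 2

/-- triples of forms of degree `n` -/
noncomputable def tri (n : ℤ) : Submodule K (SS K × SS K × SS K) :=
  (Sd K n).prod ((Sd K n).prod (Sd K n))

noncomputable def phiE : SS K × SS K × SS K →ₗ[K] SS K × SS K where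
  toFun f := (f.1 * q3 K + f.2.2 * q1 K, f.2.1 * q3 K + f.2.2 * q2 K)
  map_add' := by intros; ext1 <;> simp <;> ring
  map_smul' := by intros; ext1 <;> simp [smul_add]

noncomputable def psi : SS K × SS K × SS K →ₗ[K] SS K where
  toFun f := f.1 * q1 K + f.2.1 * q2 K + f.2.2 * q3 K
  map_add' := by intros; simp; ring
  map_smul' := by intros; simp [smul_add]

noncomputable def EE (j : ℤ) : Submodule K (SS K × SS K) := (tri K (j - 1)).map (phiE K)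
noncomputable def LP (j : ℤ) : Submodule K (SS K) := (tri K (j - 2)).map (psi K)
noncomputable def LL (j : ℤ) : Submodule K (SS K) :=
  (LP K j).map (LinearMap.mulRight K (q3 K))
noncomputable def TT (j : ℤ) : Submodule K (Q (SS K)) :=
  ((Sd K j).prod ((EE K j).prod (LL K j))).map Q.mkL

noncomputable def gens : Fin 7 → Q (SS K) :=
  ![⟨X 0, 0, 0, 0⟩, ⟨X 1, 0, 0, 0⟩, ⟨X 2, 0, 0, 0⟩, ⟨X 3, 0, 0, 0⟩,
    ⟨0, q3 K, 0, 0⟩, ⟨0, 0, q3 K, 0⟩, ⟨0, q1 K, q2 K, 0⟩]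

noncomputable def th : MvPolynomial (Fin 7) K →ₐ[K] Q (SS K) := aeval (gens K)

noncomputable def RR (j : ℕ) : Submodule K (Q (SS K)) :=
  (homogeneousSubmodule (Fin 7) K j).map (th K).toLinearMap

variable {K}

lemma q1_mem : q1 K ∈ Sd K 2 :=
  Submodule.add_mem _ (Sd_mul (X_mem _) (X_mem _) rfl) (Sd_mul (X_mem _) (X_mem _) rfl)
lemma q2_mem : q2 K ∈ Sd K 2 := Sd_mul (X_mem _) (X_mem _) rfl
lemma q3_mem : q3 K ∈ Sd K 2 := Sd_mul (X_mem _) (X_mem _) rfl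
lemma q3_ne : q3 K ≠ 0 := mul_ne_zero (X_ne_zero _) (X_ne_zero _)

lemma mem_tri {n : ℤ} {f : SS K × SS K × SS K} :
    f ∈ tri K n ↔ f.1 ∈ Sd K n ∧ f.2.1 ∈ Sd K n ∧ f.2.2 ∈ Sd K n := Iff.rfl

instance tri_fin (n : ℤ) : FiniteDimensional K (tri K n) := by unfold tri; infer_instance
instance EE_fin (n : ℤ) : FiniteDimensional K (EE K n) := by unfold EE; infer_instance
instance LP_fin (n : ℤ) : FiniteDimensional K (LP K n) := by unfold LP; infer_instance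
instance LL_fin (n : ℤ) : FiniteDimensional K (LL K n) := by unfold LL; infer_instance

lemma fr_tri (n : ℤ) : finrank K (tri K n) = 3 * finrank K (Sd K n) := by
  rw [tri, fr_prod, fr_prod]; ring

lemma mem_EE {j : ℤ} {c : SS K × SS K} : c ∈ EE K j ↔ ∃ f1 ∈ Sd K (j - 1), ∃ f2 ∈ Sd K (j - 1),
    ∃ f3 ∈ Sd K (j - 1), c.1 = f1 * q3 K + f3 * q1 K ∧ c.2 = f2 * q3 K + f3 * q2 K := by
  constructor
  · rintro ⟨f, hf, rfl⟩
    exact ⟨f.1, hf.1, f.2.1, hf.2.1, f.2.2, hf.2.2, rfl, rfl⟩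
  · rintro ⟨f1, h1, f2, h2, f3, h3, e1, e2⟩
    exact ⟨(f1, f2, f3), ⟨h1, h2, h3⟩, Prod.ext e1.symm e2.symm⟩

lemma mem_LP {j : ℤ} {c : SS K} : c ∈ LP K j ↔ ∃ f1 ∈ Sd K (j - 2), ∃ f2 ∈ Sd K (j - 2),
    ∃ f3 ∈ Sd K (j - 2), c = f1 * q1 K + f2 * q2 K + f3 * q3 K := by
  constructor
  · rintro ⟨f, hf, rfl⟩
    exact ⟨f.1, hf.1, f.2.1, hf.2.1, f.2.2, hf.2.2, rfl⟩
  · rintro ⟨f1, h1, f2, h2, f3, h3, e1⟩
    exact ⟨(f1, f2, f3), ⟨h1, h2, h3⟩, e1.symm⟩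

lemma mem_LL {j : ℤ} {c : SS K} : c ∈ LL K j ↔ ∃ f1 ∈ Sd K (j - 2), ∃ f2 ∈ Sd K (j - 2),
    ∃ f3 ∈ Sd K (j - 2), c = (f1 * q1 K + f2 * q2 K + f3 * q3 K) * q3 K := by
  constructor
  · rintro ⟨g, hg, rfl⟩
    obtain ⟨f1, h1, f2, h2, f3, h3, rfl⟩ := mem_LP.1 hg
    exact ⟨f1, h1, f2, h2, f3, h3, rfl⟩
  · rintro ⟨f1, h1, f2, h2, f3, h3, e1⟩
    exact ⟨_, mem_LP.2 ⟨f1, h1, f2, h2, f3, h3, rfl⟩, e1.symm⟩

lemma mem_TT {j : ℤ} {x : Q (SS K)} :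
    x ∈ TT K j ↔ x.a ∈ Sd K j ∧ (x.b, x.c) ∈ EE K j ∧ x.d ∈ LL K j := by
  constructor
  · rintro ⟨y, hy, rfl⟩
    exact hy
  · intro h
    exact ⟨(x.a, (x.b, x.c), x.d), h, rfl⟩

lemma fr_TT (j : ℤ) : finrank K (TT K j) =
    finrank K (Sd K j) + finrank K (EE K j) + finrank K (LL K j) := by
  rw [TT, fr_map_inj _ _ Q.mkL_inj, fr_prod, fr_prod, add_assoc]

lemma EE_deg {j : ℤ} {c : SS K × SS K} (h : c ∈ EE K j) :
    c.1 ∈ Sd K (j + 1) ∧ c.2 ∈ Sd K (j + 1) := by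
  obtain ⟨f1, h1, f2, h2, f3, h3, e1, e2⟩ := mem_EE.1 h
  rw [e1, e2]
  exact ⟨Submodule.add_mem _ (Sd_mul h1 q3_mem (by ring)) (Sd_mul h3 q1_mem (by ring)),
    Submodule.add_mem _ (Sd_mul h2 q3_mem (by ring)) (Sd_mul h3 q2_mem (by ring))⟩

lemma LP_deg {j : ℤ} {c : SS K} (h : c ∈ LP K j) : c ∈ Sd K j := by
  obtain ⟨f1, h1, f2, h2, f3, h3, rfl⟩ := mem_LP.1 h
  exact Submodule.add_mem _ (Submodule.add_mem _ (Sd_mul h1 q1_mem (by ring))
    (Sd_mul h2 q2_mem (by ring))) (Sd_mul h3 q3_mem (by ring))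

lemma LL_deg {j : ℤ} {c : SS K} (h : c ∈ LL K j) : c ∈ Sd K (j + 2) := by
  obtain ⟨g, hg, rfl⟩ := h
  exact Sd_mul (LP_deg hg) q3_mem rfl

lemma EE_mul {i j k : ℤ} {g : SS K} {b c : SS K} (hg : g ∈ Sd K i) (h : (b, c) ∈ EE K j)
    (hk : i + j = k) : (g * b, g * c) ∈ EE K k := by
  obtain ⟨f1, h1, f2, h2, f3, h3, e1, e2⟩ := mem_EE.1 h
  refine mem_EE.2 ⟨g * f1, Sd_mul hg h1 (by omega), g * f2, Sd_mul hg h2 (by omega), g * f3,
    Sd_mul hg h3 (by omega), ?_, ?_⟩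
  · simp only at e1 ⊢; rw [e1]; ring
  · simp only at e2 ⊢; rw [e2]; ring

lemma LP_mul {i j k : ℤ} {g c : SS K} (hg : g ∈ Sd K i) (h : c ∈ LP K j)
    (hk : i + j = k) : g * c ∈ LP K k := by
  obtain ⟨f1, h1, f2, h2, f3, h3, rfl⟩ := mem_LP.1 h
  exact mem_LP.2 ⟨g * f1, Sd_mul hg h1 (by omega), g * f2, Sd_mul hg h2 (by omega), g * f3,
    Sd_mul hg h3 (by omega), by ring⟩

lemma LL_mul {i j k : ℤ} {g c : SS K} (hg : g ∈ Sd K i) (h : c ∈ LL K j)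
    (hk : i + j = k) : g * c ∈ LL K k := by
  obtain ⟨f1, h1, f2, h2, f3, h3, rfl⟩ := mem_LL.1 h
  exact mem_LL.2 ⟨g * f1, Sd_mul hg h1 (by omega), g * f2, Sd_mul hg h2 (by omega), g * f3,
    Sd_mul hg h3 (by omega), by ring⟩

lemma th_rename (f : SS K) : th K (rename (Fin.castLE (by norm_num : 4 ≤ 7)) f) = Q.inl f := by
  have : (th K).comp (rename (Fin.castLE (by norm_num : 4 ≤ 7))) = Q.inlA := by
    apply MvPolynomial.algHom_ext
    intro i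
    fin_cases i <;> simp [th, gens] <;> rfl
  exact DFunLike.congr_fun this f

lemma lift_mem {n : ℤ} {k j : ℕ} {f : SS K} {G : MvPolynomial (Fin 7) K} (hf : f ∈ Sd K n)
    (hG : G.IsHomogeneous k) (h : n + k = j) : Q.inl f * th K G ∈ RR K j := by
  rcases Sd_cases (K := K) n with h1 | ⟨m, rfl⟩
  · rw [h1, Submodule.mem_bot] at hf
    rw [hf, map_zero, zero_mul]; exact Submodule.zero_mem _
  · refine ⟨rename (Fin.castLE (by norm_num : 4 ≤ 7)) f * G, ?_, ?_⟩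
    · have := (mem_Sd_nat.1 hf).rename_isHomogeneous (f := Fin.castLE (by norm_num : 4 ≤ 7))
      rw [show j = m + k by omega]
      exact this.mul hG
    · simp [th_rename]

lemma TT_le (j : ℕ) : TT K j ≤ RR K j := by
  intro x hx
  obtain ⟨h1, h2, h3⟩ := mem_TT.1 hx
  obtain ⟨f1, a1, f2, a2, f3, a3, e1, e2⟩ := mem_EE.1 h2
  obtain ⟨g1, b1, g2, b2, g3, b3, e3⟩ := mem_LL.1 h3
  have hX := fun i => isHomogeneous_X K (σ := Fin 7) i
  have : x = Q.inl x.a * th K 1 + (Q.inl f1 * th K (X 4) + Q.inl f2 * th K (X 5) +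
      Q.inl f3 * th K (X 6)) + (Q.inl g1 * th K (X 5 * X 6) + Q.inl g2 * th K (X 4 * X 6) +
      Q.inl g3 * th K (X 4 * X 5)) := by
    simp only at e1 e2
    ext1 <;> simp [th, gens, e1, e2, e3]
    ring
  rw [this]
  refine Submodule.add_mem _ (Submodule.add_mem _ ?_ (Submodule.add_mem _
    (Submodule.add_mem _ ?_ ?_) ?_)) (Submodule.add_mem _ (Submodule.add_mem _ ?_ ?_) ?_)
  · exact lift_mem h1 (isHomogeneous_one _ _) (by simp)
  · exact lift_mem a1 (hX _) (by simp)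
  · exact lift_mem a2 (hX _) (by simp)
  · exact lift_mem a3 (hX _) (by simp)
  · exact lift_mem b1 ((hX _).mul (hX _)) (by simp)
  · exact lift_mem b2 ((hX _).mul (hX _)) (by simp)
  · exact lift_mem b3 ((hX _).mul (hX _)) (by simp)

variable [CharP K 2]

lemma two_zero : (2 : SS K) = 0 := CharTwo.two_eq_zero

lemma EE_pair {i j k : ℤ} {b c b' c' : SS K} (h : (b, c) ∈ EE K i) (h' : (b', c') ∈ EE K j)
    (hk : i + j = k) : b * c' + c * b' ∈ LL K k := by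
  obtain ⟨f1, h1, f2, h2, f3, h3, e1, e2⟩ := mem_EE.1 h
  obtain ⟨g1, k1, g2, k2, g3, k3, d1, d2⟩ := mem_EE.1 h'
  have hh : i - 1 + (j - 1) = k - 2 := by omega
  refine mem_LL.2 ⟨f3 * g2 + f2 * g3, Submodule.add_mem _ (Sd_mul h3 k2 hh) (Sd_mul h2 k3 hh),
    f1 * g3 + f3 * g1, Submodule.add_mem _ (Sd_mul h1 k3 hh) (Sd_mul h3 k1 hh),
    f1 * g2 + f2 * g1, Submodule.add_mem _ (Sd_mul h1 k2 hh) (Sd_mul h2 k1 hh), ?_⟩
  simp only at e1 e2 d1 d2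
  rw [e1, e2, d1, d2]
  linear_combination (f3 * g3 * q1 K * q2 K) * two_zero (K := K)

lemma TT_mul {i j k : ℤ} {x y : Q (SS K)} (hx : x ∈ TT K i) (hy : y ∈ TT K j) (hk : i + j = k) :
    x * y ∈ TT K k := by
  obtain ⟨a1, a2, a3⟩ := mem_TT.1 hx
  obtain ⟨b1, b2, b3⟩ := mem_TT.1 hy
  refine mem_TT.2 ⟨Sd_mul a1 b1 hk, ?_, ?_⟩
  · have := Submodule.add_mem _ (EE_mul a1 b2 hk) (EE_mul b1 a2 (k := k) (by omega))
    convert this using 1
    ext1 <;> simp <;> ring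
  · refine Submodule.add_mem _ (Submodule.add_mem _ (LL_mul a1 b3 hk) ?_) (EE_pair a2 b2 hk)
    rw [mul_comm]; exact LL_mul b1 a3 (by omega)

omit [CharP K 2] in
lemma gens_mem (i : Fin 7) : gens K i ∈ TT K 1 := by
  have h0 : (0 : SS K) ∈ Sd K (1 - 1) := Submodule.zero_mem _
  have h1 : (1 : SS K) ∈ Sd K (1 - 1) := mem_Sd_nat (n := 0).2 (isHomogeneous_one _ _)
  have hx : ∀ k, (⟨X k, 0, 0, 0⟩ : Q (SS K)) ∈ TT K 1 := fun k =>
    mem_TT.2 ⟨X_mem k, Submodule.zero_mem _, Submodule.zero_mem _⟩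
  fin_cases i
  · exact hx 0
  · exact hx 1
  · exact hx 2
  · exact hx 3
  · exact mem_TT.2 ⟨Submodule.zero_mem _, mem_EE.2 ⟨1, h1, 0, h0, 0, h0, by simp [gens],
      by simp [gens]⟩, Submodule.zero_mem _⟩
  · exact mem_TT.2 ⟨Submodule.zero_mem _, mem_EE.2 ⟨0, h0, 1, h1, 0, h0, by simp [gens],
      by simp [gens]⟩, Submodule.zero_mem _⟩
  · exact mem_TT.2 ⟨Submodule.zero_mem _, mem_EE.2 ⟨0, h0, 0, h0, 1, h1, by simp [gens],
      by simp [gens]⟩, Submodule.zero_mem _⟩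

lemma RR_eq (j : ℕ) : RR K j = TT K j := by
  refine le_antisymm ?_ (TT_le j)
  rintro _ ⟨f, hf, rfl⟩
  rw [SetLike.mem_coe, ← homogeneousSubmodule_one_pow] at hf
  change th K f ∈ _
  induction hf using Submodule.pow_induction_on_left' with
  | algebraMap r =>
    rw [AlgHom.commutes]
    exact mem_TT.2 ⟨mem_Sd_nat.2 (isHomogeneous_C _ r), Submodule.zero_mem _, Submodule.zero_mem _⟩
  | add x y i _ _ hx hy => rw [map_add]; exact Submodule.add_mem _ hx hy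
  | mem_mul m hm i x _ hx =>
    have h2 : th K m ∈ TT K 1 := by
      rw [homogeneousSubmodule_one_eq_span_X] at hm
      induction hm using Submodule.span_induction with
      | mem x hx =>
        obtain ⟨i, rfl⟩ := hx
        rw [th, aeval_X]; exact gens_mem i
      | zero => simp
      | add x y _ _ hx hy => rw [map_add]; exact Submodule.add_mem _ hx hy
      | smul c x _ hx => rw [map_smul]; exact Submodule.smul_mem _ _ hx
    rw [map_mul]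
    exact TT_mul h2 hx (by push_cast; ring)

end Pool.Agent.Lib.MP_a9ad87_al.Two
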