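import Pool.Agent.Lib.MP_a9ad87_al.TwoGen

namespace Pool.Agent.Lib.MP_a9ad87_al.Two

open MvPolynomial Module

variable {K : Type} [Field K]

lemma fr_hom (n k : ℕ) :
    finrank K (homogeneousSubmodule (Fin n) K k) = (n + k - 1).choose k := by
  have h : homogeneousSubmodule (Fin n) K k =
      restrictSupport K ↑((Finset.univ : Finset (Fin n)).finsuppAntidiag k) := by
    rw [homogeneousSubmodule_eq_finsupp_supported, restrictSupport]
    congr 1
    ext d
    simp [Finsupp.degree_eq_sum]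
  rw [h, finrank_eq_card_basis (basisRestrictSupport K _)]
  simp [Finset.card_finsuppAntidiag_nat_eq_choose]

instance hom_fin (n k : ℕ) : FiniteDimensional K (homogeneousSubmodule (Fin n) K k) :=
  Module.Finite.iff_fg.2 (homogeneousSubmodule_fg _ _ _)

/-- polynomials in four variables -/
abbrev SS (K : Type) [Field K] := MvPolynomial (Fin 4) K

/-- forms of degree `n`, with an integer degree -/
noncomputable def Sd (K : Type) [Field K] (n : ℤ) : Submodule K (SS K) :=
  weightedHomogeneousSubmodule K (fun _ => (1 : ℤ)) n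

lemma wt_eq (m : Fin 4 →₀ ℕ) : Finsupp.weight (fun _ => (1 : ℤ)) m = (m.degree : ℤ) := by
  simp [Finsupp.weight_apply, Finsupp.degree_apply, Finsupp.sum]

lemma mem_Sd {n : ℤ} {f : SS K} : f ∈ Sd K n ↔ ∀ m, coeff m f ≠ 0 → (m.degree : ℤ) = n := by
  simp only [Sd, mem_weightedHomogeneousSubmodule, IsWeightedHomogeneous, wt_eq]

lemma Sd_nat (n : ℕ) : Sd K n = homogeneousSubmodule (Fin 4) K n := by
  ext f
  rw [mem_Sd, mem_homogeneousSubmodule, IsHomogeneous, IsWeightedHomogeneous]
  refine forall_congr' fun m => imp_congr_right fun _ => ?_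
  rw [Nat.cast_inj, Finsupp.degree_eq_weight_one]
  rfl

lemma mem_Sd_nat {n : ℕ} {f : SS K} : f ∈ Sd K n ↔ f.IsHomogeneous n := by
  rw [Sd_nat]; rfl

lemma Sd_neg {n : ℤ} (h : n < 0) : Sd K n = ⊥ := by
  rw [eq_bot_iff]
  intro f hf
  rw [Submodule.mem_bot]
  ext m
  by_contra hm
  have := mem_Sd.1 hf m (by simpa using hm)
  omega

lemma Sd_mul {a b c : ℤ} {f g : SS K} (hf : f ∈ Sd K a) (hg : g ∈ Sd K b) (h : a + b = c) :
    f * g ∈ Sd K c := h ▸ IsWeightedHomogeneous.mul hf hg

lemma Sd_cases (n : ℤ) : Sd K n = ⊥ ∨ ∃ k : ℕ, n = k := by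
  rcases lt_or_ge n 0 with h | h
  · exact Or.inl (Sd_neg h)
  · exact Or.inr ⟨n.toNat, by omega⟩

instance Sd_fin (n : ℤ) : FiniteDimensional K (Sd K n) := by
  rcases Sd_cases (K := K) n with h | ⟨k, rfl⟩
  · rw [h]; infer_instance
  · rw [Sd_nat]; infer_instance

lemma fr_Sd (n : ℕ) : finrank K (Sd K n) = (n + 3).choose 3 := by
  rw [Sd_nat, fr_hom, show 4 + n - 1 = n + 3 by omega, Nat.choose_symm_add]

lemma X_mem (i : Fin 4) : (X i : SS K) ∈ Sd K 1 := mem_Sd_nat.2 (isHomogeneous_X K i)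

lemma Xpow_mem (i : Fin 4) (k : ℕ) : (X i ^ k : SS K) ∈ Sd K k :=
  mem_Sd_nat.2 (isHomogeneous_X_pow i k)

lemma fr_Sd_mono {a b : ℤ} (h : a ≤ b) : finrank K (Sd K a) ≤ finrank K (Sd K b) := by
  rcases Sd_cases (K := K) a with h1 | ⟨k, rfl⟩
  · rw [h1]; simp
  · obtain ⟨l, rfl⟩ : ∃ l : ℕ, b = l := ⟨b.toNat, by omega⟩
    rw [fr_Sd, fr_Sd]
    exact Nat.choose_le_choose 3 (by omega)

/-- grading by an extra variable -/
noncomputable def Lam : SS K →ₐ[K] Polynomial (SS K) :=
  aeval fun i => Polynomial.C (X i) * Polynomial.X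

lemma Lam_hom {f : SS K} {n : ℕ} (hf : f.IsHomogeneous n) :
    Lam f = Polynomial.monomial n f := by
  have h1 : f ∈ homogeneousSubmodule (Fin 4) K 1 ^ n := by
    rw [homogeneousSubmodule_one_pow]; exact hf
  clear hf
  induction h1 using Submodule.pow_induction_on_left' with
  | algebraMap r => simp [Lam, Polynomial.algebraMap_apply]
  | add x y i _ _ hx hy => rw [map_add, hx, hy, map_add]
  | mem_mul m hm i x _ hx =>
    have h2 : Lam m = Polynomial.monomial 1 m := by
      rw [homogeneousSubmodule_one_eq_span_X] at hm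
      induction hm using Submodule.span_induction with
      | mem x hx =>
        obtain ⟨i, rfl⟩ := hx
        simp [Lam, Polynomial.C_mul_X_eq_monomial]
      | zero => simp
      | add x y _ _ hx hy => rw [map_add, hx, hy, map_add]
      | smul c x _ hx => rw [map_smul, hx, Polynomial.smul_monomial]
    rw [map_mul, hx, h2, Polynomial.monomial_mul_monomial, add_comm]

lemma Lam_coeff (f : SS K) (k : ℕ) : (Lam f).coeff k = homogeneousComponent k f := by
  conv_lhs => rw [← sum_homogeneousComponent f, map_sum, Polynomial.finsetSum_coeff]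
  simp only [Lam_hom (homogeneousComponent_isHomogeneous _ f), Polynomial.coeff_monomial]
  rw [Finset.sum_ite_eq']
  split_ifs with h
  · rfl
  · rw [homogeneousComponent_eq_zero k f (by simpa using h)]

lemma Sd_fac {f g : SS K} {N : ℤ} (h : f * g ∈ Sd K N) (h0 : f * g ≠ 0) :
    ∃ a : ℤ, f ∈ Sd K a := by
  rcases Sd_cases (K := K) N with h1 | ⟨n, rfl⟩
  · rw [h1] at h; exact absurd h h0
  have h1 := Lam_hom (mem_Sd_nat.1 h)
  rw [map_mul] at h1
  have h2 : Lam f * Lam g ≠ 0 := by
    rw [h1]; simpa using h0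
  have hf := left_ne_zero_of_mul h2
  have hg := right_ne_zero_of_mul h2
  have h3 := Polynomial.natDegree_mul hf hg
  have h4 := Polynomial.natTrailingDegree_mul hf hg
  rw [h1, Polynomial.natDegree_monomial_eq n h0] at h3
  rw [h1, Polynomial.natTrailingDegree_monomial h0] at h4
  have h5 := (Lam f).natTrailingDegree_le_natDegree
  have h6 := (Lam g).natTrailingDegree_le_natDegree
  refine ⟨(Lam f).natDegree, mem_Sd_nat.2 ?_⟩
  rw [← sum_homogeneousComponent f]
  refine IsHomogeneous.sum _ _ _ fun k _ => ?_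
  rw [sum_homogeneousComponent f]
  rcases lt_trichotomy k (Lam f).natDegree with hk | hk | hk
  · rw [← Lam_coeff, Polynomial.coeff_eq_zero_of_lt_natTrailingDegree (by omega)]
    exact isHomogeneous_zero _ _ _
  · rw [← hk]; exact homogeneousComponent_isHomogeneous _ _
  · rw [← Lam_coeff, Polynomial.coeff_eq_zero_of_natDegree_lt hk]
    exact isHomogeneous_zero _ _ _

lemma Sd_div {f g : SS K} {N b c : ℤ} (h : f * g ∈ Sd K N) (hg : g ∈ Sd K b) (hg0 : g ≠ 0)
    (hc : c + b = N) : f ∈ Sd K c := by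
  by_cases hf : f = 0
  · rw [hf]; exact Submodule.zero_mem _
  obtain ⟨a, ha⟩ := Sd_fac h (mul_ne_zero hf hg0)
  have h1 : a + b = N :=
    IsWeightedHomogeneous.inj_right (mul_ne_zero hf hg0) (Sd_mul ha hg rfl) h
  rwa [show c = a by omega]

end Pool.Agent.Lib.MP_a9ad87_al.Two
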