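import Pool.Agent.Lib.MP_a9ad87_al.TwoPoly

namespace Pool.Agent.Lib.MP_a9ad87_al.Two

open MvPolynomial Module

/-- the algebra with basis `1, e1, e2, e1 e2` and squares of `e1, e2` zero -/
@[ext] structure Q (A : Type) where
  a : A
  b : A
  c : A
  d : A

namespace Q

variable {A B : Type} [CommRing A] [CommRing B]

instance : Zero (Q A) := ⟨⟨0, 0, 0, 0⟩⟩
instance : One (Q A) := ⟨⟨1, 0, 0, 0⟩⟩
instance : Add (Q A) := ⟨fun x y => ⟨x.a + y.a, x.b + y.b, x.c + y.c, x.d + y.d⟩⟩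
instance : Neg (Q A) := ⟨fun x => ⟨-x.a, -x.b, -x.c, -x.d⟩⟩
instance : Mul (Q A) := ⟨fun x y => ⟨x.a * y.a, x.a * y.b + x.b * y.a, x.a * y.c + x.c * y.a,
  x.a * y.d + x.d * y.a + (x.b * y.c + x.c * y.b)⟩⟩

@[simp] lemma zero_a : (0 : Q A).a = 0 := rfl
@[simp] lemma zero_b : (0 : Q A).b = 0 := rfl
@[simp] lemma zero_c : (0 : Q A).c = 0 := rfl
@[simp] lemma zero_d : (0 : Q A).d = 0 := rfl
@[simp] lemma one_a : (1 : Q A).a = 1 := rfl
@[simp] lemma one_b : (1 : Q A).b = 0 := rfl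
@[simp] lemma one_c : (1 : Q A).c = 0 := rfl
@[simp] lemma one_d : (1 : Q A).d = 0 := rfl
@[simp] lemma add_a (x y : Q A) : (x + y).a = x.a + y.a := rfl
@[simp] lemma add_b (x y : Q A) : (x + y).b = x.b + y.b := rfl
@[simp] lemma add_c (x y : Q A) : (x + y).c = x.c + y.c := rfl
@[simp] lemma add_d (x y : Q A) : (x + y).d = x.d + y.d := rfl
@[simp] lemma neg_a (x : Q A) : (-x).a = -x.a := rfl
@[simp] lemma neg_b (x : Q A) : (-x).b = -x.b := rfl
@[simp] lemma neg_c (x : Q A) : (-x).c = -x.c := rfl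
@[simp] lemma neg_d (x : Q A) : (-x).d = -x.d := rfl
@[simp] lemma mul_a (x y : Q A) : (x * y).a = x.a * y.a := rfl
@[simp] lemma mul_b (x y : Q A) : (x * y).b = x.a * y.b + x.b * y.a := rfl
@[simp] lemma mul_c (x y : Q A) : (x * y).c = x.a * y.c + x.c * y.a := rfl
@[simp] lemma mul_d (x y : Q A) :
    (x * y).d = x.a * y.d + x.d * y.a + (x.b * y.c + x.c * y.b) := rfl

instance : CommRing (Q A) where
  add_assoc := by intros; ext <;> simp [add_assoc]
  zero_add := by intros; ext <;> simp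
  add_zero := by intros; ext <;> simp
  add_comm := by intros; ext <;> simp [add_comm]
  neg_add_cancel := by intros; ext <;> simp
  nsmul := nsmulRec
  zsmul := zsmulRec
  left_distrib := by intros; ext <;> simp <;> ring
  right_distrib := by intros; ext <;> simp <;> ring
  zero_mul := by intros; ext <;> simp
  mul_zero := by intros; ext <;> simp
  mul_assoc := by intros; ext <;> simp <;> ring
  one_mul := by intros; ext <;> simp
  mul_one := by intros; ext <;> simp
  mul_comm := by intros; ext <;> simp <;> ring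

/-- scalars -/
def inl : A →+* Q A where
  toFun x := ⟨x, 0, 0, 0⟩
  map_one' := rfl
  map_mul' := by intros; ext <;> simp
  map_zero' := rfl
  map_add' := by intros; ext <;> simp

@[simp] lemma inl_a (x : A) : (inl x).a = x := rfl
@[simp] lemma inl_b (x : A) : (inl x).b = 0 := rfl
@[simp] lemma inl_c (x : A) : (inl x).c = 0 := rfl
@[simp] lemma inl_d (x : A) : (inl x).d = 0 := rfl

variable {K : Type} [Field K] [Algebra K A] [Algebra K B]

instance : Algebra K (Q A) := (inl.comp (algebraMap K A)).toAlgebra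

lemma alg_eq (r : K) : algebraMap K (Q A) r = inl (algebraMap K A r) := rfl

@[simp] lemma smul_a (r : K) (x : Q A) : (r • x).a = r • x.a := by
  simp [Algebra.smul_def, alg_eq]
@[simp] lemma smul_b (r : K) (x : Q A) : (r • x).b = r • x.b := by
  simp [Algebra.smul_def, alg_eq]
@[simp] lemma smul_c (r : K) (x : Q A) : (r • x).c = r • x.c := by
  simp [Algebra.smul_def, alg_eq]
@[simp] lemma smul_d (r : K) (x : Q A) : (r • x).d = r • x.d := by
  simp [Algebra.smul_def, alg_eq]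

/-- scalars, as an algebra map -/
def inlA : A →ₐ[K] Q A := { inl with commutes' := fun _ => rfl }

@[simp] lemma inlA_apply (x : A) : (inlA (K := K)) x = inl x := rfl

/-- functoriality -/
def map (φ : A →ₐ[K] B) : Q A →ₐ[K] Q B where
  toFun x := ⟨φ x.a, φ x.b, φ x.c, φ x.d⟩
  map_one' := by ext <;> simp
  map_mul' := by intros; ext <;> simp
  map_zero' := by ext <;> simp
  map_add' := by intros; ext <;> simp
  commutes' := by intros; ext <;> simp [alg_eq]

@[simp] lemma map_a (φ : A →ₐ[K] B) (x : Q A) : (map φ x).a = φ x.a := rfl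
@[simp] lemma map_b (φ : A →ₐ[K] B) (x : Q A) : (map φ x).b = φ x.b := rfl
@[simp] lemma map_c (φ : A →ₐ[K] B) (x : Q A) : (map φ x).c = φ x.c := rfl
@[simp] lemma map_d (φ : A →ₐ[K] B) (x : Q A) : (map φ x).d = φ x.d := rfl

/-- coordinates -/
def mkL : A × (A × A) × A →ₗ[K] Q A where
  toFun x := ⟨x.1, x.2.1.1, x.2.1.2, x.2.2⟩
  map_add' := by intros; ext <;> simp
  map_smul' := by intros; ext <;> simp

lemma mkL_inj : Function.Injective (mkL (K := K) (A := A)) := by
  rintro ⟨a, ⟨b, c⟩, d⟩ ⟨a', ⟨b', c'⟩, d'⟩ h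
  have h1 := congrArg Q.a h
  have h2 := congrArg Q.b h
  have h3 := congrArg Q.c h
  have h4 := congrArg Q.d h
  simp only [mkL, LinearMap.coe_mk, AddHom.coe_mk] at h1 h2 h3 h4
  simp [h1, h2, h3, h4]

/-- the top coordinate -/
def dL : Q A →ₗ[K] A where
  toFun x := x.d
  map_add' := by intros; simp
  map_smul' := by intros; simp

@[simp] lemma dL_apply (x : Q A) : (dL (K := K)) x = x.d := rfl

lemma sum_a {ι : Type} (s : Finset ι) (f : ι → Q A) : (∑ i ∈ s, f i).a = ∑ i ∈ s, (f i).a :=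
  map_sum (AddMonoidHom.mk' (fun x : Q A => x.a) add_a) f s
lemma sum_b {ι : Type} (s : Finset ι) (f : ι → Q A) : (∑ i ∈ s, f i).b = ∑ i ∈ s, (f i).b :=
  map_sum (AddMonoidHom.mk' (fun x : Q A => x.b) add_b) f s
lemma sum_c {ι : Type} (s : Finset ι) (f : ι → Q A) : (∑ i ∈ s, f i).c = ∑ i ∈ s, (f i).c :=
  map_sum (AddMonoidHom.mk' (fun x : Q A => x.c) add_c) f s
lemma sum_d {ι : Type} (s : Finset ι) (f : ι → Q A) : (∑ i ∈ s, f i).d = ∑ i ∈ s, (f i).d :=
  map_sum (AddMonoidHom.mk' (fun x : Q A => x.d) add_d) f s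

lemma nondeg (x : Q A) (h : ∀ y, (x * y).d = 0) : x = 0 := by
  have h1 := h ⟨0, 0, 0, 1⟩
  have h2 := h ⟨0, 0, 1, 0⟩
  have h3 := h ⟨0, 1, 0, 0⟩
  have h4 := h ⟨1, 0, 0, 0⟩
  simp at h1 h2 h3 h4
  ext <;> simp [h1, h2, h3, h4]

end Q

end Pool.Agent.Lib.MP_a9ad87_al.Two
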