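import Pool.Agent.Lib.MP_a9ad87_al.TwoStab

namespace Pool.Agent.Lib.MP_a9ad87_al.Two

open MvPolynomial Module

variable {K : Type} [Field K] {α ι W : Type} [Fintype α] [AddCommGroup W] [Module K W]

/-- parameters of one point: four coordinates and four coefficient vectors -/
abbrev Par (α : Type) := Fin 4 ⊕ (Fin 4 × α)

def pt (z : Par α → K) : Fin 4 → K := fun c => z (.inl c)

def mkz (p : Fin 4 → K) (u : Fin 4 → α → K) : Par α → K := Sum.elim p fun ra => u ra.1 ra.2

noncomputable def evP (φ : W →ₗ[K] SS K) (z : Par α → K) : W →ₗ[K] K :=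
  (aeval (pt z)).toLinearMap ∘ₗ φ

noncomputable def evU (φ : W →ₗ[K] SS K) (r : Fin 4) (z : Par α → K) : (α → W) →ₗ[K] K :=
  ∑ a, z (.inr (r, a)) • (evP φ z ∘ₗ LinearMap.proj a)

omit [Fintype α] in
lemma evP_apply (φ : W →ₗ[K] SS K) (z : Par α → K) (w : W) :
    evP φ z w = aeval (pt z) (φ w) := rfl

lemma evU_apply (φ : W →ₗ[K] SS K) (r : Fin 4) (z : Par α → K) (g : α → W) :
    evU φ r z g = ∑ a, z (.inr (r, a)) * aeval (pt z) (φ (g a)) := by
  simp [evU, evP_apply]

lemma evU_mkz (φ : W →ₗ[K] SS K) (r : Fin 4) (p : Fin 4 → K) (u : Fin 4 → α → K) (g : α → W) :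
    evU φ r (mkz p u) g = ∑ a, u r a * aeval p (φ (g a)) := evU_apply _ _ _ _

omit [Fintype α] in
lemma PF_evP (φ : W →ₗ[K] SS K) (w : W) : PF fun z : Par α → K => evP φ z w :=
  ⟨rename Sum.inl (φ w), fun z => by rw [eval_rename]; rfl⟩

lemma PF_evU (φ : W →ₗ[K] SS K) (r : Fin 4) (g : α → W) :
    PF fun z : Par α → K => evU φ r z g :=
  ⟨∑ a, X (.inr (r, a)) * rename Sum.inl (φ (g a)), fun z => by
    simp only [evU_apply, map_sum, map_mul, eval_X, eval_rename]; rfl⟩

lemma fr_pi [FiniteDimensional K W] : finrank K (α → W) = Fintype.card α * finrank K W := by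
  simp [Module.finrank_pi_fintype]

variable [Infinite K]

lemma poly_zero {f : SS K} (h : ∀ p : Fin 4 → K, aeval p f = 0) : f = 0 :=
  MvPolynomial.funext fun p => by simpa using h p

omit [Fintype α] in
lemma evP_faith {φ : W →ₗ[K] SS K} (hφ : Function.Injective φ) (w : W)
    (h : ∀ z : Par α → K, evP φ z w = 0) : w = 0 :=
  hφ (by rw [map_zero]; exact poly_zero fun p => h (mkz p 0))

lemma evU_faith {φ : W →ₗ[K] SS K} (hφ : Function.Injective φ) (r : Fin 4) (g : α → W)
    (h : ∀ z : Par α → K, evU φ r z g = 0) : g = 0 := by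
  classical
  funext a
  apply hφ
  rw [Pi.zero_apply, map_zero]
  refine poly_zero fun p => ?_
  simpa [evU_mkz, Pi.single_apply] using h (mkz p fun _ => Pi.single a 1)

omit [Fintype α] in
lemma gen_vanish (m : ℤ) (T : Finset ι) (hT : finrank K (Sd K m) ≤ T.card) :
    Gen fun x : ι × Par α → K =>
      ∀ f ∈ Sd K m, (∀ i ∈ T, aeval (pt (sl x i)) f = 0) → f = 0 := by
  obtain ⟨T', h1, h2⟩ := Finset.exists_subset_card_eq hT
  refine (gen_interp (evP (Sd K m).subtype) (PF_evP _) (evP_faith Subtype.val_injective) T'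
    h2.le).mono fun x hx f hf h => ?_
  exact congrArg Subtype.val (hx.eq_zero h2.ge (v := ⟨f, hf⟩) fun i hi => h i (h1 hi))

lemma gen_U (P : Submodule K (SS K)) [FiniteDimensional K P] (T : Finset ι)
    (hT : T.card ≤ Fintype.card α * finrank K P) :
    Gen fun x : ι × Par α → K => Onto T fun i => evU P.subtype 0 (sl x i) :=
  gen_interp (evU P.subtype 0) (PF_evU _ _) (evU_faith Subtype.val_injective _) T
    (by rwa [fr_pi])

section Det
variable {A : Type} [CommRing A] [IsDomain A]

/-- determinant of two vectors -/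
def Dt (c c' : A × A) : A := c.1 * c'.2 - c.2 * c'.1

lemma Dt_trans {c x y : A × A} (hc : c ≠ 0) (hx : Dt c x = 0) (hy : Dt c y = 0) : Dt x y = 0 := by
  unfold Dt at *
  by_cases h : c.1 = 0
  · apply mul_left_cancel₀ (show c.2 ≠ 0 from fun h2 => hc (Prod.ext h h2))
    linear_combination x.2 * hy - y.2 * hx
  · apply mul_left_cancel₀ h
    linear_combination x.1 * hy - y.1 * hx

lemma Dt_indep {a b x : A × A} (h : Dt a b ≠ 0) (ha : Dt a x = 0) (hb : Dt b x = 0) : x = 0 := by
  ext1
  · apply mul_left_cancel₀ h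
    unfold Dt at *
    rw [Prod.fst_zero]
    linear_combination b.1 * ha - a.1 * hb
  · apply mul_left_cancel₀ h
    unfold Dt at *
    rw [Prod.snd_zero]
    linear_combination b.2 * ha - a.2 * hb

end Det

/-- the two coordinates -/
noncomputable def cE (E : Submodule K (SS K × SS K)) : Bool → (E →ₗ[K] SS K)
  | true => LinearMap.fst K _ _ ∘ₗ E.subtype
  | false => LinearMap.snd K _ _ ∘ₗ E.subtype

lemma stuck (E : Submodule K (SS K × SS K)) [FiniteDimensional K E] (G : Submodule K (α → E))
    (h : ∀ g ∈ G, ∀ g' ∈ G, ∀ z, evU (cE E true) 0 z g * evU (cE E false) 0 z g' =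
      evU (cE E false) 0 z g * evU (cE E true) 0 z g') :
    finrank K G ≤ finrank K E ∨ ∃ c ∈ E, c ≠ 0 ∧ ∀ g ∈ G, ∀ a, Dt c (g a).1 = 0 := by
  classical
  have h1 : ∀ g ∈ G, ∀ g' ∈ G, ∀ a, Dt (g a).1 (g' a).1 = 0 := by
    intro g hg g' hg' a
    refine poly_zero fun p => ?_
    have := h g hg g' hg' (mkz p fun _ => Pi.single a 1)
    simp [evU_mkz, Pi.single_apply, cE] at this
    simp [Dt, this]
  have h2 : ∀ g ∈ G, ∀ g' ∈ G, ∀ a b, Dt (g a).1 (g' b).1 + Dt (g b).1 (g' a).1 = 0 := by
    intro g hg g' hg' a b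
    refine poly_zero fun p => ?_
    have := h g hg g' hg' (mkz p fun _ => Pi.single a 1 + Pi.single b 1)
    have e1 := congrArg (aeval p) (h1 g hg g' hg' a)
    have e2 := congrArg (aeval p) (h1 g hg g' hg' b)
    simp [evU_mkz, Pi.single_apply, cE, add_mul, Finset.sum_add_distrib] at this
    simp only [Dt, map_sub, map_mul, map_zero, map_add, aeval_eq_eval] at e1 e2 ⊢
    linear_combination this - e1 - e2
  by_cases hc : ∃ g ∈ G, ∃ a b, Dt (g a).1 (g b).1 ≠ 0
  · left
    obtain ⟨g, hg, a, b, hab⟩ := hc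
    refine LinearMap.finrank_le_finrank_of_injective
      (f := LinearMap.proj a ∘ₗ G.subtype) ((injective_iff_map_eq_zero _).2 ?_)
    rintro ⟨g', hg'⟩ h0
    have e0 : g' a = 0 := h0
    have e1 : ∀ c, Dt (g a).1 (g' c).1 = 0 := by
      intro c
      have := h2 g hg g' hg' a c
      rwa [e0, show Dt (g c).1 ((0 : E) : SS K × SS K) = 0 by simp [Dt], add_zero] at this
    have e2 : (g' b).1 = 0 := Dt_indep hab (e1 b) (h1 g hg g' hg' b)
    ext1
    funext c
    refine Subtype.ext (Dt_indep hab (e1 c) ?_)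
    have := h2 g hg g' hg' b c
    rwa [e2, show Dt (g c).1 0 = 0 by simp [Dt], add_zero] at this
  push Not at hc
  by_cases hG : G = ⊥
  · left; rw [hG]; simp
  right
  obtain ⟨g, hg, hg0⟩ := (Submodule.ne_bot_iff _).1 hG
  obtain ⟨a, ha⟩ := Function.ne_iff.1 hg0
  have ha' : (g a).1 ≠ 0 := fun h => ha (Subtype.ext h)
  refine ⟨(g a).1, (g a).2, ha', fun g' hg' b => ?_⟩
  have := h2 g hg g' hg' a b
  rwa [Dt_trans ha' (hc g hg a b) (h1 g hg g' hg' a), add_zero] at this

/-- the two functionals at each point -/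
noncomputable def F2 (E : Submodule K (SS K × SS K)) (x : ι × Par α → K) (ib : ι × Bool) :
    (α → E) →ₗ[K] K := evU (cE E ib.2) 0 (sl x ib.1)

variable [CharP K 2]

theorem gen_E [Finite ι] (j : ℤ) (h1 : 2 * finrank K (Sd K (j - 1)) < finrank K (EE K j))
    (h2 : 2 * finrank K (Sd K (j + 1)) ≤ Fintype.card α) (T : Finset ι)
    (hT : 2 * T.card + finrank K (EE K j) ≤ Fintype.card α * finrank K (EE K j)) :
    Gen fun x : ι × Par α → K => Onto (T ×ˢ Finset.univ) (F2 (EE K j) x) := by
  classical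
  induction T using Finset.induction_on with
  | empty => exact Gen.of_forall fun x y => ⟨0, by simp⟩
  | insert i T hi ih =>
    rw [Finset.card_insert_of_notMem hi] at hT
    have g1 : Gen fun x : ι × Par α → K => ∀ T' : Finset ι,
        finrank K (Sd K (j + 1)) ≤ T'.card →
          ∀ f ∈ Sd K (j + 1), (∀ i ∈ T', aeval (pt (sl x i)) f = 0) → f = 0 :=
      Gen.all fun T' => Gen.imp (gen_vanish _ T')
    have g2 : Gen fun x : ι × Par α → K => ∀ (m : Finset.Icc (-1 : ℤ) j) (T' : Finset ι),
        T'.card ≤ Fintype.card α * finrank K (Sd K m) →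
          Onto T' fun i => evU (Sd K m).subtype 0 (sl x i) :=
      Gen.all fun m => Gen.all fun T' => Gen.imp (gen_U _ T')
    obtain ⟨x, ⟨hx, hv⟩, hu⟩ := (((ih (by omega)).and g1).and g2).exists
    set G := kr (T ×ˢ Finset.univ) (F2 (EE K j) x) with hG
    have hd := fr_le_kr (T ×ˢ Finset.univ) (F2 (EE K j) x)
    rw [fr_pi, Finset.card_product, Finset.card_univ, Fintype.card_bool, ← hG] at hd
    obtain ⟨g, hg, g', hg', z, hz⟩ : ∃ g ∈ G, ∃ g' ∈ G, ∃ z,
        evU (cE (EE K j) true) 0 z g * evU (cE (EE K j) false) 0 z g' ≠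
          evU (cE (EE K j) false) 0 z g * evU (cE (EE K j) true) 0 z g' := by
      by_contra hn
      push Not at hn
      rcases stuck _ G hn with h | ⟨c, hc, hc0, h⟩
      · omega
      obtain ⟨m, hm, e1, e2, he⟩ := stab hc hc0
      obtain ⟨f0, hf0, a1, a2⟩ := he c hc (mul_comm _ _)
      have hm0 : 0 ≤ m := by
        by_contra hm0
        rw [Sd_neg (by omega), Submodule.mem_bot] at hf0
        exact hc0 (Prod.ext (by simp [a1, hf0]) (by simp [a2, hf0]))
      let Z : ι → Prop := fun k => aeval (pt (sl x k)) e1 = 0 ∧ aeval (pt (sl x k)) e2 = 0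
      have c1 := Finset.card_filter_add_card_filter_not (s := T) Z
      have c2 : (T.filter Z).card < finrank K (Sd K (j + 1)) := by
        by_contra c2
        refine hc0 (Prod.ext (hv _ (not_lt.1 c2) _ (EE_deg hc).1 fun k hk => ?_)
          (hv _ (not_lt.1 c2) _ (EE_deg hc).2 fun k hk => ?_))
        · rw [a1, map_mul, (Finset.mem_filter.1 hk).2.1, mul_zero]
        · rw [a2, map_mul, (Finset.mem_filter.1 hk).2.2, mul_zero]
      set T' := T.filter fun k => ¬ Z k
      set G' := kr T' fun i => evU (α := α) (Sd K m).subtype 0 (sl x i)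
      have c3 : finrank K G ≤ finrank K G' := by
        let ν : (α → EE K j) →ₗ[K] (α → SS K × SS K) := (EE K j).subtype.compLeft α
        let μ : (α → Sd K m) →ₗ[K] (α → SS K × SS K) :=
          (((LinearMap.mulRight K e1).prod (LinearMap.mulRight K e2)) ∘ₗ
            (Sd K m).subtype).compLeft α
        have hν : Function.Injective ν := fun a b h =>
          funext fun k => Subtype.ext (congrFun h k)
        rw [← fr_map_inj G ν hν]
        refine le_trans (Submodule.finrank_mono ?_) (Submodule.finrank_map_le μ G')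
        rintro _ ⟨g, hg, rfl⟩
        choose f hf b1 b2 using fun a => he (g a).1 (g a).2 (sub_eq_zero.1 (h g hg a))
        refine ⟨fun a => ⟨f a, hf a⟩, fun k hk => ?_, funext fun a => Prod.ext (b1 a).symm
          (b2 a).symm⟩
        obtain ⟨k1, k2⟩ := Finset.mem_filter.1 hk
        have d1 := hg (k, true) (by simpa using k1)
        have d2 := hg (k, false) (by simpa using k1)
        simp only [F2, evU_apply, cE, LinearMap.comp_apply, Submodule.subtype_apply,
          LinearMap.fst_apply, LinearMap.snd_apply, b1, b2, map_mul, ← mul_assoc,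
          ← Finset.sum_mul] at d1 d2
        rw [evU_apply]
        by_contra h0
        exact k2 ⟨(mul_eq_zero.1 d1).resolve_left h0, (mul_eq_zero.1 d2).resolve_left h0⟩
      have hu' : ∀ T' : Finset ι, T'.card ≤ Fintype.card α * finrank K (Sd K m) →
          Onto T' fun i => evU (Sd K m).subtype 0 (sl x i) :=
        hu ⟨m, Finset.mem_Icc.2 ⟨by omega, by omega⟩⟩
      have c4 : Fintype.card α * finrank K (Sd K m) ≤ Fintype.card α * finrank K (Sd K (j - 1)) :=
        Nat.mul_le_mul_left _ (fr_Sd_mono hm)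
      have c5 : 2 * (Fintype.card α * finrank K (Sd K (j - 1))) + Fintype.card α ≤
          Fintype.card α * finrank K (EE K j) := by nlinarith
      rcases le_total T'.card (Fintype.card α * finrank K (Sd K m)) with c6 | c6
      · have c7 : finrank K G' + T'.card ≤ _ := (hu' T' c6).kr_le
        rw [fr_pi] at c7
        omega
      · obtain ⟨T0, d1, d2⟩ := Finset.exists_subset_card_eq c6
        have c7 : G' = ⊥ := by
          rw [eq_bot_iff]
          intro f hf
          exact (hu' T0 d2.le).eq_zero (by rw [fr_pi]; exact d2.ge) fun k hk => hf k (d1 hk)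
        rw [c7, finrank_bot] at c3
        omega
    let x' : ι × Par α → K := fun p => if p.1 = i then z p.2 else x p
    have e1 : ∀ b, F2 (EE K j) x' (i, b) = evU (cE (EE K j) b) 0 z := by
      intro b
      have : sl x' i = z := by funext c; simp [sl, x']
      rw [F2, this]
    have e2 : ∀ k ∈ T ×ˢ (Finset.univ : Finset Bool), F2 (EE K j) x' k = F2 (EE K j) x k := by
      intro k hk
      have h0 : k.1 ≠ i := by
        rintro rfl
        exact hi (Finset.mem_product.1 hk).1
      have : sl x' k.1 = sl x k.1 := by funext c; simp [sl, x', h0]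
      rw [F2, this, F2]
    have e3 : ∀ w ∈ G, w ∈ kr (T ×ˢ Finset.univ) (F2 (EE K j) x') := fun w hw k hk => by
      rw [e2 k hk]; exact hw k hk
    refine gen_onto _ _ (fun ib v => (PF_evU _ _ v).sl ib.1) x' ?_
    have e4 := hx.mono (Finset.Subset.refl _) e2
    obtain ⟨w, hw, hw0⟩ : ∃ w ∈ G, evU (cE (EE K j) true) 0 z w ≠ 0 := by
      by_cases h : evU (cE (EE K j) true) 0 z g = 0
      · exact ⟨g', hg', fun h' => hz (by rw [h, h']; simp)⟩
      · exact ⟨g, hg, h⟩
    have e5 := e4.insert (i := (i, true)) (e3 w hw) (by rwa [e1])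
    have e6 := e5.insert (i := (i, false))
      (w := evU (cE (EE K j) true) 0 z g • g' - evU (cE (EE K j) true) 0 z g' • g) (by
        intro k hk
        rcases Finset.mem_insert.1 hk with rfl | hk
        · rw [e1, map_sub, map_smul, map_smul, smul_eq_mul, smul_eq_mul]; ring
        · exact e3 _ (G.sub_mem (G.smul_mem _ hg') (G.smul_mem _ hg)) k hk) (by
        rw [e1, map_sub, map_smul, map_smul, smul_eq_mul, smul_eq_mul]
        exact fun h => hz (by linear_combination h))
    refine e6.mono ?_ fun _ _ => rfl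
    rintro ⟨k, b⟩ hk
    rcases Finset.mem_insert.1 (Finset.mem_product.1 hk).1 with rfl | hk
    · cases b <;> simp
    · simp [show k ∈ T from hk]

end Pool.Agent.Lib.MP_a9ad87_al.Two
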