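import Pool.Agent.Lib.MP_a9ad87_al.TwoDim

namespace Pool.Agent.Lib.MP_a9ad87_al.Two

open MvPolynomial Module

lemma prim3 {A : Type} [CommRing A] [IsDomain A] [GCDMonoid A] (u : Fin 3 → A) (i : Fin 3)
    (hu : u i ≠ 0) : ∃ (g : A) (G : Fin 3 → A), (∀ k, u k = g * G k) ∧
      ∀ w : Fin 3 → A, (∀ k, u k * w i = u i * w k) → ∃ f, ∀ k, w k = f * G k := by
  have hg : ∀ k, gcd (u 0) (gcd (u 1) (u 2)) ∣ u k := by
    intro k
    fin_cases k
    · exact gcd_dvd_left _ _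
    · exact (gcd_dvd_right _ _).trans (gcd_dvd_left _ _)
    · exact (gcd_dvd_right _ _).trans (gcd_dvd_right _ _)
  choose G hG using hg
  refine ⟨_, G, hG, fun w hw => ?_⟩
  have h1 : ∀ k, u i ∣ u k * w i := fun k => ⟨w k, hw k⟩
  have h2 : u i ∣ gcd (u 0) (gcd (u 1) (u 2)) * w i :=
    (dvd_gcd (h1 0) ((dvd_gcd (h1 1) (h1 2)).trans (gcd_mul_right' _ _ _).dvd)).trans
      (gcd_mul_right' _ _ _).dvd
  generalize gcd (u 0) (gcd (u 1) (u 2)) = g at hG h2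
  have hg0 : g ≠ 0 := by
    rintro rfl
    exact hu (by rw [hG i, zero_mul])
  rw [hG i, mul_dvd_mul_iff_left hg0] at h2
  obtain ⟨f, hf⟩ := h2
  refine ⟨f, fun k => mul_left_cancel₀ hu ?_⟩
  rw [← hw k, hf, hG k, hG i]
  ring

variable {K : Type} [Field K] [CharP K 2]

lemma EE_syz {j : ℤ} {c : SS K × SS K} (h : c ∈ EE K j) :
    ∃ w ∈ Sd K (j + 1), c.2 * q1 K + c.1 * q2 K + w * q3 K = 0 := by
  obtain ⟨f1, h1, f2, h2, f3, h3, e1, e2⟩ := mem_EE.1 h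
  refine ⟨f1 * q2 K + f2 * q1 K, Submodule.add_mem _ (Sd_mul h1 q2_mem (by ring))
    (Sd_mul h2 q1_mem (by ring)), ?_⟩
  rw [e1, e2]
  linear_combination (f2 * q3 K * q1 K + f3 * q2 K * q1 K + f1 * q3 K * q2 K) * two_zero (K := K)

lemma stab {j : ℤ} {c0 : SS K × SS K} (h0 : c0 ∈ EE K j) (hne : c0 ≠ 0) :
    ∃ m ≤ j - 1, ∃ e1 e2 : SS K, ∀ c ∈ EE K j, c0.1 * c.2 = c0.2 * c.1 →
      ∃ f ∈ Sd K m, c.1 = f * e1 ∧ c.2 = f * e2 := by
  classical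
  let _ : GCDMonoid (SS K) := UniqueFactorizationMonoid.toGCDMonoid _
  obtain ⟨w0, hw0, hs0⟩ := EE_syz h0
  have hdeg : ∀ c ∈ EE K j, ∀ w ∈ Sd K (j + 1), ∀ k, ![c.2, c.1, w] k ∈ Sd K (j + 1) := by
    intro c hc w hw k
    fin_cases k
    exacts [(EE_deg hc).2, (EE_deg hc).1, hw]
  obtain ⟨i, hi, hi2⟩ : ∃ i : Fin 3, ![c0.2, c0.1, w0] i ≠ 0 ∧ i ≠ 2 := by
    by_cases h : c0.2 = 0
    · exact ⟨1, fun h1 => hne (Prod.ext h1 h), by decide⟩
    · exact ⟨0, h, by decide⟩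
  obtain ⟨g, G, hG, hw⟩ := prim3 _ i hi
  have h1 := hdeg c0 h0 w0 hw0
  simp only [hG] at h1
  rw [hG] at hi
  obtain ⟨a, ha⟩ := Sd_fac (h1 i) hi
  have hg0 := left_ne_zero_of_mul hi
  have hG0 := right_ne_zero_of_mul hi
  have h2 : ∀ k, G k ∈ Sd K (j + 1 - a) := fun k =>
    Sd_div (by rw [mul_comm]; exact h1 k) ha hg0 (by ring)
  have a0 : c0.2 = g * G 0 := hG 0
  have a1 : c0.1 = g * G 1 := hG 1
  have a2 : w0 = g * G 2 := hG 2
  have h3 : G 0 * q1 K + G 1 * q2 K + G 2 * q3 K = 0 := by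
    apply mul_left_cancel₀ hg0
    rw [a0, a1, a2] at hs0
    linear_combination hs0
  have h4 : a ≤ j - 1 := by
    by_contra h
    obtain ⟨b0, b1, b2⟩ := no_syz (by omega) (h2 0) (h2 1) (h2 2) h3
    apply hG0
    fin_cases i
    exacts [b0, b1, b2]
  refine ⟨a, h4, G 1, G 0, fun c hc hcc => ?_⟩
  obtain ⟨w, hw1, hs⟩ := EE_syz hc
  obtain ⟨f, hf⟩ := hw ![c.2, c.1, w] (by
    intro k
    fin_cases i
    · fin_cases k
      · rfl
      · exact hcc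
      · change w0 * c.2 = c0.2 * w
        apply mul_right_cancel₀ (q3_ne (K := K))
        linear_combination c.2 * hs0 - c0.2 * hs - q2 K * hcc
    · fin_cases k
      · exact hcc.symm
      · rfl
      · change w0 * c.1 = c0.1 * w
        apply mul_right_cancel₀ (q3_ne (K := K))
        linear_combination c.1 * hs0 - c0.1 * hs + q1 K * hcc
    · exact absurd rfl hi2)
  have h5 := hdeg c hc w hw1 i
  rw [hf] at h5
  exact ⟨f, Sd_div h5 (h2 i) hG0 (by ring), hf 1, hf 0⟩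

end Pool.Agent.Lib.MP_a9ad87_al.Two
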