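import Pool.Agent.Lib.MP_a9ad87_al.TwoRank

namespace Pool.Agent.Lib.MP_a9ad87_al.Two

open MvPolynomial Module

variable {K : Type} [Field K] {α ι : Type} [Fintype α]

lemma gen_C [Infinite K] (j : ℤ) (T : Finset (ι × Fin 4)) (y : ι → Fin (finrank K (Sd K j)))
    (a : ι × Fin 4 → α) (hinj : ∀ p ∈ T, ∀ q ∈ T, y p.1 = y q.1 → a p = a q → p = q) :
    Gen fun x : ι × Par α → K => Onto T fun ir => evU (Sd K j).subtype ir.2 (sl x ir.1) := by
  classical
  obtain ⟨Y, hY⟩ := exists_onto (evP (α := α) (Sd K j).subtype) (evP_faith Subtype.val_injective)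
    (Finset.univ : Finset (Fin (finrank K (Sd K j)))) (by simp)
  refine gen_onto _ _ (fun ir v => (PF_evU _ _ v).sl ir.1)
    (fun p => mkz (pt (Y (y p.1))) (fun r => Pi.single (a (p.1, r)) 1) p.2) fun v => ?_
  choose g hg using fun b : α => hY fun k =>
    if h : ∃ p ∈ T, y p.1 = k ∧ a p = b then v h.choose else 0
  refine ⟨g, fun p hp => ?_⟩
  have h1 : ∃ q ∈ T, y q.1 = y p.1 ∧ a q = a p := ⟨p, hp, rfl, rfl⟩
  have h2 := hg (a p) (y p.1) (Finset.mem_univ _)
  rw [dif_pos h1, hinj _ h1.choose_spec.1 p hp h1.choose_spec.2.1 h1.choose_spec.2.2] at h2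
  refine Eq.trans ?_ h2
  refine (evU_mkz (Sd K j).subtype p.2 (pt (Y (y p.1))) (fun r => Pi.single (a (p.1, r)) 1)
    g).trans ?_
  simp [Pi.single_apply, evP_apply]

/-- the coefficient in the four dimensional algebra -/
def uQ (al : ι → Fin 4 → Bool) (x : ι × Par α → K) (i : ι) (a : α) : Q K :=
  ⟨x (i, .inr (0, a)), if al i 1 then x (i, .inr (1, a)) else 0,
    if al i 2 then x (i, .inr (2, a)) else 0, if al i 3 then x (i, .inr (3, a)) else 0⟩

lemma surj [Fintype ι] (j : ℤ) (al : ι → Fin 4 → Bool) (h0 : ∀ i, al i 0) (h12 : ∀ i, al i 2 = al i 1)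
    (h31 : ∀ i, al i 1 → al i 3) (x : ι × Par α → K)
    (hE : Onto ((Finset.univ.filter fun i => ¬ al i 1) ×ˢ Finset.univ) (F2 (EE K j) x))
    (hL : Onto (Finset.univ.filter fun i => ¬ al i 3) fun i => evU (LL K j).subtype 0 (sl x i))
    (hC : Onto (Finset.univ.filter fun ir : ι × Fin 4 => al ir.1 ir.2)
      fun ir => evU (Sd K j).subtype ir.2 (sl x ir.1)) (y : ι → Q K) :
    ∃ g : α → Q (SS K), (∀ a, g a ∈ TT K j) ∧
      ∀ i, ∑ a, uQ al x i a * Q.map (aeval (pt (sl x i))) (g a) = y i := by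
  obtain ⟨g1, hg1⟩ := hE fun ib => if ib.2 then (y ib.1).b else (y ib.1).c
  obtain ⟨g2, hg2⟩ := hL fun i => (y i).d
  obtain ⟨g0, hg0⟩ := hC fun ir => ![(y ir.1).a,
    (y ir.1).b - ∑ a, (uQ al x ir.1 a).a * aeval (pt (sl x ir.1)) (g1 a).1.1,
    (y ir.1).c - ∑ a, (uQ al x ir.1 a).a * aeval (pt (sl x ir.1)) (g1 a).1.2,
    (y ir.1).d - ∑ a, (uQ al x ir.1 a).a * aeval (pt (sl x ir.1)) (g2 a).1 -
      ∑ a, ((uQ al x ir.1 a).b * aeval (pt (sl x ir.1)) (g1 a).1.2 +
        (uQ al x ir.1 a).c * aeval (pt (sl x ir.1)) (g1 a).1.1)] ir.2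
  refine ⟨fun a => ⟨g0 a, (g1 a).1.1, (g1 a).1.2, g2 a⟩,
    fun a => mem_TT.2 ⟨(g0 a).2, (g1 a).2, (g2 a).2⟩, fun i => ?_⟩
  have k0 : ∀ r, al i r → _ := fun r hr => hg0 (i, r) (by simpa using hr)
  have k1 : ∀ b, ¬ al i 1 → _ := fun b hr => hg1 (i, b) (by simpa using hr)
  have k2 : ¬ al i 3 → _ := fun hr => hg2 i (by simpa using hr)
  simp only [F2, evU_apply, Submodule.subtype_apply] at k0 k1 k2
  ext1
  · rw [Q.sum_a]
    exact k0 0 (h0 i)
  · rw [Q.sum_b]
    simp only [Q.mul_b, Q.map_a, Q.map_b, Finset.sum_add_distrib]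
    by_cases h : al i 1
    · have := k0 1 h
      simp only [uQ, h, if_true, sl] at this ⊢
      rw [this]
      simp
    · have := k1 true h
      simp only [uQ, h, sl] at this ⊢
      simpa [cE] using this
  · rw [Q.sum_c]
    simp only [Q.mul_c, Q.map_a, Q.map_c, Finset.sum_add_distrib]
    by_cases h : al i 1
    · have := k0 2 (by rw [h12, h])
      simp only [uQ, h12, h, if_true, sl] at this ⊢
      rw [this]
      simp
    · have := k1 false h
      simp only [uQ, h12, h, sl] at this ⊢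
      simpa [cE] using this
  · rw [Q.sum_d]
    simp only [Q.mul_d, Q.map_a, Q.map_b, Q.map_c, Q.map_d]
    rw [Finset.sum_add_distrib, Finset.sum_add_distrib]
    by_cases h : al i 3
    · have := k0 3 h
      have e : ∀ a, (uQ al x i a).d = sl x i (.inr (3, a)) := fun a => by simp [uQ, h, sl]
      simp only [e]
      rw [this]
      simp only [Matrix.cons_val]
      ring
    · have := k2 h
      have h1 : ¬ al i 1 := fun h1 => h (h31 i h1)
      simp only [uQ, h12, h, h1, sl] at this ⊢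
      simpa using this

/-- the points, in three classes -/
abbrev Idx (A B C : ℕ) := (Fin A × Fin 4) ⊕ (Fin B × Fin 2) ⊕ Fin C

def alw {A B C : ℕ} : Idx A B C → Fin 4 → Bool
  | .inl _, r => r = 0
  | .inr (.inl _), r => r = 0 ∨ r = 3
  | .inr (.inr _), _ => true

def grp {A B C : ℕ} : Idx A B C → Fin A ⊕ Fin B ⊕ Fin C
  | .inl p => .inl p.1
  | .inr (.inl p) => .inr (.inl p.1)
  | .inr (.inr c) => .inr (.inr c)

def slot {A B C : ℕ} : Idx A B C × Fin 4 → Fin 4
  | (.inl p, _) => p.2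
  | (.inr (.inl p), r) => ![![0, 1], ![2, 3]] p.2 (if r = 0 then 0 else 1)
  | (.inr (.inr _), r) => r

lemma slot_inj {A B C : ℕ} (p q : Idx A B C × Fin 4) (hp : alw p.1 p.2) (hq : alw q.1 q.2)
    (h1 : grp p.1 = grp q.1) (h2 : slot p = slot q) : p = q := by
  have key : ∀ a a' : Fin 2, ∀ r r' : Fin 4, (r = 0 ∨ r = 3) → (r' = 0 ∨ r' = 3) →
      (![![0, 1], ![2, 3]] a (if r = 0 then 0 else 1) : Fin 4) =
        ![![0, 1], ![2, 3]] a' (if r' = 0 then 0 else 1) → a = a' ∧ r = r' := by decide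
  obtain ⟨⟨a, b⟩ | ⟨a, b⟩ | a, r⟩ := p <;> obtain ⟨⟨a', b'⟩ | ⟨a', b'⟩ | a', r'⟩ := q <;>
    simp only [grp, slot, alw, decide_eq_true_eq, reduceCtorEq, Sum.inl.injEq, Sum.inr.injEq]
      at hp hq h1 h2
  · rw [hp, hq, h1, h2]
  · obtain ⟨h3, h4⟩ := key _ _ _ _ hp hq h2
    rw [h1, h3, h4]
  · rw [h1, h2]

theorem exists_config [Infinite K] [CharP K 2] (j d τ : ℕ)
    (he : finrank K (EE K j) = 2 * finrank K (LL K j) + j + 2)
    (hs : finrank K (Sd K j) = finrank K (LL K j) + 2 * j + 2)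
    (h1 : 2 * finrank K (Sd K (j - 1)) < finrank K (EE K j))
    (h2 : finrank K (Sd K (j + 1)) ≤ τ) (h3 : finrank K (EE K j) ≤ τ)
    (h4 : finrank K (Sd K (d + 2)) + finrank K (EE K j) ≤
      τ * (4 * finrank K (LL K j) + 3 * j + 4)) :
    ∃ (w : ℕ) (p : Fin w → Fin 4 → K) (u : Fin w → Fin τ × Fin 4 → Q K),
      (∀ y : Fin w → Q K, ∃ g : Fin τ × Fin 4 → Q (SS K), (∀ a, g a ∈ TT K j) ∧
        ∀ i, ∑ a, u i a * Q.map (aeval (p i)) (g a) = y i) ∧
      ∀ r ∈ TT K d, (∀ i, Q.map (aeval (p i)) r = 0) → r = 0 := by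
  classical
  set e := finrank K (EE K j) with he'
  set l := finrank K (LL K j) with hl'
  obtain ⟨B, hB⟩ : ∃ B, B + e = τ * (j + 2) := ⟨τ * (j + 2) - e, by
    have : τ ≤ τ * (j + 2) := Nat.le_mul_of_pos_right _ (by omega)
    omega⟩
  let I := Idx (τ * l) B (τ * j + e)
  have hc : Fintype.card (Fin τ × Fin 4) = 4 * τ := by simp [mul_comm]
  have c0 : (Finset.univ : Finset I).card = 4 * (τ * l) + 2 * B + (τ * j + e) := by
    simp [I]; ring
  have c1 : (Finset.univ.filter fun i : I => ¬ alw i 1).card = 4 * (τ * l) + 2 * B := by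
    rw [Finset.card_filter, Fintype.sum_sum_type, Fintype.sum_sum_type]
    simp [alw]; ring
  have c3 : (Finset.univ.filter fun i : I => ¬ alw i 3).card = 4 * (τ * l) := by
    rw [Finset.card_filter, Fintype.sum_sum_type, Fintype.sum_sum_type]
    simp [alw]; ring
  obtain ⟨emb⟩ : Nonempty ((Fin (τ * l) ⊕ Fin B ⊕ Fin (τ * j + e)) ↪
      Fin (finrank K (Sd K j)) × Fin τ) :=
    Function.Embedding.nonempty_of_card_le (by simp [hs]; nlinarith)
  have gE := gen_E (α := Fin τ × Fin 4) (K := K) j h1 (by omega)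
    (Finset.univ.filter fun i : I => ¬ alw i 1) (by rw [c1, hc, ← he']; nlinarith)
  have gL := gen_U (α := Fin τ × Fin 4) (LL K j) (Finset.univ.filter fun i : I => ¬ alw i 3)
    (by rw [c3, hc, ← hl']; nlinarith)
  have gC := gen_C (K := K) j (Finset.univ.filter fun ir : I × Fin 4 => alw ir.1 ir.2)
    (fun i => (emb (grp i)).1) (fun ir => ((emb (grp ir.1)).2, slot ir)) (by
      intro p hp q hq a1 a2
      exact slot_inj p q (by simpa using hp) (by simpa using hq)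
        (emb.injective (Prod.ext a1 (congrArg Prod.fst a2))) (congrArg Prod.snd a2))
  have c4 : finrank K (Sd K (d + 2)) ≤ (Finset.univ : Finset I).card := by rw [c0]; nlinarith
  have g0 := gen_vanish (α := Fin τ × Fin 4) (K := K) d (Finset.univ : Finset I)
    ((fr_Sd_mono (by omega)).trans c4)
  have g1 := gen_vanish (α := Fin τ × Fin 4) (K := K) (d + 1) (Finset.univ : Finset I)
    ((fr_Sd_mono (by omega)).trans c4)
  have g2 := gen_vanish (α := Fin τ × Fin 4) (K := K) (d + 2) (Finset.univ : Finset I) c4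
  obtain ⟨x, ⟨⟨⟨⟨xE, xL⟩, xC⟩, x0⟩, x1⟩, x2⟩ :=
    (((((gE.and gL).and gC).and g0).and g1).and g2).exists
  let σ := (Fintype.equivFin I).symm
  refine ⟨_, fun i => pt (sl x (σ i)), fun i => uQ alw x (σ i), fun y => ?_, fun r hr h => ?_⟩
  · obtain ⟨g, k1, k2⟩ := surj j alw (by rintro (_ | _ | _) <;> simp [alw])
      (by rintro (_ | _ | _) <;> simp [alw]) (by rintro (_ | _ | _) <;> simp [alw]) x xE xL xC
      fun i => y (σ.symm i)
    exact ⟨g, k1, fun i => by simpa using k2 (σ i)⟩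
  · obtain ⟨a1, a2, a3⟩ := mem_TT.1 hr
    have h' : ∀ i, Q.map (aeval (pt (sl x i))) r = 0 := fun i => by simpa using h (σ.symm i)
    ext1
    · exact x0 _ a1 fun i _ => congrArg Q.a (h' i)
    · exact x1 _ (EE_deg a2).1 fun i _ => congrArg Q.b (h' i)
    · exact x1 _ (EE_deg a2).2 fun i _ => congrArg Q.c (h' i)
    · exact x2 _ (LL_deg a3) fun i _ => congrArg Q.d (h' i)

end Pool.Agent.Lib.MP_a9ad87_al.Two
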